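import Mathlib

namespace NonMorse

theorem apriori_lt_one {x p : ℝ} (hx : 0 < x) (h : x ^ 3 * (1 - p) = 1) (hp : p < 0) : x < 1 := by
  by_contra hc
  push Not at hc
  have h3 : 1 ≤ x ^ 3 := one_le_pow₀ hc
  nlinarith

theorem apriori_pos {x p : ℝ} (hx : 0 < x) (h : x ^ 3 * (1 - p) = 1) : 0 < 1 - p := by
  have h3 : 0 < x ^ 3 := by positivity
  by_contra hc
  push Not at hc
  nlinarith

theorem apriori_one_lt {x p : ℝ} (hx : 0 < x) (h : x ^ 3 * (1 - p) = 1) (hp : 0 < p) : 1 < x := by
  have h1 := apriori_pos hx h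
  by_contra hc
  push Not at hc
  have h3 : x ^ 3 ≤ 1 := pow_le_one₀ hx.le hc
  nlinarith

theorem apriori_le {x p r : ℝ} (hx : 0 < x) (h : x ^ 3 * (1 - p) = 1) (hr : 0 < r)
    (hxr : x ≤ 1 + r) : p ≤ 3 * r := by
  have h1 := apriori_pos hx h
  by_contra hc
  push Not at hc
  have h3 : x ^ 3 ≤ (1 + r) ^ 3 := pow_le_pow_left₀ hx.le hxr 3
  have h4 : 1 ≤ (1 + r) ^ 3 * (1 - p) :=
    h.symm.le.trans (mul_le_mul_of_nonneg_right h3 h1.le)
  have h5 : (1 + r) ^ 3 * (1 - p) < (1 + r) ^ 3 * (1 - 3 * r) := by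
    apply mul_lt_mul_of_pos_left _ (by positivity)
    linarith
  have h6 : (1 + r) ^ 3 * (1 - 3 * r) = 1 - 6 * r ^ 2 - 8 * r ^ 3 - 3 * r ^ 4 := by ring
  have h7 : 0 < r ^ 2 := by positivity
  have h8 : 0 < r ^ 3 := by positivity
  have h9 : 0 < r ^ 4 := by positivity
  linarith

/-- estimates for a third body -/
theorem apriori_sub {α β r zk x y : ℝ} (hα : 0 < α) (hβ : 0 < β) (hβα : β ≤ α) (hr : 0 < r)
    (hz : zk ≠ 0) (hx : 0 < x) (hy : 0 < y) (hx3 : x ^ 3 * (1 - α * zk) = 1)
    (hy3 : y ^ 3 * (1 - (-β) * zk) = 1) (h1 : y ≤ r + x) (h2 : x ≤ r + y) :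
    -zk * β ≤ 3 * r ∧ zk * (x ^ 2 - y ^ 2) * β ≤ 3 * r * (r * (2 + r)) := by
  rcases lt_or_gt_of_ne hz with hz | hz
  · have hx1 : x < 1 := apriori_lt_one hx hx3 (mul_neg_of_pos_of_neg hα hz)
    have hp : 0 < -β * zk := by nlinarith
    have hy1 : 1 < y := apriori_one_lt hy hy3 hp
    have hb : -β * zk ≤ 3 * r := apriori_le hy hy3 hr (by linarith)
    refine ⟨by linarith, ?_⟩
    have e1 : y ^ 2 - x ^ 2 ≤ r * (2 + r) := by
      have : y ^ 2 - x ^ 2 = (y - x) * (y + x) := by ring
      rw [this]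
      have a1 : y - x ≤ r := by linarith
      have a2 : y + x ≤ 2 + r := by linarith
      have a3 : 0 ≤ y - x := by linarith
      exact mul_le_mul a1 a2 (by linarith) hr.le
    have e2 : 0 ≤ y ^ 2 - x ^ 2 := by nlinarith
    calc zk * (x ^ 2 - y ^ 2) * β = (-β * zk) * (y ^ 2 - x ^ 2) := by ring
      _ ≤ 3 * r * (r * (2 + r)) := mul_le_mul hb e1 e2 (by positivity)
  · have hy1 : y < 1 := apriori_lt_one hy hy3 (by nlinarith)
    have hp : 0 < α * zk := by positivity
    have hx1 : 1 < x := apriori_one_lt hx hx3 hp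
    have hb : α * zk ≤ 3 * r := apriori_le hx hx3 hr (by linarith)
    refine ⟨by nlinarith, ?_⟩
    have e1 : x ^ 2 - y ^ 2 ≤ r * (2 + r) := by
      have : x ^ 2 - y ^ 2 = (x - y) * (x + y) := by ring
      rw [this]
      have a1 : x - y ≤ r := by linarith
      have a2 : x + y ≤ 2 + r := by linarith
      have a3 : 0 ≤ x - y := by linarith
      exact mul_le_mul a1 a2 (by linarith) hr.le
    have e2 : 0 ≤ x ^ 2 - y ^ 2 := by nlinarith
    have hb2 : β * zk ≤ 3 * r := by nlinarith
    calc zk * (x ^ 2 - y ^ 2) * β = (β * zk) * (x ^ 2 - y ^ 2) := by ring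
      _ ≤ 3 * r * (r * (2 + r)) := mul_le_mul hb2 e1 e2 (by positivity)

/-- the numerical contradiction -/
theorem apriori_num {μ α β r mi mj S : ℝ} (hμ1 : 53 / 10 ≤ μ) (hμ2 : μ ≤ 54 / 10) (hα : 9 ≤ α)
    (hβ : 0 < β) (hβα : β ≤ α) (hr : 0 < r) (hr3 : r ^ 3 * (1 + α * β) = 1)
    (hm : (mi = 1 ∧ mj = 1 ∧ S = μ + 1) ∨ (mi = 1 ∧ mj = μ ∧ S = 2) ∨
      (mi = μ ∧ mj = 1 ∧ S = 2))
    (h1 : mi * α ≤ (mj + S) * β) (h2 : mi * α * β ≤ mj * β ^ 2 + S * (3 * r))
    (h3 : (mi * α + mj * β) * β ≤ 3 * (2 + r) * S) : False := by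
  have key : 121 / 100 ≤ β → r < 44 / 100 := by
    intro hb
    by_contra hc
    push Not at hc
    have e1 : (44 / 100 : ℝ) ^ 3 ≤ r ^ 3 := pow_le_pow_left₀ (by norm_num) hc 3
    have e2 : 9 * (121 / 100) ≤ α * β := mul_le_mul hα hb (by norm_num) (by linarith)
    nlinarith
  rcases hm with ⟨rfl, rfl, rfl⟩ | ⟨rfl, rfl, rfl⟩ | ⟨rfl, rfl, rfl⟩
  · have hb : 121 / 100 ≤ β := by nlinarith
    have hr' := key hb
    have h3' : (9 + β) * β ≤ 3 * (244 / 100) * (64 / 10) := by
      have a1 : (9 + β) * β ≤ (1 * α + 1 * β) * β := by nlinarith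
      have a2 : 3 * (2 + r) * (μ + 1) ≤ 3 * (244 / 100) * (64 / 10) := by
        apply mul_le_mul _ _ (by linarith) (by norm_num)
        · linarith
        · linarith
      linarith
    have hb2 : β ≤ 37 / 10 := by nlinarith
    have h2' : 9 * β ≤ β ^ 2 + (64 / 10) * (3 * (44 / 100)) := by
      have a1 : (μ + 1) * (3 * r) ≤ (64 / 10) * (3 * (44 / 100)) := by
        apply mul_le_mul _ _ (by positivity) (by norm_num)
        · linarith
        · linarith
      nlinarith
    nlinarith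
  · have hb : 121 / 100 ≤ β := by nlinarith
    have hr' := key hb
    have h3' : (9 + 53 / 10 * β) * β ≤ 3 * (244 / 100) * 2 := by
      have a1 : (9 + 53 / 10 * β) * β ≤ (1 * α + mj * β) * β := by
        apply mul_le_mul_of_nonneg_right _ hβ.le
        nlinarith
      linarith
    nlinarith
  · nlinarith

theorem apriori_fin4 (i j : Fin 4) (hij : i ≠ j) : ∃ k l : Fin 4, k ≠ i ∧ k ≠ j ∧ l ≠ i ∧ l ≠ j ∧
    k ≠ l ∧ ∀ f : Fin 4 → ℝ, ∑ a, f a = f i + f j + f k + f l := by
  fin_cases i <;> fin_cases j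
  · exact absurd rfl hij
  · exact ⟨2, 3, by decide, by decide, by decide, by decide, by decide,
      fun f => by rw [Fin.sum_univ_four]; simp; try ring⟩
  · exact ⟨1, 3, by decide, by decide, by decide, by decide, by decide,
      fun f => by rw [Fin.sum_univ_four]; simp; try ring⟩
  · exact ⟨1, 2, by decide, by decide, by decide, by decide, by decide,
      fun f => by rw [Fin.sum_univ_four]; simp; try ring⟩
  · exact ⟨2, 3, by decide, by decide, by decide, by decide, by decide,
      fun f => by rw [Fin.sum_univ_four]; simp; try ring⟩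
  · exact absurd rfl hij
  · exact ⟨0, 3, by decide, by decide, by decide, by decide, by decide,
      fun f => by rw [Fin.sum_univ_four]; simp; try ring⟩
  · exact ⟨0, 2, by decide, by decide, by decide, by decide, by decide,
      fun f => by rw [Fin.sum_univ_four]; simp; try ring⟩
  · exact ⟨1, 3, by decide, by decide, by decide, by decide, by decide,
      fun f => by rw [Fin.sum_univ_four]; simp; try ring⟩
  · exact ⟨0, 3, by decide, by decide, by decide, by decide, by decide,
      fun f => by rw [Fin.sum_univ_four]; simp; try ring⟩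
  · exact absurd rfl hij
  · exact ⟨0, 1, by decide, by decide, by decide, by decide, by decide,
      fun f => by rw [Fin.sum_univ_four]; simp; try ring⟩
  · exact ⟨1, 2, by decide, by decide, by decide, by decide, by decide,
      fun f => by rw [Fin.sum_univ_four]; simp; try ring⟩
  · exact ⟨0, 2, by decide, by decide, by decide, by decide, by decide,
      fun f => by rw [Fin.sum_univ_four]; simp; try ring⟩
  · exact ⟨0, 1, by decide, by decide, by decide, by decide, by decide,
      fun f => by rw [Fin.sum_univ_four]; simp; try ring⟩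
  · exact absurd rfl hij

theorem apriori_side (μ : ℝ) (hμ1 : 53 / 10 ≤ μ) (hμ2 : μ ≤ 54 / 10) (z : Fin 4 → ℝ)
    (r : Fin 4 → Fin 4 → ℝ) (hsym : ∀ a b, r a b = r b a)
    (hr : ∀ a b, a ≠ b → 0 < r a b ∧ r a b ^ 3 * (1 - z a * z b) = 1)
    (htri : ∀ a b c, a ≠ b → b ≠ c → a ≠ c → r a c ≤ r a b + r b c)
    (hz0 : ∀ a, z a ≠ 0)
    (hz : ∑ a, (![1, 1, μ, 1] : Fin 4 → ℝ) a * z a = 0)
    (hT : ∃ c, ∀ a, ∑ b ∈ Finset.univ.erase a,
      (![1, 1, μ, 1] : Fin 4 → ℝ) b * z b * r a b ^ 2 = c)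
    (i j : Fin 4) (hi : ∀ a, z a ≤ z i) (hj : ∀ a, z j ≤ z a) (hij : - z j ≤ z i) : z i < 9 := by
  by_contra hcon
  push Not at hcon
  set m : Fin 4 → ℝ := ![1, 1, μ, 1] with hm
  have hmpos : ∀ a, 0 < m a := by
    intro a
    fin_cases a
    · simp [hm]
    · simp [hm]
    · simp [hm]; linarith
    · simp [hm]
  have hne : i ≠ j := by
    rintro rfl
    have hall : ∀ a, z a = z i := fun a => le_antisymm (hi a) (hj a)
    have : ∑ a, m a * z a = (∑ a, m a) * z i := by
      rw [Finset.sum_mul]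
      exact Finset.sum_congr rfl fun a _ => by rw [hall a]
    rw [this] at hz
    have hs : 0 < ∑ a, m a := Finset.sum_pos (fun a _ => hmpos a) ⟨0, Finset.mem_univ _⟩
    have : 0 < (∑ a, m a) * z i := mul_pos hs (by linarith)
    linarith
  obtain ⟨k, l, hki, hkj, hli, hlj, hkl, hsum⟩ := apriori_fin4 i j hne
  have hz' := hz
  rw [hsum] at hz'
  have hmi := hmpos i
  have hmj := hmpos j
  have hmk := hmpos k
  have hml := hmpos l
  have hzj : z j < 0 := by
    by_contra hc
    push Not at hc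
    have a1 : 0 ≤ z k := hc.trans (hj k)
    have a2 : 0 ≤ z l := hc.trans (hj l)
    have b1 := mul_nonneg hmk.le a1
    have b2 := mul_nonneg hml.le a2
    have b3 := mul_nonneg hmj.le hc
    have b4 : 0 < m i * z i := mul_pos hmi (by linarith)
    linarith
  obtain ⟨c, hc⟩ := hT
  have hT' : ∀ a, ∑ b, m b * z b * r a b ^ 2 - m a * z a * r a a ^ 2 = c := by
    intro a
    rw [← hc a, Finset.sum_erase_eq_sub (Finset.mem_univ a)]
  have hTi := hT' i
  have hTj := hT' j
  rw [hsum] at hTi hTj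
  rw [hsym j i] at hTj
  obtain ⟨hr0, hr3⟩ := hr i j hne
  obtain ⟨hik0, hik3⟩ := hr i k hki.symm
  obtain ⟨hjk0, hjk3⟩ := hr j k hkj.symm
  obtain ⟨hil0, hil3⟩ := hr i l hli.symm
  obtain ⟨hjl0, hjl3⟩ := hr j l hlj.symm
  have tk1 : r j k ≤ r i j + r i k := by
    have := htri j i k hne.symm hki.symm hkj.symm
    rw [hsym j i] at this
    exact this
  have tk2 : r i k ≤ r i j + r j k := htri i j k hne hkj.symm hki.symm
  have tl1 : r j l ≤ r i j + r i l := by
    have := htri j i l hne.symm hli.symm hlj.symm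
    rw [hsym j i] at this
    exact this
  have tl2 : r i l ≤ r i j + r j l := htri i j l hne hlj.symm hli.symm
  set α := z i with hα
  set β := - z j with hβ
  have hzj' : z j = -β := by rw [hβ]; ring
  have hβ0 : 0 < β := by linarith
  rw [hzj'] at hr3 hjk3 hjl3 hz' hTi hTj
  obtain ⟨k1, k2⟩ := apriori_sub (by linarith : 0 < α) hβ0 hij hr0 (hz0 k) hik0 hjk0 hik3 hjk3
    tk1 tk2
  obtain ⟨l1, l2⟩ := apriori_sub (by linarith : 0 < α) hβ0 hij hr0 (hz0 l) hil0 hjl0 hil3 hjl3
    tl1 tl2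
  have hmass : m i + m j + m k + m l = μ + 3 := by
    rw [← hsum m, Fin.sum_univ_four]
    simp [hm]
    ring
  have hcases : (m i = 1 ∧ m j = 1 ∧ m k + m l = μ + 1) ∨
      (m i = 1 ∧ m j = μ ∧ m k + m l = 2) ∨ (m i = μ ∧ m j = 1 ∧ m k + m l = 2) := by
    have hone : ∀ a : Fin 4, a ≠ 2 → m a = 1 := by
      intro a ha
      fin_cases a
      · simp [hm]
      · simp [hm]
      · exact absurd rfl ha
      · simp [hm]
    have htwo : m 2 = μ := by simp [hm]
    by_cases h2i : i = 2
    · right; right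
      have h2j : j ≠ 2 := fun h => hne (by rw [h2i, h])
      have e1 : m i = μ := by rw [h2i]; exact htwo
      have e2 := hone j h2j
      exact ⟨e1, e2, by linarith⟩
    · by_cases h2j : j = 2
      · right; left
        have e1 : m j = μ := by rw [h2j]; exact htwo
        have e2 := hone i h2i
        exact ⟨e2, e1, by linarith⟩
      · left
        have e1 := hone i h2i
        have e2 := hone j h2j
        exact ⟨e1, e2, by linarith⟩
  refine apriori_num hμ1 hμ2 hcon hβ0 hij hr0 ?_ hcases ?_ ?_ ?_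
  · have e : r i j ^ 3 * (1 + α * β) = r i j ^ 3 * (1 - α * -β) := by ring
    exact e.trans hr3
  · have a1 := mul_le_mul_of_nonneg_left (hj k) hmk.le
    have a2 := mul_le_mul_of_nonneg_left (hj l) hml.le
    rw [hzj'] at a1 a2
    nlinarith
  · have a1 := mul_le_mul_of_nonneg_left k1 hmk.le
    have a2 := mul_le_mul_of_nonneg_left l1 hml.le
    have a3 : m i * α = m j * β - m k * z k - m l * z l := by linarith
    rw [a3]
    nlinarith
  · have a1 := mul_le_mul_of_nonneg_left k2 hmk.le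
    have a2 := mul_le_mul_of_nonneg_left l2 hml.le
    have e : (m i * α + m j * β) * r i j ^ 2 =
        m k * (z k * (r i k ^ 2 - r j k ^ 2)) + m l * (z l * (r i l ^ 2 - r j l ^ 2)) := by
      linarith
    have e2 : ((m i * α + m j * β) * β) * r i j ^ 2 ≤
        (3 * (2 + r i j) * (m k + m l)) * r i j ^ 2 := by
      calc ((m i * α + m j * β) * β) * r i j ^ 2 = ((m i * α + m j * β) * r i j ^ 2) * β := by ring
        _ = m k * (z k * (r i k ^ 2 - r j k ^ 2) * β) + m l * (z l * (r i l ^ 2 - r j l ^ 2) * β) := by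
          rw [e]; ring
        _ ≤ m k * (3 * r i j * (r i j * (2 + r i j))) + m l * (3 * r i j * (r i j * (2 + r i j))) :=
          add_le_add a1 a2
        _ = _ := by ring
    exact le_of_mul_le_mul_right e2 (by positivity)

/-- TARGET -/
theorem apriori (μ : ℝ) (hμ1 : 53 / 10 ≤ μ) (hμ2 : μ ≤ 54 / 10) (z : Fin 4 → ℝ)
    (r : Fin 4 → Fin 4 → ℝ) (hsym : ∀ a b, r a b = r b a)
    (hr : ∀ a b, a ≠ b → 0 < r a b ∧ r a b ^ 3 * (1 - z a * z b) = 1)
    (htri : ∀ a b c, a ≠ b → b ≠ c → a ≠ c → r a c ≤ r a b + r b c)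
    (hz0 : ∀ a, z a ≠ 0)
    (hz : ∑ a, (![1, 1, μ, 1] : Fin 4 → ℝ) a * z a = 0)
    (hT : ∃ c, ∀ a, ∑ b ∈ Finset.univ.erase a,
      (![1, 1, μ, 1] : Fin 4 → ℝ) b * z b * r a b ^ 2 = c) :
    (∀ a b, a ≠ b → z a * z b ≤ 7 / 8) ∧ ∀ a, |z a| < 9 := by
  have hmpos : ∀ a, 0 < (![1, 1, μ, 1] : Fin 4 → ℝ) a := by
    intro a
    fin_cases a
    · simp
    · simp
    · simp; linarith
    · simp
  constructor
  · intro a b hab
    by_contra hcon
    push Not at hcon
    have hpos : 0 < z a * z b := by linarith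
    have hex : ∃ c, z a * z c < 0 := by
      by_contra hno
      push Not at hno
      have hs : ∑ c, (![1, 1, μ, 1] : Fin 4 → ℝ) c * (z a * z c) = 0 := by
        have : ∑ c, (![1, 1, μ, 1] : Fin 4 → ℝ) c * (z a * z c) =
            z a * ∑ c, (![1, 1, μ, 1] : Fin 4 → ℝ) c * z c := by
          rw [Finset.mul_sum]
          exact Finset.sum_congr rfl fun c _ => by ring
        rw [this, hz, mul_zero]
      have h0 := (Finset.sum_eq_zero_iff_of_nonneg
        (fun c _ => mul_nonneg (hmpos c).le (hno c))).1 hs a (Finset.mem_univ a)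
      have : 0 < z a * z a := mul_self_pos.2 (hz0 a)
      have := mul_pos (hmpos a) this
      linarith
    obtain ⟨c, hc⟩ := hex
    have hca : c ≠ a := by
      rintro rfl
      nlinarith [mul_self_nonneg (z c)]
    have hcb : c ≠ b := by
      rintro rfl
      linarith
    have hbc : z c * z b < 0 := by
      by_contra h
      push Not at h
      have h1 : (z a * z b) * (z a * z c) < 0 := mul_neg_of_pos_of_neg hpos hc
      have h2 : (z a * z b) * (z a * z c) = (z a) ^ 2 * (z c * z b) := by ring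
      have h3 : 0 ≤ (z a) ^ 2 * (z c * z b) := by positivity
      linarith
    obtain ⟨p1, q1⟩ := hr a c hca.symm
    obtain ⟨p2, q2⟩ := hr c b hcb
    obtain ⟨p3, q3⟩ := hr a b hab
    have r1 := apriori_lt_one p1 q1 hc
    have r2 := apriori_lt_one p2 q2 hbc
    have r3 := htri a c b hca.symm hcb hab
    have r4 : r a b ^ 3 ≤ 2 ^ 3 := pow_le_pow_left₀ p3.le (by linarith) 3
    have r5 := apriori_pos p3 q3
    nlinarith
  · intro a
    obtain ⟨i, -, hi⟩ := Finset.exists_max_image Finset.univ z ⟨a, Finset.mem_univ a⟩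
    obtain ⟨j, -, hj⟩ := Finset.exists_min_image Finset.univ z ⟨a, Finset.mem_univ a⟩
    have hi' : ∀ b, z b ≤ z i := fun b => hi b (Finset.mem_univ b)
    have hj' : ∀ b, z j ≤ z b := fun b => hj b (Finset.mem_univ b)
    rw [abs_lt]
    rcases le_total (- z j) (z i) with h | h
    · have h9 := apriori_side μ hμ1 hμ2 z r hsym hr htri hz0 hz hT i j hi' hj' h
      have := hi' a
      have := hj' a
      constructor <;> linarith
    · have h9 := apriori_side μ hμ1 hμ2 (fun a => - z a) r hsym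
        (fun a b hab => by
          obtain ⟨p, q⟩ := hr a b hab
          refine ⟨p, ?_⟩
          rw [neg_mul_neg]
          exact q) htri (fun a => neg_ne_zero.2 (hz0 a))
        (by
          simp only [mul_neg, Finset.sum_neg_distrib, hz, neg_zero])
        (by
          obtain ⟨c, hc⟩ := hT
          refine ⟨-c, fun a => ?_⟩
          rw [← hc a, ← Finset.sum_neg_distrib]
          exact Finset.sum_congr rfl fun b _ => by ring)
        j i (fun b => neg_le_neg (hj' b)) (fun b => neg_le_neg (hi' b)) (by simpa using h)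
      have := hi' a
      have := hj' a
      constructor <;> linarith

end NonMorse
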