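import Pool.Agent.Helper342.Alg.BBSound

/-!
# Soundness of the branch-and-bound checker, main theorem
-/

namespace NonMorse.BB

open Ix

theorem neB_iff (i j : Ix) : neB i j = true ↔ i ≠ j := by
  cases i <;> cases j <;> decide

theorem dist4_iff {i j k l : Ix} (h : dist4 i j k l = true) :
    i ≠ j ∧ i ≠ k ∧ i ≠ l ∧ j ≠ k ∧ j ≠ l ∧ k ≠ l := by
  simp only [dist4, Bool.and_eq_true, neB_iff] at h
  tauto

structure Cfg where
  ν : ℝ
  z : Ix → ℝ
  r : Ix → Ix → ℝ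
  ζ : Ix → ℝ

/-- `m_i z_i` for masses `(1,1,1/ν,1)` -/
def Cfg.y (c : Cfg) : Ix → ℝ
  | i0 => c.z i0
  | i1 => c.z i1
  | i2 => -(c.z i0 + c.z i1 + c.z i3)
  | i3 => c.z i3

def Cfg.η (c : Cfg) : Ix → ℝ
  | i0 => c.ζ i0
  | i1 => c.ζ i1
  | i2 => -(c.ζ i0 + c.ζ i1 + c.ζ i3)
  | i3 => c.ζ i3

noncomputable def Cfg.sp (c : Cfg) (i j : Ix) : ℝ := 2 / 3 * c.r i j ^ 5

noncomputable def Cfg.cc (c : Cfg) (i j : Ix) : ℝ := c.r i j ^ 2 + c.z i * c.z j * c.sp i j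

noncomputable def Cfg.d (c : Cfg) (i j k l : Ix) : ℝ :=
  c.y j * c.z j * c.sp i j + (c.y k * c.z k * c.sp i k + c.y l * c.z l * c.sp i l)

noncomputable def Cfg.DT (c : Cfg) (i j k l : Ix) : ℝ :=
  c.η j * c.cc i j + c.η k * c.cc i k + c.η l * c.cc i l + c.ζ i * c.d i j k l

structure Good (c : Cfg) : Prop where
  hν1 : (nul : ℝ) ≤ 65536 * c.ν
  hν2 : 65536 * c.ν ≤ nuh
  hz2 : c.z i2 = c.ν * c.y i2
  hζ2 : c.ζ i2 = c.ν * c.η i2
  sym : ∀ i j, c.r i j = c.r j i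
  hr : ∀ i j, i ≠ j → 0 < c.r i j ∧ c.r i j ^ 3 * (1 - c.z i * c.z j) = 1 ∧
    c.z i * c.z j ≤ 7 / 8
  hT : ∀ i j k l, i ≠ j → i ≠ k → i ≠ l → j ≠ k → j ≠ l → k ≠ l →
    c.y j * c.r i j ^ 2 + c.y k * c.r i k ^ 2 + c.y l * c.r i l ^ 2 =
      c.y i * c.r i j ^ 2 + c.y k * c.r j k ^ 2 + c.y l * c.r j l ^ 2
  hD0 : c.DT i0 i1 i2 i3 = c.DT i2 i0 i1 i3
  hD1 : c.DT i1 i0 i2 i3 = c.DT i2 i0 i1 i3
  hD3 : c.DT i3 i0 i1 i2 = c.DT i2 i0 i1 i3
  ord1 : c.z i0 ≤ c.z i1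
  ord2 : c.z i1 ≤ c.z i3
  pos : 0 ≤ c.y i2

def Box.has (B : Box) (c : Cfg) : Prop :=
  B.z0.has (65536 * c.z i0) ∧ B.z1.has (65536 * c.z i1) ∧ B.z3.has (65536 * c.z i3)

variable {c : Cfg} {B : Box}

theorem has_yI (hB : B.has c) (i : Ix) : (yI B i).has (65536 * c.y i) := by
  obtain ⟨h0, h1, h3⟩ := hB
  cases i
  · exact h0
  · exact h1
  · simp only [yI, y2I, Cfg.y]
    constructor
    · push_cast; linarith [h0.2, h1.2, h3.2]
    · push_cast; linarith [h0.1, h1.1, h3.1]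
  · exact h3

theorem has_zI (hG : Good c) (hB : B.has c) (i : Ix) : (zI B i).has (65536 * c.z i) := by
  cases i
  · exact hB.1
  · exact hB.2.1
  · have h2 := has_yI hB i2
    have h3 := has_mulnu hG.hν1 hG.hν2 h2
    have e : 65536 * c.ν * (65536 * c.y i2) / 65536 = 65536 * c.z i2 := by rw [hG.hz2]; ring
    rw [e] at h3
    exact h3
  · exact hB.2.2

theorem has_pI (hG : Good c) (hB : B.has c) (i j : Ix) :
    (pI B i j).has (4294967296 * (c.z i * c.z j)) := by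
  have h := has_mul (has_zI hG hB i) (has_zI hG hB j)
  have e : 65536 * c.z i * (65536 * c.z j) = 4294967296 * (c.z i * c.z j) := by ring
  rw [e] at h
  exact h

theorem has_x (hG : Good c) (hB : B.has c) {i j : Ix} (hij : i ≠ j) :
    (xOf (pI B i j)).has (4294967296 - 4294967296 * (c.z i * c.z j)) := by
  apply has_xOf (has_pI hG hB i j)
  have := (hG.hr i j hij).2.2
  linarith

theorem rel (hG : Good c) {i j : Ix} (hij : i ≠ j) :
    Rel (65536 * c.r i j ^ 2) (4294967296 - 4294967296 * (c.z i * c.z j)) := by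
  obtain ⟨h1, h2, h3⟩ := hG.hr i j hij
  refine ⟨by positivity, by linarith, ?_⟩
  have e : (65536 * c.r i j ^ 2) ^ 3 * (4294967296 - 4294967296 * (c.z i * c.z j)) ^ 2 =
      65536 ^ 7 * (c.r i j ^ 3 * (1 - c.z i * c.z j)) ^ 2 := by ring
  rw [e, h2]; ring

theorem has_sI (hG : Good c) (hB : B.has c) {i j : Ix} (hij : i ≠ j) :
    (sI B i j).has (65536 * c.r i j ^ 2) :=
  has_sOf (rel hG hij) (has_x hG hB hij)

theorem has_spI (hG : Good c) (hB : B.has c) {i j : Ix} (hij : i ≠ j) :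
    (spI B i j).has (65536 * c.sp i j) := by
  obtain ⟨h1, h2, h3⟩ := hG.hr i j hij
  have h := has_spOf (rel hG hij).1 (has_x hG hB hij) (has_sI hG hB hij) (xOf_pos _)
    (sOf_nonneg _)
  have e : 2 * (65536 * c.r i j ^ 2) * 4294967296 /
      (3 * (4294967296 - 4294967296 * (c.z i * c.z j))) = 65536 * c.sp i j := by
    have h4 : 1 - c.z i * c.z j ≠ 0 := by
      intro h0; rw [h0] at h2; simp at h2
    have h5 : (4294967296 - 4294967296 * (c.z i * c.z j)) = 4294967296 * (1 - c.z i * c.z j) := by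
      ring
    rw [h5, Cfg.sp]
    have h6 : (1 - c.z i * c.z j) = 1 / c.r i j ^ 3 := by
      field_simp; linarith
    rw [h6]; field_simp
  rw [e] at h
  exact h

theorem has_ccI (hG : Good c) (hB : B.has c) {i j : Ix} (hij : i ≠ j) :
    (ccI B i j).has (65536 * c.cc i j) := by
  obtain ⟨h1, h2, h3⟩ := hG.hr i j hij
  have h := has_ccOf (rel hG hij).1 (has_x hG hB hij) (has_sI hG hB hij) (xOf_pos _)
    (sOf_nonneg _)
  have e : (65536 * c.r i j ^ 2) * (2 * 4294967296 +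
      (4294967296 - 4294967296 * (c.z i * c.z j))) /
      (3 * (4294967296 - 4294967296 * (c.z i * c.z j))) = 65536 * c.cc i j := by
    have h6 : c.z i * c.z j = 1 - 1 / c.r i j ^ 3 := by
      have : c.r i j ^ 3 ≠ 0 := by positivity
      field_simp
      linarith
    rw [Cfg.cc, Cfg.sp, h6]; field_simp; ring
  rw [e] at h
  exact h

theorem yz_nonneg (hG : Good c) (i : Ix) : 0 ≤ c.y i * c.z i := by
  cases i
  · exact mul_self_nonneg _
  · exact mul_self_nonneg _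
  · rw [hG.hz2]
    have hν : 0 ≤ c.ν := by
      have h1 := hG.hν1
      have h2 : (0:ℝ) ≤ nul := by unfold nul; norm_num
      linarith
    have : c.y i2 * (c.ν * c.y i2) = c.ν * (c.y i2 * c.y i2) := by ring
    rw [this]
    exact mul_nonneg hν (mul_self_nonneg _)
  · exact mul_self_nonneg _

theorem has_yzI (hG : Good c) (hB : B.has c) (i : Ix) :
    (yzI B i).has (4294967296 * (c.y i * c.z i)) := by
  have h := has_mul (has_yI hB i) (has_zI hG hB i)
  have e : 65536 * c.y i * (65536 * c.z i) = 4294967296 * (c.y i * c.z i) := by ring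
  rw [e] at h
  constructor
  · simp only [yzI, imax_eq]; push_cast
    exact max_le (by have := yz_nonneg hG i; positivity) h.1
  · exact h.2

theorem has_shrink {a : Iv} {x : ℝ} (h : a.has (4294967296 * x)) : (shrink a).has x := by
  constructor
  · simp only [shrink]
    refine (fdiv_le _ _ (by norm_num [K2])).trans ?_
    rw [div_le_iff₀ (by norm_num [K2])]
    have := h.1
    push_cast [K2]; linarith
  · simp only [shrink]
    refine le_trans ?_ (le_cdiv _ _ (by norm_num [K2]))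
    rw [le_div_iff₀ (by norm_num [K2])]
    have := h.2
    push_cast [K2]; linarith

theorem has_dI (hG : Good c) (hB : B.has c) {i j k l : Ix} (hij : i ≠ j) (hik : i ≠ k)
    (hil : i ≠ l) : (dI B i j k l).has (65536 * c.d i j k l) := by
  apply has_shrink
  have h1 := has_mul (has_yzI hG hB j) (has_spI hG hB hij)
  have h2 := has_mul (has_yzI hG hB k) (has_spI hG hB hik)
  have h3 := has_mul (has_yzI hG hB l) (has_spI hG hB hil)
  have h := has_add h1 (has_add h2 h3)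
  have e : 4294967296 * (65536 * c.d i j k l) =
    4294967296 * (c.y j * c.z j) * (65536 * c.sp i j) +
    (4294967296 * (c.y k * c.z k) * (65536 * c.sp i k) +
    4294967296 * (c.y l * c.z l) * (65536 * c.sp i l)) := by
    rw [Cfg.d]; ring
  rw [e]
  exact h

theorem has_eI (hG : Good c) (hB : B.has c) {i j k l : Ix} (hij : i ≠ j) (hik : i ≠ k)
    (hil : i ≠ l) (hjk : j ≠ k) (hjl : j ≠ l) :
    (eI B i j k l).has (4294967296 * ((c.y j - c.y i) * c.r i j ^ 2 +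
      (c.y k * (c.r i k ^ 2 - c.r j k ^ 2) + c.y l * (c.r i l ^ 2 - c.r j l ^ 2)))) := by
  have h := has_add (has_mul (has_sub (has_yI hB j) (has_yI hB i)) (has_sI hG hB hij))
    (has_add (has_mul (has_yI hB k) (has_sub (has_sI hG hB hik) (has_sI hG hB hjk)))
      (has_mul (has_yI hB l) (has_sub (has_sI hG hB hil) (has_sI hG hB hjl))))
  have e : (65536 * c.y j - 65536 * c.y i) * (65536 * c.r i j ^ 2) +
      (65536 * c.y k * (65536 * c.r i k ^ 2 - 65536 * c.r j k ^ 2) +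
        65536 * c.y l * (65536 * c.r i l ^ 2 - 65536 * c.r j l ^ 2)) =
      4294967296 * ((c.y j - c.y i) * c.r i j ^ 2 +
      (c.y k * (c.r i k ^ 2 - c.r j k ^ 2) + c.y l * (c.r i l ^ 2 - c.r j l ^ 2))) := by ring
  rw [e] at h
  exact h

theorem has_aI {v w1 w2 nd : Iv} {a b d e : ℝ} (h1 : v.has a) (h2 : w1.has b) (h3 : w2.has d)
    (h4 : nd.has e) : (aI v w1 w2 nd).has (a - b - d + e) :=
  has_add (has_sub (has_sub h1 h2) h3) h4

theorem has_comb {c0 c1 c2 : Int} {u0 u1 u2 : Iv} {x0 x1 x2 : ℝ} (h0 : u0.has x0)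
    (h1 : u1.has x1) (h2 : u2.has x2) :
    (comb c0 c1 c2 u0 u1 u2).has (c0 * x0 + (c1 * x1 + c2 * x2)) :=
  has_add (has_scale c0 h0) (has_add (has_scale c1 h1) (has_scale c2 h2))

theorem dom_of {dg o1 o2 : Iv} {x y z : ℝ} (h : domRow dg o1 o2 = true) (hx : dg.has x)
    (hy : o1.has y) (hz : o2.has z) : |y| + |z| < x := by
  unfold domRow at h
  rw [ltB_iff] at h
  have h' : ((mag o1 + mag o2 : ℤ) : ℝ) < ((dg.l : ℤ) : ℝ) := by exact_mod_cast h
  push_cast at h'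
  have h1 := mag_le hy
  have h2 := mag_le hz
  have h3 := hx.1
  linarith

theorem det_sound {A00 A01 A02 A10 A11 A12 A20 A21 A22 : Iv} {C : Mat}
    {a00 a01 a02 a10 a11 a12 a20 a21 a22 u v w : ℝ}
    (h : detOk A00 A01 A02 A10 A11 A12 A20 A21 A22 C = true)
    (h00 : A00.has a00) (h01 : A01.has a01) (h02 : A02.has a02)
    (h10 : A10.has a10) (h11 : A11.has a11) (h12 : A12.has a12)
    (h20 : A20.has a20) (h21 : A21.has a21) (h22 : A22.has a22)
    (q0 : a00 * u + a01 * v + a02 * w = 0) (q1 : a10 * u + a11 * v + a12 * w = 0)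
    (q2 : a20 * u + a21 * v + a22 * w = 0) : u = 0 ∧ v = 0 ∧ w = 0 := by
  unfold detOk at h
  rw [Bool.and_eq_true, Bool.and_eq_true] at h
  obtain ⟨⟨r0, r1⟩, r2⟩ := h
  have d0 := dom_of r0 (has_comb h00 h10 h20) (has_comb h01 h11 h21) (has_comb h02 h12 h22)
  have d1 := dom_of r1 (has_comb h01 h11 h21) (has_comb h00 h10 h20) (has_comb h02 h12 h22)
  have d2 := dom_of r2 (has_comb h02 h12 h22) (has_comb h00 h10 h20) (has_comb h01 h11 h21)
  refine dom3 d0 d1 d2 ?_ ?_ ?_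
  · linear_combination (C.a00 : ℝ) * q0 + (C.a01 : ℝ) * q1 + (C.a02 : ℝ) * q2
  · linear_combination (C.a10 : ℝ) * q0 + (C.a11 : ℝ) * q1 + (C.a12 : ℝ) * q2
  · linear_combination (C.a20 : ℝ) * q0 + (C.a21 : ℝ) * q1 + (C.a22 : ℝ) * q2

theorem dOk_sound (hG : Good c) (hB : B.has c) {C : Mat} (h : dOk B C = true) :
    ∀ i, c.ζ i = 0 := by
  have h01 : i0 ≠ i1 := by decide
  have h02 : i0 ≠ i2 := by decide
  have h03 : i0 ≠ i3 := by decide
  have h12 : i1 ≠ i2 := by decide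
  have h13 : i1 ≠ i3 := by decide
  have h32 : i3 ≠ i2 := by decide
  have nd := has_mulnu hG.hν1 hG.hν2 (has_dI hG hB (i := i2) (j := i0) (k := i1) (l := i3)
    h02.symm h12.symm h32.symm)
  have end' : 65536 * c.ν * (65536 * c.d i2 i0 i1 i3) / 65536 =
      65536 * (c.ν * c.d i2 i0 i1 i3) := by ring
  rw [end'] at nd
  have c01 := has_ccI hG hB h01
  have c03 := has_ccI hG hB h03
  have c13 := has_ccI hG hB h13
  have c02 := has_ccI hG hB h02
  have c12 := has_ccI hG hB h12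
  have c32 := has_ccI hG hB h32
  have d0 := has_dI hG hB (i := i0) (j := i1) (k := i2) (l := i3) h01 h02 h03
  have d1 := has_dI hG hB (i := i1) (j := i0) (k := i2) (l := i3) h01.symm h12 h13
  have d3 := has_dI hG hB (i := i3) (j := i0) (k := i1) (l := i2) h03.symm h13.symm h32
  have sy : ∀ i j, c.cc i j = c.cc j i := by
    intro i j; rw [Cfg.cc, Cfg.cc, Cfg.sp, Cfg.sp, hG.sym i j, mul_comm (c.z i)]
  have hD0 := hG.hD0
  have hD1 := hG.hD1
  have hD3 := hG.hD3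
  simp only [Cfg.DT, Cfg.η, sy i2 i0, sy i2 i1, sy i2 i3, sy i1 i0, sy i3 i0, sy i3 i1]
    at hD0 hD1 hD3
  have hζ2 := hG.hζ2
  simp only [Cfg.η] at hζ2
  rw [hζ2] at hD0 hD1 hD3
  have key := det_sound (u := c.ζ i0) (v := c.ζ i1) (w := c.ζ i3) h
    (has_aI d0 c02 c02 nd) (has_aI c01 c02 c12 nd) (has_aI c03 c02 c32 nd)
    (has_aI c01 c12 c02 nd) (has_aI d1 c12 c12 nd) (has_aI c13 c12 c32 nd)
    (has_aI c03 c32 c02 nd) (has_aI c13 c32 c12 nd) (has_aI d3 c32 c32 nd)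
    (by linear_combination 65536 * hD0) (by linear_combination 65536 * hD1)
    (by linear_combination 65536 * hD3)
  obtain ⟨k0, k1, k3⟩ := key
  intro i
  cases i
  · exact k0
  · exact k1
  · rw [hζ2, k0, k1, k3]; simp
  · exact k3

theorem leaf_sound (hG : Good c) (hB : B.has c) (f : Leaf) (h : leafOk B f = true) :
    ∀ i, c.ζ i = 0 := by
  cases f with
  | O0 =>
    exfalso
    simp only [leafOk, ltB_iff] at h
    have h' : (B.z1.h : ℝ) < B.z0.l := by exact_mod_cast h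
    have := hG.ord1
    linarith [hB.1.1, hB.2.1.2]
  | O1 =>
    exfalso
    simp only [leafOk, ltB_iff] at h
    have h' : (B.z3.h : ℝ) < B.z1.l := by exact_mod_cast h
    have := hG.ord2
    linarith [hB.2.1.1, hB.2.2.2]
  | Y =>
    exfalso
    simp only [leafOk, ltB_iff] at h
    have h' : ((y2I B).h : ℝ) < 0 := by exact_mod_cast h
    have h2 := (has_yI hB i2).2
    have := hG.pos
    simp only [yI] at h2
    linarith
  | B i j =>
    exfalso
    simp only [leafOk, Bool.and_eq_true, neB_iff, ltB_iff] at h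
    have h' : (7 * 4294967296 : ℝ) < 8 * ((pI B i j).l : ℝ) := by
      have := h.2
      unfold K2 at this
      exact_mod_cast this
    have h2 := (has_pI hG hB i j).1
    have h3 := (hG.hr i j h.1).2.2
    linarith
  | N i j k l =>
    exfalso
    simp only [leafOk, Bool.and_eq_true, ltB_iff] at h
    obtain ⟨h1, h2⟩ := h
    obtain ⟨a1, a2, a3, a4, a5, a6⟩ := dist4_iff h1
    have h3 := (has_eI hG hB a1 a2 a3 a4 a5).1
    have h4 := hG.hT i j k l a1 a2 a3 a4 a5 a6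
    have h' : (0:ℝ) < (eI B i j k l).l := by exact_mod_cast h2
    have h5 : (c.y j - c.y i) * c.r i j ^ 2 +
      (c.y k * (c.r i k ^ 2 - c.r j k ^ 2) + c.y l * (c.r i l ^ 2 - c.r j l ^ 2)) = 0 := by
      linear_combination h4
    rw [h5] at h3
    linarith
  | M i j k l =>
    exfalso
    simp only [leafOk, Bool.and_eq_true, ltB_iff] at h
    obtain ⟨h1, h2⟩ := h
    obtain ⟨a1, a2, a3, a4, a5, a6⟩ := dist4_iff h1
    have h3 := (has_eI hG hB a1 a2 a3 a4 a5).2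
    have h4 := hG.hT i j k l a1 a2 a3 a4 a5 a6
    have h' : ((eI B i j k l).h : ℝ) < 0 := by exact_mod_cast h2
    have h5 : (c.y j - c.y i) * c.r i j ^ 2 +
      (c.y k * (c.r i k ^ 2 - c.r j k ^ 2) + c.y l * (c.r i l ^ 2 - c.r j l ^ 2)) = 0 := by
      linear_combination h4
    rw [h5] at h3
    linarith
  | D C => exact dOk_sound hG hB h

theorem check_sound (hG : Good c) (T : Tree) : ∀ B : Box, B.has c → check T B = true →
    ∀ i, c.ζ i = 0 := by
  induction T with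
  | L f => intro B hB h; exact leaf_sound hG hB f h
  | S0 d l r ihl ihr =>
    intro B hB h
    simp only [check, Bool.and_eq_true] at h
    rcases le_total (65536 * c.z i0) (d : ℝ) with h1 | h1
    · exact ihl ⟨⟨B.z0.l, d⟩, B.z1, B.z3⟩ ⟨⟨hB.1.1, h1⟩, hB.2.1, hB.2.2⟩ h.1
    · exact ihr ⟨⟨d, B.z0.h⟩, B.z1, B.z3⟩ ⟨⟨h1, hB.1.2⟩, hB.2.1, hB.2.2⟩ h.2
  | S1 d l r ihl ihr =>
    intro B hB h
    simp only [check, Bool.and_eq_true] at h
    rcases le_total (65536 * c.z i1) (d : ℝ) with h1 | h1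
    · exact ihl ⟨B.z0, ⟨B.z1.l, d⟩, B.z3⟩ ⟨hB.1, ⟨hB.2.1.1, h1⟩, hB.2.2⟩ h.1
    · exact ihr ⟨B.z0, ⟨d, B.z1.h⟩, B.z3⟩ ⟨hB.1, ⟨h1, hB.2.1.2⟩, hB.2.2⟩ h.2
  | S3 d l r ihl ihr =>
    intro B hB h
    simp only [check, Bool.and_eq_true] at h
    rcases le_total (65536 * c.z i3) (d : ℝ) with h1 | h1
    · exact ihl ⟨B.z0, B.z1, ⟨B.z3.l, d⟩⟩ ⟨hB.1, hB.2.1, ⟨hB.2.2.1, h1⟩⟩ h.1
    · exact ihr ⟨B.z0, B.z1, ⟨d, B.z3.h⟩⟩ ⟨hB.1, hB.2.1, ⟨h1, hB.2.2.2⟩⟩ h.2

end NonMorse.BB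

namespace NonMorse.BB

open Ix

/-- every good configuration in the box has `ζ = 0` -/
def Covered (B : Box) : Prop := ∀ c : Cfg, Good c → B.has c → ∀ i, c.ζ i = 0

theorem cov_of_check (T : Tree) (B : Box) (h : check T B = true) : Covered B :=
  fun _ hG hB => check_sound hG T B hB h

theorem cov_S0 (B : Box) (d : Int) (hl : Covered ⟨⟨B.z0.l, d⟩, B.z1, B.z3⟩)
    (hr : Covered ⟨⟨d, B.z0.h⟩, B.z1, B.z3⟩) : Covered B := by
  intro c hG hB
  rcases le_total (65536 * c.z i0) (d : ℝ) with h1 | h1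
  · exact hl c hG ⟨⟨hB.1.1, h1⟩, hB.2.1, hB.2.2⟩
  · exact hr c hG ⟨⟨h1, hB.1.2⟩, hB.2.1, hB.2.2⟩

theorem cov_S1 (B : Box) (d : Int) (hl : Covered ⟨B.z0, ⟨B.z1.l, d⟩, B.z3⟩)
    (hr : Covered ⟨B.z0, ⟨d, B.z1.h⟩, B.z3⟩) : Covered B := by
  intro c hG hB
  rcases le_total (65536 * c.z i1) (d : ℝ) with h1 | h1
  · exact hl c hG ⟨hB.1, ⟨hB.2.1.1, h1⟩, hB.2.2⟩
  · exact hr c hG ⟨hB.1, ⟨h1, hB.2.1.2⟩, hB.2.2⟩

theorem cov_S3 (B : Box) (d : Int) (hl : Covered ⟨B.z0, B.z1, ⟨B.z3.l, d⟩⟩)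
    (hr : Covered ⟨B.z0, B.z1, ⟨d, B.z3.h⟩⟩) : Covered B := by
  intro c hG hB
  rcases le_total (65536 * c.z i3) (d : ℝ) with h1 | h1
  · exact hl c hG ⟨hB.1, hB.2.1, ⟨hB.2.2.1, h1⟩⟩
  · exact hr c hG ⟨hB.1, hB.2.1, ⟨h1, hB.2.2.2⟩⟩

end NonMorse.BB
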