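import Pool.Agent.Helper342.Alg.BBDefs

set_option linter.style.longLine false

namespace NonMorse.BB
open Ix

def T16 : Tree := .S0 (.negSucc 55295) (.S1 (.negSucc 55295) (.S3 (.negSucc 18431) (.S0 (.negSucc 64511) (.S1 (.negSucc 64511) (.L (.B i0 i1)) (.L (.M i1 i3 i0 i2))) (.S1 (.negSucc 64511) (.L (.M i0 i3 i1 i2)) (.L (.M i2 i3 i0 i1)))) (.L (.M i2 i3 i0 i1))) (.S3 (.negSucc 18431) (.S0 (.negSucc 64511) (.S1 (.negSucc 46079) (.S3 (.negSucc 27647) (.L (.M i2 i3 i0 i1)) (.L (.M i2 i3 i0 i1))) (.L (.N i0 i2 i1 i3))) (.L (.M i2 i3 i0 i1))) (.L (.M i2 i3 i0 i1)))) (.S1 (.negSucc 55295) (.S3 (.negSucc 18431) (.S0 (.negSucc 46079) (.S1 (.negSucc 64511) (.L .O0) (.L (.M i2 i3 i0 i1))) (.L .O0)) (.L (.M i2 i3 i0 i1))) (.S3 (.negSucc 18431) (.L (.M i2 i3 i0 i1)) (.L (.N i0 i2 i1 i3))))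

def B16 : Box := ⟨⟨(.negSucc 73727), (.negSucc 36863)⟩, ⟨(.negSucc 73727), (.negSucc 36863)⟩, ⟨(.negSucc 36863), (.ofNat 0)⟩⟩

theorem ok16 : check T16 B16 = true := by decide +kernel

def T34 : Tree := .S1 (.ofNat 36864) (.S3 (.ofNat 110592) (.S0 (.negSucc 239615) (.S1 (.ofNat 18432) (.L (.M i2 i3 i0 i1)) (.S3 (.ofNat 92160) (.L (.M i2 i3 i0 i1)) (.L (.M i2 i3 i0 i1)))) (.S1 (.ofNat 18432) (.S3 (.ofNat 92160) (.L (.M i2 i3 i0 i1)) (.L (.M i2 i3 i0 i1))) (.S3 (.ofNat 92160) (.L (.M i2 i3 i0 i1)) (.S0 (.negSucc 230399) (.L (.M i2 i3 i0 i1)) (.S1 (.ofNat 27648) (.L (.N i1 i2 i0 i3)) (.L (.M i0 i1 i2 i3))))))) (.S0 (.negSucc 239615) (.S1 (.ofNat 18432) (.S3 (.ofNat 129024) (.S0 (.negSucc 248831) (.S1 (.ofNat 9216) (.L (.M i0 i3 i1 i2)) (.S3 (.ofNat 119808) (.L (.M i0 i3 i1 i2)) (.L (.M i0 i3 i1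 i2)))) (.S1 (.ofNat 9216) (.L (.M i1 i3 i0 i2)) (.S3 (.ofNat 119808) (.L (.M i2 i3 i0 i1)) (.S0 (.negSucc 244223) (.L (.M i0 i3 i1 i2)) (.L (.M i2 i3 i0 i1)))))) (.S0 (.negSucc 248831) (.S1 (.ofNat 9216) (.S3 (.ofNat 138240) (.L (.M i0 i3 i1 i2)) (.L (.M i0 i3 i1 i2))) (.S3 (.ofNat 138240) (.S0 (.negSucc 253439) (.L (.M i0 i3 i1 i2)) (.L (.M i0 i3 i1 i2))) (.S0 (.negSucc 253439) (.S1 (.ofNat 13824) (.L (.M i0 i3 i1 i2)) (.L (.M i0 i1 i2 i3))) (.S1 (.ofNat 13824) (.S3 (.ofNat 142848) (.L (.M i0 i3 i1 i2)) (.L (.M i0 i3 i1 i2))) (.L (.M i0 i1 i2 i3)))))) (.S1 (.ofNat 9216) (.S3 (.ofNat 138240) (.S0 (.negSucc 244223) (.L (.M i0 i3 i1 i2)) (.L (.M i1 i3 i0 i2))) (.S0 (.negSucc 244223) (.S1 (.ofNat 4608) (.L (.N i0 i1 i2 i3)) (.S3 (.ofNat 142848) (.L (.M i0 i3 i1 i2)) (.L (.M i0 i3 i1 i2)))) (.S1 (.ofNat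 4608) (.L (.N i0 i1 i2 i3)) (.S3 (.ofNat 142848) (.L (.M i1 i3 i0 i2)) (.S0 (.negSucc 241919) (.S1 (.ofNat 6912) (.L (.N i0 i1 i2 i3)) (.S3 (.ofNat 145152) (.L (.M i0 i3 i1 i2)) (.L (.M i1 i3 i0 i2)))) (.S1 (.ofNat 6912) (.L (.N i0 i1 i2 i3)) (.S3 (.ofNat 145152) (.L (.M i1 i3 i0 i2)) (.S0 (.negSucc 240767) (.S1 (.ofNat 8064) (.L (.N i0 i1 i2 i3)) (.S3 (.ofNat 146304) (.L (.M i0 i3 i1 i2)) (.L (.M i1 i3 i0 i2)))) (.S1 (.ofNat 8064) (.L (.N i0 i1 i2 i3)) (.S3 (.ofNat 146304) (.L (.M i1 i3 i0 i2)) (.L (.D ⟨(.ofNat 524), (.negSucc 83), (.negSucc 135), (.negSucc 83), (.ofNat 100), (.ofNat 40), (.negSucc 135), (.ofNat 40), (.negSucc 441)⟩)))))))))))) (.S3 (.ofNat 138240) (.S0 (.negSucc 244223) (.S1 (.ofNat 13824) (.L (.M i0 i3 i1 i2)) (.L (.M i0 i1 i2 i3))) (.S1 (.ofNat 13824) (.S3 (.ofNat 133632)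 (.L (.M i0 i3 i1 i2)) (.S0 (.negSucc 241919) (.L (.M i0 i3 i1 i2)) (.S1 (.ofNat 11520) (.L (.M i0 i3 i1 i2)) (.L (.M i2 i3 i0 i1))))) (.L (.M i0 i1 i2 i3)))) (.S0 (.negSucc 244223) (.S1 (.ofNat 13824) (.S3 (.ofNat 142848) (.S0 (.negSucc 246527) (.L (.M i0 i3 i1 i2)) (.L (.M i0 i3 i1 i2))) (.S0 (.negSucc 246527) (.S1 (.ofNat 11520) (.L (.M i0 i3 i1 i2)) (.L (.M i0 i1 i2 i3))) (.S1 (.ofNat 11520) (.S3 (.ofNat 145152) (.L (.M i0 i3 i1 i2)) (.L (.M i0 i3 i1 i2))) (.L (.M i0 i1 i2 i3))))) (.L (.M i0 i1 i2 i3))) (.S1 (.ofNat 13824) (.S3 (.ofNat 142848) (.S0 (.negSucc 241919) (.S1 (.ofNat 11520) (.L (.M i0 i3 i1 i2)) (.L (.M i0 i1 i2 i3))) (.S1 (.ofNat 11520) (.S3 (.ofNat 140544) (.L (.M i0 i3 i1 i2)) (.S0 (.negSucc 240767) (.L (.M i0 i3 i1 i2)) (.S1 (.ofNat 10368) (.L (.M i0 i3 i1 i2)) (.L (.M i2 i3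 i0 i1))))) (.L (.M i0 i1 i2 i3)))) (.S0 (.negSucc 241919) (.S1 (.ofNat 11520) (.S3 (.ofNat 145152) (.S0 (.negSucc 243071) (.L (.M i0 i3 i1 i2)) (.S1 (.ofNat 10368) (.L (.M i0 i3 i1 i2)) (.L (.M i0 i1 i2 i3)))) (.S0 (.negSucc 243071) (.S1 (.ofNat 10368) (.L (.M i0 i3 i1 i2)) (.L (.M i0 i1 i2 i3))) (.S1 (.ofNat 10368) (.S3 (.ofNat 146304) (.L (.M i0 i3 i1 i2)) (.L (.M i0 i3 i1 i2))) (.L (.M i0 i1 i2 i3))))) (.L (.M i0 i1 i2 i3))) (.S1 (.ofNat 11520) (.S3 (.ofNat 145152) (.S0 (.negSucc 240767) (.S1 (.ofNat 10368) (.S3 (.ofNat 144000) (.L (.M i0 i3 i1 i2)) (.L (.M i0 i3 i1 i2))) (.L (.M i0 i1 i2 i3))) (.S1 (.ofNat 10368) (.S3 (.ofNat 144000) (.L (.D ⟨(.ofNat 523), (.negSucc 78), (.negSucc 156), (.negSucc 78), (.ofNat 101), (.ofNat 41), (.negSucc 156), (.ofNat 41), (.negSucc 414)⟩)) (.L (.D ⟨(.ofNat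 525), (.negSucc 78), (.negSucc 151), (.negSucc 78), (.ofNat 99), (.ofNat 42), (.negSucc 151), (.ofNat 42), (.negSucc 425)⟩))) (.L (.M i0 i1 i2 i3)))) (.S0 (.negSucc 240767) (.S1 (.ofNat 10368) (.S3 (.ofNat 146304) (.L (.D ⟨(.ofNat 513), (.negSucc 77), (.negSucc 142), (.negSucc 77), (.ofNat 97), (.ofNat 43), (.negSucc 142), (.ofNat 43), (.negSucc 429)⟩)) (.L (.D ⟨(.ofNat 515), (.negSucc 77), (.negSucc 137), (.negSucc 77), (.ofNat 96), (.ofNat 44), (.negSucc 137), (.ofNat 44), (.negSucc 440)⟩))) (.L (.M i0 i1 i2 i3))) (.S1 (.ofNat 10368) (.S3 (.ofNat 146304) (.L (.D ⟨(.ofNat 527), (.negSucc 77), (.negSucc 146), (.negSucc 77), (.ofNat 98), (.ofNat 44), (.negSucc 146), (.ofNat 44), (.negSucc 436)⟩)) (.L (.D ⟨(.ofNat 528), (.negSucc 76), (.negSucc 141), (.negSucc 76), (.ofNat 96), (.ofNat 45), (.negSucc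 141), (.ofNat 45), (.negSucc 448)⟩))) (.L (.M i0 i1 i2 i3))))) (.L (.M i0 i1 i2 i3))))) (.L (.M i0 i1 i2 i3)))))))) (.S3 (.ofNat 129024) (.S0 (.negSucc 248831) (.S1 (.ofNat 27648) (.L (.M i0 i1 i2 i3)) (.L (.M i0 i1 i2 i3))) (.S1 (.ofNat 27648) (.S3 (.ofNat 119808) (.L (.M i0 i1 i2 i3)) (.L (.M i0 i1 i2 i3))) (.L (.M i0 i1 i2 i3)))) (.L (.M i0 i1 i2 i3)))) (.S1 (.ofNat 18432) (.S3 (.ofNat 129024) (.S0 (.negSucc 230399) (.S1 (.ofNat 9216) (.S3 (.ofNat 119808) (.L (.M i1 i3 i0 i2)) (.L (.M i1 i3 i0 i2))) (.S3 (.ofNat 119808) (.L (.M i2 i3 i0 i1)) (.S0 (.negSucc 235007) (.L (.M i2 i3 i0 i1)) (.S1 (.ofNat 13824) (.L (.M i2 i3 i0 i1)) (.L (.N i1 i2 i0 i3)))))) (.S1 (.ofNat 9216) (.S3 (.ofNat 119808) (.L (.N i0 i1 i2 i3)) (.S0 (.negSucc 225791) (.S1 (.ofNat 4608) (.L (.N i0 i1 i2 i3)) (.L (.N i0 i1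 i2 i3))) (.S1 (.ofNat 4608) (.L (.N i0 i1 i2 i3)) (.L (.N i0 i1 i2 i3))))) (.S3 (.ofNat 119808) (.L (.M i2 i3 i0 i1)) (.S0 (.negSucc 225791) (.S1 (.ofNat 13824) (.L (.M i2 i3 i0 i1)) (.L (.N i1 i2 i0 i3))) (.S1 (.ofNat 13824) (.L (.N i0 i2 i1 i3)) (.L (.N i0 i2 i1 i3))))))) (.S0 (.negSucc 230399) (.S1 (.ofNat 9216) (.S3 (.ofNat 138240) (.S0 (.negSucc 235007) (.S1 (.ofNat 4608) (.L (.N i0 i1 i2 i3)) (.S3 (.ofNat 133632) (.L (.N i0 i1 i2 i3)) (.L (.M i1 i3 i0 i2)))) (.S1 (.ofNat 4608) (.L (.N i0 i1 i2 i3)) (.S3 (.ofNat 133632) (.L (.N i0 i1 i2 i3)) (.S0 (.negSucc 232703) (.L (.N i0 i1 i2 i3)) (.L (.N i0 i1 i2 i3)))))) (.S0 (.negSucc 235007) (.S1 (.ofNat 4608) (.L (.N i0 i1 i2 i3)) (.S3 (.ofNat 142848) (.S0 (.negSucc 237311) (.S1 (.ofNat 6912) (.L (.N i0 i1 i2 i3)) (.S3 (.ofNat 140544) (.L (.N i0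 i1 i2 i3)) (.L (.N i0 i1 i2 i3)))) (.S1 (.ofNat 6912) (.L (.N i0 i1 i2 i3)) (.S3 (.ofNat 140544) (.L (.N i0 i1 i2 i3)) (.L (.N i0 i1 i2 i3))))) (.S0 (.negSucc 237311) (.S1 (.ofNat 6912) (.L (.N i0 i1 i2 i3)) (.S3 (.ofNat 145152) (.S0 (.negSucc 238463) (.S1 (.ofNat 8064) (.L (.N i0 i1 i2 i3)) (.L (.N i0 i1 i2 i3))) (.S1 (.ofNat 8064) (.L (.N i0 i1 i2 i3)) (.L (.N i0 i1 i2 i3)))) (.S0 (.negSucc 238463) (.S1 (.ofNat 8064) (.L (.N i0 i1 i2 i3)) (.S3 (.ofNat 146304) (.L (.D ⟨(.ofNat 536), (.negSucc 84), (.negSucc 145), (.negSucc 84), (.ofNat 102), (.ofNat 40), (.negSucc 145), (.ofNat 40), (.negSucc 437)⟩)) (.L (.D ⟨(.ofNat 538), (.negSucc 83), (.negSucc 140), (.negSucc 83), (.ofNat 101), (.ofNat 42), (.negSucc 140), (.ofNat 42), (.negSucc 449)⟩)))) (.S1 (.ofNat 8064) (.L (.N i0 i1 i2 i3)) (.S3 (.ofNat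 146304) (.L (.N i0 i1 i2 i3)) (.L (.D ⟨(.ofNat 552), (.negSucc 83), (.negSucc 144), (.negSucc 83), (.ofNat 101), (.ofNat 43), (.negSucc 144), (.ofNat 43), (.negSucc 457)⟩))))))) (.S1 (.ofNat 6912) (.L (.N i0 i1 i2 i3)) (.S3 (.ofNat 145152) (.S0 (.negSucc 236159) (.S1 (.ofNat 8064) (.L (.N i0 i1 i2 i3)) (.L (.N i0 i1 i2 i3))) (.S1 (.ofNat 8064) (.L (.N i0 i1 i2 i3)) (.L (.N i0 i1 i2 i3)))) (.S0 (.negSucc 236159) (.S1 (.ofNat 8064) (.L (.N i0 i1 i2 i3)) (.S3 (.ofNat 146304) (.L (.N i0 i1 i2 i3)) (.L (.D ⟨(.ofNat 567), (.negSucc 83), (.negSucc 149), (.negSucc 83), (.ofNat 101), (.ofNat 44), (.negSucc 149), (.ofNat 44), (.negSucc 465)⟩)))) (.S1 (.ofNat 8064) (.L (.N i0 i1 i2 i3)) (.S3 (.ofNat 146304) (.L (.N i0 i1 i2 i3)) (.L (.N i0 i3 i1 i2)))))))))) (.S1 (.ofNat 4608) (.L (.N i0 i1 i2 i3)) (.S3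 (.ofNat 142848) (.S0 (.negSucc 232703) (.S1 (.ofNat 6912) (.L (.N i0 i1 i2 i3)) (.S3 (.ofNat 140544) (.L (.N i0 i1 i2 i3)) (.L (.N i0 i1 i2 i3)))) (.S1 (.ofNat 6912) (.L (.N i0 i1 i2 i3)) (.S3 (.ofNat 140544) (.L (.N i0 i1 i2 i3)) (.L (.N i0 i1 i2 i3))))) (.S0 (.negSucc 232703) (.S1 (.ofNat 6912) (.L (.N i0 i1 i2 i3)) (.S3 (.ofNat 145152) (.S0 (.negSucc 233855) (.S1 (.ofNat 8064) (.L (.N i0 i1 i2 i3)) (.L (.N i0 i1 i2 i3))) (.S1 (.ofNat 8064) (.L (.N i0 i1 i2 i3)) (.L (.N i0 i1 i2 i3)))) (.S0 (.negSucc 233855) (.S1 (.ofNat 8064) (.L (.N i0 i1 i2 i3)) (.L (.N i0 i3 i1 i2))) (.L (.N i0 i3 i1 i2))))) (.S1 (.ofNat 6912) (.L (.N i0 i1 i2 i3)) (.S3 (.ofNat 145152) (.L (.N i0 i3 i1 i2)) (.L (.N i0 i3 i1 i2))))))))) (.S3 (.ofNat 138240) (.S0 (.negSucc 235007) (.S1 (.ofNat 13824) (.S3 (.ofNat 133632) (.L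 (.M i2 i3 i0 i1)) (.S0 (.negSucc 237311) (.S1 (.ofNat 11520) (.L (.M i2 i3 i0 i1)) (.L (.M i2 i3 i0 i1))) (.S1 (.ofNat 11520) (.S3 (.ofNat 135936) (.L (.M i2 i3 i0 i1)) (.L (.M i2 i3 i0 i1))) (.L (.M i2 i3 i0 i1))))) (.L (.M i0 i1 i2 i3))) (.S1 (.ofNat 13824) (.S3 (.ofNat 133632) (.L (.M i2 i3 i0 i1)) (.S0 (.negSucc 232703) (.S1 (.ofNat 11520) (.S3 (.ofNat 135936) (.L (.N i0 i2 i1 i3)) (.L (.M i2 i3 i0 i1))) (.L (.N i1 i2 i0 i3))) (.S1 (.ofNat 11520) (.S3 (.ofNat 135936) (.L (.N i0 i2 i1 i3)) (.L (.N i0 i2 i1 i3))) (.L (.N i0 i2 i1 i3))))) (.L (.M i0 i1 i2 i3)))) (.S0 (.negSucc 235007) (.S1 (.ofNat 13824) (.S3 (.ofNat 142848) (.S0 (.negSucc 237311) (.S1 (.ofNat 11520) (.S3 (.ofNat 140544) (.S0 (.negSucc 238463) (.L (.M i2 i3 i0 i1)) (.L (.M i2 i3 i0 i1))) (.S0 (.negSucc 238463) (.S1 (.ofNat 10368)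 (.S3 (.ofNat 141696) (.L (.M i0 i3 i1 i2)) (.L (.M i2 i3 i0 i1))) (.S3 (.ofNat 141696) (.L (.M i2 i3 i0 i1)) (.L (.M i2 i3 i0 i1)))) (.S1 (.ofNat 10368) (.S3 (.ofNat 141696) (.L (.M i2 i3 i0 i1)) (.L (.M i2 i3 i0 i1))) (.L (.D ⟨(.ofNat 550), (.negSucc 71), (.negSucc 177), (.negSucc 71), (.ofNat 99), (.ofNat 46), (.negSucc 177), (.ofNat 46), (.negSucc 418)⟩))))) (.L (.M i0 i1 i2 i3))) (.S1 (.ofNat 11520) (.S3 (.ofNat 140544) (.S0 (.negSucc 236159) (.L (.M i2 i3 i0 i1)) (.L (.M i2 i3 i0 i1))) (.S0 (.negSucc 236159) (.S1 (.ofNat 10368) (.L (.D ⟨(.ofNat 560), (.negSucc 78), (.negSucc 176), (.negSucc 78), (.ofNat 104), (.ofNat 42), (.negSucc 176), (.ofNat 42), (.negSucc 418)⟩)) (.L (.D ⟨(.ofNat 565), (.negSucc 70), (.negSucc 182), (.negSucc 70), (.ofNat 99), (.ofNat 47), (.negSucc 182), (.ofNat 47),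 (.negSucc 424)⟩))) (.S1 (.ofNat 10368) (.L (.D ⟨(.ofNat 575), (.negSucc 78), (.negSucc 182), (.negSucc 78), (.ofNat 104), (.ofNat 44), (.negSucc 182), (.ofNat 44), (.negSucc 425)⟩)) (.L (.N i1 i2 i0 i3))))) (.L (.M i0 i1 i2 i3)))) (.S0 (.negSucc 237311) (.S1 (.ofNat 11520) (.S3 (.ofNat 145152) (.S0 (.negSucc 238463) (.S1 (.ofNat 10368) (.S3 (.ofNat 144000) (.L (.D ⟨(.ofNat 537), (.negSucc 78), (.negSucc 160), (.negSucc 78), (.ofNat 101), (.ofNat 42), (.negSucc 160), (.ofNat 42), (.negSucc 421)⟩)) (.L (.D ⟨(.ofNat 539), (.negSucc 77), (.negSucc 155), (.negSucc 77), (.ofNat 99), (.ofNat 44), (.negSucc 155), (.ofNat 44), (.negSucc 432)⟩))) (.L (.M i0 i1 i2 i3))) (.S1 (.ofNat 10368) (.S3 (.ofNat 144000) (.L (.D ⟨(.ofNat 551), (.negSucc 78), (.negSucc 165), (.negSucc 78), (.ofNat 101), (.ofNat 43),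 (.negSucc 165), (.ofNat 43), (.negSucc 428)⟩)) (.L (.D ⟨(.ofNat 553), (.negSucc 77), (.negSucc 160), (.negSucc 77), (.ofNat 100), (.ofNat 45), (.negSucc 160), (.ofNat 45), (.negSucc 440)⟩))) (.S3 (.ofNat 144000) (.L (.M i0 i1 i2 i3)) (.L (.M i0 i1 i2 i3))))) (.S0 (.negSucc 238463) (.S1 (.ofNat 10368) (.S3 (.ofNat 146304) (.L (.D ⟨(.ofNat 541), (.negSucc 77), (.negSucc 150), (.negSucc 77), (.ofNat 98), (.ofNat 45), (.negSucc 150), (.ofNat 45), (.negSucc 444)⟩)) (.L (.D ⟨(.ofNat 543), (.negSucc 76), (.negSucc 145), (.negSucc 76), (.ofNat 96), (.ofNat 47), (.negSucc 145), (.ofNat 47), (.negSucc 456)⟩))) (.L (.M i0 i1 i2 i3))) (.S1 (.ofNat 10368) (.S3 (.ofNat 146304) (.L (.D ⟨(.ofNat 555), (.negSucc 77), (.negSucc 155), (.negSucc 77), (.ofNat 98), (.ofNat 46), (.negSucc 155), (.ofNat 46), (.negSucc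 452)⟩)) (.L (.D ⟨(.ofNat 557), (.negSucc 76), (.negSucc 150), (.negSucc 76), (.ofNat 96), (.ofNat 48), (.negSucc 150), (.ofNat 48), (.negSucc 464)⟩))) (.L (.M i0 i1 i2 i3))))) (.L (.M i0 i1 i2 i3))) (.S1 (.ofNat 11520) (.S3 (.ofNat 145152) (.S0 (.negSucc 236159) (.S1 (.ofNat 10368) (.S3 (.ofNat 144000) (.L (.D ⟨(.ofNat 565), (.negSucc 77), (.negSucc 170), (.negSucc 77), (.ofNat 102), (.ofNat 45), (.negSucc 170), (.ofNat 45), (.negSucc 435)⟩)) (.L (.D ⟨(.ofNat 567), (.negSucc 77), (.negSucc 165), (.negSucc 77), (.ofNat 100), (.ofNat 46), (.negSucc 165), (.ofNat 46), (.negSucc 447)⟩))) (.L (.N i1 i2 i0 i3))) (.S1 (.ofNat 10368) (.L (.D ⟨(.ofNat 579), (.negSucc 77), (.negSucc 172), (.negSucc 77), (.ofNat 101), (.ofNat 47), (.negSucc 172), (.ofNat 47), (.negSucc 448)⟩)) (.L (.N i1 i2 i0 i3)))) (.S0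 (.negSucc 236159) (.S1 (.ofNat 10368) (.S3 (.ofNat 146304) (.L (.D ⟨(.ofNat 570), (.negSucc 76), (.negSucc 160), (.negSucc 76), (.ofNat 98), (.ofNat 48), (.negSucc 160), (.ofNat 48), (.negSucc 459)⟩)) (.L (.N i0 i3 i1 i2))) (.L (.M i0 i1 i2 i3))) (.S1 (.ofNat 10368) (.S3 (.ofNat 146304) (.L (.N i0 i3 i1 i2)) (.L (.N i0 i3 i1 i2))) (.L (.M i0 i1 i2 i3))))) (.L (.M i0 i1 i2 i3))))) (.L (.M i0 i1 i2 i3))) (.S1 (.ofNat 13824) (.S3 (.ofNat 142848) (.S0 (.negSucc 232703) (.S1 (.ofNat 11520) (.S3 (.ofNat 140544) (.S0 (.negSucc 233855) (.S1 (.ofNat 10368) (.L (.N i0 i2 i1 i3)) (.L (.N i0 i2 i1 i3))) (.L (.N i0 i2 i1 i3))) (.S0 (.negSucc 233855) (.S1 (.ofNat 10368) (.L (.D ⟨(.ofNat 590), (.negSucc 78), (.negSucc 187), (.negSucc 78), (.ofNat 105), (.ofNat 45), (.negSucc 187), (.ofNat 45), (.negSucc 432)⟩))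 (.L (.N i0 i2 i1 i3))) (.S1 (.ofNat 10368) (.L (.N i0 i2 i1 i3)) (.L (.N i0 i2 i1 i3))))) (.L (.M i0 i1 i2 i3))) (.S1 (.ofNat 11520) (.S3 (.ofNat 140544) (.L (.N i0 i2 i1 i3)) (.L (.N i0 i2 i1 i3))) (.L (.M i0 i1 i2 i3)))) (.S0 (.negSucc 232703) (.S1 (.ofNat 11520) (.S3 (.ofNat 145152) (.S0 (.negSucc 233855) (.S1 (.ofNat 10368) (.L (.D ⟨(.ofNat 595), (.negSucc 77), (.negSucc 177), (.negSucc 77), (.ofNat 101), (.ofNat 48), (.negSucc 177), (.ofNat 48), (.negSucc 456)⟩)) (.L (.N i0 i3 i1 i2))) (.L (.N i0 i3 i1 i2))) (.L (.N i0 i3 i1 i2))) (.L (.M i0 i1 i2 i3))) (.S1 (.ofNat 11520) (.L (.N i0 i3 i1 i2)) (.L (.M i0 i1 i2 i3))))) (.L (.M i0 i1 i2 i3)))))) (.S1 (.ofNat 9216) (.S3 (.ofNat 138240) (.S0 (.negSucc 225791) (.S1 (.ofNat 4608) (.L (.N i0 i1 i2 i3)) (.S3 (.ofNat 133632) (.L (.N i0 i1 i2 i3))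 (.S0 (.negSucc 228095) (.L (.N i0 i1 i2 i3)) (.L (.N i0 i1 i2 i3))))) (.S1 (.ofNat 4608) (.L (.N i0 i1 i2 i3)) (.S3 (.ofNat 133632) (.L (.N i0 i1 i2 i3)) (.L (.N i0 i1 i2 i3))))) (.S0 (.negSucc 225791) (.S1 (.ofNat 4608) (.L (.N i0 i1 i2 i3)) (.S3 (.ofNat 142848) (.S0 (.negSucc 228095) (.S1 (.ofNat 6912) (.L (.N i0 i1 i2 i3)) (.L (.N i0 i1 i2 i3))) (.S1 (.ofNat 6912) (.L (.N i0 i1 i2 i3)) (.L (.N i0 i1 i2 i3)))) (.S0 (.negSucc 228095) (.S1 (.ofNat 6912) (.L (.N i0 i1 i2 i3)) (.L (.N i0 i3 i1 i2))) (.L (.N i0 i3 i1 i2))))) (.S1 (.ofNat 4608) (.L (.N i0 i1 i2 i3)) (.S3 (.ofNat 142848) (.L (.N i0 i3 i1 i2)) (.L (.N i0 i3 i1 i2)))))) (.S3 (.ofNat 138240) (.S0 (.negSucc 225791) (.S1 (.ofNat 13824) (.S3 (.ofNat 133632) (.S0 (.negSucc 228095) (.L (.N i0 i2 i1 i3)) (.L (.N i0 i2 i1 i3))) (.S0 (.negSucc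 228095) (.S1 (.ofNat 11520) (.L (.N i0 i2 i1 i3)) (.L (.N i0 i2 i1 i3))) (.L (.N i0 i2 i1 i3)))) (.L (.M i0 i1 i2 i3))) (.S1 (.ofNat 13824) (.S3 (.ofNat 133632) (.L (.N i0 i2 i1 i3)) (.L (.N i0 i2 i1 i3))) (.L (.N i1 i2 i0 i3)))) (.S0 (.negSucc 225791) (.S1 (.ofNat 13824) (.S3 (.ofNat 142848) (.S0 (.negSucc 228095) (.S1 (.ofNat 11520) (.S3 (.ofNat 140544) (.L (.N i0 i2 i1 i3)) (.L (.N i0 i2 i1 i3))) (.L (.M i0 i1 i2 i3))) (.L (.N i0 i3 i1 i2))) (.L (.N i0 i3 i1 i2))) (.L (.M i0 i1 i2 i3))) (.S1 (.ofNat 13824) (.L (.N i0 i3 i1 i2)) (.L (.M i0 i1 i2 i3)))))))) (.S3 (.ofNat 129024) (.S0 (.negSucc 230399) (.S1 (.ofNat 27648) (.S3 (.ofNat 119808) (.L (.M i0 i1 i2 i3)) (.L (.M i0 i1 i2 i3))) (.L (.M i0 i1 i2 i3))) (.S1 (.ofNat 27648) (.L (.N i1 i2 i0 i3)) (.L (.M i0 i1 i2 i3)))) (.L (.M i0 i1 i2 i3))))))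 (.S3 (.ofNat 110592) (.S0 (.negSucc 239615) (.S1 (.ofNat 55296) (.S3 (.ofNat 92160) (.L (.M i0 i1 i2 i3)) (.L (.M i0 i1 i2 i3))) (.L (.B i1 i3))) (.S1 (.ofNat 55296) (.L (.N i1 i2 i0 i3)) (.L (.B i1 i3)))) (.L (.B i1 i3)))

def B34 : Box := ⟨⟨(.negSucc 258047), (.negSucc 221183)⟩, ⟨(.ofNat 0), (.ofNat 73728)⟩, ⟨(.ofNat 73728), (.ofNat 147456)⟩⟩

theorem ok34 : check T34 B34 = true := by decide +kernel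

end NonMorse.BB
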