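import Pool.Agent.Helper342.Alg.BBDefs

set_option linter.style.longLine false

namespace NonMorse.BB
open Ix

def T2 : Tree := .S0 (.negSucc 147455) (.L (.B i0 i3)) (.S1 (.negSucc 147455) (.L (.B i1 i3)) (.L .O1))

def B2 : Box := ⟨⟨(.negSucc 294911), (.ofNat 0)⟩, ⟨(.negSucc 294911), (.ofNat 0)⟩, ⟨(.negSucc 589823), (.negSucc 294911)⟩⟩

theorem ok2 : check T2 B2 = true := by decide +kernel

def T13 : Tree := .S3 (.negSucc 46079) (.S0 (.negSucc 69119) (.S1 (.negSucc 41471) (.S3 (.negSucc 50687) (.L .O1) (.S0 (.negSucc 71423) (.S1 (.negSucc 43775) (.S3 (.negSucc 48383) (.L .O1) (.S0 (.negSucc 72575) (.S1 (.negSucc 44927) (.S3 (.negSucc 47231) (.L .O1) (.S0 (.negSucc 73151) (.L (.N i2 i3 i0 i1)) (.S1 (.negSucc 45503) (.L (.N i0 i3 i1 i2)) (.L .O1)))) (.L .O1)) (.S1 (.negSucc 44927) (.S3 (.negSucc 47231)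 (.L .O1) (.S0 (.negSucc 71999) (.S1 (.negSucc 45503) (.L (.N i0 i3 i1 i2)) (.L .O1)) (.S1 (.negSucc 45503) (.S3 (.negSucc 46655) (.L .O1) (.L (.N i0 i2 i1 i3))) (.L .O1)))) (.L .O1)))) (.L .O1)) (.S1 (.negSucc 43775) (.S3 (.negSucc 48383) (.L .O1) (.S0 (.negSucc 70271) (.S1 (.negSucc 44927) (.S3 (.negSucc 47231) (.L .O1) (.S0 (.negSucc 70847) (.S1 (.negSucc 45503) (.L (.N i0 i2 i1 i3)) (.L .O1)) (.L (.N i0 i2 i1 i3)))) (.L .O1)) (.L (.N i1 i2 i0 i3)))) (.L .O1)))) (.L .O1)) (.S1 (.negSucc 41471) (.S3 (.negSucc 50687) (.L .O1) (.S0 (.negSucc 66815) (.S1 (.negSucc 43775) (.L (.N i1 i2 i0 i3)) (.L .O1)) (.L (.N i1 i2 i0 i3)))) (.L .O1))) (.S0 (.negSucc 69119) (.S1 (.negSucc 41471) (.S3 (.negSucc 41471) (.S0 (.negSucc 71423) (.S1 (.negSucc 43775) (.S3 (.negSucc 43775) (.S0 (.negSucc 72575) (.S1 (.negSucc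 44927) (.S3 (.negSucc 44927) (.S0 (.negSucc 73151) (.S1 (.negSucc 45503) (.S3 (.negSucc 45503) (.L (.N i0 i1 i2 i3)) (.L (.N i0 i1 i2 i3))) (.L (.N i0 i3 i1 i2))) (.S1 (.negSucc 45503) (.S3 (.negSucc 45503) (.L (.N i0 i1 i2 i3)) (.L (.N i0 i1 i2 i3))) (.L (.N i0 i2 i1 i3)))) (.L (.N i0 i1 i2 i3))) (.S3 (.negSucc 44927) (.L (.N i0 i2 i1 i3)) (.L (.N i0 i1 i2 i3)))) (.S1 (.negSucc 44927) (.S3 (.negSucc 44927) (.S0 (.negSucc 71999) (.L (.N i0 i2 i1 i3)) (.L (.N i0 i2 i1 i3))) (.L (.N i0 i1 i2 i3))) (.L (.N i0 i2 i1 i3)))) (.L (.N i0 i2 i1 i3))) (.L (.N i0 i2 i1 i3))) (.L (.N i0 i2 i1 i3))) (.L (.N i0 i2 i1 i3))) (.L (.N i0 i2 i1 i3))) (.L (.N i0 i2 i1 i3)))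

def B13 : Box := ⟨⟨(.negSucc 73727), (.negSucc 64511)⟩, ⟨(.negSucc 46079), (.negSucc 36863)⟩, ⟨(.negSucc 55295), (.negSucc 36863)⟩⟩

theorem ok13 : check T13 B13 = true := by decide +kernel

def T26 : Tree := .S0 (.negSucc 147455) (.S1 (.negSucc 147455) (.L (.B i0 i1)) (.S3 (.ofNat 442368) (.S0 (.negSucc 221183) (.S1 (.negSucc 73727) (.L (.B i0 i1)) (.S3 (.ofNat 368640) (.S0 (.negSucc 258047) (.S1 (.negSucc 36863) (.L (.B i0 i1)) (.S3 (.ofNat 331776) (.S0 (.negSucc 276479) (.S1 (.negSucc 18431) (.L (.B i0 i1)) (.S3 (.ofNat 313344) (.S0 (.negSucc 285695) (.S1 (.negSucc 9215) (.L (.N i0 i1 i2 i3)) (.L (.N i0 i3 i1 i2))) (.S1 (.negSucc 9215) (.L (.N i0 i1 i2 i3)) (.L (.N i0 i3 i1 i2)))) (.S0 (.negSucc 285695) (.S1 (.negSucc 9215) (.L (.N i0 i1 i2 i3)) (.L .Y)) (.L .Y)))) (.S1 (.negSucc 18431) (.L (.B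 i0 i1)) (.S3 (.ofNat 313344) (.S0 (.negSucc 267263) (.S1 (.negSucc 9215) (.L (.N i0 i1 i2 i3)) (.L .Y)) (.L .Y)) (.L .Y)))) (.S0 (.negSucc 276479) (.S1 (.negSucc 18431) (.L (.B i0 i1)) (.L .Y)) (.L .Y)))) (.S1 (.negSucc 36863) (.L (.B i0 i1)) (.S3 (.ofNat 331776) (.S0 (.negSucc 239615) (.S1 (.negSucc 18431) (.L (.B i0 i1)) (.L .Y)) (.L .Y)) (.L .Y)))) (.S0 (.negSucc 258047) (.S1 (.negSucc 36863) (.L (.B i0 i1)) (.L .Y)) (.L .Y)))) (.S1 (.negSucc 73727) (.L (.B i0 i1)) (.S3 (.ofNat 368640) (.S0 (.negSucc 184319) (.S1 (.negSucc 36863) (.L (.B i0 i1)) (.L .Y)) (.L .Y)) (.L .Y)))) (.S0 (.negSucc 221183) (.S1 (.negSucc 73727) (.L (.B i0 i1)) (.L .Y)) (.L .Y)))) (.S1 (.negSucc 147455) (.S3 (.ofNat 442368) (.S0 (.negSucc 73727) (.L (.B i0 i1)) (.L .O0)) (.S0 (.negSucc 73727) (.L (.B i0 i1)) (.L .O0))) (.S3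 (.ofNat 442368) (.S0 (.negSucc 73727) (.S1 (.negSucc 73727) (.L (.B i0 i1)) (.L .Y)) (.L .Y)) (.L .Y)))

def B26 : Box := ⟨⟨(.negSucc 294911), (.ofNat 0)⟩, ⟨(.negSucc 294911), (.ofNat 0)⟩, ⟨(.ofNat 294912), (.ofNat 589824)⟩⟩

theorem ok26 : check T26 B26 = true := by decide +kernel

def T31 : Tree := .S3 (.ofNat 294912) (.S0 (.negSucc 442367) (.S1 (.ofNat 442368) (.S3 (.ofNat 147456) (.L .O1) (.L (.B i1 i3))) (.L .O1)) (.S1 (.ofNat 442368) (.S3 (.ofNat 147456) (.L .O1) (.L (.B i1 i3))) (.L .O1))) (.L (.B i1 i3))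

def B31 : Box := ⟨⟨(.negSucc 589823), (.negSucc 294911)⟩, ⟨(.ofNat 294912), (.ofNat 589824)⟩, ⟨(.ofNat 0), (.ofNat 589824)⟩⟩

theorem ok31 : check T31 B31 = true := by decide +kernel

def T38 : Tree := .S1 (.ofNat 18432) (.S3 (.ofNat 165888) (.S0 (.negSucc 248831) (.S1 (.ofNat 9216) (.S3 (.ofNat 156672) (.S0 (.negSucc 253439) (.L (.M i0 i3 i1 i2)) (.S1 (.ofNat 4608) (.L (.N i0 i1 i2 i3)) (.S3 (.ofNat 152064) (.L (.M i0 i3 i1 i2)) (.S0 (.negSucc 251135) (.L (.M i0 i2 i1 i3)) (.S1 (.ofNat 6912) (.L (.N i0 i1 i2 i3)) (.L (.M i0 i2 i1 i3))))))) (.S0 (.negSucc 253439) (.S1 (.ofNat 4608) (.L (.N i0 i1 i2 i3)) (.S3 (.ofNat 161280) (.L (.M i0 i2 i1 i3)) (.L (.M i0 i2 i1 i3)))) (.S1 (.ofNat 4608) (.L (.N i0 i1 i2 i3)) (.S3 (.ofNat 161280) (.S0 (.negSucc 251135) (.L (.M i0 i2 i1 i3)) (.S1 (.ofNat 6912) (.L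 (.N i0 i1 i2 i3)) (.L (.M i0 i2 i1 i3)))) (.S0 (.negSucc 251135) (.L (.M i0 i2 i1 i3)) (.L (.N i2 i3 i0 i1))))))) (.S3 (.ofNat 156672) (.S0 (.negSucc 253439) (.S1 (.ofNat 13824) (.S3 (.ofNat 152064) (.L (.M i0 i3 i1 i2)) (.L (.M i0 i3 i1 i2))) (.L (.M i0 i1 i2 i3))) (.S1 (.ofNat 13824) (.S3 (.ofNat 152064) (.S0 (.negSucc 251135) (.L (.M i0 i3 i1 i2)) (.S1 (.ofNat 11520) (.L (.M i0 i3 i1 i2)) (.L (.M i0 i1 i2 i3)))) (.S0 (.negSucc 251135) (.S1 (.ofNat 11520) (.L (.M i0 i2 i1 i3)) (.L (.M i0 i1 i2 i3))) (.S1 (.ofNat 11520) (.S3 (.ofNat 154368) (.L (.M i0 i2 i1 i3)) (.L (.M i0 i1 i2 i3))) (.L (.M i0 i1 i2 i3))))) (.L (.M i0 i1 i2 i3)))) (.S0 (.negSucc 253439) (.S1 (.ofNat 13824) (.S3 (.ofNat 161280) (.S0 (.negSucc 255743) (.L (.M i0 i2 i1 i3)) (.S1 (.ofNat 11520) (.L (.M i0 i1 i2 i3)) (.L (.M i0 i1 i2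 i3)))) (.L (.M i0 i1 i2 i3))) (.L (.M i0 i1 i2 i3))) (.S1 (.ofNat 13824) (.S3 (.ofNat 161280) (.S0 (.negSucc 251135) (.S1 (.ofNat 11520) (.L (.M i0 i1 i2 i3)) (.L (.M i0 i1 i2 i3))) (.S1 (.ofNat 11520) (.L (.M i0 i1 i2 i3)) (.L (.M i0 i1 i2 i3)))) (.L (.M i0 i1 i2 i3))) (.L (.M i0 i1 i2 i3)))))) (.S1 (.ofNat 9216) (.S3 (.ofNat 156672) (.S0 (.negSucc 244223) (.S1 (.ofNat 4608) (.L (.N i0 i1 i2 i3)) (.S3 (.ofNat 152064) (.S0 (.negSucc 246527) (.S1 (.ofNat 6912) (.L (.N i0 i1 i2 i3)) (.L (.M i0 i3 i1 i2))) (.S1 (.ofNat 6912) (.L (.N i0 i1 i2 i3)) (.S3 (.ofNat 149760) (.L (.M i0 i3 i1 i2)) (.S0 (.negSucc 245375) (.L (.M i0 i2 i1 i3)) (.S1 (.ofNat 8064) (.L (.N i0 i1 i2 i3)) (.S3 (.ofNat 150912) (.L (.M i0 i2 i1 i3)) (.L (.M i0 i2 i1 i3)))))))) (.S0 (.negSucc 246527) (.S1 (.ofNat 6912) (.L (.N i0 i1 i2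 i3)) (.S3 (.ofNat 154368) (.L (.M i0 i2 i1 i3)) (.L (.M i0 i2 i1 i3)))) (.S1 (.ofNat 6912) (.L (.N i0 i1 i2 i3)) (.S3 (.ofNat 154368) (.S0 (.negSucc 245375) (.L (.M i0 i2 i1 i3)) (.S1 (.ofNat 8064) (.L (.N i0 i1 i2 i3)) (.S3 (.ofNat 153216) (.L (.M i0 i2 i1 i3)) (.L (.M i0 i2 i1 i3))))) (.S0 (.negSucc 245375) (.L (.M i0 i2 i1 i3)) (.L (.N i2 i3 i0 i1)))))))) (.S1 (.ofNat 4608) (.L (.N i0 i1 i2 i3)) (.S3 (.ofNat 152064) (.S0 (.negSucc 241919) (.S1 (.ofNat 6912) (.L (.N i0 i1 i2 i3)) (.S3 (.ofNat 149760) (.S0 (.negSucc 243071) (.S1 (.ofNat 8064) (.L (.N i0 i1 i2 i3)) (.S3 (.ofNat 148608) (.L (.M i0 i3 i1 i2)) (.L (.M i0 i3 i1 i2)))) (.S1 (.ofNat 8064) (.L (.N i0 i1 i2 i3)) (.S3 (.ofNat 148608) (.L (.M i1 i3 i0 i2)) (.L (.D ⟨(.ofNat 500), (.negSucc 82), (.negSucc 117), (.negSucc 82), (.ofNat 97), (.ofNat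 41), (.negSucc 117), (.ofNat 41), (.negSucc 449)⟩))))) (.S0 (.negSucc 243071) (.S1 (.ofNat 8064) (.L (.N i0 i1 i2 i3)) (.S3 (.ofNat 150912) (.L (.M i0 i2 i1 i3)) (.L (.M i0 i2 i1 i3)))) (.S1 (.ofNat 8064) (.L (.N i0 i1 i2 i3)) (.S3 (.ofNat 150912) (.L (.D ⟨(.ofNat 501), (.negSucc 82), (.negSucc 111), (.negSucc 82), (.ofNat 96), (.ofNat 42), (.negSucc 111), (.ofNat 42), (.negSucc 461)⟩)) (.L (.D ⟨(.ofNat 503), (.negSucc 81), (.negSucc 106), (.negSucc 81), (.ofNat 94), (.ofNat 43), (.negSucc 106), (.ofNat 43), (.negSucc 474)⟩))))))) (.S1 (.ofNat 6912) (.L (.N i0 i1 i2 i3)) (.S3 (.ofNat 149760) (.S0 (.negSucc 240767) (.S1 (.ofNat 8064) (.L (.N i0 i1 i2 i3)) (.S3 (.ofNat 148608) (.L (.D ⟨(.ofNat 512), (.negSucc 83), (.negSucc 126), (.negSucc 83), (.ofNat 99), (.ofNat 41), (.negSucc 126), (.ofNat 41),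 (.negSucc 445)⟩)) (.L (.D ⟨(.ofNat 513), (.negSucc 82), (.negSucc 121), (.negSucc 82), (.ofNat 97), (.ofNat 42), (.negSucc 121), (.ofNat 42), (.negSucc 457)⟩)))) (.S1 (.ofNat 8064) (.L (.N i0 i1 i2 i3)) (.S3 (.ofNat 148608) (.L (.D ⟨(.ofNat 525), (.negSucc 83), (.negSucc 130), (.negSucc 83), (.ofNat 99), (.ofNat 42), (.negSucc 130), (.ofNat 42), (.negSucc 453)⟩)) (.L (.D ⟨(.ofNat 527), (.negSucc 82), (.negSucc 125), (.negSucc 82), (.ofNat 98), (.ofNat 43), (.negSucc 125), (.ofNat 43), (.negSucc 466)⟩))))) (.S0 (.negSucc 240767) (.S1 (.ofNat 8064) (.L (.N i0 i1 i2 i3)) (.S3 (.ofNat 150912) (.L (.D ⟨(.ofNat 515), (.negSucc 82), (.negSucc 115), (.negSucc 82), (.ofNat 96), (.ofNat 43), (.negSucc 115), (.ofNat 43), (.negSucc 470)⟩)) (.L (.D ⟨(.ofNat 517), (.negSucc 81), (.negSucc 109), (.negSucc 81), (.ofNat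 95), (.ofNat 45), (.negSucc 109), (.ofNat 45), (.negSucc 483)⟩)))) (.S1 (.ofNat 8064) (.L (.N i0 i1 i2 i3)) (.S3 (.ofNat 150912) (.L (.D ⟨(.ofNat 529), (.negSucc 82), (.negSucc 119), (.negSucc 82), (.ofNat 96), (.ofNat 45), (.negSucc 119), (.ofNat 45), (.negSucc 479)⟩)) (.L (.D ⟨(.ofNat 531), (.negSucc 81), (.negSucc 113), (.negSucc 81), (.ofNat 95), (.ofNat 46), (.negSucc 113), (.ofNat 46), (.negSucc 492)⟩)))))))) (.S0 (.negSucc 241919) (.S1 (.ofNat 6912) (.L (.N i0 i1 i2 i3)) (.S3 (.ofNat 154368) (.S0 (.negSucc 243071) (.S1 (.ofNat 8064) (.L (.N i0 i1 i2 i3)) (.S3 (.ofNat 153216) (.L (.M i0 i2 i1 i3)) (.L (.M i0 i2 i1 i3)))) (.S1 (.ofNat 8064) (.L (.N i0 i1 i2 i3)) (.S3 (.ofNat 153216) (.L (.N i2 i3 i0 i1)) (.L (.N i2 i3 i0 i1))))) (.S0 (.negSucc 243071) (.L (.N i2 i3 i0 i1)) (.L (.N i2 i3 i0 i1)))))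 (.S1 (.ofNat 6912) (.L (.N i0 i1 i2 i3)) (.S3 (.ofNat 154368) (.S0 (.negSucc 240767) (.S1 (.ofNat 8064) (.L (.N i0 i1 i2 i3)) (.S3 (.ofNat 153216) (.L (.N i2 i3 i0 i1)) (.L (.N i2 i3 i0 i1)))) (.S1 (.ofNat 8064) (.L (.N i0 i1 i2 i3)) (.S3 (.ofNat 153216) (.L (.N i2 i3 i0 i1)) (.L (.N i0 i3 i1 i2))))) (.S0 (.negSucc 240767) (.L (.N i2 i3 i0 i1)) (.L (.N i2 i3 i0 i1))))))))) (.S0 (.negSucc 244223) (.S1 (.ofNat 4608) (.L (.N i0 i1 i2 i3)) (.S3 (.ofNat 161280) (.S0 (.negSucc 246527) (.S1 (.ofNat 6912) (.L (.N i0 i1 i2 i3)) (.S3 (.ofNat 158976) (.L (.M i0 i2 i1 i3)) (.L (.M i0 i2 i1 i3)))) (.S1 (.ofNat 6912) (.L (.N i0 i1 i2 i3)) (.S3 (.ofNat 158976) (.L (.N i2 i3 i0 i1)) (.L (.N i2 i3 i0 i1))))) (.S0 (.negSucc 246527) (.L (.N i2 i3 i0 i1)) (.L (.N i2 i3 i0 i1))))) (.S1 (.ofNat 4608) (.L (.N i0 i1 i2 i3))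 (.S3 (.ofNat 161280) (.S0 (.negSucc 241919) (.S1 (.ofNat 6912) (.L (.N i0 i1 i2 i3)) (.S3 (.ofNat 158976) (.L (.N i2 i3 i0 i1)) (.L (.N i2 i3 i0 i1)))) (.S1 (.ofNat 6912) (.L (.N i0 i1 i2 i3)) (.S3 (.ofNat 158976) (.L (.N i2 i3 i0 i1)) (.L (.N i0 i3 i1 i2))))) (.S0 (.negSucc 241919) (.L (.N i2 i3 i0 i1)) (.L (.N i0 i3 i1 i2))))))) (.S3 (.ofNat 156672) (.S0 (.negSucc 244223) (.S1 (.ofNat 13824) (.S3 (.ofNat 152064) (.S0 (.negSucc 246527) (.S1 (.ofNat 11520) (.S3 (.ofNat 149760) (.L (.M i0 i3 i1 i2)) (.L (.M i0 i3 i1 i2))) (.L (.M i0 i1 i2 i3))) (.S1 (.ofNat 11520) (.S3 (.ofNat 149760) (.S0 (.negSucc 245375) (.L (.M i0 i3 i1 i2)) (.S1 (.ofNat 10368) (.L (.M i0 i3 i1 i2)) (.L (.M i0 i1 i2 i3)))) (.S0 (.negSucc 245375) (.S1 (.ofNat 10368) (.L (.M i0 i3 i1 i2)) (.L (.M i0 i1 i2 i3))) (.S1 (.ofNat 10368)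 (.S3 (.ofNat 150912) (.L (.M i0 i2 i1 i3)) (.L (.M i0 i2 i1 i3))) (.L (.M i0 i1 i2 i3))))) (.L (.M i0 i1 i2 i3)))) (.S0 (.negSucc 246527) (.S1 (.ofNat 11520) (.S3 (.ofNat 154368) (.S0 (.negSucc 247679) (.L (.M i0 i2 i1 i3)) (.S1 (.ofNat 10368) (.L (.M i0 i2 i1 i3)) (.L (.M i0 i1 i2 i3)))) (.S0 (.negSucc 247679) (.L (.M i0 i1 i2 i3)) (.L (.M i0 i1 i2 i3)))) (.L (.M i0 i1 i2 i3))) (.S1 (.ofNat 11520) (.S3 (.ofNat 154368) (.S0 (.negSucc 245375) (.S1 (.ofNat 10368) (.L (.M i0 i2 i1 i3)) (.L (.M i0 i1 i2 i3))) (.S1 (.ofNat 10368) (.S3 (.ofNat 153216) (.L (.M i0 i1 i2 i3)) (.L (.M i0 i1 i2 i3))) (.L (.M i0 i1 i2 i3)))) (.S0 (.negSucc 245375) (.L (.M i0 i1 i2 i3)) (.L (.M i0 i1 i2 i3)))) (.L (.M i0 i1 i2 i3))))) (.L (.M i0 i1 i2 i3))) (.S1 (.ofNat 13824) (.S3 (.ofNat 152064) (.S0 (.negSucc 241919) (.S1 (.ofNat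 11520) (.S3 (.ofNat 149760) (.S0 (.negSucc 243071) (.S1 (.ofNat 10368) (.S3 (.ofNat 148608) (.L (.M i0 i3 i1 i2)) (.L (.D ⟨(.ofNat 491), (.negSucc 76), (.negSucc 118), (.negSucc 76), (.ofNat 92), (.ofNat 44), (.negSucc 118), (.ofNat 44), (.negSucc 448)⟩))) (.L (.M i0 i1 i2 i3))) (.S1 (.ofNat 10368) (.S3 (.ofNat 148608) (.L (.D ⟨(.ofNat 503), (.negSucc 76), (.negSucc 127), (.negSucc 76), (.ofNat 94), (.ofNat 44), (.negSucc 127), (.ofNat 44), (.negSucc 444)⟩)) (.L (.D ⟨(.ofNat 505), (.negSucc 76), (.negSucc 122), (.negSucc 76), (.ofNat 93), (.ofNat 46), (.negSucc 122), (.ofNat 46), (.negSucc 456)⟩))) (.L (.M i0 i1 i2 i3)))) (.S0 (.negSucc 243071) (.S1 (.ofNat 10368) (.S3 (.ofNat 150912) (.L (.D ⟨(.ofNat 493), (.negSucc 75), (.negSucc 113), (.negSucc 75), (.ofNat 91), (.ofNat 46), (.negSucc 113), (.ofNat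 46), (.negSucc 460)⟩)) (.L (.D ⟨(.ofNat 494), (.negSucc 75), (.negSucc 107), (.negSucc 75), (.ofNat 89), (.ofNat 47), (.negSucc 107), (.ofNat 47), (.negSucc 472)⟩))) (.L (.M i0 i1 i2 i3))) (.S1 (.ofNat 10368) (.S3 (.ofNat 150912) (.L (.D ⟨(.ofNat 506), (.negSucc 75), (.negSucc 116), (.negSucc 75), (.ofNat 91), (.ofNat 47), (.negSucc 116), (.ofNat 47), (.negSucc 469)⟩)) (.L (.D ⟨(.ofNat 508), (.negSucc 75), (.negSucc 111), (.negSucc 75), (.ofNat 90), (.ofNat 49), (.negSucc 111), (.ofNat 49), (.negSucc 482)⟩))) (.L (.M i0 i1 i2 i3))))) (.L (.M i0 i1 i2 i3))) (.S1 (.ofNat 11520) (.S3 (.ofNat 149760) (.S0 (.negSucc 240767) (.S1 (.ofNat 10368) (.S3 (.ofNat 148608) (.L (.D ⟨(.ofNat 516), (.negSucc 76), (.negSucc 131), (.negSucc 76), (.ofNat 94), (.ofNat 46), (.negSucc 131), (.ofNat 46), (.negSucc 452)⟩))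 (.L (.D ⟨(.ofNat 518), (.negSucc 76), (.negSucc 126), (.negSucc 76), (.ofNat 93), (.ofNat 47), (.negSucc 126), (.ofNat 47), (.negSucc 465)⟩))) (.L (.M i0 i1 i2 i3))) (.S1 (.ofNat 10368) (.S3 (.ofNat 148608) (.L (.D ⟨(.ofNat 530), (.negSucc 76), (.negSucc 136), (.negSucc 76), (.ofNat 95), (.ofNat 47), (.negSucc 136), (.ofNat 47), (.negSucc 460)⟩)) (.L (.D ⟨(.ofNat 532), (.negSucc 75), (.negSucc 130), (.negSucc 75), (.ofNat 93), (.ofNat 48), (.negSucc 130), (.ofNat 48), (.negSucc 473)⟩))) (.L (.M i0 i1 i2 i3)))) (.S0 (.negSucc 240767) (.S1 (.ofNat 10368) (.S3 (.ofNat 150912) (.L (.D ⟨(.ofNat 520), (.negSucc 75), (.negSucc 120), (.negSucc 75), (.ofNat 91), (.ofNat 48), (.negSucc 120), (.ofNat 48), (.negSucc 477)⟩)) (.L (.D ⟨(.ofNat 522), (.negSucc 75), (.negSucc 115), (.negSucc 75), (.ofNat 90), (.ofNat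 50), (.negSucc 115), (.ofNat 50), (.negSucc 491)⟩))) (.L (.M i0 i1 i2 i3))) (.S1 (.ofNat 10368) (.S3 (.ofNat 150912) (.L (.D ⟨(.ofNat 534), (.negSucc 75), (.negSucc 124), (.negSucc 75), (.ofNat 91), (.ofNat 50), (.negSucc 124), (.ofNat 50), (.negSucc 486)⟩)) (.L (.N i1 i3 i0 i2))) (.L (.M i0 i1 i2 i3))))) (.L (.M i0 i1 i2 i3)))) (.S0 (.negSucc 241919) (.S1 (.ofNat 11520) (.S3 (.ofNat 154368) (.S0 (.negSucc 243071) (.S1 (.ofNat 10368) (.S3 (.ofNat 153216) (.L (.D ⟨(.ofNat 496), (.negSucc 74), (.negSucc 101), (.negSucc 74), (.ofNat 88), (.ofNat 49), (.negSucc 101), (.ofNat 49), (.negSucc 486)⟩)) (.L (.M i0 i1 i2 i3))) (.L (.M i0 i1 i2 i3))) (.S1 (.ofNat 10368) (.S3 (.ofNat 153216) (.L (.N i2 i3 i0 i1)) (.L (.M i0 i1 i2 i3))) (.L (.M i0 i1 i2 i3)))) (.S0 (.negSucc 243071) (.L (.M i0 i1 i2 i3)) (.L (.M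 i0 i1 i2 i3)))) (.L (.M i0 i1 i2 i3))) (.S1 (.ofNat 11520) (.S3 (.ofNat 154368) (.S0 (.negSucc 240767) (.S1 (.ofNat 10368) (.S3 (.ofNat 153216) (.L (.N i1 i3 i0 i2)) (.L (.M i0 i1 i2 i3))) (.L (.M i0 i1 i2 i3))) (.L (.N i1 i3 i0 i2))) (.L (.N i1 i3 i0 i2))) (.L (.M i0 i1 i2 i3))))) (.L (.M i0 i1 i2 i3)))) (.S0 (.negSucc 244223) (.S1 (.ofNat 13824) (.S3 (.ofNat 161280) (.S0 (.negSucc 246527) (.S1 (.ofNat 11520) (.L (.M i0 i1 i2 i3)) (.L (.M i0 i1 i2 i3))) (.S1 (.ofNat 11520) (.L (.M i0 i1 i2 i3)) (.L (.M i0 i1 i2 i3)))) (.L (.M i0 i1 i2 i3))) (.L (.M i0 i1 i2 i3))) (.S1 (.ofNat 13824) (.S3 (.ofNat 161280) (.S0 (.negSucc 241919) (.L (.N i1 i3 i0 i2)) (.L (.N i1 i3 i0 i2))) (.L (.M i0 i1 i2 i3))) (.L (.M i0 i1 i2 i3))))))) (.S0 (.negSucc 248831) (.S1 (.ofNat 9216) (.S3 (.ofNat 175104) (.S0 (.negSucc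 253439) (.S1 (.ofNat 4608) (.L (.N i0 i1 i2 i3)) (.S3 (.ofNat 170496) (.L (.M i0 i2 i1 i3)) (.L (.M i0 i2 i1 i3)))) (.S1 (.ofNat 4608) (.L (.N i0 i1 i2 i3)) (.S3 (.ofNat 170496) (.L (.N i2 i3 i0 i1)) (.L (.N i2 i3 i0 i1))))) (.S0 (.negSucc 253439) (.S1 (.ofNat 4608) (.L (.N i0 i1 i2 i3)) (.L (.N i2 i3 i0 i1))) (.S1 (.ofNat 4608) (.L (.N i0 i1 i2 i3)) (.L (.N i2 i3 i0 i1))))) (.S3 (.ofNat 175104) (.S0 (.negSucc 253439) (.S1 (.ofNat 13824) (.L (.M i0 i1 i2 i3)) (.L (.M i0 i1 i2 i3))) (.S1 (.ofNat 13824) (.L (.M i0 i1 i2 i3)) (.L (.M i0 i1 i2 i3)))) (.L (.M i0 i1 i2 i3)))) (.S1 (.ofNat 9216) (.S3 (.ofNat 175104) (.S0 (.negSucc 244223) (.S1 (.ofNat 4608) (.L (.N i0 i1 i2 i3)) (.S3 (.ofNat 170496) (.L (.N i2 i3 i0 i1)) (.L (.N i2 i3 i0 i1)))) (.S1 (.ofNat 4608) (.L (.N i0 i1 i2 i3)) (.S3 (.ofNat 170496)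 (.L (.N i0 i3 i1 i2)) (.L (.N i0 i3 i1 i2))))) (.S0 (.negSucc 244223) (.S1 (.ofNat 4608) (.L (.N i0 i1 i2 i3)) (.L (.N i0 i3 i1 i2))) (.L (.N i0 i3 i1 i2)))) (.S3 (.ofNat 175104) (.L (.N i1 i3 i0 i2)) (.L (.M i0 i1 i2 i3)))))) (.L (.M i0 i1 i2 i3))

def B38 : Box := ⟨⟨(.negSucc 258047), (.negSucc 239615)⟩, ⟨(.ofNat 0), (.ofNat 36864)⟩, ⟨(.ofNat 147456), (.ofNat 184320)⟩⟩

theorem ok38 : check T38 B38 = true := by decide +kernel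

def T42 : Tree := .S0 (.negSucc 258047) (.S1 (.ofNat 36864) (.S3 (.ofNat 258048) (.S0 (.negSucc 276479) (.S1 (.ofNat 18432) (.S3 (.ofNat 239616) (.S0 (.negSucc 285695) (.S1 (.ofNat 9216) (.L (.N i2 i3 i0 i1)) (.L (.M i0 i1 i2 i3))) (.S1 (.ofNat 9216) (.S3 (.ofNat 230400) (.L (.N i2 i3 i0 i1)) (.L (.N i0 i3 i1 i2))) (.L (.M i0 i1 i2 i3)))) (.S0 (.negSucc 285695) (.S1 (.ofNat 9216) (.S3 (.ofNat 248832) (.L (.N i0 i3 i1 i2)) (.L (.N i0 i3 i1 i2))) (.L (.M i0 i1 i2 i3))) (.S1 (.ofNat 9216) (.L (.N i0 i3 i1 i2)) (.L (.M i0 i1 i2 i3))))) (.L (.B i1 i3))) (.S1 (.ofNat 18432) (.S3 (.ofNat 239616) (.S0 (.negSucc 267263) (.S1 (.ofNat 9216) (.L (.N i0 i3 i1 i2)) (.L (.M i0 i1 i2 i3))) (.S1 (.ofNat 9216) (.L (.N i0 i3 i1 i2)) (.L (.M i0 i1 i2 i3)))) (.S0 (.negSucc 267263) (.S1 (.ofNat 9216) (.L (.N i0 i3 i1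 i2)) (.L (.M i0 i1 i2 i3))) (.S1 (.ofNat 9216) (.L (.N i0 i3 i1 i2)) (.L (.M i0 i1 i2 i3))))) (.L (.B i1 i3)))) (.S0 (.negSucc 276479) (.S1 (.ofNat 18432) (.S3 (.ofNat 276480) (.S0 (.negSucc 285695) (.S1 (.ofNat 9216) (.L (.N i0 i3 i1 i2)) (.L (.M i0 i1 i2 i3))) (.S1 (.ofNat 9216) (.L (.N i0 i3 i1 i2)) (.L (.M i0 i1 i2 i3)))) (.S0 (.negSucc 285695) (.S1 (.ofNat 9216) (.L (.N i0 i3 i1 i2)) (.L (.M i0 i1 i2 i3))) (.L (.N i1 i3 i0 i2)))) (.L (.B i1 i3))) (.S1 (.ofNat 18432) (.S3 (.ofNat 276480) (.S0 (.negSucc 267263) (.S1 (.ofNat 9216) (.L (.N i0 i3 i1 i2)) (.L (.M i0 i1 i2 i3))) (.L (.N i1 i3 i0 i2))) (.L (.N i1 i3 i0 i2))) (.L (.B i1 i3))))) (.L (.B i1 i3))) (.S1 (.ofNat 36864) (.S3 (.ofNat 258048) (.S0 (.negSucc 239615) (.S1 (.ofNat 18432) (.S3 (.ofNat 239616) (.S0 (.negSucc 248831) (.S1 (.ofNat 9216)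 (.L (.N i0 i3 i1 i2)) (.L (.M i0 i1 i2 i3))) (.L (.N i0 i3 i1 i2))) (.S0 (.negSucc 248831) (.L (.N i0 i3 i1 i2)) (.L (.N i1 i3 i0 i2)))) (.L (.B i1 i3))) (.S1 (.ofNat 18432) (.S3 (.ofNat 239616) (.S0 (.negSucc 230399) (.L (.N i0 i3 i1 i2)) (.L (.N i1 i3 i0 i2))) (.L (.N i1 i3 i0 i2))) (.L (.B i1 i3)))) (.S0 (.negSucc 239615) (.S1 (.ofNat 18432) (.S3 (.ofNat 276480) (.L (.N i1 i3 i0 i2)) (.L .Y)) (.L .Y)) (.L .Y))) (.L (.B i1 i3)))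

def B42 : Box := ⟨⟨(.negSucc 294911), (.negSucc 221183)⟩, ⟨(.ofNat 0), (.ofNat 73728)⟩, ⟨(.ofNat 221184), (.ofNat 294912)⟩⟩

theorem ok42 : check T42 B42 = true := by decide +kernel

end NonMorse.BB
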