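import Pool.Agent.Helper342.Alg.BBDefs

set_option linter.style.longLine false

namespace NonMorse.BB
open Ix

def T10 : Tree := .S0 (.negSucc 64511) (.S1 (.negSucc 46079) (.S3 (.negSucc 64511) (.L .O1) (.S0 (.negSucc 69119) (.L (.B i0 i3)) (.L (.N i2 i3 i0 i1)))) (.L .O1)) (.S1 (.negSucc 46079) (.S3 (.negSucc 64511) (.L .O1) (.S0 (.negSucc 59903) (.S1 (.negSucc 50687) (.S3 (.negSucc 59903) (.L .O1) (.S0 (.negSucc 62207) (.L (.M i0 i2 i1 i3)) (.S1 (.negSucc 52991) (.L (.M i0 i2 i1 i3)) (.L .O1)))) (.L .O1)) (.S1 (.negSucc 50687) (.S3 (.negSucc 59903) (.L .O1) (.S0 (.negSucc 57599) (.S1 (.negSucc 52991) (.S3 (.negSucc 57599) (.L .O1) (.S0 (.negSucc 58751) (.S1 (.negSucc 54143) (.L (.M i0 i2 i1 i3)) (.L .O1)) (.S1 (.negSucc 54143) (.S3 (.negSucc 56447) (.L .O1) (.S0 (.negSucc 58175) (.L (.M i0 i2 i1 i3)) (.S1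 (.negSucc 54719) (.S3 (.negSucc 55871) (.L .O1) (.L (.M i0 i2 i1 i3))) (.L .O1)))) (.L .O1)))) (.L .O1)) (.S1 (.negSucc 52991) (.S3 (.negSucc 57599) (.L .O1) (.S0 (.negSucc 56447) (.S1 (.negSucc 54143) (.S3 (.negSucc 56447) (.L .O1) (.S0 (.negSucc 57023) (.S1 (.negSucc 54719) (.S3 (.negSucc 55871) (.L .O1) (.L (.D ⟨(.ofNat 373), (.negSucc 155), (.negSucc 187), (.negSucc 155), (.ofNat 282), (.negSucc 55), (.negSucc 187), (.negSucc 55), (.ofNat 307)⟩))) (.L .O1)) (.S1 (.negSucc 54719) (.L (.D ⟨(.ofNat 356), (.negSucc 132), (.negSucc 182), (.negSucc 132), (.ofNat 285), (.negSucc 83), (.negSucc 182), (.negSucc 83), (.ofNat 323)⟩)) (.L .O1)))) (.L .O1)) (.S1 (.negSucc 54143) (.S3 (.negSucc 56447) (.L .O1) (.S0 (.negSucc 55871) (.S1 (.negSucc 54719) (.L (.D ⟨(.ofNat 356), (.negSucc 126), (.negSucc 179), (.negSucc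 126), (.ofNat 305), (.negSucc 110), (.negSucc 179), (.negSucc 110), (.ofNat 345)⟩)) (.L .O1)) (.S1 (.negSucc 54719) (.L (.N i1 i2 i0 i3)) (.L .O1)))) (.L .O1)))) (.L .O1)))) (.L .O1)))) (.L .O1))

def B10 : Box := ⟨⟨(.negSucc 73727), (.negSucc 55295)⟩, ⟨(.negSucc 55295), (.negSucc 36863)⟩, ⟨(.negSucc 73727), (.negSucc 55295)⟩⟩

theorem ok10 : check T10 B10 = true := by decide +kernel

def T17 : Tree := .S3 (.negSucc 36863) (.S0 (.negSucc 55295) (.S1 (.negSucc 18431) (.S3 (.negSucc 55295) (.L .O1) (.S0 (.negSucc 64511) (.S1 (.negSucc 27647) (.L (.N i1 i2 i0 i3)) (.L .O1)) (.L (.N i1 i2 i0 i3)))) (.L .O1)) (.S1 (.negSucc 18431) (.S3 (.negSucc 55295) (.L .O1) (.L (.N i1 i2 i0 i3))) (.L .O1))) (.S0 (.negSucc 55295) (.L (.N i0 i2 i1 i3)) (.L (.N i0 i2 i1 i3)))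

def B17 : Box := ⟨⟨(.negSucc 73727), (.negSucc 36863)⟩, ⟨(.negSucc 36863), (.ofNat 0)⟩, ⟨(.negSucc 73727), (.ofNat 0)⟩⟩

theorem ok17 : check T17 B17 = true := by decide +kernel

def T21 : Tree := .S1 (.negSucc 147455) (.L (.B i0 i1)) (.S3 (.ofNat 442368) (.S0 (.negSucc 516095) (.L (.B i2 i3)) (.S1 (.negSucc 73727) (.L (.B i0 i1)) (.S3 (.ofNat 368640) (.L (.B i2 i3)) (.S0 (.negSucc 479231) (.L (.M i0 i2 i1 i3)) (.S1 (.negSucc 36863) (.L (.B i0 i1)) (.S3 (.ofNat 405504) (.L (.M i0 i2 i1 i3)) (.S0 (.negSucc 460799) (.L (.M i0 i2 i1 i3)) (.S1 (.negSucc 18431) (.L (.B i0 i1)) (.S3 (.ofNat 423936) (.L (.M i0 i2 i1 i3)) (.S0 (.negSucc 451583) (.L (.N i0 i1 i2 i3)) (.S1 (.negSucc 9215) (.L (.B i0 i1)) (.L (.N i0 i1 i2 i3))))))))))))) (.S0 (.negSucc 516095) (.S1 (.negSucc 73727) (.L (.B i0 i1)) (.S3 (.ofNat 516096)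 (.S0 (.negSucc 552959) (.L (.M i0 i2 i1 i3)) (.S1 (.negSucc 36863) (.L (.B i0 i1)) (.S3 (.ofNat 479232) (.L (.M i0 i2 i1 i3)) (.S0 (.negSucc 534527) (.L (.M i0 i2 i1 i3)) (.S1 (.negSucc 18431) (.L (.B i0 i1)) (.S3 (.ofNat 497664) (.L (.M i0 i2 i1 i3)) (.S0 (.negSucc 525311) (.L (.M i0 i2 i1 i3)) (.S1 (.negSucc 9215) (.L (.B i0 i1)) (.L (.N i0 i1 i2 i3)))))))))) (.S0 (.negSucc 552959) (.S1 (.negSucc 36863) (.L (.B i0 i1)) (.S3 (.ofNat 552960) (.S0 (.negSucc 571391) (.L (.M i0 i2 i1 i3)) (.S1 (.negSucc 18431) (.L (.B i0 i1)) (.S3 (.ofNat 534528) (.L (.M i0 i2 i1 i3)) (.S0 (.negSucc 562175) (.L (.M i0 i2 i1 i3)) (.S1 (.negSucc 9215) (.L (.B i0 i1)) (.L (.N i0 i1 i2 i3))))))) (.S0 (.negSucc 571391) (.S1 (.negSucc 18431) (.L (.B i0 i1)) (.S3 (.ofNat 571392) (.S0 (.negSucc 580607) (.L (.M i0 i2 i1 i3)) (.S1 (.negSucc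 9215) (.L (.B i0 i1)) (.L (.N i0 i1 i2 i3)))) (.S0 (.negSucc 580607) (.S1 (.negSucc 9215) (.L (.B i0 i1)) (.L (.N i0 i1 i2 i3))) (.S1 (.negSucc 9215) (.L (.B i0 i1)) (.L (.N i0 i3 i1 i2)))))) (.S1 (.negSucc 18431) (.L (.B i0 i1)) (.S3 (.ofNat 571392) (.S0 (.negSucc 562175) (.S1 (.negSucc 9215) (.L (.B i0 i1)) (.L (.N i0 i1 i2 i3))) (.S1 (.negSucc 9215) (.L (.B i0 i1)) (.L (.N i0 i3 i1 i2)))) (.S0 (.negSucc 562175) (.S1 (.negSucc 9215) (.L (.B i0 i1)) (.S3 (.ofNat 580608) (.L (.N i0 i3 i1 i2)) (.S0 (.negSucc 566783) (.L (.N i0 i3 i1 i2)) (.L .Y)))) (.S1 (.negSucc 9215) (.L (.B i0 i1)) (.S3 (.ofNat 580608) (.S0 (.negSucc 557567) (.L (.N i0 i3 i1 i2)) (.L .Y)) (.L .Y))))))))) (.S1 (.negSucc 36863) (.L (.B i0 i1)) (.S3 (.ofNat 552960) (.S0 (.negSucc 534527) (.S1 (.negSucc 18431) (.L (.B i0 i1)) (.S3 (.ofNat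 534528) (.S0 (.negSucc 543743) (.L (.M i0 i2 i1 i3)) (.S1 (.negSucc 9215) (.L (.B i0 i1)) (.L (.N i0 i1 i2 i3)))) (.S0 (.negSucc 543743) (.S1 (.negSucc 9215) (.L (.B i0 i1)) (.L (.N i0 i1 i2 i3))) (.S1 (.negSucc 9215) (.L (.B i0 i1)) (.L (.N i0 i3 i1 i2)))))) (.S1 (.negSucc 18431) (.L (.B i0 i1)) (.S3 (.ofNat 534528) (.S0 (.negSucc 525311) (.S1 (.negSucc 9215) (.L (.B i0 i1)) (.L (.N i0 i1 i2 i3))) (.S1 (.negSucc 9215) (.L (.B i0 i1)) (.L (.N i0 i3 i1 i2)))) (.S0 (.negSucc 525311) (.S1 (.negSucc 9215) (.L (.B i0 i1)) (.S3 (.ofNat 543744) (.L (.N i0 i3 i1 i2)) (.S0 (.negSucc 529919) (.L (.N i0 i3 i1 i2)) (.L .Y)))) (.S1 (.negSucc 9215) (.L (.B i0 i1)) (.S3 (.ofNat 543744) (.S0 (.negSucc 520703) (.L (.N i0 i3 i1 i2)) (.L .Y)) (.L .Y))))))) (.S0 (.negSucc 534527) (.S1 (.negSucc 18431) (.L (.B i0 i1)) (.S3 (.ofNat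 571392) (.S0 (.negSucc 543743) (.S1 (.negSucc 9215) (.L (.B i0 i1)) (.S3 (.ofNat 562176) (.L (.N i0 i3 i1 i2)) (.S0 (.negSucc 548351) (.L (.N i0 i3 i1 i2)) (.L .Y)))) (.S1 (.negSucc 9215) (.L (.B i0 i1)) (.S3 (.ofNat 562176) (.S0 (.negSucc 539135) (.L (.N i0 i3 i1 i2)) (.L .Y)) (.L .Y)))) (.S0 (.negSucc 543743) (.S1 (.negSucc 9215) (.L (.B i0 i1)) (.L .Y)) (.L .Y)))) (.S1 (.negSucc 18431) (.L (.B i0 i1)) (.S3 (.ofNat 571392) (.S0 (.negSucc 525311) (.S1 (.negSucc 9215) (.L (.B i0 i1)) (.L .Y)) (.L .Y)) (.L .Y))))))))) (.S1 (.negSucc 73727) (.L (.B i0 i1)) (.S3 (.ofNat 516096) (.S0 (.negSucc 479231) (.S1 (.negSucc 36863) (.L (.B i0 i1)) (.S3 (.ofNat 479232) (.S0 (.negSucc 497663) (.L (.M i0 i2 i1 i3)) (.S1 (.negSucc 18431) (.L (.B i0 i1)) (.S3 (.ofNat 460800) (.L (.M i0 i2 i1 i3)) (.S0 (.negSucc 488447) (.L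 (.N i0 i1 i2 i3)) (.S1 (.negSucc 9215) (.L (.B i0 i1)) (.L (.N i0 i1 i2 i3))))))) (.S0 (.negSucc 497663) (.S1 (.negSucc 18431) (.L (.B i0 i1)) (.S3 (.ofNat 497664) (.S0 (.negSucc 506879) (.L (.M i0 i2 i1 i3)) (.S1 (.negSucc 9215) (.L (.B i0 i1)) (.L (.N i0 i1 i2 i3)))) (.S0 (.negSucc 506879) (.S1 (.negSucc 9215) (.L (.B i0 i1)) (.L (.N i0 i1 i2 i3))) (.S1 (.negSucc 9215) (.L (.B i0 i1)) (.L (.N i0 i3 i1 i2)))))) (.S1 (.negSucc 18431) (.L (.B i0 i1)) (.S3 (.ofNat 497664) (.S0 (.negSucc 488447) (.S1 (.negSucc 9215) (.L (.B i0 i1)) (.L (.N i0 i1 i2 i3))) (.S1 (.negSucc 9215) (.L (.B i0 i1)) (.L (.N i0 i3 i1 i2)))) (.S0 (.negSucc 488447) (.S1 (.negSucc 9215) (.L (.B i0 i1)) (.L (.N i0 i3 i1 i2))) (.S1 (.negSucc 9215) (.L (.B i0 i1)) (.S3 (.ofNat 506880) (.L (.N i0 i3 i1 i2)) (.L .Y))))))))) (.S1 (.negSucc 36863)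 (.L (.B i0 i1)) (.S3 (.ofNat 479232) (.S0 (.negSucc 460799) (.S1 (.negSucc 18431) (.L (.B i0 i1)) (.S3 (.ofNat 460800) (.S0 (.negSucc 470015) (.L (.N i0 i1 i2 i3)) (.S1 (.negSucc 9215) (.L (.B i0 i1)) (.L (.N i0 i1 i2 i3)))) (.S0 (.negSucc 470015) (.S1 (.negSucc 9215) (.L (.B i0 i1)) (.L (.N i0 i1 i2 i3))) (.S1 (.negSucc 9215) (.L (.B i0 i1)) (.L (.N i0 i3 i1 i2)))))) (.S1 (.negSucc 18431) (.L (.B i0 i1)) (.S3 (.ofNat 460800) (.S0 (.negSucc 451583) (.S1 (.negSucc 9215) (.L (.B i0 i1)) (.L (.N i0 i1 i2 i3))) (.S1 (.negSucc 9215) (.L (.B i0 i1)) (.L (.N i0 i3 i1 i2)))) (.S0 (.negSucc 451583) (.S1 (.negSucc 9215) (.L (.B i0 i1)) (.L (.N i0 i3 i1 i2))) (.S1 (.negSucc 9215) (.L (.B i0 i1)) (.S3 (.ofNat 470016) (.L (.N i0 i3 i1 i2)) (.L .Y))))))) (.S0 (.negSucc 460799) (.S1 (.negSucc 18431) (.L (.B i0 i1)) (.S3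 (.ofNat 497664) (.S0 (.negSucc 470015) (.S1 (.negSucc 9215) (.L (.B i0 i1)) (.L (.N i0 i3 i1 i2))) (.S1 (.negSucc 9215) (.L (.B i0 i1)) (.S3 (.ofNat 488448) (.L (.N i0 i3 i1 i2)) (.L .Y)))) (.S0 (.negSucc 470015) (.S1 (.negSucc 9215) (.L (.B i0 i1)) (.L .Y)) (.L .Y)))) (.S1 (.negSucc 18431) (.L (.B i0 i1)) (.S3 (.ofNat 497664) (.S0 (.negSucc 451583) (.S1 (.negSucc 9215) (.L (.B i0 i1)) (.L .Y)) (.L .Y)) (.L .Y))))))) (.S0 (.negSucc 479231) (.S1 (.negSucc 36863) (.L (.B i0 i1)) (.S3 (.ofNat 552960) (.S0 (.negSucc 497663) (.S1 (.negSucc 18431) (.L (.B i0 i1)) (.S3 (.ofNat 534528) (.S0 (.negSucc 506879) (.S1 (.negSucc 9215) (.L (.B i0 i1)) (.S3 (.ofNat 525312) (.L (.N i0 i3 i1 i2)) (.S0 (.negSucc 511487) (.L (.N i0 i3 i1 i2)) (.L .Y)))) (.S1 (.negSucc 9215) (.L (.B i0 i1)) (.S3 (.ofNat 525312) (.L (.N i0 i3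 i1 i2)) (.L .Y)))) (.S0 (.negSucc 506879) (.S1 (.negSucc 9215) (.L (.B i0 i1)) (.L .Y)) (.L .Y)))) (.S1 (.negSucc 18431) (.L (.B i0 i1)) (.S3 (.ofNat 534528) (.S0 (.negSucc 488447) (.S1 (.negSucc 9215) (.L (.B i0 i1)) (.L .Y)) (.L .Y)) (.L .Y)))) (.S0 (.negSucc 497663) (.S1 (.negSucc 18431) (.L (.B i0 i1)) (.L .Y)) (.L .Y)))) (.S1 (.negSucc 36863) (.L (.B i0 i1)) (.S3 (.ofNat 552960) (.S0 (.negSucc 460799) (.S1 (.negSucc 18431) (.L (.B i0 i1)) (.L .Y)) (.L .Y)) (.L .Y))))))))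

def B21 : Box := ⟨⟨(.negSucc 589823), (.negSucc 442367)⟩, ⟨(.negSucc 294911), (.ofNat 0)⟩, ⟨(.ofNat 294912), (.ofNat 589824)⟩⟩

theorem ok21 : check T21 B21 = true := by decide +kernel

def T25 : Tree := .S1 (.negSucc 147455) (.S3 (.ofNat 147456) (.S0 (.negSucc 73727) (.L (.B i0 i1)) (.L .O0)) (.S0 (.negSucc 73727) (.L (.B i0 i1)) (.L .O0))) (.S3 (.ofNat 147456) (.S0 (.negSucc 73727) (.S1 (.negSucc 73727) (.L (.B i0 i1)) (.S3 (.ofNat 73728) (.S0 (.negSucc 110591) (.S1 (.negSucc 36863) (.L (.B i0 i1)) (.S3 (.ofNat 36864) (.S0 (.negSucc 129023) (.L (.N i0 i1 i2 i3)) (.L (.N i0 i1 i2 i3))) (.S0 (.negSucc 129023) (.S1 (.negSucc 18431) (.L (.N i0 i1 i2 i3)) (.L (.N i0 i1 i2 i3))) (.S1 (.negSucc 18431) (.L (.N i0 i1 i2 i3)) (.L (.N i0 i1 i2 i3)))))) (.S1 (.negSucc 36863) (.S3 (.ofNat 36864) (.S0 (.negSucc 92159)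 (.L (.M i1 i3 i0 i2)) (.S1 (.negSucc 55295) (.L (.B i0 i1)) (.L (.M i2 i3 i0 i1)))) (.S0 (.negSucc 92159) (.L (.M i1 i3 i0 i2)) (.S1 (.negSucc 55295) (.L (.B i0 i1)) (.S3 (.ofNat 55296) (.L (.N i0 i1 i2 i3)) (.L (.N i0 i1 i2 i3)))))) (.S3 (.ofNat 36864) (.S0 (.negSucc 92159) (.S1 (.negSucc 18431) (.L (.N i0 i1 i2 i3)) (.L (.N i0 i1 i2 i3))) (.S1 (.negSucc 18431) (.L (.N i0 i1 i2 i3)) (.L (.N i0 i1 i2 i3)))) (.S0 (.negSucc 92159) (.S1 (.negSucc 18431) (.L (.N i0 i1 i2 i3)) (.L (.N i0 i1 i2 i3))) (.S1 (.negSucc 18431) (.L (.N i0 i1 i2 i3)) (.L (.N i0 i1 i2 i3))))))) (.S0 (.negSucc 110591) (.S1 (.negSucc 36863) (.L (.B i0 i1)) (.S3 (.ofNat 110592) (.S0 (.negSucc 129023) (.S1 (.negSucc 18431) (.L (.N i0 i1 i2 i3)) (.L (.N i0 i1 i2 i3))) (.S1 (.negSucc 18431) (.L (.N i0 i1 i2 i3)) (.L (.N i0 i1 i2 i3)))) (.S0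 (.negSucc 129023) (.S1 (.negSucc 18431) (.L (.N i0 i1 i2 i3)) (.L (.N i0 i3 i1 i2))) (.S1 (.negSucc 18431) (.L (.N i0 i1 i2 i3)) (.L (.N i0 i3 i1 i2)))))) (.S1 (.negSucc 36863) (.S3 (.ofNat 110592) (.S0 (.negSucc 92159) (.L (.M i1 i2 i0 i3)) (.S1 (.negSucc 55295) (.L (.B i0 i1)) (.S3 (.ofNat 92160) (.L (.N i0 i1 i2 i3)) (.L (.N i0 i1 i2 i3))))) (.S0 (.negSucc 92159) (.L (.M i1 i2 i0 i3)) (.S1 (.negSucc 55295) (.L (.B i0 i1)) (.S3 (.ofNat 129024) (.L (.N i0 i1 i2 i3)) (.L (.M i1 i2 i0 i3)))))) (.S3 (.ofNat 110592) (.S0 (.negSucc 92159) (.S1 (.negSucc 18431) (.L (.N i0 i1 i2 i3)) (.L (.N i0 i3 i1 i2))) (.S1 (.negSucc 18431) (.S3 (.ofNat 92160) (.L (.N i0 i1 i2 i3)) (.L (.N i0 i1 i2 i3))) (.L (.N i0 i3 i1 i2)))) (.S0 (.negSucc 92159) (.S1 (.negSucc 18431) (.L (.N i0 i1 i2 i3)) (.L (.N i0 i3 i1 i2))) (.S1 (.negSucc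 18431) (.S3 (.ofNat 129024) (.L (.N i2 i3 i0 i1)) (.L (.N i2 i3 i0 i1))) (.L (.N i0 i3 i1 i2))))))))) (.S1 (.negSucc 73727) (.S3 (.ofNat 73728) (.S0 (.negSucc 36863) (.S1 (.negSucc 110591) (.L .O0) (.S3 (.ofNat 36864) (.S0 (.negSucc 55295) (.L (.B i0 i1)) (.L .O0)) (.S0 (.negSucc 55295) (.L (.B i0 i1)) (.L .O0)))) (.L .O0)) (.S0 (.negSucc 36863) (.S1 (.negSucc 110591) (.L .O0) (.S3 (.ofNat 110592) (.S0 (.negSucc 55295) (.L (.B i0 i1)) (.L .O0)) (.S0 (.negSucc 55295) (.L (.B i0 i1)) (.L .O0)))) (.L .O0))) (.S3 (.ofNat 73728) (.S0 (.negSucc 36863) (.S1 (.negSucc 36863) (.S3 (.ofNat 36864) (.S0 (.negSucc 55295) (.S1 (.negSucc 55295) (.L (.M i2 i3 i0 i1)) (.S3 (.ofNat 18432) (.L (.M i2 i3 i0 i1)) (.L (.M i2 i3 i0 i1)))) (.S1 (.negSucc 55295) (.S3 (.ofNat 18432) (.L (.M i2 i3 i0 i1)) (.L (.M i2 i3 i0 i1))) (.S3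 (.ofNat 18432) (.L (.M i2 i3 i0 i1)) (.S0 (.negSucc 46079) (.L (.M i2 i3 i0 i1)) (.L (.N i0 i2 i1 i3)))))) (.S0 (.negSucc 55295) (.S1 (.negSucc 55295) (.S3 (.ofNat 55296) (.L (.M i2 i3 i0 i1)) (.S0 (.negSucc 64511) (.L (.M i0 i3 i1 i2)) (.S1 (.negSucc 64511) (.L (.M i0 i2 i1 i3)) (.S3 (.ofNat 64512) (.L (.M i0 i3 i1 i2)) (.L (.M i0 i3 i1 i2)))))) (.S3 (.ofNat 55296) (.S0 (.negSucc 64511) (.S1 (.negSucc 46079) (.L (.N i0 i1 i2 i3)) (.L (.N i0 i1 i2 i3))) (.S1 (.negSucc 46079) (.S3 (.ofNat 46080) (.L (.M i2 i3 i0 i1)) (.L (.M i2 i3 i0 i1))) (.S3 (.ofNat 46080) (.L (.N i0 i1 i2 i3)) (.L (.N i0 i1 i2 i3))))) (.S0 (.negSucc 64511) (.S1 (.negSucc 46079) (.L (.N i0 i1 i2 i3)) (.L (.N i0 i1 i2 i3))) (.S1 (.negSucc 46079) (.S3 (.ofNat 64512) (.S0 (.negSucc 59903) (.S1 (.negSucc 50687) (.L (.N i0 i1 i2 i3)) (.L (.N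 i0 i1 i2 i3))) (.S1 (.negSucc 50687) (.S3 (.ofNat 59904) (.L (.M i2 i3 i0 i1)) (.S0 (.negSucc 57599) (.L (.N i0 i1 i2 i3)) (.S1 (.negSucc 52991) (.L (.M i0 i3 i1 i2)) (.L (.N i0 i1 i2 i3))))) (.L (.N i0 i1 i2 i3)))) (.S0 (.negSucc 59903) (.S1 (.negSucc 50687) (.L (.N i0 i1 i2 i3)) (.L (.N i0 i1 i2 i3))) (.S1 (.negSucc 50687) (.S3 (.ofNat 69120) (.S0 (.negSucc 57599) (.L (.N i0 i1 i2 i3)) (.S1 (.negSucc 52991) (.L (.M i1 i3 i0 i2)) (.L (.N i0 i1 i2 i3)))) (.S0 (.negSucc 57599) (.L (.N i0 i1 i2 i3)) (.S1 (.negSucc 52991) (.L (.M i1 i2 i0 i3)) (.L (.N i0 i1 i2 i3))))) (.L (.N i0 i1 i2 i3))))) (.S3 (.ofNat 64512) (.L (.N i0 i1 i2 i3)) (.L (.N i0 i1 i2 i3))))))) (.S1 (.negSucc 55295) (.S3 (.ofNat 55296) (.S0 (.negSucc 46079) (.S1 (.negSucc 64511) (.L .O0) (.S3 (.ofNat 46080) (.L (.M i2 i3 i0 i1)) (.L (.M i2 i3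 i0 i1)))) (.L .O0)) (.S0 (.negSucc 46079) (.S1 (.negSucc 64511) (.L .O0) (.S3 (.ofNat 64512) (.S0 (.negSucc 50687) (.S1 (.negSucc 59903) (.L .O0) (.S3 (.ofNat 59904) (.L (.M i2 i3 i0 i1)) (.S0 (.negSucc 52991) (.L (.M i0 i3 i1 i2)) (.L .O0)))) (.L .O0)) (.S0 (.negSucc 50687) (.S1 (.negSucc 59903) (.L .O0) (.S3 (.ofNat 69120) (.S0 (.negSucc 52991) (.L (.M i0 i3 i1 i2)) (.L .O0)) (.S0 (.negSucc 52991) (.L (.M i0 i3 i1 i2)) (.L .O0)))) (.L .O0)))) (.L .O0))) (.S3 (.ofNat 55296) (.S0 (.negSucc 46079) (.S1 (.negSucc 46079) (.S3 (.ofNat 46080) (.L (.M i2 i3 i0 i1)) (.S0 (.negSucc 50687) (.S1 (.negSucc 50687) (.L (.M i2 i3 i0 i1)) (.L (.N i0 i2 i1 i3))) (.S1 (.negSucc 50687) (.L (.N i1 i2 i0 i3)) (.L (.N i0 i2 i1 i3))))) (.L (.N i0 i2 i1 i3))) (.S1 (.negSucc 46079) (.L (.N i1 i2 i0 i3)) (.L (.N i0 i2 i1 i3))))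 (.S0 (.negSucc 46079) (.S1 (.negSucc 46079) (.S3 (.ofNat 64512) (.S0 (.negSucc 50687) (.S1 (.negSucc 50687) (.S3 (.ofNat 59904) (.L (.M i2 i3 i0 i1)) (.S0 (.negSucc 52991) (.S1 (.negSucc 52991) (.L (.D ⟨(.negSucc 207), (.ofNat 338), (.negSucc 100), (.ofNat 338), (.negSucc 207), (.negSucc 100), (.negSucc 100), (.negSucc 100), (.negSucc 450)⟩)) (.L (.D ⟨(.negSucc 223), (.ofNat 370), (.negSucc 110), (.ofNat 370), (.negSucc 204), (.negSucc 127), (.negSucc 110), (.negSucc 127), (.negSucc 421)⟩))) (.S1 (.negSucc 52991) (.L (.D ⟨(.negSucc 204), (.ofNat 370), (.negSucc 127), (.ofNat 370), (.negSucc 223), (.negSucc 110), (.negSucc 127), (.negSucc 110), (.negSucc 421)⟩)) (.L (.D ⟨(.negSucc 217), (.ofNat 402), (.negSucc 140), (.ofNat 402), (.negSucc 217), (.negSucc 140), (.negSucc 140), (.negSucc 140), (.negSucc 388)⟩)))))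 (.S3 (.ofNat 59904) (.L (.N i0 i2 i1 i3)) (.S0 (.negSucc 52991) (.L (.D ⟨(.negSucc 246), (.ofNat 417), (.negSucc 126), (.ofNat 417), (.negSucc 196), (.negSucc 172), (.negSucc 126), (.negSucc 172), (.negSucc 376)⟩)) (.L (.N i0 i2 i1 i3))))) (.S1 (.negSucc 50687) (.S3 (.ofNat 59904) (.L (.N i1 i2 i0 i3)) (.S0 (.negSucc 48383) (.L (.D ⟨(.negSucc 203), (.ofNat 416), (.negSucc 164), (.ofNat 416), (.negSucc 237), (.negSucc 134), (.negSucc 164), (.negSucc 134), (.negSucc 375)⟩)) (.L .O0))) (.L (.N i0 i3 i1 i2)))) (.S0 (.negSucc 50687) (.S1 (.negSucc 50687) (.S3 (.ofNat 69120) (.S0 (.negSucc 52991) (.S1 (.negSucc 52991) (.L (.D ⟨(.negSucc 209), (.ofNat 339), (.negSucc 100), (.ofNat 339), (.negSucc 209), (.negSucc 100), (.negSucc 100), (.negSucc 100), (.negSucc 452)⟩)) (.L (.D ⟨(.negSucc 225), (.ofNat 372), (.negSucc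 110), (.ofNat 372), (.negSucc 206), (.negSucc 128), (.negSucc 110), (.negSucc 128), (.negSucc 423)⟩))) (.S1 (.negSucc 52991) (.L (.D ⟨(.negSucc 206), (.ofNat 372), (.negSucc 128), (.ofNat 372), (.negSucc 225), (.negSucc 110), (.negSucc 128), (.negSucc 110), (.negSucc 423)⟩)) (.L (.D ⟨(.negSucc 220), (.ofNat 404), (.negSucc 140), (.ofNat 404), (.negSucc 220), (.negSucc 140), (.negSucc 140), (.negSucc 140), (.negSucc 391)⟩)))) (.S0 (.negSucc 52991) (.S1 (.negSucc 52991) (.L (.D ⟨(.negSucc 211), (.ofNat 341), (.negSucc 100), (.ofNat 341), (.negSucc 211), (.negSucc 100), (.negSucc 100), (.negSucc 100), (.negSucc 456)⟩)) (.L (.D ⟨(.negSucc 228), (.ofNat 374), (.negSucc 111), (.ofNat 374), (.negSucc 209), (.negSucc 128), (.negSucc 111), (.negSucc 128), (.negSucc 427)⟩))) (.S1 (.negSucc 52991) (.L (.D ⟨(.negSucc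 209), (.ofNat 374), (.negSucc 128), (.ofNat 374), (.negSucc 228), (.negSucc 111), (.negSucc 128), (.negSucc 111), (.negSucc 427)⟩)) (.L (.N i2 i3 i0 i1))))) (.S3 (.ofNat 69120) (.L (.N i0 i3 i1 i2)) (.L (.N i0 i3 i1 i2)))) (.S1 (.negSucc 50687) (.S3 (.ofNat 69120) (.L (.N i1 i3 i0 i2)) (.L (.N i1 i3 i0 i2))) (.L (.N i0 i3 i1 i2))))) (.L (.N i0 i3 i1 i2))) (.S1 (.negSucc 46079) (.L (.N i1 i3 i0 i2)) (.L (.N i0 i3 i1 i2)))))))) (.S3 (.ofNat 36864) (.S0 (.negSucc 55295) (.L (.N i0 i2 i1 i3)) (.S1 (.negSucc 18431) (.L (.N i0 i2 i1 i3)) (.L (.N i0 i1 i2 i3)))) (.S0 (.negSucc 55295) (.S1 (.negSucc 18431) (.S3 (.ofNat 55296) (.S0 (.negSucc 64511) (.L (.N i0 i1 i2 i3)) (.L (.N i0 i1 i2 i3))) (.L (.N i0 i3 i1 i2))) (.L (.N i0 i3 i1 i2))) (.L (.N i0 i3 i1 i2))))) (.S1 (.negSucc 36863) (.S3 (.ofNat 36864) (.S0 (.negSucc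 18431) (.S1 (.negSucc 55295) (.L .O0) (.L (.N i1 i2 i0 i3))) (.L .O0)) (.S0 (.negSucc 18431) (.S1 (.negSucc 55295) (.L .O0) (.L (.N i1 i3 i0 i2))) (.L .O0))) (.S3 (.ofNat 36864) (.S0 (.negSucc 18431) (.S1 (.negSucc 18431) (.S3 (.ofNat 18432) (.L (.N i0 i2 i1 i3)) (.L (.N i0 i3 i1 i2))) (.L (.N i0 i3 i1 i2))) (.S1 (.negSucc 18431) (.L (.N i1 i3 i0 i2)) (.S3 (.ofNat 18432) (.L (.D ⟨(.negSucc 824), (.ofNat 219), (.ofNat 324), (.ofNat 219), (.negSucc 824), (.ofNat 324), (.ofNat 324), (.ofNat 324), (.negSucc 876)⟩)) (.L (.N i0 i3 i1 i2))))) (.S0 (.negSucc 18431) (.L (.N i0 i3 i1 i2)) (.L (.N i0 i3 i1 i2)))))) (.S0 (.negSucc 36863) (.S1 (.negSucc 36863) (.S3 (.ofNat 110592) (.S0 (.negSucc 55295) (.S1 (.negSucc 55295) (.S3 (.ofNat 92160) (.S0 (.negSucc 64511) (.L (.M i0 i2 i1 i3)) (.S1 (.negSucc 64511) (.L (.M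 i0 i2 i1 i3)) (.S3 (.ofNat 82944) (.S0 (.negSucc 59903) (.L (.M i0 i2 i1 i3)) (.L (.M i0 i3 i1 i2))) (.L (.M i0 i2 i1 i3))))) (.S0 (.negSucc 64511) (.L (.M i0 i2 i1 i3)) (.S1 (.negSucc 64511) (.L (.M i0 i2 i1 i3)) (.L (.M i0 i2 i1 i3))))) (.S3 (.ofNat 92160) (.S0 (.negSucc 64511) (.S1 (.negSucc 46079) (.L (.N i0 i1 i2 i3)) (.L (.N i0 i1 i2 i3))) (.S1 (.negSucc 46079) (.S3 (.ofNat 82944) (.S0 (.negSucc 59903) (.S1 (.negSucc 50687) (.L (.N i0 i1 i2 i3)) (.L (.N i0 i1 i2 i3))) (.S1 (.negSucc 50687) (.S3 (.ofNat 78336) (.S0 (.negSucc 57599) (.L (.N i0 i1 i2 i3)) (.S1 (.negSucc 52991) (.L (.M i0 i2 i1 i3)) (.L (.N i0 i1 i2 i3)))) (.L (.M i1 i2 i0 i3))) (.L (.N i0 i1 i2 i3)))) (.S0 (.negSucc 59903) (.L (.M i1 i2 i0 i3)) (.L (.N i2 i3 i0 i1)))) (.S3 (.ofNat 82944) (.L (.N i0 i1 i2 i3)) (.L (.N i0 i1 i2 i3)))))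 (.S0 (.negSucc 64511) (.S1 (.negSucc 46079) (.L (.N i0 i1 i2 i3)) (.L (.N i0 i1 i2 i3))) (.L (.N i2 i3 i0 i1))))) (.S1 (.negSucc 55295) (.S3 (.ofNat 92160) (.S0 (.negSucc 46079) (.S1 (.negSucc 64511) (.L .O0) (.S3 (.ofNat 82944) (.S0 (.negSucc 50687) (.S1 (.negSucc 59903) (.L .O0) (.S3 (.ofNat 78336) (.S0 (.negSucc 52991) (.L (.M i0 i2 i1 i3)) (.L .O0)) (.L (.M i0 i2 i1 i3)))) (.L .O0)) (.S0 (.negSucc 50687) (.L (.M i0 i2 i1 i3)) (.L .O0)))) (.L .O0)) (.S0 (.negSucc 46079) (.S1 (.negSucc 64511) (.L .O0) (.L (.N i2 i3 i0 i1))) (.L .O0))) (.S3 (.ofNat 92160) (.S0 (.negSucc 46079) (.S1 (.negSucc 46079) (.S3 (.ofNat 82944) (.S0 (.negSucc 50687) (.S1 (.negSucc 50687) (.S3 (.ofNat 78336) (.L (.N i2 i3 i0 i1)) (.L (.N i2 i3 i0 i1))) (.L (.N i0 i3 i1 i2))) (.L (.N i2 i3 i0 i1))) (.L (.N i2 i3 i0 i1))) (.L (.N i0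 i3 i1 i2))) (.L (.N i1 i3 i0 i2))) (.L (.N i2 i3 i0 i1))))) (.S0 (.negSucc 55295) (.S1 (.negSucc 55295) (.S3 (.ofNat 129024) (.S0 (.negSucc 64511) (.L (.M i0 i2 i1 i3)) (.L (.M i0 i2 i1 i3))) (.L (.M i0 i2 i1 i3))) (.S3 (.ofNat 129024) (.L (.N i2 i3 i0 i1)) (.L (.N i2 i3 i0 i1)))) (.S1 (.negSucc 55295) (.S3 (.ofNat 129024) (.L (.N i2 i3 i0 i1)) (.L (.N i2 i3 i0 i1))) (.L (.N i2 i3 i0 i1))))) (.S3 (.ofNat 110592) (.S0 (.negSucc 55295) (.S1 (.negSucc 18431) (.L (.N i0 i3 i1 i2)) (.L (.N i0 i3 i1 i2))) (.L (.N i0 i3 i1 i2))) (.S0 (.negSucc 55295) (.S1 (.negSucc 18431) (.L (.N i2 i3 i0 i1)) (.L .Y)) (.L .Y)))) (.S1 (.negSucc 36863) (.S3 (.ofNat 110592) (.S0 (.negSucc 18431) (.S1 (.negSucc 55295) (.L .O0) (.L (.N i1 i3 i0 i2))) (.L .O0)) (.S0 (.negSucc 18431) (.S1 (.negSucc 55295) (.L .O0) (.L .Y)) (.L .O0)))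 (.L (.N i2 i3 i0 i1))))))) (.S0 (.negSucc 73727) (.S1 (.negSucc 73727) (.L (.B i0 i1)) (.S3 (.ofNat 221184) (.S0 (.negSucc 110591) (.S1 (.negSucc 36863) (.L (.B i0 i1)) (.S3 (.ofNat 184320) (.S0 (.negSucc 129023) (.S1 (.negSucc 18431) (.L (.N i0 i1 i2 i3)) (.L (.N i0 i3 i1 i2))) (.S1 (.negSucc 18431) (.L (.N i0 i1 i2 i3)) (.L (.N i0 i3 i1 i2)))) (.S0 (.negSucc 129023) (.S1 (.negSucc 18431) (.L (.N i0 i1 i2 i3)) (.L .Y)) (.L .Y)))) (.S1 (.negSucc 36863) (.S3 (.ofNat 184320) (.S0 (.negSucc 92159) (.L (.M i1 i2 i0 i3)) (.S1 (.negSucc 55295) (.L (.B i0 i1)) (.L (.M i1 i2 i0 i3)))) (.S0 (.negSucc 92159) (.L (.M i1 i2 i0 i3)) (.L .Y))) (.S3 (.ofNat 184320) (.S0 (.negSucc 92159) (.S1 (.negSucc 18431) (.S3 (.ofNat 165888) (.S0 (.negSucc 101375) (.L (.N i0 i1 i2 i3)) (.L .Y)) (.L .Y)) (.L .Y)) (.L .Y)) (.L .Y))))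 (.S0 (.negSucc 110591) (.S1 (.negSucc 36863) (.L (.B i0 i1)) (.L .Y)) (.L .Y)))) (.S1 (.negSucc 73727) (.S3 (.ofNat 221184) (.S0 (.negSucc 36863) (.S1 (.negSucc 110591) (.L .O0) (.S3 (.ofNat 184320) (.S0 (.negSucc 55295) (.L (.B i0 i1)) (.L .O0)) (.S0 (.negSucc 55295) (.L (.B i0 i1)) (.L .O0)))) (.L .O0)) (.S0 (.negSucc 36863) (.S1 (.negSucc 110591) (.L .O0) (.L .Y)) (.L .O0))) (.S3 (.ofNat 221184) (.S0 (.negSucc 36863) (.S1 (.negSucc 36863) (.S3 (.ofNat 184320) (.S0 (.negSucc 55295) (.S1 (.negSucc 55295) (.L (.M i0 i2 i1 i3)) (.L .Y)) (.L .Y)) (.L .Y)) (.L .Y)) (.L .Y)) (.L .Y)))))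

def B25 : Box := ⟨⟨(.negSucc 147455), (.ofNat 0)⟩, ⟨(.negSucc 294911), (.ofNat 0)⟩, ⟨(.ofNat 0), (.ofNat 294912)⟩⟩

theorem ok25 : check T25 B25 = true := by decide +kernel

def T35 : Tree := .S3 (.ofNat 73728) (.S0 (.negSucc 258047) (.S1 (.ofNat 110592) (.S3 (.ofNat 36864) (.L .O1) (.S0 (.negSucc 276479) (.L (.M i0 i3 i1 i2)) (.S1 (.ofNat 92160) (.L (.M i0 i3 i1 i2)) (.L .O1)))) (.L .O1)) (.S1 (.ofNat 110592) (.S3 (.ofNat 36864) (.L .O1) (.S0 (.negSucc 239615) (.S1 (.ofNat 92160) (.L (.N i1 i2 i0 i3)) (.L .O1)) (.S1 (.ofNat 92160) (.L (.N i1 i2 i0 i3)) (.L .O1)))) (.L .O1))) (.L (.B i1 i3))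

def B35 : Box := ⟨⟨(.negSucc 294911), (.negSucc 221183)⟩, ⟨(.ofNat 73728), (.ofNat 147456)⟩, ⟨(.ofNat 0), (.ofNat 147456)⟩⟩

theorem ok35 : check T35 B35 = true := by decide +kernel

def T43 : Tree := .L (.B i1 i3)

def B43 : Box := ⟨⟨(.negSucc 294911), (.negSucc 221183)⟩, ⟨(.ofNat 73728), (.ofNat 147456)⟩, ⟨(.ofNat 147456), (.ofNat 294912)⟩⟩

theorem ok43 : check T43 B43 = true := by decide +kernel

def T44 : Tree := .S1 (.ofNat 73728) (.S3 (.ofNat 221184) (.S0 (.negSucc 184319) (.S1 (.ofNat 36864) (.S3 (.ofNat 184320) (.S0 (.negSucc 202751) (.S1 (.ofNat 18432) (.S3 (.ofNat 165888) (.S0 (.negSucc 211967) (.S1 (.ofNat 9216) (.L (.N i0 i3 i1 i2)) (.L (.N i1 i3 i0 i2))) (.S1 (.ofNat 9216) (.L (.N i0 i3 i1 i2)) (.L (.N i0 i3 i1 i2)))) (.S0 (.negSucc 211967) (.S1 (.ofNat 9216) (.L (.N i0 i3 i1 i2)) (.L (.N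 i0 i3 i1 i2))) (.L (.N i0 i3 i1 i2)))) (.L (.M i0 i1 i2 i3))) (.S1 (.ofNat 18432) (.S3 (.ofNat 165888) (.L (.N i0 i3 i1 i2)) (.L (.N i0 i3 i1 i2))) (.L (.M i0 i1 i2 i3)))) (.S0 (.negSucc 202751) (.S1 (.ofNat 18432) (.S3 (.ofNat 202752) (.S0 (.negSucc 211967) (.S1 (.ofNat 9216) (.L (.N i0 i3 i1 i2)) (.L (.M i0 i1 i2 i3))) (.L (.N i0 i3 i1 i2))) (.S0 (.negSucc 211967) (.L (.N i0 i3 i1 i2)) (.L (.N i1 i3 i0 i2)))) (.L (.M i0 i1 i2 i3))) (.S1 (.ofNat 18432) (.S3 (.ofNat 202752) (.S0 (.negSucc 193535) (.L (.N i0 i3 i1 i2)) (.L (.N i0 i3 i1 i2))) (.L (.N i1 i3 i0 i2))) (.L (.M i0 i1 i2 i3))))) (.L (.B i1 i3))) (.S1 (.ofNat 36864) (.S3 (.ofNat 184320) (.S0 (.negSucc 165887) (.S1 (.ofNat 18432) (.L (.N i0 i3 i1 i2)) (.L (.M i0 i1 i2 i3))) (.S1 (.ofNat 18432) (.S3 (.ofNat 165888) (.L (.N i0 i3 i1 i2)) (.L (.N i0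 i3 i1 i2))) (.L (.M i0 i1 i2 i3)))) (.S0 (.negSucc 165887) (.S1 (.ofNat 18432) (.S3 (.ofNat 202752) (.L (.N i1 i3 i0 i2)) (.L .Y)) (.L .Y)) (.L .Y))) (.L (.B i1 i3)))) (.S0 (.negSucc 184319) (.S1 (.ofNat 36864) (.S3 (.ofNat 258048) (.S0 (.negSucc 202751) (.S1 (.ofNat 18432) (.S3 (.ofNat 239616) (.L (.N i1 i3 i0 i2)) (.L .Y)) (.L .Y)) (.L .Y)) (.L .Y)) (.L .Y)) (.L .Y))) (.L (.B i1 i3))

def B44 : Box := ⟨⟨(.negSucc 221183), (.negSucc 147455)⟩, ⟨(.ofNat 0), (.ofNat 147456)⟩, ⟨(.ofNat 147456), (.ofNat 294912)⟩⟩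

theorem ok44 : check T44 B44 = true := by decide +kernel

end NonMorse.BB
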