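import Pool.Agent.Helper342.Alg.BBDefs

set_option linter.style.longLine false

namespace NonMorse.BB
open Ix

def T7 : Tree := .S3 (.negSucc 73727) (.L (.B i1 i3)) (.S0 (.negSucc 36863) (.S1 (.negSucc 110591) (.L .O0) (.S3 (.negSucc 36863) (.S0 (.negSucc 55295) (.L (.B i0 i1)) (.L .O0)) (.S0 (.negSucc 55295) (.L (.B i0 i1)) (.L .O0)))) (.L .O0))

def B7 : Box := ⟨⟨(.negSucc 73727), (.ofNat 0)⟩, ⟨(.negSucc 147455), (.negSucc 73727)⟩, ⟨(.negSucc 147455), (.ofNat 0)⟩⟩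

theorem ok7 : check T7 B7 = true := by decide +kernel

def T9 : Tree := .S3 (.negSucc 55295) (.S0 (.negSucc 64511) (.L (.M i0 i2 i1 i3)) (.S1 (.negSucc 64511) (.L (.M i0 i2 i1 i3)) (.S3 (.negSucc 64511) (.L (.M i0 i2 i1 i3)) (.S0 (.negSucc 59903) (.L (.M i0 i2 i1 i3)) (.S1 (.negSucc 59903) (.L (.M i1 i2 i0 i3)) (.S3 (.negSucc 59903) (.L (.M i0 i2 i1 i3)) (.S0 (.negSucc 57599) (.S1 (.negSucc 57599) (.L (.M i0 i2 i1 i3)) (.S3 (.negSucc 57599) (.L (.M i0 i2 i1 i3)) (.S0 (.negSucc 58751) (.L (.M i0 i2 i1 i3)) (.S1 (.negSucc 56447) (.L (.M i0 i2 i1 i3)) (.L (.M i0 i2 i1 i3)))))) (.S1 (.negSucc 57599) (.S3 (.negSucc 57599) (.L (.M i0 i2 i1 i3)) (.S0 (.negSucc 56447) (.L (.M i0 i2 i1 i3)) (.L .O0))) (.S3 (.negSucc 57599) (.S0 (.negSucc 56447) (.L (.M i0 i2 i1 i3)) (.S1 (.negSucc 56447) (.L (.M i0 i2 i1 i3)) (.L .O1)))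 (.S0 (.negSucc 56447) (.S1 (.negSucc 56447) (.S3 (.negSucc 56447) (.L (.M i0 i2 i1 i3)) (.S0 (.negSucc 57023) (.L (.M i0 i2 i1 i3)) (.L (.M i0 i2 i1 i3)))) (.S3 (.negSucc 56447) (.S0 (.negSucc 57023) (.L (.M i0 i2 i1 i3)) (.L (.M i0 i2 i1 i3))) (.S0 (.negSucc 57023) (.S1 (.negSucc 55871) (.L (.M i0 i2 i1 i3)) (.L (.D ⟨(.ofNat 324), (.negSucc 136), (.negSucc 152), (.negSucc 136), (.ofNat 264), (.negSucc 64), (.negSucc 152), (.negSucc 64), (.ofNat 276)⟩))) (.S1 (.negSucc 55871) (.L (.D ⟨(.ofNat 298), (.negSucc 133), (.negSucc 120), (.negSucc 133), (.ofNat 278), (.negSucc 91), (.negSucc 120), (.negSucc 91), (.ofNat 269)⟩)) (.L (.D ⟨(.ofNat 324), (.negSucc 132), (.negSucc 148), (.negSucc 132), (.ofNat 281), (.negSucc 87), (.negSucc 148), (.negSucc 87), (.ofNat 294)⟩)))))) (.S1 (.negSucc 56447) (.S3 (.negSucc 56447)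 (.S0 (.negSucc 55871) (.L (.M i0 i2 i1 i3)) (.L .O0)) (.S0 (.negSucc 55871) (.S1 (.negSucc 57023) (.L .O0) (.L (.D ⟨(.ofNat 278), (.negSucc 133), (.negSucc 91), (.negSucc 133), (.ofNat 298), (.negSucc 120), (.negSucc 91), (.negSucc 120), (.ofNat 269)⟩))) (.L .O0))) (.S3 (.negSucc 56447) (.S0 (.negSucc 55871) (.S1 (.negSucc 55871) (.L (.D ⟨(.ofNat 258), (.negSucc 80), (.negSucc 122), (.negSucc 80), (.ofNat 258), (.negSucc 122), (.negSucc 122), (.negSucc 122), (.ofNat 286)⟩)) (.L .O1)) (.S1 (.negSucc 55871) (.L (.D ⟨(.ofNat 261), (.negSucc 77), (.negSucc 122), (.negSucc 77), (.ofNat 282), (.negSucc 150), (.negSucc 122), (.negSucc 150), (.ofNat 312)⟩)) (.L .O1))) (.S0 (.negSucc 55871) (.S1 (.negSucc 55871) (.L (.D ⟨(.ofNat 300), (.negSucc 130), (.negSucc 116), (.negSucc 130), (.ofNat 300), (.negSucc 116), (.negSucc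 116), (.negSucc 116), (.ofNat 290)⟩)) (.L (.D ⟨(.ofNat 325), (.negSucc 128), (.negSucc 145), (.negSucc 128), (.ofNat 302), (.negSucc 113), (.negSucc 145), (.negSucc 113), (.ofNat 315)⟩))) (.S1 (.negSucc 55871) (.L (.D ⟨(.ofNat 302), (.negSucc 128), (.negSucc 113), (.negSucc 128), (.ofNat 325), (.negSucc 145), (.negSucc 113), (.negSucc 145), (.ofNat 315)⟩)) (.L (.D ⟨(.ofNat 327), (.negSucc 124), (.negSucc 143), (.negSucc 124), (.ofNat 327), (.negSucc 143), (.negSucc 143), (.negSucc 143), (.ofNat 340)⟩)))))))))))))))) (.S0 (.negSucc 64511) (.S1 (.negSucc 64511) (.L (.B i0 i1)) (.S3 (.negSucc 46079) (.S0 (.negSucc 69119) (.L (.B i0 i1)) (.L (.M i1 i2 i0 i3))) (.S0 (.negSucc 69119) (.L (.B i0 i1)) (.S1 (.negSucc 59903) (.L (.B i0 i1)) (.L (.M i1 i3 i0 i2)))))) (.S1 (.negSucc 64511) (.S3 (.negSucc 46079) (.S0 (.negSucc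 59903) (.L (.B i0 i1)) (.L .O0)) (.S0 (.negSucc 59903) (.L (.B i0 i1)) (.L .O0))) (.S3 (.negSucc 46079) (.S0 (.negSucc 59903) (.S1 (.negSucc 59903) (.L (.M i0 i2 i1 i3)) (.S3 (.negSucc 50687) (.S0 (.negSucc 62207) (.L (.M i0 i2 i1 i3)) (.S1 (.negSucc 57599) (.L (.M i0 i2 i1 i3)) (.S3 (.negSucc 52991) (.L (.M i0 i2 i1 i3)) (.S0 (.negSucc 61055) (.L (.M i0 i2 i1 i3)) (.S1 (.negSucc 56447) (.L (.M i0 i2 i1 i3)) (.L (.M i0 i3 i1 i2))))))) (.S0 (.negSucc 62207) (.S1 (.negSucc 57599) (.L (.M i0 i2 i1 i3)) (.S3 (.negSucc 48383) (.L (.M i0 i2 i1 i3)) (.L (.M i0 i3 i1 i2)))) (.S1 (.negSucc 57599) (.L (.M i0 i3 i1 i2)) (.S3 (.negSucc 48383) (.S0 (.negSucc 61055) (.L (.M i0 i3 i1 i2)) (.L (.M i0 i3 i1 i2))) (.L (.M i0 i3 i1 i2))))))) (.S1 (.negSucc 59903) (.S3 (.negSucc 50687) (.S0 (.negSucc 57599) (.L (.M i0 i2 i1 i3))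 (.L .O0)) (.S0 (.negSucc 57599) (.S1 (.negSucc 62207) (.L .O0) (.L (.M i0 i3 i1 i2))) (.L .O0))) (.S3 (.negSucc 50687) (.S0 (.negSucc 57599) (.S1 (.negSucc 57599) (.S3 (.negSucc 52991) (.L (.M i0 i2 i1 i3)) (.S0 (.negSucc 58751) (.L (.M i0 i2 i1 i3)) (.S1 (.negSucc 58751) (.L (.M i0 i2 i1 i3)) (.L (.M i0 i3 i1 i2))))) (.S3 (.negSucc 52991) (.S0 (.negSucc 58751) (.S1 (.negSucc 56447) (.L (.M i0 i2 i1 i3)) (.S3 (.negSucc 54143) (.L (.M i0 i2 i1 i3)) (.S0 (.negSucc 59327) (.L (.M i0 i2 i1 i3)) (.L (.M i0 i3 i1 i2))))) (.S1 (.negSucc 56447) (.S3 (.negSucc 54143) (.L (.M i0 i2 i1 i3)) (.S0 (.negSucc 58175) (.L (.M i0 i2 i1 i3)) (.S1 (.negSucc 57023) (.L (.M i0 i2 i1 i3)) (.L (.M i0 i3 i1 i2))))) (.S3 (.negSucc 54143) (.S0 (.negSucc 58175) (.L (.M i0 i2 i1 i3)) (.S1 (.negSucc 55871) (.L (.M i0 i2 i1 i3)) (.S3 (.negSucc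 54719) (.L (.M i0 i2 i1 i3)) (.L (.M i0 i3 i1 i2))))) (.S0 (.negSucc 58175) (.S1 (.negSucc 55871) (.L (.M i0 i3 i1 i2)) (.L (.M i0 i3 i1 i2))) (.S1 (.negSucc 55871) (.L (.M i0 i3 i1 i2)) (.S3 (.negSucc 53567) (.L (.M i0 i3 i1 i2)) (.L (.M i0 i3 i1 i2)))))))) (.S0 (.negSucc 58751) (.S1 (.negSucc 56447) (.L (.M i0 i3 i1 i2)) (.S3 (.negSucc 51839) (.L (.M i0 i3 i1 i2)) (.L (.M i0 i3 i1 i2)))) (.S1 (.negSucc 56447) (.S3 (.negSucc 51839) (.L (.M i0 i3 i1 i2)) (.L (.M i0 i3 i1 i2))) (.S3 (.negSucc 51839) (.L (.M i2 i3 i0 i1)) (.L (.M i0 i3 i1 i2))))))) (.S1 (.negSucc 57599) (.S3 (.negSucc 52991) (.S0 (.negSucc 56447) (.S1 (.negSucc 58751) (.L .O0) (.S3 (.negSucc 54143) (.L (.M i0 i2 i1 i3)) (.S0 (.negSucc 57023) (.L (.M i0 i2 i1 i3)) (.L .O0)))) (.L .O0)) (.S0 (.negSucc 56447) (.S1 (.negSucc 58751) (.L .O0) (.S3 (.negSucc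 51839) (.L (.M i1 i3 i0 i2)) (.L (.M i0 i3 i1 i2)))) (.L .O0))) (.S3 (.negSucc 52991) (.S0 (.negSucc 56447) (.S1 (.negSucc 56447) (.S3 (.negSucc 54143) (.S0 (.negSucc 57023) (.S1 (.negSucc 57023) (.L (.M i0 i2 i1 i3)) (.L (.D ⟨(.ofNat 336), (.negSucc 200), (.negSucc 99), (.negSucc 200), (.ofNat 317), (.negSucc 68), (.negSucc 99), (.negSucc 68), (.ofNat 240)⟩))) (.S1 (.negSucc 57023) (.L (.D ⟨(.ofNat 317), (.negSucc 200), (.negSucc 68), (.negSucc 200), (.ofNat 336), (.negSucc 99), (.negSucc 68), (.negSucc 99), (.ofNat 240)⟩)) (.L (.D ⟨(.ofNat 336), (.negSucc 199), (.negSucc 92), (.negSucc 199), (.ofNat 336), (.negSucc 92), (.negSucc 92), (.negSucc 92), (.ofNat 256)⟩)))) (.S0 (.negSucc 57023) (.S1 (.negSucc 57023) (.L (.M i0 i3 i1 i2)) (.L (.M i0 i3 i1 i2))) (.S1 (.negSucc 57023) (.L (.M i1 i3 i0 i2)) (.S3 (.negSucc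 53567) (.L (.M i2 i3 i0 i1)) (.L (.M i0 i3 i1 i2)))))) (.S3 (.negSucc 54143) (.S0 (.negSucc 57023) (.S1 (.negSucc 55871) (.S3 (.negSucc 54719) (.L (.D ⟨(.ofNat 344), (.negSucc 185), (.negSucc 125), (.negSucc 185), (.ofNat 304), (.negSucc 62), (.negSucc 125), (.negSucc 62), (.ofNat 258)⟩)) (.L (.D ⟨(.ofNat 383), (.negSucc 224), (.negSucc 127), (.negSucc 224), (.ofNat 340), (.negSucc 58), (.negSucc 127), (.negSucc 58), (.ofNat 262)⟩))) (.S3 (.negSucc 54719) (.L (.D ⟨(.ofNat 373), (.negSucc 187), (.negSucc 155), (.negSucc 187), (.ofNat 307), (.negSucc 55), (.negSucc 155), (.negSucc 55), (.ofNat 282)⟩)) (.L (.D ⟨(.ofNat 414), (.negSucc 228), (.negSucc 158), (.negSucc 228), (.ofNat 343), (.negSucc 48), (.negSucc 158), (.negSucc 48), (.ofNat 286)⟩)))) (.S1 (.negSucc 55871) (.L (.D ⟨(.ofNat 360), (.negSucc 199), (.negSucc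 118), (.negSucc 199), (.ofNat 338), (.negSucc 84), (.negSucc 118), (.negSucc 84), (.ofNat 276)⟩)) (.L (.D ⟨(.ofNat 389), (.negSucc 200), (.negSucc 149), (.negSucc 200), (.ofNat 340), (.negSucc 77), (.negSucc 149), (.negSucc 77), (.ofNat 300)⟩)))) (.S0 (.negSucc 57023) (.S1 (.negSucc 55871) (.S3 (.negSucc 53567) (.L (.M i0 i3 i1 i2)) (.L (.M i0 i3 i1 i2))) (.L (.M i2 i3 i0 i1))) (.L (.M i2 i3 i0 i1))))) (.S1 (.negSucc 56447) (.S3 (.negSucc 54143) (.S0 (.negSucc 55871) (.S1 (.negSucc 57023) (.L .O0) (.L (.D ⟨(.ofNat 338), (.negSucc 199), (.negSucc 84), (.negSucc 199), (.ofNat 360), (.negSucc 118), (.negSucc 84), (.negSucc 118), (.ofNat 276)⟩))) (.L .O0)) (.S0 (.negSucc 55871) (.S1 (.negSucc 57023) (.L .O0) (.L (.M i2 i3 i0 i1))) (.L .O0))) (.S3 (.negSucc 54143) (.S0 (.negSucc 55871) (.S1 (.negSucc 55871) (.L (.D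 ⟨(.ofNat 360), (.negSucc 197), (.negSucc 111), (.negSucc 197), (.ofNat 360), (.negSucc 111), (.negSucc 111), (.negSucc 111), (.ofNat 296)⟩)) (.L (.D ⟨(.ofNat 388), (.negSucc 196), (.negSucc 142), (.negSucc 196), (.ofNat 361), (.negSucc 104), (.negSucc 142), (.negSucc 104), (.ofNat 320)⟩))) (.S1 (.negSucc 55871) (.L (.D ⟨(.ofNat 361), (.negSucc 196), (.negSucc 104), (.negSucc 196), (.ofNat 388), (.negSucc 142), (.negSucc 104), (.negSucc 142), (.ofNat 320)⟩)) (.L (.N i0 i2 i1 i3)))) (.L (.M i2 i3 i0 i1))))) (.S0 (.negSucc 56447) (.S1 (.negSucc 56447) (.S3 (.negSucc 51839) (.L (.M i2 i3 i0 i1)) (.L (.M i0 i3 i1 i2))) (.L (.M i2 i3 i0 i1))) (.L (.M i2 i3 i0 i1)))))) (.S0 (.negSucc 57599) (.S1 (.negSucc 57599) (.S3 (.negSucc 48383) (.S0 (.negSucc 58751) (.L (.M i0 i3 i1 i2)) (.L (.M i0 i3 i1 i2))) (.L (.M i0 i3 i1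 i2))) (.S3 (.negSucc 48383) (.L (.M i2 i3 i0 i1)) (.L (.M i2 i3 i0 i1)))) (.S1 (.negSucc 57599) (.S3 (.negSucc 48383) (.L (.M i2 i3 i0 i1)) (.L (.M i2 i3 i0 i1))) (.L (.M i2 i3 i0 i1))))))) (.S0 (.negSucc 59903) (.S1 (.negSucc 59903) (.L (.M i0 i3 i1 i2)) (.S3 (.negSucc 41471) (.S0 (.negSucc 62207) (.L (.M i0 i3 i1 i2)) (.L (.M i1 i3 i0 i2))) (.L (.M i0 i3 i1 i2)))) (.S1 (.negSucc 59903) (.S3 (.negSucc 41471) (.S0 (.negSucc 57599) (.L (.M i0 i3 i1 i2)) (.L .O0)) (.L (.M i0 i3 i1 i2))) (.L (.M i2 i3 i0 i1)))))))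

def B9 : Box := ⟨⟨(.negSucc 73727), (.negSucc 55295)⟩, ⟨(.negSucc 73727), (.negSucc 55295)⟩, ⟨(.negSucc 73727), (.negSucc 36863)⟩⟩

theorem ok9 : check T9 B9 = true := by decide +kernel

def T15 : Tree := .S1 (.negSucc 55295) (.S3 (.negSucc 55295) (.S0 (.negSucc 46079) (.S1 (.negSucc 64511) (.L .O0) (.S3 (.negSucc 64511) (.S0 (.negSucc 50687) (.L (.M i1 i2 i0 i3)) (.L .O0)) (.S0 (.negSucc 50687) (.S1 (.negSucc 59903) (.L .O0) (.S3 (.negSucc 59903) (.S0 (.negSucc 52991) (.S1 (.negSucc 57599) (.L .O0) (.L .O1)) (.L .O0)) (.S0 (.negSucc 52991) (.S1 (.negSucc 57599) (.L .O0) (.S3 (.negSucc 57599) (.S0 (.negSucc 54143) (.S1 (.negSucc 56447) (.L .O0) (.L .O1)) (.L .O0)) (.S0 (.negSucc 54143) (.S1 (.negSucc 56447) (.L .O0) (.S3 (.negSucc 56447) (.S0 (.negSucc 54719) (.S1 (.negSucc 55871) (.L .O0) (.L .O1)) (.L .O0))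 (.S0 (.negSucc 54719) (.S1 (.negSucc 55871) (.L .O0) (.L (.N i0 i2 i1 i3))) (.L .O0)))) (.L .O0)))) (.L .O0)))) (.L .O0)))) (.L .O0)) (.S0 (.negSucc 46079) (.S1 (.negSucc 64511) (.L .O0) (.S3 (.negSucc 46079) (.S0 (.negSucc 50687) (.S1 (.negSucc 59903) (.L .O0) (.S3 (.negSucc 50687) (.S0 (.negSucc 52991) (.S1 (.negSucc 57599) (.L .O0) (.S3 (.negSucc 52991) (.S0 (.negSucc 54143) (.S1 (.negSucc 56447) (.L .O0) (.L (.N i0 i2 i1 i3))) (.L .O0)) (.L (.N i0 i2 i1 i3)))) (.L .O0)) (.L (.M i2 i3 i0 i1)))) (.L .O0)) (.S0 (.negSucc 50687) (.S1 (.negSucc 59903) (.L .O0) (.L (.M i2 i3 i0 i1))) (.L .O0)))) (.L .O0))) (.S3 (.negSucc 55295) (.S0 (.negSucc 46079) (.S1 (.negSucc 46079) (.S3 (.negSucc 64511) (.L .O1) (.S0 (.negSucc 50687) (.S1 (.negSucc 50687) (.S3 (.negSucc 59903) (.L .O1) (.S0 (.negSucc 52991) (.S1 (.negSucc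 52991) (.S3 (.negSucc 57599) (.L .O1) (.S0 (.negSucc 54143) (.S1 (.negSucc 54143) (.S3 (.negSucc 56447) (.L .O1) (.L (.N i0 i2 i1 i3))) (.L .O1)) (.L (.N i0 i2 i1 i3)))) (.L .O1)) (.S1 (.negSucc 52991) (.S3 (.negSucc 57599) (.L .O1) (.L (.N i0 i2 i1 i3))) (.L .O1)))) (.L .O1)) (.S1 (.negSucc 50687) (.S3 (.negSucc 59903) (.L .O1) (.L (.N i0 i2 i1 i3))) (.L .O1)))) (.L .O1)) (.S1 (.negSucc 46079) (.S3 (.negSucc 64511) (.L .O1) (.S0 (.negSucc 41471) (.L (.N i0 i2 i1 i3)) (.L .O0))) (.L .O1))) (.S0 (.negSucc 46079) (.S1 (.negSucc 46079) (.S3 (.negSucc 46079) (.S0 (.negSucc 50687) (.S1 (.negSucc 50687) (.S3 (.negSucc 50687) (.S0 (.negSucc 52991) (.L (.N i0 i2 i1 i3)) (.L (.N i0 i2 i1 i3))) (.L (.N i0 i2 i1 i3))) (.L (.N i0 i2 i1 i3))) (.L (.N i0 i2 i1 i3))) (.L (.N i0 i2 i1 i3))) (.L (.N i0 i2 i1 i3))) (.L (.N i0 i2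 i1 i3))))

def B15 : Box := ⟨⟨(.negSucc 55295), (.negSucc 36863)⟩, ⟨(.negSucc 73727), (.negSucc 36863)⟩, ⟨(.negSucc 73727), (.negSucc 36863)⟩⟩

theorem ok15 : check T15 B15 = true := by decide +kernel

def T19 : Tree := .L (.B i0 i1)

def B19 : Box := ⟨⟨(.negSucc 589823), (.negSucc 294911)⟩, ⟨(.negSucc 589823), (.negSucc 294911)⟩, ⟨(.ofNat 0), (.ofNat 589824)⟩⟩

theorem ok19 : check T19 B19 = true := by decide +kernel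

def T20 : Tree := .S0 (.negSucc 442367) (.S1 (.negSucc 147455) (.L (.B i0 i1)) (.S3 (.ofNat 147456) (.S0 (.negSucc 516095) (.S1 (.negSucc 73727) (.L (.B i0 i1)) (.S3 (.ofNat 73728) (.S0 (.negSucc 552959) (.S1 (.negSucc 36863) (.L (.B i0 i1)) (.S3 (.ofNat 36864) (.S0 (.negSucc 571391) (.S1 (.negSucc 18431) (.L (.B i0 i1)) (.L (.N i0 i1 i2 i3))) (.S1 (.negSucc 18431) (.L (.B i0 i1)) (.L (.N i0 i1 i2 i3)))) (.L (.M i0 i3 i1 i2)))) (.S1 (.negSucc 36863) (.L (.B i0 i1)) (.S3 (.ofNat 36864) (.S0 (.negSucc 534527) (.S1 (.negSucc 18431) (.L (.B i0 i1)) (.L (.N i0 i1 i2 i3))) (.S1 (.negSucc 18431) (.L (.B i0 i1)) (.L (.N i0 i1 i2 i3)))) (.L (.M i0 i3 i1 i2))))) (.L (.B i2 i3)))) (.S1 (.negSucc 73727) (.L (.B i0 i1)) (.S3 (.ofNat 73728) (.S0 (.negSucc 479231) (.S1 (.negSucc 36863) (.L (.B i0 i1)) (.S3 (.ofNat 36864) (.S0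 (.negSucc 497663) (.S1 (.negSucc 18431) (.L (.B i0 i1)) (.L (.N i0 i1 i2 i3))) (.S1 (.negSucc 18431) (.L (.B i0 i1)) (.L (.N i0 i1 i2 i3)))) (.L (.M i0 i3 i1 i2)))) (.S1 (.negSucc 36863) (.L (.B i0 i1)) (.S3 (.ofNat 36864) (.S0 (.negSucc 460799) (.S1 (.negSucc 18431) (.L (.B i0 i1)) (.L (.N i0 i1 i2 i3))) (.S1 (.negSucc 18431) (.L (.B i0 i1)) (.L (.N i0 i1 i2 i3)))) (.L (.M i0 i3 i1 i2))))) (.L (.B i2 i3))))) (.L (.B i2 i3)))) (.S1 (.negSucc 147455) (.L (.B i0 i1)) (.S3 (.ofNat 147456) (.S0 (.negSucc 368639) (.S1 (.negSucc 73727) (.L (.B i0 i1)) (.S3 (.ofNat 73728) (.S0 (.negSucc 405503) (.S1 (.negSucc 36863) (.L (.B i0 i1)) (.S3 (.ofNat 36864) (.S0 (.negSucc 423935) (.S1 (.negSucc 18431) (.L (.B i0 i1)) (.L (.N i0 i1 i2 i3))) (.S1 (.negSucc 18431) (.L (.B i0 i1)) (.L (.N i0 i1 i2 i3)))) (.L (.M i0 i3 i1 i2))))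 (.S1 (.negSucc 36863) (.L (.B i0 i1)) (.S3 (.ofNat 36864) (.S0 (.negSucc 387071) (.S1 (.negSucc 18431) (.L (.B i0 i1)) (.L (.N i0 i1 i2 i3))) (.S1 (.negSucc 18431) (.L (.B i0 i1)) (.L (.N i0 i1 i2 i3)))) (.L (.M i0 i3 i1 i2))))) (.L (.M i0 i3 i1 i2)))) (.S1 (.negSucc 73727) (.L (.B i0 i1)) (.S3 (.ofNat 73728) (.S0 (.negSucc 331775) (.S1 (.negSucc 36863) (.L (.B i0 i1)) (.S3 (.ofNat 36864) (.S0 (.negSucc 350207) (.S1 (.negSucc 18431) (.L (.B i0 i1)) (.L (.N i0 i1 i2 i3))) (.S1 (.negSucc 18431) (.L (.B i0 i1)) (.L (.N i0 i1 i2 i3)))) (.L (.M i0 i3 i1 i2)))) (.S1 (.negSucc 36863) (.L (.B i0 i1)) (.S3 (.ofNat 36864) (.S0 (.negSucc 313343) (.S1 (.negSucc 18431) (.L (.B i0 i1)) (.L (.N i0 i1 i2 i3))) (.L (.N i0 i2 i1 i3))) (.L (.M i0 i3 i1 i2))))) (.L (.M i1 i3 i0 i2))))) (.S0 (.negSucc 368639) (.S1 (.negSucc 73727)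 (.L (.B i0 i1)) (.S3 (.ofNat 221184) (.L (.B i2 i3)) (.L (.M i0 i2 i1 i3)))) (.S1 (.negSucc 73727) (.L (.B i0 i1)) (.S3 (.ofNat 221184) (.S0 (.negSucc 331775) (.L (.M i0 i3 i1 i2)) (.S1 (.negSucc 36863) (.L (.B i0 i1)) (.L (.M i1 i3 i0 i2)))) (.S0 (.negSucc 331775) (.S1 (.negSucc 36863) (.L (.B i0 i1)) (.S3 (.ofNat 258048) (.L (.M i0 i2 i1 i3)) (.L (.M i1 i2 i0 i3)))) (.S1 (.negSucc 36863) (.L (.B i0 i1)) (.S3 (.ofNat 258048) (.S0 (.negSucc 313343) (.L (.M i0 i2 i1 i3)) (.S1 (.negSucc 18431) (.L (.B i0 i1)) (.L (.N i0 i1 i2 i3)))) (.S0 (.negSucc 313343) (.S1 (.negSucc 18431) (.L (.B i0 i1)) (.S3 (.ofNat 276480) (.L (.N i0 i1 i2 i3)) (.L (.N i0 i1 i2 i3)))) (.S1 (.negSucc 18431) (.L (.B i0 i1)) (.S3 (.ofNat 276480) (.L (.N i0 i1 i2 i3)) (.L (.N i0 i1 i2 i3)))))))))))))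

def B20 : Box := ⟨⟨(.negSucc 589823), (.negSucc 294911)⟩, ⟨(.negSucc 294911), (.ofNat 0)⟩, ⟨(.ofNat 0), (.ofNat 294912)⟩⟩

theorem ok20 : check T20 B20 = true := by decide +kernel

def T32 : Tree := .S0 (.negSucc 258047) (.S1 (.ofNat 36864) (.S3 (.ofNat 36864) (.L (.N i0 i2 i1 i3)) (.L (.M i2 i3 i0 i1))) (.S3 (.ofNat 36864) (.L (.N i1 i2 i0 i3)) (.S0 (.negSucc 276479) (.S1 (.ofNat 55296) (.L (.N i1 i2 i0 i3)) (.L (.M i0 i1 i2 i3))) (.S1 (.ofNat 55296) (.L (.N i1 i2 i0 i3)) (.L (.N i1 i2 i0 i3)))))) (.S1 (.ofNat 36864) (.S3 (.ofNat 36864) (.L (.N i0 i2 i1 i3)) (.L (.M i2 i3 i0 i1))) (.S3 (.ofNat 36864) (.L (.N i1 i2 i0 i3)) (.S0 (.negSucc 239615) (.S1 (.ofNat 55296) (.L (.N i1 i2 i0 i3)) (.L (.N i1 i2 i0 i3))) (.S1 (.ofNat 55296) (.L (.N i0 i2 i1 i3)) (.L (.N i1 i2 i0 i3))))))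

def B32 : Box := ⟨⟨(.negSucc 294911), (.negSucc 221183)⟩, ⟨(.ofNat 0), (.ofNat 73728)⟩, ⟨(.ofNat 0), (.ofNat 73728)⟩⟩

theorem ok32 : check T32 B32 = true := by decide +kernel

def T36 : Tree := .S1 (.ofNat 73728) (.S3 (.ofNat 73728) (.S0 (.negSucc 184319) (.S1 (.ofNat 36864) (.S3 (.ofNat 36864) (.L (.N i0 i2 i1 i3)) (.S0 (.negSucc 202751) (.L (.N i0 i2 i1 i3)) (.L (.N i0 i2 i1 i3)))) (.S3 (.ofNat 36864) (.S0 (.negSucc 202751) (.L (.N i0 i2 i1 i3)) (.L (.N i0 i2 i1 i3))) (.S0 (.negSucc 202751) (.S1 (.ofNat 55296) (.L (.N i0 i2 i1 i3)) (.L (.N i1 i2 i0 i3))) (.S1 (.ofNat 55296) (.L (.N i0 i2 i1 i3)) (.S3 (.ofNat 55296) (.L (.N i0 i2 i1 i3)) (.L (.N i0 i2 i1 i3))))))) (.S1 (.ofNat 36864) (.S3 (.ofNat 36864) (.L (.N i0 i2 i1 i3)) (.S0 (.negSucc 165887) (.L (.N i0 i2 i1 i3)) (.L (.N i0 i2 i1 i3)))) (.S3 (.ofNat 36864)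 (.S0 (.negSucc 165887) (.L (.N i0 i2 i1 i3)) (.L (.N i0 i2 i1 i3))) (.S0 (.negSucc 165887) (.S1 (.ofNat 55296) (.L (.N i0 i2 i1 i3)) (.S3 (.ofNat 55296) (.L (.N i0 i2 i1 i3)) (.L (.N i0 i2 i1 i3)))) (.S1 (.ofNat 55296) (.L (.N i0 i2 i1 i3)) (.S3 (.ofNat 55296) (.L (.N i0 i2 i1 i3)) (.L (.N i0 i2 i1 i3)))))))) (.S0 (.negSucc 184319) (.S1 (.ofNat 36864) (.S3 (.ofNat 110592) (.S0 (.negSucc 202751) (.S1 (.ofNat 18432) (.S3 (.ofNat 92160) (.L (.N i0 i2 i1 i3)) (.S0 (.negSucc 211967) (.L (.M i2 i3 i0 i1)) (.S1 (.ofNat 9216) (.L (.N i0 i1 i2 i3)) (.L (.N i0 i2 i1 i3))))) (.S3 (.ofNat 92160) (.L (.N i0 i2 i1 i3)) (.S0 (.negSucc 211967) (.S1 (.ofNat 27648) (.L (.N i0 i2 i1 i3)) (.L (.M i0 i1 i2 i3))) (.L (.N i0 i2 i1 i3))))) (.S1 (.ofNat 18432) (.S3 (.ofNat 92160) (.L (.N i0 i2 i1 i3)) (.S0 (.negSucc 193535) (.L (.N i0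 i2 i1 i3)) (.L (.N i0 i2 i1 i3)))) (.S3 (.ofNat 92160) (.L (.N i0 i2 i1 i3)) (.S0 (.negSucc 193535) (.L (.N i0 i2 i1 i3)) (.L (.N i0 i2 i1 i3)))))) (.S0 (.negSucc 202751) (.S1 (.ofNat 18432) (.S3 (.ofNat 129024) (.S0 (.negSucc 211967) (.S1 (.ofNat 9216) (.S3 (.ofNat 119808) (.L (.N i0 i1 i2 i3)) (.S0 (.negSucc 216575) (.L (.N i0 i1 i2 i3)) (.L (.N i0 i1 i2 i3)))) (.S3 (.ofNat 119808) (.L (.N i0 i2 i1 i3)) (.S0 (.negSucc 216575) (.L (.N i0 i2 i1 i3)) (.L (.N i0 i2 i1 i3))))) (.S1 (.ofNat 9216) (.S3 (.ofNat 119808) (.L (.N i0 i1 i2 i3)) (.S0 (.negSucc 207359) (.L (.N i0 i1 i2 i3)) (.L (.N i0 i1 i2 i3)))) (.S3 (.ofNat 119808) (.L (.N i0 i2 i1 i3)) (.L (.N i0 i2 i1 i3))))) (.S0 (.negSucc 211967) (.S1 (.ofNat 9216) (.S3 (.ofNat 138240) (.S0 (.negSucc 216575) (.S1 (.ofNat 4608) (.L (.N i0 i1 i2 i3)) (.S3 (.ofNat 133632)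 (.L (.N i0 i1 i2 i3)) (.L (.N i0 i1 i2 i3)))) (.S1 (.ofNat 4608) (.L (.N i0 i1 i2 i3)) (.L (.N i0 i3 i1 i2)))) (.S0 (.negSucc 216575) (.S1 (.ofNat 4608) (.L (.N i0 i1 i2 i3)) (.L (.N i0 i3 i1 i2))) (.L (.N i0 i3 i1 i2)))) (.S3 (.ofNat 138240) (.S0 (.negSucc 216575) (.S1 (.ofNat 13824) (.S3 (.ofNat 133632) (.L (.N i0 i2 i1 i3)) (.L (.N i0 i2 i1 i3))) (.L (.N i0 i2 i1 i3))) (.S1 (.ofNat 13824) (.L (.N i0 i2 i1 i3)) (.L (.N i0 i2 i1 i3)))) (.S0 (.negSucc 216575) (.S1 (.ofNat 13824) (.L (.N i0 i3 i1 i2)) (.L (.M i0 i1 i2 i3))) (.L (.N i0 i3 i1 i2))))) (.S1 (.ofNat 9216) (.S3 (.ofNat 138240) (.L (.N i0 i3 i1 i2)) (.L (.N i0 i3 i1 i2))) (.S3 (.ofNat 138240) (.L (.N i0 i3 i1 i2)) (.L (.N i0 i3 i1 i2)))))) (.S3 (.ofNat 129024) (.S0 (.negSucc 211967) (.S1 (.ofNat 27648) (.L (.N i1 i2 i0 i3)) (.L (.M i0 i1 i2 i3))) (.L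 (.N i1 i2 i0 i3))) (.L (.M i0 i1 i2 i3)))) (.S1 (.ofNat 18432) (.S3 (.ofNat 129024) (.S0 (.negSucc 193535) (.S1 (.ofNat 9216) (.S3 (.ofNat 119808) (.L (.N i0 i1 i2 i3)) (.L (.N i0 i2 i1 i3))) (.S3 (.ofNat 119808) (.L (.N i0 i2 i1 i3)) (.L (.N i0 i2 i1 i3)))) (.S1 (.ofNat 9216) (.L (.N i0 i3 i1 i2)) (.L (.N i0 i2 i1 i3)))) (.S0 (.negSucc 193535) (.S1 (.ofNat 9216) (.L (.N i0 i3 i1 i2)) (.L (.N i0 i3 i1 i2))) (.L (.N i0 i3 i1 i2)))) (.S3 (.ofNat 129024) (.S0 (.negSucc 193535) (.L (.N i1 i2 i0 i3)) (.L (.N i1 i2 i0 i3))) (.L (.M i0 i1 i2 i3)))))) (.S3 (.ofNat 110592) (.S0 (.negSucc 202751) (.S1 (.ofNat 55296) (.L (.N i1 i2 i0 i3)) (.L (.B i1 i3))) (.S1 (.ofNat 55296) (.L (.N i1 i2 i0 i3)) (.L (.B i1 i3)))) (.L (.B i1 i3)))) (.S1 (.ofNat 36864) (.S3 (.ofNat 110592) (.S0 (.negSucc 165887) (.S1 (.ofNat 18432) (.S3 (.ofNat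 92160) (.L (.N i0 i2 i1 i3)) (.L (.N i0 i2 i1 i3))) (.S3 (.ofNat 92160) (.L (.N i0 i2 i1 i3)) (.L (.N i0 i2 i1 i3)))) (.S1 (.ofNat 18432) (.S3 (.ofNat 92160) (.L (.N i0 i2 i1 i3)) (.L (.N i0 i2 i1 i3))) (.S3 (.ofNat 92160) (.L (.N i0 i2 i1 i3)) (.S0 (.negSucc 156671) (.L (.N i0 i2 i1 i3)) (.L (.N i0 i2 i1 i3)))))) (.S0 (.negSucc 165887) (.S1 (.ofNat 18432) (.S3 (.ofNat 129024) (.L (.N i0 i3 i1 i2)) (.L (.N i0 i3 i1 i2))) (.L (.N i1 i3 i0 i2))) (.S1 (.ofNat 18432) (.L (.N i0 i3 i1 i2)) (.L (.N i1 i3 i0 i2))))) (.S3 (.ofNat 110592) (.S0 (.negSucc 165887) (.S1 (.ofNat 55296) (.L (.N i1 i2 i0 i3)) (.L (.B i1 i3))) (.S1 (.ofNat 55296) (.L (.N i1 i2 i0 i3)) (.L (.B i1 i3)))) (.L (.B i1 i3)))))) (.S3 (.ofNat 73728) (.S0 (.negSucc 184319) (.S1 (.ofNat 110592) (.S3 (.ofNat 36864) (.L .O1) (.S0 (.negSucc 202751) (.S1 (.ofNat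 92160) (.L (.M i2 i3 i0 i1)) (.L .O1)) (.S1 (.ofNat 92160) (.S3 (.ofNat 55296) (.L .O1) (.L (.B i1 i3))) (.L .O1)))) (.L .O1)) (.S1 (.ofNat 110592) (.S3 (.ofNat 36864) (.L .O1) (.S0 (.negSucc 165887) (.S1 (.ofNat 92160) (.S3 (.ofNat 55296) (.L .O1) (.L (.B i1 i3))) (.L .O1)) (.S1 (.ofNat 92160) (.S3 (.ofNat 55296) (.L .O1) (.L (.B i1 i3))) (.L .O1)))) (.L .O1))) (.L (.B i1 i3)))

def B36 : Box := ⟨⟨(.negSucc 221183), (.negSucc 147455)⟩, ⟨(.ofNat 0), (.ofNat 147456)⟩, ⟨(.ofNat 0), (.ofNat 147456)⟩⟩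

theorem ok36 : check T36 B36 = true := by decide +kernel

def T48 : Tree := .S3 (.ofNat 294912) (.S0 (.negSucc 147455) (.S1 (.ofNat 442368) (.S3 (.ofNat 147456) (.L .O1) (.L .Y)) (.L .O1)) (.L .Y)) (.L .Y)

def B48 : Box := ⟨⟨(.negSucc 294911), (.ofNat 0)⟩, ⟨(.ofNat 294912), (.ofNat 589824)⟩, ⟨(.ofNat 0), (.ofNat 589824)⟩⟩

theorem ok48 : check T48 B48 = true := by decide +kernel

end NonMorse.BB
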