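import Pool.Agent.Helper342.Alg.BBDefs

set_option linter.style.longLine false

namespace NonMorse.BB
open Ix

def T3 : Tree := .S1 (.negSucc 147455) (.L (.B i0 i1)) (.S3 (.negSucc 147455) (.L (.B i0 i3)) (.S0 (.negSucc 221183) (.S1 (.negSucc 73727) (.L (.B i0 i1)) (.S3 (.negSucc 73727) (.L (.B i0 i3)) (.S0 (.negSucc 258047) (.S1 (.negSucc 36863) (.L (.B i0 i1)) (.S3 (.negSucc 36863) (.L (.B i0 i3)) (.S0 (.negSucc 276479) (.S1 (.negSucc 18431) (.L (.B i0 i1)) (.S3 (.negSucc 18431) (.L (.B i0 i3)) (.L (.N i0 i2 i1 i3)))) (.S1 (.negSucc 18431) (.L (.B i0 i1)) (.S3 (.negSucc 18431) (.L (.B i0 i3)) (.L (.N i0 i2 i1 i3))))))) (.S1 (.negSucc 36863) (.L (.B i0 i1)) (.S3 (.negSucc 36863) (.L (.B i0 i3)) (.S0 (.negSucc 239615) (.S1 (.negSucc 18431) (.L (.B i0 i1)) (.S3 (.negSucc 18431) (.L (.B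 i0 i3)) (.L (.N i0 i2 i1 i3)))) (.S1 (.negSucc 18431) (.L (.B i0 i1)) (.S3 (.negSucc 18431) (.L (.B i0 i3)) (.L (.N i0 i2 i1 i3)))))))))) (.S1 (.negSucc 73727) (.L (.B i0 i1)) (.S3 (.negSucc 73727) (.L (.B i0 i3)) (.S0 (.negSucc 184319) (.S1 (.negSucc 36863) (.L (.B i0 i1)) (.S3 (.negSucc 36863) (.L (.B i0 i3)) (.S0 (.negSucc 202751) (.S1 (.negSucc 18431) (.L (.N i0 i1 i2 i3)) (.S3 (.negSucc 18431) (.L (.N i0 i2 i1 i3)) (.L (.N i0 i2 i1 i3)))) (.S1 (.negSucc 18431) (.L (.N i0 i1 i2 i3)) (.S3 (.negSucc 18431) (.L (.N i0 i2 i1 i3)) (.L (.N i0 i2 i1 i3))))))) (.S1 (.negSucc 36863) (.L (.B i0 i1)) (.S3 (.negSucc 36863) (.L (.B i0 i3)) (.S0 (.negSucc 165887) (.S1 (.negSucc 18431) (.L (.N i0 i1 i2 i3)) (.L (.N i0 i2 i1 i3))) (.S1 (.negSucc 18431) (.L (.N i0 i1 i2 i3)) (.L (.N i0 i2 i1 i3)))))))))))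

def B3 : Box := ⟨⟨(.negSucc 294911), (.negSucc 147455)⟩, ⟨(.negSucc 294911), (.ofNat 0)⟩, ⟨(.negSucc 294911), (.ofNat 0)⟩⟩

theorem ok3 : check T3 B3 = true := by decide +kernel

def T4 : Tree := .S3 (.negSucc 147455) (.L (.B i1 i3)) (.S0 (.negSucc 73727) (.L (.B i0 i1)) (.L .O0))

def B4 : Box := ⟨⟨(.negSucc 147455), (.ofNat 0)⟩, ⟨(.negSucc 294911), (.negSucc 147455)⟩, ⟨(.negSucc 294911), (.ofNat 0)⟩⟩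

theorem ok4 : check T4 B4 = true := by decide +kernel

def T14 : Tree := .S1 (.negSucc 46079) (.S3 (.negSucc 46079) (.S0 (.negSucc 59903) (.S1 (.negSucc 50687) (.S3 (.negSucc 50687) (.S0 (.negSucc 62207) (.S1 (.negSucc 52991) (.S3 (.negSucc 52991) (.L (.M i0 i2 i1 i3)) (.S0 (.negSucc 63359) (.L (.M i0 i2 i1 i3)) (.S1 (.negSucc 54143) (.L (.M i0 i2 i1 i3)) (.S3 (.negSucc 51839) (.L (.M i0 i2 i1 i3)) (.L (.M i0 i3 i1 i2)))))) (.S3 (.negSucc 52991) (.S0 (.negSucc 63359) (.L (.M i0 i2 i1 i3)) (.S1 (.negSucc 51839) (.L (.M i0 i2 i1 i3)) (.L .O1))) (.S0 (.negSucc 63359) (.S1 (.negSucc 51839) (.S3 (.negSucc 51839) (.L (.M i0 i2 i1 i3)) (.L (.M i0 i3 i1 i2))) (.S3 (.negSucc 51839) (.L (.M i0 i1 i2 i3)) (.S0 (.negSucc 63935) (.S1 (.negSucc 51263) (.L (.M i0 i1 i2 i3)) (.L (.M i0 i1 i2 i3)))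 (.S1 (.negSucc 51263) (.L (.M i0 i3 i1 i2)) (.L (.M i0 i1 i2 i3)))))) (.S1 (.negSucc 51839) (.S3 (.negSucc 51839) (.S0 (.negSucc 62783) (.L (.M i0 i2 i1 i3)) (.S1 (.negSucc 52415) (.L (.M i0 i1 i2 i3)) (.L (.M i0 i1 i2 i3)))) (.S0 (.negSucc 62783) (.L (.M i0 i3 i1 i2)) (.L (.M i0 i3 i1 i2)))) (.S3 (.negSucc 51839) (.S0 (.negSucc 62783) (.L (.M i0 i1 i2 i3)) (.L (.M i0 i1 i2 i3))) (.S0 (.negSucc 62783) (.S1 (.negSucc 51263) (.L (.M i0 i3 i1 i2)) (.L (.M i0 i1 i2 i3))) (.L (.N i1 i2 i0 i3)))))))) (.S1 (.negSucc 52991) (.S3 (.negSucc 52991) (.S0 (.negSucc 61055) (.S1 (.negSucc 54143) (.L (.M i0 i2 i1 i3)) (.L (.M i0 i2 i1 i3))) (.S1 (.negSucc 54143) (.S3 (.negSucc 54143) (.L (.M i0 i2 i1 i3)) (.S0 (.negSucc 60479) (.L (.M i0 i2 i1 i3)) (.L (.M i0 i2 i1 i3)))) (.S3 (.negSucc 54143) (.S0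 (.negSucc 60479) (.L (.M i0 i1 i2 i3)) (.L (.M i0 i1 i2 i3))) (.S0 (.negSucc 60479) (.S1 (.negSucc 53567) (.L (.M i0 i1 i2 i3)) (.L (.M i0 i1 i2 i3))) (.S1 (.negSucc 53567) (.L (.M i0 i3 i1 i2)) (.L (.M i0 i1 i2 i3))))))) (.S0 (.negSucc 61055) (.S1 (.negSucc 54143) (.S3 (.negSucc 51839) (.L (.M i0 i2 i1 i3)) (.L (.M i0 i3 i1 i2))) (.S3 (.negSucc 51839) (.S0 (.negSucc 61631) (.L (.M i0 i3 i1 i2)) (.L (.M i0 i3 i1 i2))) (.L (.M i0 i3 i1 i2)))) (.S1 (.negSucc 54143) (.S3 (.negSucc 51839) (.L (.M i0 i3 i1 i2)) (.L (.M i0 i3 i1 i2))) (.S3 (.negSucc 51839) (.S0 (.negSucc 60479) (.L (.M i0 i3 i1 i2)) (.L (.M i2 i3 i0 i1))) (.L (.M i2 i3 i0 i1)))))) (.S3 (.negSucc 52991) (.S0 (.negSucc 61055) (.S1 (.negSucc 51839) (.S3 (.negSucc 54143) (.L .O1) (.S0 (.negSucc 61631) (.L (.M i0 i1 i2 i3)) (.L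 (.M i0 i1 i2 i3)))) (.L .O1)) (.S1 (.negSucc 51839) (.S3 (.negSucc 54143) (.L .O1) (.S0 (.negSucc 60479) (.L (.M i0 i1 i2 i3)) (.L (.N i1 i2 i0 i3)))) (.L .O1))) (.S0 (.negSucc 61055) (.S1 (.negSucc 51839) (.S3 (.negSucc 51839) (.S0 (.negSucc 61631) (.S1 (.negSucc 52415) (.L (.M i0 i1 i2 i3)) (.L (.M i0 i1 i2 i3))) (.S1 (.negSucc 52415) (.L (.M i0 i1 i2 i3)) (.L (.M i0 i1 i2 i3)))) (.L (.M i2 i3 i0 i1))) (.L (.N i1 i2 i0 i3))) (.S1 (.negSucc 51839) (.S3 (.negSucc 51839) (.L (.N i1 i2 i0 i3)) (.L (.N i1 i2 i0 i3))) (.L (.N i1 i2 i0 i3))))))) (.S0 (.negSucc 62207) (.S1 (.negSucc 52991) (.S3 (.negSucc 48383) (.S0 (.negSucc 63359) (.L (.M i0 i3 i1 i2)) (.S1 (.negSucc 54143) (.L (.M i0 i3 i1 i2)) (.L (.M i0 i3 i1 i2)))) (.L (.M i2 i3 i0 i1))) (.S3 (.negSucc 48383) (.S0 (.negSucc 63359) (.S1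 (.negSucc 51839) (.S3 (.negSucc 49535) (.L (.M i0 i3 i1 i2)) (.L (.M i0 i3 i1 i2))) (.S3 (.negSucc 49535) (.S0 (.negSucc 63935) (.L (.M i0 i3 i1 i2)) (.L (.M i2 i3 i0 i1))) (.L (.M i2 i3 i0 i1)))) (.L (.M i2 i3 i0 i1))) (.L (.M i2 i3 i0 i1)))) (.S1 (.negSucc 52991) (.S3 (.negSucc 48383) (.S0 (.negSucc 61055) (.L (.M i2 i3 i0 i1)) (.L (.M i2 i3 i0 i1))) (.L (.M i2 i3 i0 i1))) (.L (.M i2 i3 i0 i1))))) (.S3 (.negSucc 50687) (.S0 (.negSucc 62207) (.S1 (.negSucc 48383) (.S3 (.negSucc 52991) (.L .O1) (.S0 (.negSucc 63359) (.S1 (.negSucc 49535) (.S3 (.negSucc 51839) (.L .O1) (.S0 (.negSucc 63935) (.L (.M i0 i1 i2 i3)) (.L (.N i1 i2 i0 i3)))) (.L .O1)) (.L (.N i1 i2 i0 i3)))) (.L .O1)) (.S1 (.negSucc 48383) (.S3 (.negSucc 52991) (.L .O1) (.L (.N i1 i2 i0 i3))) (.L .O1))) (.S0 (.negSucc 62207)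 (.S1 (.negSucc 48383) (.S3 (.negSucc 48383) (.S0 (.negSucc 63359) (.S1 (.negSucc 49535) (.L (.N i1 i2 i0 i3)) (.L (.N i0 i2 i1 i3))) (.L (.N i0 i2 i1 i3))) (.L (.N i0 i2 i1 i3))) (.L (.N i0 i2 i1 i3))) (.L (.N i0 i2 i1 i3))))) (.S1 (.negSucc 50687) (.S3 (.negSucc 50687) (.S0 (.negSucc 57599) (.S1 (.negSucc 52991) (.S3 (.negSucc 52991) (.S0 (.negSucc 58751) (.S1 (.negSucc 54143) (.S3 (.negSucc 54143) (.S0 (.negSucc 59327) (.L (.M i0 i2 i1 i3)) (.S1 (.negSucc 54719) (.L (.M i0 i2 i1 i3)) (.S3 (.negSucc 54719) (.L (.M i0 i1 i2 i3)) (.L (.M i0 i1 i2 i3))))) (.S0 (.negSucc 59327) (.S1 (.negSucc 54719) (.L (.M i0 i2 i1 i3)) (.L (.M i0 i3 i1 i2))) (.S1 (.negSucc 54719) (.L (.M i0 i3 i1 i2)) (.L (.M i0 i3 i1 i2))))) (.S3 (.negSucc 54143) (.S0 (.negSucc 59327) (.S1 (.negSucc 53567) (.L (.M i0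 i1 i2 i3)) (.L .O1)) (.S1 (.negSucc 53567) (.S3 (.negSucc 54719) (.L .O1) (.L (.M i0 i1 i2 i3))) (.L .O1))) (.S0 (.negSucc 59327) (.S1 (.negSucc 53567) (.L (.M i0 i3 i1 i2)) (.L (.N i1 i2 i0 i3))) (.S1 (.negSucc 53567) (.S3 (.negSucc 53567) (.L (.M i0 i1 i2 i3)) (.L (.M i0 i1 i2 i3))) (.L (.N i1 i2 i0 i3)))))) (.S1 (.negSucc 54143) (.S3 (.negSucc 54143) (.S0 (.negSucc 58175) (.S1 (.negSucc 54719) (.S3 (.negSucc 54719) (.L (.M i0 i2 i1 i3)) (.L (.M i0 i3 i1 i2))) (.S3 (.negSucc 54719) (.L (.M i0 i1 i2 i3)) (.S0 (.negSucc 58463) (.L (.M i0 i1 i2 i3)) (.L (.M i0 i1 i2 i3))))) (.S1 (.negSucc 54719) (.S3 (.negSucc 54719) (.L (.D ⟨(.ofNat 413), (.negSucc 198), (.negSucc 198), (.negSucc 198), (.ofNat 297), (.negSucc 24), (.negSucc 198), (.negSucc 24), (.ofNat 297)⟩)) (.L (.D ⟨(.ofNat 459),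 (.negSucc 241), (.negSucc 205), (.negSucc 241), (.ofNat 333), (.negSucc 13), (.negSucc 205), (.negSucc 13), (.ofNat 303)⟩))) (.S3 (.negSucc 54719) (.L (.D ⟨(.ofNat 459), (.negSucc 205), (.negSucc 241), (.negSucc 205), (.ofNat 303), (.negSucc 13), (.negSucc 241), (.negSucc 13), (.ofNat 333)⟩)) (.L (.N i1 i2 i0 i3))))) (.S0 (.negSucc 58175) (.S1 (.negSucc 54719) (.L (.M i0 i3 i1 i2)) (.L (.M i2 i3 i0 i1))) (.L (.M i2 i3 i0 i1)))) (.S3 (.negSucc 54143) (.S0 (.negSucc 58175) (.S1 (.negSucc 53567) (.S3 (.negSucc 54719) (.L .O1) (.L (.M i0 i1 i2 i3))) (.L .O1)) (.L (.N i1 i2 i0 i3))) (.L (.N i1 i2 i0 i3))))) (.S0 (.negSucc 58751) (.S1 (.negSucc 54143) (.S3 (.negSucc 51839) (.S0 (.negSucc 59327) (.L (.M i0 i3 i1 i2)) (.L (.M i0 i3 i1 i2))) (.L (.M i0 i3 i1 i2))) (.L (.M i2 i3 i0 i1))) (.L (.M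 i2 i3 i0 i1)))) (.S3 (.negSucc 52991) (.S0 (.negSucc 58751) (.S1 (.negSucc 51839) (.S3 (.negSucc 54143) (.L .O1) (.L (.N i1 i2 i0 i3))) (.L .O1)) (.L (.N i1 i2 i0 i3))) (.L (.N i1 i2 i0 i3)))) (.S1 (.negSucc 52991) (.S3 (.negSucc 52991) (.S0 (.negSucc 56447) (.S1 (.negSucc 54143) (.S3 (.negSucc 54143) (.S0 (.negSucc 57023) (.S1 (.negSucc 54719) (.S3 (.negSucc 54719) (.L (.D ⟨(.ofNat 409), (.negSucc 191), (.negSucc 191), (.negSucc 191), (.ofNat 311), (.negSucc 47), (.negSucc 191), (.negSucc 47), (.ofNat 311)⟩)) (.L (.M i2 i3 i0 i1))) (.L (.N i1 i2 i0 i3))) (.S1 (.negSucc 54719) (.S3 (.negSucc 54719) (.L (.N i1 i2 i0 i3)) (.L (.N i1 i2 i0 i3))) (.L (.N i1 i2 i0 i3)))) (.L (.N i1 i2 i0 i3))) (.L (.N i1 i2 i0 i3))) (.S1 (.negSucc 54143) (.L (.N i1 i2 i0 i3)) (.L (.N i0 i2 i1 i3)))) (.L (.N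 i1 i2 i0 i3))) (.L (.N i1 i2 i0 i3)))) (.L (.M i2 i3 i0 i1))) (.L (.N i1 i2 i0 i3)))) (.S0 (.negSucc 59903) (.S1 (.negSucc 50687) (.L (.M i2 i3 i0 i1)) (.L (.N i0 i2 i1 i3))) (.L (.M i2 i3 i0 i1)))) (.S3 (.negSucc 46079) (.S0 (.negSucc 59903) (.S1 (.negSucc 41471) (.L (.N i1 i2 i0 i3)) (.L .O1)) (.L (.N i1 i2 i0 i3))) (.L (.N i0 i2 i1 i3)))

def B14 : Box := ⟨⟨(.negSucc 64511), (.negSucc 55295)⟩, ⟨(.negSucc 55295), (.negSucc 36863)⟩, ⟨(.negSucc 55295), (.negSucc 36863)⟩⟩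

theorem ok14 : check T14 B14 = true := by decide +kernel

def T28 : Tree := .S0 (.negSucc 442367) (.S1 (.ofNat 147456) (.S3 (.ofNat 147456) (.S0 (.negSucc 516095) (.S1 (.ofNat 73728) (.S3 (.ofNat 73728) (.S0 (.negSucc 552959) (.S1 (.ofNat 36864) (.S3 (.ofNat 36864) (.S0 (.negSucc 571391) (.S1 (.ofNat 18432) (.L (.N i0 i2 i1 i3)) (.L (.M i0 i1 i2 i3))) (.S1 (.ofNat 18432) (.L (.N i0 i2 i1 i3)) (.L (.M i0 i1 i2 i3)))) (.L (.M i0 i3 i1 i2))) (.L (.M i0 i1 i2 i3))) (.S1 (.ofNat 36864) (.S3 (.ofNat 36864) (.S0 (.negSucc 534527) (.S1 (.ofNat 18432) (.L (.N i0 i2 i1 i3)) (.L (.M i0 i1 i2 i3))) (.S1 (.ofNat 18432) (.L (.N i0 i2 i1 i3)) (.L (.M i0 i1 i2 i3)))) (.L (.M i0 i3 i1 i2))) (.L (.M i0 i1 i2 i3)))) (.L (.B i2 i3))) (.L (.M i0 i1 i2 i3))) (.S1 (.ofNat 73728) (.S3 (.ofNat 73728) (.S0 (.negSucc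 479231) (.S1 (.ofNat 36864) (.S3 (.ofNat 36864) (.S0 (.negSucc 497663) (.S1 (.ofNat 18432) (.L (.N i0 i2 i1 i3)) (.L (.M i0 i1 i2 i3))) (.S1 (.ofNat 18432) (.L (.N i0 i2 i1 i3)) (.L (.M i0 i1 i2 i3)))) (.L (.M i0 i3 i1 i2))) (.L (.M i0 i1 i2 i3))) (.S1 (.ofNat 36864) (.S3 (.ofNat 36864) (.S0 (.negSucc 460799) (.S1 (.ofNat 18432) (.L (.N i0 i2 i1 i3)) (.L (.M i0 i1 i2 i3))) (.L (.N i0 i2 i1 i3))) (.L (.M i0 i3 i1 i2))) (.L (.M i0 i1 i2 i3)))) (.L (.M i0 i3 i1 i2))) (.L (.M i0 i1 i2 i3)))) (.S0 (.negSucc 516095) (.S1 (.ofNat 73728) (.L (.B i2 i3)) (.L (.B i1 i3))) (.S1 (.ofNat 73728) (.S3 (.ofNat 221184) (.L (.B i2 i3)) (.L (.M i0 i2 i1 i3))) (.L (.B i1 i3))))) (.S3 (.ofNat 147456) (.S0 (.negSucc 516095) (.S1 (.ofNat 221184) (.L (.B i1 i2)) (.L .O1)) (.S1 (.ofNat 221184) (.S3 (.ofNat 73728)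 (.L .O1) (.L (.B i1 i3))) (.L .O1))) (.L (.B i1 i3)))) (.S1 (.ofNat 147456) (.S3 (.ofNat 147456) (.S0 (.negSucc 368639) (.S1 (.ofNat 73728) (.S3 (.ofNat 73728) (.S0 (.negSucc 405503) (.S1 (.ofNat 36864) (.S3 (.ofNat 36864) (.L (.N i0 i2 i1 i3)) (.L (.M i0 i3 i1 i2))) (.L (.M i0 i1 i2 i3))) (.S1 (.ofNat 36864) (.S3 (.ofNat 36864) (.L (.N i0 i2 i1 i3)) (.L (.M i0 i3 i1 i2))) (.L (.M i0 i1 i2 i3)))) (.L (.M i0 i3 i1 i2))) (.S3 (.ofNat 73728) (.L (.M i0 i1 i2 i3)) (.L (.B i1 i3)))) (.S1 (.ofNat 73728) (.S3 (.ofNat 73728) (.S0 (.negSucc 331775) (.S1 (.ofNat 36864) (.S3 (.ofNat 36864) (.L (.N i0 i2 i1 i3)) (.L (.M i0 i3 i1 i2))) (.S3 (.ofNat 36864) (.L (.M i0 i1 i2 i3)) (.L (.M i0 i1 i2 i3)))) (.S1 (.ofNat 36864) (.S3 (.ofNat 36864) (.L (.N i0 i2 i1 i3)) (.L (.M i2 i3 i0 i1))) (.S3 (.ofNat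 36864) (.L (.N i1 i2 i0 i3)) (.S0 (.negSucc 313343) (.S1 (.ofNat 55296) (.L (.M i0 i1 i2 i3)) (.L (.M i0 i1 i2 i3))) (.S1 (.ofNat 55296) (.L (.N i1 i2 i0 i3)) (.L (.M i0 i1 i2 i3))))))) (.S0 (.negSucc 331775) (.S1 (.ofNat 36864) (.L (.M i0 i3 i1 i2)) (.L (.M i0 i1 i2 i3))) (.S1 (.ofNat 36864) (.S3 (.ofNat 110592) (.L (.M i0 i3 i1 i2)) (.L (.M i0 i3 i1 i2))) (.S3 (.ofNat 110592) (.L (.M i0 i1 i2 i3)) (.L (.B i1 i3)))))) (.S3 (.ofNat 73728) (.S0 (.negSucc 331775) (.S1 (.ofNat 110592) (.L (.M i0 i1 i2 i3)) (.L .O1)) (.S1 (.ofNat 110592) (.S3 (.ofNat 36864) (.L .O1) (.L (.M i0 i1 i2 i3))) (.L .O1))) (.L (.B i1 i3))))) (.S0 (.negSucc 368639) (.S1 (.ofNat 73728) (.S3 (.ofNat 221184) (.S0 (.negSucc 405503) (.L (.M i0 i3 i1 i2)) (.S1 (.ofNat 36864) (.L (.M i0 i3 i1 i2)) (.L (.B i1 i3)))) (.S0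 (.negSucc 405503) (.S1 (.ofNat 36864) (.L (.M i0 i2 i1 i3)) (.L (.B i1 i3))) (.S1 (.ofNat 36864) (.S3 (.ofNat 258048) (.L (.M i0 i2 i1 i3)) (.S0 (.negSucc 387071) (.L (.M i0 i2 i1 i3)) (.S1 (.ofNat 18432) (.L (.M i0 i2 i1 i3)) (.L (.B i1 i3))))) (.L (.B i1 i3))))) (.L (.B i1 i3))) (.S1 (.ofNat 73728) (.S3 (.ofNat 221184) (.S0 (.negSucc 331775) (.S1 (.ofNat 36864) (.S3 (.ofNat 184320) (.L (.M i0 i3 i1 i2)) (.S0 (.negSucc 350207) (.L (.M i0 i2 i1 i3)) (.S1 (.ofNat 18432) (.L (.M i0 i2 i1 i3)) (.L (.M i0 i1 i2 i3))))) (.L (.B i1 i3))) (.S1 (.ofNat 36864) (.S3 (.ofNat 184320) (.S0 (.negSucc 313343) (.L (.M i0 i3 i1 i2)) (.S1 (.ofNat 18432) (.L (.M i0 i3 i1 i2)) (.L (.M i0 i1 i2 i3)))) (.S0 (.negSucc 313343) (.S1 (.ofNat 18432) (.S3 (.ofNat 202752) (.L (.M i0 i2 i1 i3)) (.L (.M i0 i2 i1 i3)))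 (.L (.M i0 i1 i2 i3))) (.S1 (.ofNat 18432) (.S3 (.ofNat 202752) (.L (.M i0 i2 i1 i3)) (.S0 (.negSucc 304127) (.L (.M i0 i2 i1 i3)) (.S1 (.ofNat 9216) (.L (.M i0 i2 i1 i3)) (.L (.M i0 i1 i2 i3))))) (.L (.M i0 i1 i2 i3))))) (.L (.B i1 i3)))) (.S0 (.negSucc 331775) (.S1 (.ofNat 36864) (.S3 (.ofNat 258048) (.S0 (.negSucc 350207) (.S1 (.ofNat 18432) (.L (.M i0 i2 i1 i3)) (.L (.B i1 i3))) (.S1 (.ofNat 18432) (.L (.M i0 i2 i1 i3)) (.L (.B i1 i3)))) (.S0 (.negSucc 350207) (.S1 (.ofNat 18432) (.S3 (.ofNat 276480) (.L (.M i0 i2 i1 i3)) (.L (.M i0 i2 i1 i3))) (.L (.B i1 i3))) (.S1 (.ofNat 18432) (.S3 (.ofNat 276480) (.S0 (.negSucc 340991) (.L (.M i0 i2 i1 i3)) (.L (.M i0 i2 i1 i3))) (.S0 (.negSucc 340991) (.S1 (.ofNat 9216) (.L (.M i0 i2 i1 i3)) (.L (.M i0 i1 i2 i3))) (.S1 (.ofNat 9216) (.L (.M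 i0 i2 i1 i3)) (.L (.M i0 i1 i2 i3))))) (.L (.B i1 i3))))) (.L (.B i1 i3))) (.S1 (.ofNat 36864) (.S3 (.ofNat 258048) (.S0 (.negSucc 313343) (.S1 (.ofNat 18432) (.S3 (.ofNat 239616) (.L (.M i0 i2 i1 i3)) (.S0 (.negSucc 322559) (.L (.M i0 i2 i1 i3)) (.S1 (.ofNat 9216) (.L (.M i0 i2 i1 i3)) (.L (.M i0 i1 i2 i3))))) (.L (.B i1 i3))) (.S1 (.ofNat 18432) (.S3 (.ofNat 239616) (.S0 (.negSucc 304127) (.S1 (.ofNat 9216) (.L (.M i0 i2 i1 i3)) (.L (.M i0 i1 i2 i3))) (.S1 (.ofNat 9216) (.L (.M i0 i2 i1 i3)) (.L (.M i0 i1 i2 i3)))) (.S0 (.negSucc 304127) (.S1 (.ofNat 9216) (.L (.N i2 i3 i0 i1)) (.L (.M i0 i1 i2 i3))) (.S1 (.ofNat 9216) (.L (.N i2 i3 i0 i1)) (.L (.M i0 i1 i2 i3))))) (.L (.B i1 i3)))) (.S0 (.negSucc 313343) (.S1 (.ofNat 18432) (.S3 (.ofNat 276480) (.S0 (.negSucc 322559) (.S1 (.ofNat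 9216) (.L (.M i0 i2 i1 i3)) (.L (.M i0 i1 i2 i3))) (.S1 (.ofNat 9216) (.L (.N i2 i3 i0 i1)) (.L (.M i0 i1 i2 i3)))) (.S0 (.negSucc 322559) (.S1 (.ofNat 9216) (.L (.N i2 i3 i0 i1)) (.L (.M i0 i1 i2 i3))) (.S1 (.ofNat 9216) (.L (.N i0 i3 i1 i2)) (.L (.M i0 i1 i2 i3))))) (.L (.B i1 i3))) (.S1 (.ofNat 18432) (.S3 (.ofNat 276480) (.S0 (.negSucc 304127) (.S1 (.ofNat 9216) (.S3 (.ofNat 267264) (.L (.N i2 i3 i0 i1)) (.L (.N i0 i3 i1 i2))) (.L (.M i0 i1 i2 i3))) (.S1 (.ofNat 9216) (.L (.N i0 i3 i1 i2)) (.L (.M i0 i1 i2 i3)))) (.S0 (.negSucc 304127) (.S1 (.ofNat 9216) (.L (.N i0 i3 i1 i2)) (.L (.M i0 i1 i2 i3))) (.S1 (.ofNat 9216) (.L (.N i0 i3 i1 i2)) (.L (.M i0 i1 i2 i3))))) (.L (.B i1 i3))))) (.L (.B i1 i3))))) (.L (.B i1 i3))))) (.S3 (.ofNat 147456) (.S0 (.negSucc 368639) (.S1 (.ofNat 221184)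 (.S3 (.ofNat 73728) (.L .O1) (.L (.B i1 i3))) (.L .O1)) (.S1 (.ofNat 221184) (.S3 (.ofNat 73728) (.L .O1) (.L (.B i1 i3))) (.L .O1))) (.L (.B i1 i3))))

def B28 : Box := ⟨⟨(.negSucc 589823), (.negSucc 294911)⟩, ⟨(.ofNat 0), (.ofNat 294912)⟩, ⟨(.ofNat 0), (.ofNat 294912)⟩⟩

theorem ok28 : check T28 B28 = true := by decide +kernel

def T33 : Tree := .S1 (.ofNat 36864) (.S3 (.ofNat 110592) (.L (.M i2 i3 i0 i1)) (.S0 (.negSucc 276479) (.S1 (.ofNat 18432) (.L (.M i0 i3 i1 i2)) (.S3 (.ofNat 129024) (.L (.M i0 i3 i1 i2)) (.L (.M i0 i1 i2 i3)))) (.S1 (.ofNat 18432) (.S3 (.ofNat 129024) (.L (.M i0 i3 i1 i2)) (.S0 (.negSucc 267263) (.L (.M i0 i3 i1 i2)) (.S1 (.ofNat 9216) (.L (.M i0 i3 i1 i2)) (.S3 (.ofNat 138240) (.L (.M i0 i3 i1 i2)) (.L (.M i0 i3 i1 i2)))))) (.S3 (.ofNat 129024) (.S0 (.negSucc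 267263) (.L (.M i0 i1 i2 i3)) (.S1 (.ofNat 27648) (.L (.M i0 i1 i2 i3)) (.L (.M i0 i1 i2 i3)))) (.L (.M i0 i1 i2 i3)))))) (.S3 (.ofNat 110592) (.S0 (.negSucc 276479) (.L (.M i0 i1 i2 i3)) (.S1 (.ofNat 55296) (.L (.M i0 i1 i2 i3)) (.L (.B i1 i3)))) (.L (.B i1 i3)))

def B33 : Box := ⟨⟨(.negSucc 294911), (.negSucc 258047)⟩, ⟨(.ofNat 0), (.ofNat 73728)⟩, ⟨(.ofNat 73728), (.ofNat 147456)⟩⟩

theorem ok33 : check T33 B33 = true := by decide +kernel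

def T37 : Tree := .S1 (.ofNat 36864) (.S3 (.ofNat 184320) (.S0 (.negSucc 276479) (.S1 (.ofNat 18432) (.S3 (.ofNat 165888) (.L (.M i0 i3 i1 i2)) (.S0 (.negSucc 285695) (.L (.M i0 i2 i1 i3)) (.S1 (.ofNat 9216) (.L (.M i0 i2 i1 i3)) (.S3 (.ofNat 175104) (.L (.M i0 i2 i1 i3)) (.L (.M i0 i1 i2 i3)))))) (.L (.M i0 i1 i2 i3))) (.S1 (.ofNat 18432) (.S3 (.ofNat 165888) (.S0 (.negSucc 267263) (.S1 (.ofNat 9216) (.L (.M i0 i3 i1 i2)) (.S3 (.ofNat 156672) (.L (.M i0 i3 i1 i2)) (.L (.M i0 i3 i1 i2)))) (.S1 (.ofNat 9216) (.S3 (.ofNat 156672) (.L (.M i0 i3 i1 i2)) (.S0 (.negSucc 262655) (.L (.M i0 i2 i1 i3)) (.S1 (.ofNat 4608) (.L (.N i0 i1 i2 i3)) (.L (.M i0 i2 i1 i3))))) (.S3 (.ofNat 156672) (.S0 (.negSucc 262655) (.L (.M i0 i3 i1 i2)) (.S1 (.ofNat 13824) (.L (.M i0 i3 i1 i2)) (.L (.M i0 i1 i2 i3))))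 (.S0 (.negSucc 262655) (.S1 (.ofNat 13824) (.L (.M i0 i2 i1 i3)) (.L (.M i0 i1 i2 i3))) (.S1 (.ofNat 13824) (.S3 (.ofNat 161280) (.L (.M i0 i2 i1 i3)) (.L (.M i0 i1 i2 i3))) (.L (.M i0 i1 i2 i3))))))) (.S0 (.negSucc 267263) (.S1 (.ofNat 9216) (.S3 (.ofNat 175104) (.L (.M i0 i2 i1 i3)) (.L (.M i0 i2 i1 i3))) (.S3 (.ofNat 175104) (.S0 (.negSucc 271871) (.L (.M i0 i1 i2 i3)) (.L (.M i0 i1 i2 i3))) (.L (.M i0 i1 i2 i3)))) (.S1 (.ofNat 9216) (.S3 (.ofNat 175104) (.S0 (.negSucc 262655) (.L (.M i0 i2 i1 i3)) (.S1 (.ofNat 4608) (.L (.N i0 i1 i2 i3)) (.L (.M i0 i2 i1 i3)))) (.S0 (.negSucc 262655) (.L (.M i0 i2 i1 i3)) (.S1 (.ofNat 4608) (.L (.N i0 i1 i2 i3)) (.L (.N i2 i3 i0 i1))))) (.S3 (.ofNat 175104) (.S0 (.negSucc 262655) (.L (.M i0 i1 i2 i3)) (.S1 (.ofNat 13824) (.L (.M i0 i1 i2 i3)) (.L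 (.M i0 i1 i2 i3)))) (.L (.M i0 i1 i2 i3)))))) (.L (.M i0 i1 i2 i3)))) (.S0 (.negSucc 276479) (.S1 (.ofNat 18432) (.S3 (.ofNat 202752) (.S0 (.negSucc 285695) (.S1 (.ofNat 9216) (.L (.M i0 i2 i1 i3)) (.L (.M i0 i1 i2 i3))) (.S1 (.ofNat 9216) (.S3 (.ofNat 193536) (.L (.M i0 i2 i1 i3)) (.L (.M i0 i2 i1 i3))) (.L (.M i0 i1 i2 i3)))) (.S0 (.negSucc 285695) (.S1 (.ofNat 9216) (.L (.M i0 i2 i1 i3)) (.L (.M i0 i1 i2 i3))) (.S1 (.ofNat 9216) (.S3 (.ofNat 211968) (.L (.M i0 i2 i1 i3)) (.L (.M i0 i2 i1 i3))) (.L (.M i0 i1 i2 i3))))) (.L (.M i0 i1 i2 i3))) (.S1 (.ofNat 18432) (.S3 (.ofNat 202752) (.S0 (.negSucc 267263) (.S1 (.ofNat 9216) (.S3 (.ofNat 193536) (.L (.M i0 i2 i1 i3)) (.L (.N i2 i3 i0 i1))) (.L (.M i0 i1 i2 i3))) (.S1 (.ofNat 9216) (.S3 (.ofNat 193536) (.S0 (.negSucc 262655) (.L (.M i0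 i2 i1 i3)) (.L (.N i2 i3 i0 i1))) (.L (.N i2 i3 i0 i1))) (.L (.M i0 i1 i2 i3)))) (.S0 (.negSucc 267263) (.S1 (.ofNat 9216) (.S3 (.ofNat 211968) (.L (.N i2 i3 i0 i1)) (.L (.N i2 i3 i0 i1))) (.L (.M i0 i1 i2 i3))) (.S1 (.ofNat 9216) (.S3 (.ofNat 211968) (.L (.N i2 i3 i0 i1)) (.L (.N i0 i3 i1 i2))) (.L (.M i0 i1 i2 i3))))) (.L (.M i0 i1 i2 i3))))) (.L (.B i1 i3))

def B37 : Box := ⟨⟨(.negSucc 294911), (.negSucc 258047)⟩, ⟨(.ofNat 0), (.ofNat 73728)⟩, ⟨(.ofNat 147456), (.ofNat 221184)⟩⟩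

theorem ok37 : check T37 B37 = true := by decide +kernel

def T45 : Tree := .S3 (.ofNat 147456) (.S0 (.negSucc 221183) (.S1 (.ofNat 221184) (.S3 (.ofNat 73728) (.L .O1) (.L (.B i1 i3))) (.L .O1)) (.S1 (.ofNat 221184) (.S3 (.ofNat 73728) (.L .O1) (.L (.B i1 i3))) (.L .O1))) (.L (.B i1 i3))

def B45 : Box := ⟨⟨(.negSucc 294911), (.negSucc 147455)⟩, ⟨(.ofNat 147456), (.ofNat 294912)⟩, ⟨(.ofNat 0), (.ofNat 294912)⟩⟩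

theorem ok45 : check T45 B45 = true := by decide +kernel

def T46 : Tree := .S1 (.ofNat 147456) (.S3 (.ofNat 147456) (.S0 (.negSucc 73727) (.S1 (.ofNat 73728) (.S3 (.ofNat 73728) (.S0 (.negSucc 110591) (.S1 (.ofNat 36864) (.S3 (.ofNat 36864) (.L (.N i0 i2 i1 i3)) (.S0 (.negSucc 129023) (.L (.N i0 i2 i1 i3)) (.L (.N i0 i2 i1 i3)))) (.S3 (.ofNat 36864) (.S0 (.negSucc 129023) (.L (.N i0 i2 i1 i3)) (.L (.N i0 i2 i1 i3))) (.S0 (.negSucc 129023) (.S1 (.ofNat 55296) (.L (.N i0 i2 i1 i3)) (.S3 (.ofNat 55296) (.L (.N i0 i2 i1 i3)) (.L (.N i1 i2 i0 i3)))) (.S1 (.ofNat 55296) (.S3 (.ofNat 55296) (.L (.N i0 i2 i1 i3)) (.L (.N i0 i2 i1 i3))) (.S3 (.ofNat 55296) (.L (.N i0 i2 i1 i3)) (.S0 (.negSucc 119807) (.L (.N i0 i2 i1 i3)) (.L (.N i1 i2 i0 i3)))))))) (.S1 (.ofNat 36864) (.S3 (.ofNat 36864) (.L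 (.N i0 i2 i1 i3)) (.S0 (.negSucc 92159) (.S1 (.ofNat 18432) (.L (.N i0 i2 i1 i3)) (.S3 (.ofNat 55296) (.L (.N i0 i1 i2 i3)) (.L (.N i0 i2 i1 i3)))) (.S1 (.ofNat 18432) (.L (.N i0 i3 i1 i2)) (.L (.N i0 i3 i1 i2))))) (.S3 (.ofNat 36864) (.S0 (.negSucc 92159) (.S1 (.ofNat 55296) (.L (.N i0 i1 i2 i3)) (.L .O1)) (.S1 (.ofNat 55296) (.L (.N i0 i1 i2 i3)) (.L .O1))) (.S0 (.negSucc 92159) (.S1 (.ofNat 55296) (.S3 (.ofNat 55296) (.L (.N i0 i2 i1 i3)) (.S0 (.negSucc 101375) (.L (.N i0 i2 i1 i3)) (.S1 (.ofNat 46080) (.L (.N i0 i2 i1 i3)) (.S3 (.ofNat 64512) (.L (.N i0 i2 i1 i3)) (.L .Y))))) (.S3 (.ofNat 55296) (.S0 (.negSucc 101375) (.L (.N i0 i2 i1 i3)) (.S1 (.ofNat 64512) (.L (.N i0 i2 i1 i3)) (.L .O1))) (.S0 (.negSucc 101375) (.S1 (.ofNat 64512) (.L (.N i1 i2 i0 i3)) (.L .Y)) (.L .Y)))) (.S1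 (.ofNat 55296) (.S3 (.ofNat 55296) (.S0 (.negSucc 82943) (.L (.N i0 i2 i1 i3)) (.S1 (.ofNat 46080) (.L (.N i0 i1 i2 i3)) (.S3 (.ofNat 46080) (.L (.N i0 i1 i2 i3)) (.L .Y)))) (.S0 (.negSucc 82943) (.S1 (.ofNat 46080) (.S3 (.ofNat 64512) (.L (.N i0 i2 i1 i3)) (.L .Y)) (.L .Y)) (.L .Y))) (.S3 (.ofNat 55296) (.S0 (.negSucc 82943) (.S1 (.ofNat 64512) (.S3 (.ofNat 46080) (.L .O1) (.L .Y)) (.L .O1)) (.L .Y)) (.L .Y))))))) (.S0 (.negSucc 110591) (.S1 (.ofNat 36864) (.S3 (.ofNat 110592) (.S0 (.negSucc 129023) (.S1 (.ofNat 18432) (.L (.N i0 i3 i1 i2)) (.S3 (.ofNat 92160) (.L (.N i0 i2 i1 i3)) (.L (.N i1 i3 i0 i2)))) (.S1 (.ofNat 18432) (.L (.N i0 i3 i1 i2)) (.S3 (.ofNat 92160) (.L (.N i0 i2 i1 i3)) (.L (.N i1 i3 i0 i2))))) (.S0 (.negSucc 129023) (.S1 (.ofNat 18432) (.L (.N i0 i3 i1 i2)) (.L (.N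 i1 i3 i0 i2))) (.S1 (.ofNat 18432) (.L (.N i0 i3 i1 i2)) (.L (.N i1 i3 i0 i2))))) (.S3 (.ofNat 110592) (.S0 (.negSucc 129023) (.S1 (.ofNat 55296) (.S3 (.ofNat 92160) (.L (.N i1 i2 i0 i3)) (.L (.M i0 i1 i2 i3))) (.L (.B i1 i3))) (.S1 (.ofNat 55296) (.S3 (.ofNat 92160) (.L (.N i1 i2 i0 i3)) (.L (.M i0 i1 i2 i3))) (.L (.B i1 i3)))) (.L (.B i1 i3)))) (.S1 (.ofNat 36864) (.S3 (.ofNat 110592) (.S0 (.negSucc 92159) (.S1 (.ofNat 18432) (.L (.N i0 i3 i1 i2)) (.S3 (.ofNat 92160) (.L (.N i1 i3 i0 i2)) (.L (.N i1 i3 i0 i2)))) (.S1 (.ofNat 18432) (.L (.N i0 i3 i1 i2)) (.S3 (.ofNat 92160) (.L (.N i1 i3 i0 i2)) (.L .Y)))) (.S0 (.negSucc 92159) (.S1 (.ofNat 18432) (.L (.N i0 i3 i1 i2)) (.L .Y)) (.L .Y))) (.S3 (.ofNat 110592) (.S0 (.negSucc 92159) (.S1 (.ofNat 55296) (.S3 (.ofNat 92160) (.L (.N i1 i3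 i0 i2)) (.L .Y)) (.L .Y)) (.L .Y)) (.L .Y))))) (.S3 (.ofNat 73728) (.S0 (.negSucc 110591) (.S1 (.ofNat 110592) (.S3 (.ofNat 36864) (.L .O1) (.S0 (.negSucc 129023) (.S1 (.ofNat 92160) (.S3 (.ofNat 55296) (.L .O1) (.L (.B i1 i3))) (.L .O1)) (.S1 (.ofNat 92160) (.S3 (.ofNat 55296) (.L .O1) (.L (.B i1 i3))) (.L .O1)))) (.L .O1)) (.S1 (.ofNat 110592) (.S3 (.ofNat 36864) (.L .O1) (.S0 (.negSucc 92159) (.S1 (.ofNat 92160) (.S3 (.ofNat 55296) (.L .O1) (.L .Y)) (.L .O1)) (.L .Y))) (.L .O1))) (.L (.B i1 i3)))) (.S1 (.ofNat 73728) (.S3 (.ofNat 73728) (.S0 (.negSucc 36863) (.S1 (.ofNat 36864) (.S3 (.ofNat 36864) (.S0 (.negSucc 55295) (.L (.N i0 i1 i2 i3)) (.L (.N i0 i1 i2 i3))) (.S0 (.negSucc 55295) (.S1 (.ofNat 18432) (.L (.N i0 i3 i1 i2)) (.S3 (.ofNat 55296) (.L (.N i0 i3 i1 i2)) (.L (.N i0 i3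 i1 i2)))) (.S1 (.ofNat 18432) (.L (.N i0 i3 i1 i2)) (.S3 (.ofNat 55296) (.L (.N i0 i3 i1 i2)) (.L .Y))))) (.S3 (.ofNat 36864) (.S0 (.negSucc 55295) (.S1 (.ofNat 55296) (.L (.N i0 i1 i2 i3)) (.L .O1)) (.S1 (.ofNat 55296) (.L (.N i0 i1 i2 i3)) (.L .O1))) (.S0 (.negSucc 55295) (.S1 (.ofNat 55296) (.S3 (.ofNat 55296) (.S0 (.negSucc 64511) (.S1 (.ofNat 46080) (.L (.N i0 i3 i1 i2)) (.L .Y)) (.L .Y)) (.L .Y)) (.L .Y)) (.L .Y)))) (.S1 (.ofNat 36864) (.S3 (.ofNat 36864) (.S0 (.negSucc 18431) (.S1 (.ofNat 18432) (.L (.N i0 i1 i2 i3)) (.L (.N i0 i1 i2 i3))) (.S1 (.ofNat 18432) (.S3 (.ofNat 18432) (.L (.D ⟨(.negSucc 876), (.ofNat 324), (.ofNat 324), (.ofNat 324), (.negSucc 824), (.ofNat 219), (.ofNat 324), (.ofNat 219), (.negSucc 824)⟩)) (.L (.N i0 i3 i1 i2))) (.L (.M i1 i2 i0 i3)))) (.S0 (.negSucc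 18431) (.S1 (.ofNat 18432) (.L (.N i0 i3 i1 i2)) (.L .Y)) (.L .Y))) (.S3 (.ofNat 36864) (.S0 (.negSucc 18431) (.S1 (.ofNat 55296) (.L (.N i0 i1 i2 i3)) (.L .O1)) (.L .Y)) (.L .Y)))) (.S0 (.negSucc 36863) (.S1 (.ofNat 36864) (.S3 (.ofNat 110592) (.S0 (.negSucc 55295) (.S1 (.ofNat 18432) (.L (.N i0 i3 i1 i2)) (.L .Y)) (.L .Y)) (.L .Y)) (.L .Y)) (.L .Y))) (.S3 (.ofNat 73728) (.S0 (.negSucc 36863) (.S1 (.ofNat 110592) (.S3 (.ofNat 36864) (.L .O1) (.L .Y)) (.L .O1)) (.L .Y)) (.L .Y)))) (.S0 (.negSucc 73727) (.S1 (.ofNat 73728) (.S3 (.ofNat 221184) (.S0 (.negSucc 110591) (.S1 (.ofNat 36864) (.S3 (.ofNat 184320) (.S0 (.negSucc 129023) (.S1 (.ofNat 18432) (.L (.N i1 i3 i0 i2)) (.L .Y)) (.L .Y)) (.L .Y)) (.L .Y)) (.L .Y)) (.L .Y)) (.L .Y)) (.L .Y))) (.S3 (.ofNat 147456) (.S0 (.negSucc 73727)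 (.S1 (.ofNat 221184) (.S3 (.ofNat 73728) (.L .O1) (.L .Y)) (.L .O1)) (.L .Y)) (.L .Y))

def B46 : Box := ⟨⟨(.negSucc 147455), (.ofNat 0)⟩, ⟨(.ofNat 0), (.ofNat 294912)⟩, ⟨(.ofNat 0), (.ofNat 294912)⟩⟩

theorem ok46 : check T46 B46 = true := by decide +kernel

end NonMorse.BB
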