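import Pool.Agent.Helper342.Alg.BBDefs

set_option linter.style.longLine false

namespace NonMorse.BB
open Ix

def T0 : Tree := .S1 (.negSucc 294911) (.L (.B i0 i1)) (.S3 (.negSucc 294911) (.L (.B i0 i3)) (.S0 (.negSucc 442367) (.S1 (.negSucc 147455) (.L (.B i0 i1)) (.S3 (.negSucc 147455) (.L (.B i0 i3)) (.S0 (.negSucc 516095) (.S1 (.negSucc 73727) (.L (.B i0 i1)) (.S3 (.negSucc 73727) (.L (.B i0 i3)) (.S0 (.negSucc 552959) (.S1 (.negSucc 36863) (.L (.B i0 i1)) (.S3 (.negSucc 36863) (.L (.B i0 i3)) (.S0 (.negSucc 571391) (.S1 (.negSucc 18431) (.L (.B i0 i1)) (.S3 (.negSucc 18431) (.L (.B i0 i3)) (.L (.N i0 i2 i1 i3)))) (.S1 (.negSucc 18431) (.L (.B i0 i1)) (.S3 (.negSucc 18431) (.L (.B i0 i3)) (.L (.N i0 i2 i1 i3))))))) (.S1 (.negSucc 36863) (.L (.B i0 i1)) (.S3 (.negSucc 36863) (.L (.B i0 i3)) (.S0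 (.negSucc 534527) (.S1 (.negSucc 18431) (.L (.B i0 i1)) (.S3 (.negSucc 18431) (.L (.B i0 i3)) (.L (.N i0 i2 i1 i3)))) (.S1 (.negSucc 18431) (.L (.B i0 i1)) (.S3 (.negSucc 18431) (.L (.B i0 i3)) (.L (.N i0 i2 i1 i3)))))))))) (.S1 (.negSucc 73727) (.L (.B i0 i1)) (.S3 (.negSucc 73727) (.L (.B i0 i3)) (.S0 (.negSucc 479231) (.S1 (.negSucc 36863) (.L (.B i0 i1)) (.S3 (.negSucc 36863) (.L (.B i0 i3)) (.S0 (.negSucc 497663) (.S1 (.negSucc 18431) (.L (.B i0 i1)) (.S3 (.negSucc 18431) (.L (.B i0 i3)) (.L (.N i0 i2 i1 i3)))) (.S1 (.negSucc 18431) (.L (.B i0 i1)) (.S3 (.negSucc 18431) (.L (.B i0 i3)) (.L (.N i0 i2 i1 i3))))))) (.S1 (.negSucc 36863) (.L (.B i0 i1)) (.S3 (.negSucc 36863) (.L (.B i0 i3)) (.S0 (.negSucc 460799) (.S1 (.negSucc 18431) (.L (.B i0 i1)) (.S3 (.negSucc 18431) (.L (.B i0 i3)) (.L (.N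 i0 i2 i1 i3)))) (.S1 (.negSucc 18431) (.L (.B i0 i1)) (.S3 (.negSucc 18431) (.L (.B i0 i3)) (.L (.N i0 i2 i1 i3))))))))))))) (.S1 (.negSucc 147455) (.L (.B i0 i1)) (.S3 (.negSucc 147455) (.L (.B i0 i3)) (.S0 (.negSucc 368639) (.S1 (.negSucc 73727) (.L (.B i0 i1)) (.S3 (.negSucc 73727) (.L (.B i0 i3)) (.S0 (.negSucc 405503) (.S1 (.negSucc 36863) (.L (.B i0 i1)) (.S3 (.negSucc 36863) (.L (.B i0 i3)) (.S0 (.negSucc 423935) (.S1 (.negSucc 18431) (.L (.B i0 i1)) (.S3 (.negSucc 18431) (.L (.B i0 i3)) (.L (.N i0 i2 i1 i3)))) (.S1 (.negSucc 18431) (.L (.B i0 i1)) (.S3 (.negSucc 18431) (.L (.B i0 i3)) (.L (.N i0 i2 i1 i3))))))) (.S1 (.negSucc 36863) (.L (.B i0 i1)) (.S3 (.negSucc 36863) (.L (.B i0 i3)) (.S0 (.negSucc 387071) (.S1 (.negSucc 18431) (.L (.B i0 i1)) (.S3 (.negSucc 18431) (.L (.B i0 i3)) (.L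 (.N i0 i2 i1 i3)))) (.S1 (.negSucc 18431) (.L (.B i0 i1)) (.S3 (.negSucc 18431) (.L (.B i0 i3)) (.L (.N i0 i2 i1 i3)))))))))) (.S1 (.negSucc 73727) (.L (.B i0 i1)) (.S3 (.negSucc 73727) (.L (.B i0 i3)) (.S0 (.negSucc 331775) (.S1 (.negSucc 36863) (.L (.B i0 i1)) (.S3 (.negSucc 36863) (.L (.B i0 i3)) (.S0 (.negSucc 350207) (.S1 (.negSucc 18431) (.L (.B i0 i1)) (.S3 (.negSucc 18431) (.L (.B i0 i3)) (.L (.N i0 i2 i1 i3)))) (.S1 (.negSucc 18431) (.L (.B i0 i1)) (.S3 (.negSucc 18431) (.L (.B i0 i3)) (.L (.N i0 i2 i1 i3))))))) (.S1 (.negSucc 36863) (.L (.B i0 i1)) (.S3 (.negSucc 36863) (.L (.B i0 i3)) (.S0 (.negSucc 313343) (.S1 (.negSucc 18431) (.L (.B i0 i1)) (.S3 (.negSucc 18431) (.L (.B i0 i3)) (.L (.N i0 i2 i1 i3)))) (.S1 (.negSucc 18431) (.L (.B i0 i1)) (.S3 (.negSucc 18431) (.L (.B i0 i3)) (.L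 (.N i0 i2 i1 i3)))))))))))))))

def B0 : Box := ⟨⟨(.negSucc 589823), (.negSucc 294911)⟩, ⟨(.negSucc 589823), (.ofNat 0)⟩, ⟨(.negSucc 589823), (.ofNat 0)⟩⟩

theorem ok0 : check T0 B0 = true := by decide +kernel

def T1 : Tree := .S3 (.negSucc 294911) (.L (.B i1 i3)) (.S0 (.negSucc 147455) (.L (.B i0 i1)) (.L .O0))

def B1 : Box := ⟨⟨(.negSucc 294911), (.ofNat 0)⟩, ⟨(.negSucc 589823), (.negSucc 294911)⟩, ⟨(.negSucc 589823), (.ofNat 0)⟩⟩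

theorem ok1 : check T1 B1 = true := by decide +kernel

def T8 : Tree := .S0 (.negSucc 36863) (.S1 (.negSucc 36863) (.S3 (.negSucc 110591) (.L .O1) (.S0 (.negSucc 55295) (.L (.B i0 i3)) (.S1 (.negSucc 55295) (.L (.B i1 i3)) (.L .O1)))) (.L .O1)) (.S1 (.negSucc 36863) (.S3 (.negSucc 110591) (.L .O1) (.S0 (.negSucc 18431) (.S1 (.negSucc 55295) (.L .O0) (.L .O1)) (.L .O0))) (.L .O1))

def B8 : Box := ⟨⟨(.negSucc 73727), (.ofNat 0)⟩, ⟨(.negSucc 73727), (.ofNat 0)⟩, ⟨(.negSucc 147455), (.negSucc 73727)⟩⟩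

theorem ok8 : check T8 B8 = true := by decide +kernel

def T18 : Tree := .S1 (.negSucc 36863) (.S3 (.negSucc 36863) (.S0 (.negSucc 18431) (.S1 (.negSucc 55295) (.L .O0) (.S3 (.negSucc 55295) (.S0 (.negSucc 27647) (.S1 (.negSucc 46079) (.L .O0) (.L .O1)) (.L .O0)) (.L (.N i0 i2 i1 i3)))) (.L .O0)) (.S0 (.negSucc 18431) (.S1 (.negSucc 55295) (.L .O0) (.L (.N i0 i2 i1 i3))) (.L .O0))) (.S3 (.negSucc 36863) (.S0 (.negSucc 18431) (.S1 (.negSucc 18431) (.L (.M i2 i3 i0 i1)) (.L .O1)) (.L (.M i2 i3 i0 i1))) (.S0 (.negSucc 18431) (.L (.N i0 i2 i1 i3)) (.S1 (.negSucc 18431) (.L (.N i0 i2 i1 i3)) (.S3 (.negSucc 18431) (.L (.N i0 i2 i1 i3)) (.L (.D ⟨(.negSucc 811), (.ofNat 262), (.ofNat 262), (.ofNat 262), (.negSucc 811), (.ofNat 262), (.ofNat 262), (.ofNat 262), (.negSucc 811)⟩))))))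

def B18 : Box := ⟨⟨(.negSucc 36863), (.ofNat 0)⟩, ⟨(.negSucc 73727), (.ofNat 0)⟩, ⟨(.negSucc 73727), (.ofNat 0)⟩⟩

theorem ok18 : check T18 B18 = true := by decide +kernel

def T24 : Tree := .S1 (.negSucc 147455) (.L (.B i0 i1)) (.S3 (.ofNat 147456) (.S0 (.negSucc 221183) (.S1 (.negSucc 73727) (.L (.B i0 i1)) (.S3 (.ofNat 73728) (.S0 (.negSucc 258047) (.S1 (.negSucc 36863) (.L (.B i0 i1)) (.S3 (.ofNat 36864) (.S0 (.negSucc 276479) (.L (.N i0 i2 i1 i3)) (.L (.N i0 i2 i1 i3))) (.L (.M i1 i3 i0 i2)))) (.S1 (.negSucc 36863) (.L (.B i0 i1)) (.S3 (.ofNat 36864) (.S0 (.negSucc 239615) (.L (.N i0 i2 i1 i3)) (.L (.N i0 i2 i1 i3))) (.L (.M i1 i3 i0 i2))))) (.S0 (.negSucc 258047) (.S1 (.negSucc 36863) (.L (.B i0 i1)) (.L (.M i1 i3 i0 i2))) (.S1 (.negSucc 36863) (.L (.B i0 i1)) (.S3 (.ofNat 110592) (.L (.M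 i1 i3 i0 i2)) (.S0 (.negSucc 239615) (.L (.M i1 i3 i0 i2)) (.S1 (.negSucc 18431) (.L (.B i0 i1)) (.L (.N i0 i1 i2 i3))))))))) (.S1 (.negSucc 73727) (.L (.B i0 i1)) (.S3 (.ofNat 73728) (.S0 (.negSucc 184319) (.S1 (.negSucc 36863) (.L (.B i0 i1)) (.S3 (.ofNat 36864) (.S0 (.negSucc 202751) (.L (.N i0 i1 i2 i3)) (.L (.N i0 i1 i2 i3))) (.L (.M i2 i3 i0 i1)))) (.S1 (.negSucc 36863) (.L (.B i0 i1)) (.S3 (.ofNat 36864) (.S0 (.negSucc 165887) (.L (.N i0 i1 i2 i3)) (.L (.N i0 i1 i2 i3))) (.S0 (.negSucc 165887) (.L (.M i2 i3 i0 i1)) (.S1 (.negSucc 18431) (.L (.N i0 i1 i2 i3)) (.L (.N i0 i1 i2 i3))))))) (.S0 (.negSucc 184319) (.S1 (.negSucc 36863) (.L (.B i0 i1)) (.S3 (.ofNat 110592) (.S0 (.negSucc 202751) (.L (.M i1 i3 i0 i2)) (.S1 (.negSucc 18431) (.L (.N i0 i1 i2 i3)) (.L (.N i0 i1 i2 i3)))) (.S0 (.negSucc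 202751) (.S1 (.negSucc 18431) (.L (.N i0 i1 i2 i3)) (.L (.N i0 i1 i2 i3))) (.S1 (.negSucc 18431) (.L (.N i0 i1 i2 i3)) (.L (.N i0 i1 i2 i3)))))) (.S1 (.negSucc 36863) (.L (.B i0 i1)) (.S3 (.ofNat 110592) (.S0 (.negSucc 165887) (.S1 (.negSucc 18431) (.L (.N i0 i1 i2 i3)) (.L (.N i0 i1 i2 i3))) (.S1 (.negSucc 18431) (.L (.N i0 i1 i2 i3)) (.L (.N i0 i1 i2 i3)))) (.S0 (.negSucc 165887) (.S1 (.negSucc 18431) (.L (.N i0 i1 i2 i3)) (.L (.N i0 i1 i2 i3))) (.S1 (.negSucc 18431) (.L (.N i0 i1 i2 i3)) (.L (.N i0 i1 i2 i3)))))))))) (.S0 (.negSucc 221183) (.S1 (.negSucc 73727) (.L (.B i0 i1)) (.S3 (.ofNat 221184) (.S0 (.negSucc 258047) (.S1 (.negSucc 36863) (.L (.B i0 i1)) (.S3 (.ofNat 184320) (.L (.M i1 i3 i0 i2)) (.S0 (.negSucc 276479) (.S1 (.negSucc 18431) (.L (.B i0 i1)) (.L (.N i0 i1 i2 i3))) (.S1 (.negSucc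 18431) (.L (.B i0 i1)) (.L (.N i0 i1 i2 i3)))))) (.S1 (.negSucc 36863) (.L (.B i0 i1)) (.S3 (.ofNat 184320) (.S0 (.negSucc 239615) (.S1 (.negSucc 18431) (.L (.B i0 i1)) (.L (.N i0 i1 i2 i3))) (.S1 (.negSucc 18431) (.L (.B i0 i1)) (.L (.N i0 i1 i2 i3)))) (.S0 (.negSucc 239615) (.S1 (.negSucc 18431) (.L (.B i0 i1)) (.L (.N i0 i1 i2 i3))) (.S1 (.negSucc 18431) (.L (.B i0 i1)) (.S3 (.ofNat 202752) (.L (.N i0 i1 i2 i3)) (.L (.N i0 i1 i2 i3)))))))) (.S0 (.negSucc 258047) (.S1 (.negSucc 36863) (.L (.B i0 i1)) (.S3 (.ofNat 258048) (.S0 (.negSucc 276479) (.S1 (.negSucc 18431) (.L (.B i0 i1)) (.S3 (.ofNat 239616) (.L (.N i0 i1 i2 i3)) (.L (.N i0 i1 i2 i3)))) (.S1 (.negSucc 18431) (.L (.B i0 i1)) (.S3 (.ofNat 239616) (.L (.N i0 i1 i2 i3)) (.L (.N i0 i1 i2 i3))))) (.S0 (.negSucc 276479) (.S1 (.negSucc 18431)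 (.L (.B i0 i1)) (.S3 (.ofNat 276480) (.L (.N i0 i1 i2 i3)) (.S0 (.negSucc 285695) (.L (.N i0 i1 i2 i3)) (.S1 (.negSucc 9215) (.L (.N i0 i1 i2 i3)) (.L (.N i0 i1 i2 i3)))))) (.S1 (.negSucc 18431) (.L (.B i0 i1)) (.S3 (.ofNat 276480) (.S0 (.negSucc 267263) (.L (.N i0 i1 i2 i3)) (.S1 (.negSucc 9215) (.L (.N i0 i1 i2 i3)) (.L (.N i0 i1 i2 i3)))) (.S0 (.negSucc 267263) (.S1 (.negSucc 9215) (.L (.N i0 i1 i2 i3)) (.L (.N i0 i3 i1 i2))) (.S1 (.negSucc 9215) (.L (.N i0 i1 i2 i3)) (.L (.N i0 i3 i1 i2))))))))) (.S1 (.negSucc 36863) (.L (.B i0 i1)) (.S3 (.ofNat 258048) (.S0 (.negSucc 239615) (.S1 (.negSucc 18431) (.L (.B i0 i1)) (.S3 (.ofNat 239616) (.L (.N i0 i1 i2 i3)) (.S0 (.negSucc 248831) (.L (.N i0 i1 i2 i3)) (.L (.N i0 i3 i1 i2))))) (.S1 (.negSucc 18431) (.L (.B i0 i1)) (.S3 (.ofNat 239616) (.S0 (.negSucc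 230399) (.L (.N i0 i1 i2 i3)) (.L (.N i0 i1 i2 i3))) (.S0 (.negSucc 230399) (.L (.N i0 i3 i1 i2)) (.S1 (.negSucc 9215) (.L (.N i0 i1 i2 i3)) (.L (.N i0 i3 i1 i2))))))) (.S0 (.negSucc 239615) (.S1 (.negSucc 18431) (.L (.B i0 i1)) (.S3 (.ofNat 276480) (.S0 (.negSucc 248831) (.S1 (.negSucc 9215) (.L (.N i0 i1 i2 i3)) (.L (.N i0 i3 i1 i2))) (.S1 (.negSucc 9215) (.L (.N i0 i1 i2 i3)) (.L (.N i0 i3 i1 i2)))) (.S0 (.negSucc 248831) (.S1 (.negSucc 9215) (.L (.N i0 i1 i2 i3)) (.L .Y)) (.L .Y)))) (.S1 (.negSucc 18431) (.L (.B i0 i1)) (.S3 (.ofNat 276480) (.S0 (.negSucc 230399) (.S1 (.negSucc 9215) (.L (.N i0 i1 i2 i3)) (.L .Y)) (.L .Y)) (.L .Y))))))))) (.S1 (.negSucc 73727) (.L (.B i0 i1)) (.S3 (.ofNat 221184) (.S0 (.negSucc 184319) (.S1 (.negSucc 36863) (.L (.B i0 i1)) (.S3 (.ofNat 184320) (.S0 (.negSucc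 202751) (.S1 (.negSucc 18431) (.L (.N i0 i1 i2 i3)) (.L (.N i0 i1 i2 i3))) (.S1 (.negSucc 18431) (.L (.N i0 i1 i2 i3)) (.L (.N i0 i1 i2 i3)))) (.S0 (.negSucc 202751) (.S1 (.negSucc 18431) (.L (.N i0 i1 i2 i3)) (.S3 (.ofNat 202752) (.L (.N i0 i1 i2 i3)) (.S0 (.negSucc 211967) (.L (.N i0 i1 i2 i3)) (.L (.N i0 i1 i2 i3))))) (.S1 (.negSucc 18431) (.L (.N i0 i1 i2 i3)) (.S3 (.ofNat 202752) (.S0 (.negSucc 193535) (.L (.N i0 i1 i2 i3)) (.L (.N i0 i1 i2 i3))) (.S0 (.negSucc 193535) (.L (.N i0 i3 i1 i2)) (.L (.N i0 i3 i1 i2)))))))) (.S1 (.negSucc 36863) (.L (.B i0 i1)) (.S3 (.ofNat 184320) (.S0 (.negSucc 165887) (.S1 (.negSucc 18431) (.L (.N i0 i1 i2 i3)) (.S3 (.ofNat 165888) (.L (.N i0 i1 i2 i3)) (.L (.N i0 i3 i1 i2)))) (.S1 (.negSucc 18431) (.L (.N i0 i1 i2 i3)) (.L (.N i0 i3 i1 i2)))) (.S0 (.negSucc 165887)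 (.S1 (.negSucc 18431) (.L (.N i0 i1 i2 i3)) (.S3 (.ofNat 202752) (.L (.N i0 i3 i1 i2)) (.S0 (.negSucc 175103) (.L (.N i0 i3 i1 i2)) (.L .Y)))) (.S1 (.negSucc 18431) (.L (.N i0 i1 i2 i3)) (.S3 (.ofNat 202752) (.L (.N i0 i3 i1 i2)) (.L .Y))))))) (.S0 (.negSucc 184319) (.S1 (.negSucc 36863) (.L (.B i0 i1)) (.S3 (.ofNat 258048) (.S0 (.negSucc 202751) (.S1 (.negSucc 18431) (.L (.N i0 i1 i2 i3)) (.S3 (.ofNat 239616) (.S0 (.negSucc 211967) (.L (.N i0 i3 i1 i2)) (.S1 (.negSucc 9215) (.L (.N i0 i1 i2 i3)) (.L (.N i0 i3 i1 i2)))) (.S0 (.negSucc 211967) (.S1 (.negSucc 9215) (.L (.N i0 i1 i2 i3)) (.L .Y)) (.L .Y)))) (.S1 (.negSucc 18431) (.L (.N i0 i1 i2 i3)) (.S3 (.ofNat 239616) (.S0 (.negSucc 193535) (.S1 (.negSucc 9215) (.L (.N i0 i1 i2 i3)) (.L .Y)) (.L .Y)) (.L .Y)))) (.S0 (.negSucc 202751) (.S1 (.negSucc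 18431) (.L (.N i0 i1 i2 i3)) (.L .Y)) (.L .Y)))) (.S1 (.negSucc 36863) (.L (.B i0 i1)) (.S3 (.ofNat 258048) (.S0 (.negSucc 165887) (.S1 (.negSucc 18431) (.L (.N i0 i1 i2 i3)) (.L .Y)) (.L .Y)) (.L .Y))))))))

def B24 : Box := ⟨⟨(.negSucc 294911), (.negSucc 147455)⟩, ⟨(.negSucc 294911), (.ofNat 0)⟩, ⟨(.ofNat 0), (.ofNat 294912)⟩⟩

theorem ok24 : check T24 B24 = true := by decide +kernel

def T29 : Tree := .S1 (.ofNat 147456) (.S3 (.ofNat 442368) (.S0 (.negSucc 516095) (.S1 (.ofNat 73728) (.S3 (.ofNat 368640) (.L (.B i2 i3)) (.S0 (.negSucc 552959) (.L (.M i0 i2 i1 i3)) (.S1 (.ofNat 36864) (.L (.M i0 i2 i1 i3)) (.L (.B i1 i3))))) (.L (.B i1 i3))) (.S1 (.ofNat 73728) (.S3 (.ofNat 368640) (.S0 (.negSucc 479231) (.S1 (.ofNat 36864) (.L (.B i2 i3)) (.L (.B i1 i3))) (.S1 (.ofNat 36864) (.S3 (.ofNat 331776)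 (.L (.B i2 i3)) (.L (.M i0 i2 i1 i3))) (.L (.B i1 i3)))) (.S0 (.negSucc 479231) (.S1 (.ofNat 36864) (.S3 (.ofNat 405504) (.L (.M i0 i2 i1 i3)) (.S0 (.negSucc 497663) (.S1 (.ofNat 18432) (.L (.M i0 i2 i1 i3)) (.L (.B i1 i3))) (.S1 (.ofNat 18432) (.L (.M i0 i2 i1 i3)) (.L (.B i1 i3))))) (.L (.B i1 i3))) (.S1 (.ofNat 36864) (.S3 (.ofNat 405504) (.S0 (.negSucc 460799) (.S1 (.ofNat 18432) (.L (.M i0 i2 i1 i3)) (.L (.B i1 i3))) (.S1 (.ofNat 18432) (.S3 (.ofNat 387072) (.L (.M i0 i2 i1 i3)) (.L (.M i0 i2 i1 i3))) (.L (.B i1 i3)))) (.S0 (.negSucc 460799) (.S1 (.ofNat 18432) (.S3 (.ofNat 423936) (.L (.M i0 i2 i1 i3)) (.S0 (.negSucc 470015) (.S1 (.ofNat 9216) (.L (.M i0 i2 i1 i3)) (.L (.B i1 i3))) (.S1 (.ofNat 9216) (.L (.N i2 i3 i0 i1)) (.L (.B i1 i3))))) (.L (.B i1 i3))) (.S1 (.ofNat 18432) (.S3 (.ofNat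 423936) (.S0 (.negSucc 451583) (.S1 (.ofNat 9216) (.L (.M i0 i2 i1 i3)) (.L (.M i0 i1 i2 i3))) (.S1 (.ofNat 9216) (.L (.N i2 i3 i0 i1)) (.L (.M i0 i1 i2 i3)))) (.S0 (.negSucc 451583) (.S1 (.ofNat 9216) (.S3 (.ofNat 433152) (.L (.M i0 i2 i1 i3)) (.L (.N i0 i3 i1 i2))) (.L (.B i1 i3))) (.S1 (.ofNat 9216) (.L (.N i0 i3 i1 i2)) (.L (.B i1 i3))))) (.L (.B i1 i3))))) (.L (.B i1 i3))))) (.L (.B i1 i3)))) (.S0 (.negSucc 516095) (.S1 (.ofNat 73728) (.S3 (.ofNat 516096) (.S0 (.negSucc 552959) (.S1 (.ofNat 36864) (.S3 (.ofNat 479232) (.L (.M i0 i2 i1 i3)) (.S0 (.negSucc 571391) (.L (.M i0 i2 i1 i3)) (.S1 (.ofNat 18432) (.L (.M i0 i2 i1 i3)) (.L (.B i1 i3))))) (.L (.B i1 i3))) (.S1 (.ofNat 36864) (.S3 (.ofNat 479232) (.S0 (.negSucc 534527) (.L (.M i0 i2 i1 i3)) (.S1 (.ofNat 18432) (.L (.M i0 i2 i1 i3)) (.L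 (.B i1 i3)))) (.S0 (.negSucc 534527) (.S1 (.ofNat 18432) (.S3 (.ofNat 497664) (.L (.M i0 i2 i1 i3)) (.S0 (.negSucc 543743) (.L (.M i0 i2 i1 i3)) (.S1 (.ofNat 9216) (.L (.M i0 i2 i1 i3)) (.L (.B i1 i3))))) (.L (.B i1 i3))) (.S1 (.ofNat 18432) (.S3 (.ofNat 497664) (.S0 (.negSucc 525311) (.L (.M i0 i2 i1 i3)) (.S1 (.ofNat 9216) (.L (.M i0 i2 i1 i3)) (.L (.B i1 i3)))) (.S0 (.negSucc 525311) (.S1 (.ofNat 9216) (.S3 (.ofNat 506880) (.L (.M i0 i2 i1 i3)) (.S0 (.negSucc 529919) (.L (.N i2 i3 i0 i1)) (.L (.N i0 i3 i1 i2)))) (.L (.B i1 i3))) (.S1 (.ofNat 9216) (.S3 (.ofNat 506880) (.L (.N i0 i3 i1 i2)) (.L (.N i0 i3 i1 i2))) (.L (.B i1 i3))))) (.L (.B i1 i3))))) (.L (.B i1 i3)))) (.S0 (.negSucc 552959) (.S1 (.ofNat 36864) (.S3 (.ofNat 552960) (.S0 (.negSucc 571391) (.S1 (.ofNat 18432) (.S3 (.ofNat 534528)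 (.L (.M i0 i2 i1 i3)) (.S0 (.negSucc 580607) (.L (.M i0 i2 i1 i3)) (.S1 (.ofNat 9216) (.L (.M i0 i2 i1 i3)) (.L (.B i1 i3))))) (.L (.B i1 i3))) (.S1 (.ofNat 18432) (.S3 (.ofNat 534528) (.S0 (.negSucc 562175) (.L (.M i0 i2 i1 i3)) (.S1 (.ofNat 9216) (.L (.M i0 i2 i1 i3)) (.L (.B i1 i3)))) (.S0 (.negSucc 562175) (.S1 (.ofNat 9216) (.S3 (.ofNat 543744) (.L (.M i0 i2 i1 i3)) (.S0 (.negSucc 566783) (.L (.N i2 i3 i0 i1)) (.L (.N i0 i3 i1 i2)))) (.L (.B i1 i3))) (.S1 (.ofNat 9216) (.S3 (.ofNat 543744) (.S0 (.negSucc 557567) (.L (.N i2 i3 i0 i1)) (.L (.N i0 i3 i1 i2))) (.L (.N i0 i3 i1 i2))) (.L (.B i1 i3))))) (.L (.B i1 i3)))) (.S0 (.negSucc 571391) (.S1 (.ofNat 18432) (.S3 (.ofNat 571392) (.S0 (.negSucc 580607) (.S1 (.ofNat 9216) (.S3 (.ofNat 562176) (.L (.M i0 i2 i1 i3)) (.S0 (.negSucc 585215) (.L (.M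 i0 i2 i1 i3)) (.L (.N i0 i3 i1 i2)))) (.L (.B i1 i3))) (.S1 (.ofNat 9216) (.S3 (.ofNat 562176) (.S0 (.negSucc 575999) (.L (.M i0 i2 i1 i3)) (.L (.N i0 i3 i1 i2))) (.L (.N i0 i3 i1 i2))) (.L (.B i1 i3)))) (.S0 (.negSucc 580607) (.S1 (.ofNat 9216) (.L (.N i0 i3 i1 i2)) (.L (.B i1 i3))) (.S1 (.ofNat 9216) (.L (.N i1 i3 i0 i2)) (.L (.B i1 i3))))) (.L (.B i1 i3))) (.S1 (.ofNat 18432) (.S3 (.ofNat 571392) (.S0 (.negSucc 562175) (.S1 (.ofNat 9216) (.L (.N i0 i3 i1 i2)) (.L (.B i1 i3))) (.S1 (.ofNat 9216) (.L (.N i1 i3 i0 i2)) (.L (.B i1 i3)))) (.S0 (.negSucc 562175) (.S1 (.ofNat 9216) (.L (.N i1 i3 i0 i2)) (.L .Y)) (.L .Y))) (.L (.B i1 i3))))) (.L (.B i1 i3))) (.S1 (.ofNat 36864) (.S3 (.ofNat 552960) (.S0 (.negSucc 534527) (.S1 (.ofNat 18432) (.S3 (.ofNat 534528) (.S0 (.negSucc 543743) (.S1 (.ofNat 9216)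 (.S3 (.ofNat 525312) (.L (.M i0 i2 i1 i3)) (.S0 (.negSucc 548351) (.L (.N i2 i3 i0 i1)) (.L (.N i0 i3 i1 i2)))) (.L (.B i1 i3))) (.S1 (.ofNat 9216) (.S3 (.ofNat 525312) (.S0 (.negSucc 539135) (.L (.N i2 i3 i0 i1)) (.L (.N i0 i3 i1 i2))) (.L (.N i0 i3 i1 i2))) (.L (.B i1 i3)))) (.S0 (.negSucc 543743) (.S1 (.ofNat 9216) (.L (.N i0 i3 i1 i2)) (.L (.B i1 i3))) (.S1 (.ofNat 9216) (.L (.N i1 i3 i0 i2)) (.L (.B i1 i3))))) (.L (.B i1 i3))) (.S1 (.ofNat 18432) (.S3 (.ofNat 534528) (.S0 (.negSucc 525311) (.S1 (.ofNat 9216) (.L (.N i0 i3 i1 i2)) (.L (.B i1 i3))) (.S1 (.ofNat 9216) (.L (.N i1 i3 i0 i2)) (.L (.B i1 i3)))) (.S0 (.negSucc 525311) (.S1 (.ofNat 9216) (.L (.N i1 i3 i0 i2)) (.L .Y)) (.L .Y))) (.L (.B i1 i3)))) (.S0 (.negSucc 534527) (.S1 (.ofNat 18432) (.S3 (.ofNat 571392) (.S0 (.negSucc 543743) (.S1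 (.ofNat 9216) (.L (.N i1 i3 i0 i2)) (.L .Y)) (.L .Y)) (.L .Y)) (.L .Y)) (.L .Y))) (.L (.B i1 i3))))) (.L (.B i1 i3))) (.S1 (.ofNat 73728) (.S3 (.ofNat 516096) (.S0 (.negSucc 479231) (.S1 (.ofNat 36864) (.S3 (.ofNat 479232) (.S0 (.negSucc 497663) (.S1 (.ofNat 18432) (.S3 (.ofNat 460800) (.L (.M i0 i2 i1 i3)) (.S0 (.negSucc 506879) (.S1 (.ofNat 9216) (.L (.M i0 i2 i1 i3)) (.L (.B i1 i3))) (.S1 (.ofNat 9216) (.L (.M i0 i2 i1 i3)) (.L (.B i1 i3))))) (.L (.B i1 i3))) (.S1 (.ofNat 18432) (.S3 (.ofNat 460800) (.S0 (.negSucc 488447) (.S1 (.ofNat 9216) (.L (.M i0 i2 i1 i3)) (.L (.B i1 i3))) (.S1 (.ofNat 9216) (.L (.N i2 i3 i0 i1)) (.L (.B i1 i3)))) (.S0 (.negSucc 488447) (.S1 (.ofNat 9216) (.S3 (.ofNat 470016) (.L (.M i0 i2 i1 i3)) (.L (.N i0 i3 i1 i2))) (.L (.B i1 i3))) (.S1 (.ofNat 9216) (.L (.N i0 i3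 i1 i2)) (.L (.B i1 i3))))) (.L (.B i1 i3)))) (.S0 (.negSucc 497663) (.S1 (.ofNat 18432) (.S3 (.ofNat 497664) (.S0 (.negSucc 506879) (.S1 (.ofNat 9216) (.S3 (.ofNat 488448) (.L (.M i0 i2 i1 i3)) (.L (.N i0 i3 i1 i2))) (.L (.B i1 i3))) (.S1 (.ofNat 9216) (.L (.N i0 i3 i1 i2)) (.L (.B i1 i3)))) (.S0 (.negSucc 506879) (.S1 (.ofNat 9216) (.L (.N i0 i3 i1 i2)) (.L (.B i1 i3))) (.S1 (.ofNat 9216) (.L (.N i0 i3 i1 i2)) (.L (.B i1 i3))))) (.L (.B i1 i3))) (.S1 (.ofNat 18432) (.S3 (.ofNat 497664) (.S0 (.negSucc 488447) (.S1 (.ofNat 9216) (.L (.N i0 i3 i1 i2)) (.L (.B i1 i3))) (.S1 (.ofNat 9216) (.L (.N i0 i3 i1 i2)) (.L (.B i1 i3)))) (.S0 (.negSucc 488447) (.S1 (.ofNat 9216) (.L (.N i1 i3 i0 i2)) (.L .Y)) (.L .Y))) (.L (.B i1 i3))))) (.L (.B i1 i3))) (.S1 (.ofNat 36864) (.S3 (.ofNat 479232) (.S0 (.negSucc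 460799) (.S1 (.ofNat 18432) (.S3 (.ofNat 460800) (.S0 (.negSucc 470015) (.S1 (.ofNat 9216) (.S3 (.ofNat 451584) (.L (.M i0 i2 i1 i3)) (.L (.N i0 i3 i1 i2))) (.L (.B i1 i3))) (.S1 (.ofNat 9216) (.L (.N i0 i3 i1 i2)) (.L (.B i1 i3)))) (.S0 (.negSucc 470015) (.S1 (.ofNat 9216) (.L (.N i0 i3 i1 i2)) (.L (.B i1 i3))) (.S1 (.ofNat 9216) (.L (.N i0 i3 i1 i2)) (.L (.B i1 i3))))) (.L (.B i1 i3))) (.S1 (.ofNat 18432) (.S3 (.ofNat 460800) (.S0 (.negSucc 451583) (.S1 (.ofNat 9216) (.L (.N i0 i3 i1 i2)) (.L (.B i1 i3))) (.S1 (.ofNat 9216) (.L (.N i0 i3 i1 i2)) (.L (.B i1 i3)))) (.S0 (.negSucc 451583) (.S1 (.ofNat 9216) (.L (.N i1 i3 i0 i2)) (.L .Y)) (.L .Y))) (.L (.B i1 i3)))) (.S0 (.negSucc 460799) (.S1 (.ofNat 18432) (.S3 (.ofNat 497664) (.S0 (.negSucc 470015) (.S1 (.ofNat 9216) (.L (.N i1 i3 i0 i2)) (.L .Y))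 (.L .Y)) (.L .Y)) (.L .Y)) (.L .Y))) (.L (.B i1 i3)))) (.S0 (.negSucc 479231) (.S1 (.ofNat 36864) (.S3 (.ofNat 552960) (.S0 (.negSucc 497663) (.S1 (.ofNat 18432) (.S3 (.ofNat 534528) (.S0 (.negSucc 506879) (.S1 (.ofNat 9216) (.L (.N i1 i3 i0 i2)) (.L .Y)) (.L .Y)) (.L .Y)) (.L .Y)) (.L .Y)) (.L .Y)) (.L .Y)) (.L .Y))) (.L (.B i1 i3))))) (.L (.B i1 i3))

def B29 : Box := ⟨⟨(.negSucc 589823), (.negSucc 442367)⟩, ⟨(.ofNat 0), (.ofNat 294912)⟩, ⟨(.ofNat 294912), (.ofNat 589824)⟩⟩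

theorem ok29 : check T29 B29 = true := by decide +kernel

def T39 : Tree := .S1 (.ofNat 18432) (.S3 (.ofNat 165888) (.S0 (.negSucc 230399) (.S1 (.ofNat 9216) (.S3 (.ofNat 156672) (.S0 (.negSucc 235007) (.S1 (.ofNat 4608) (.L (.N i0 i1 i2 i3)) (.S3 (.ofNat 152064) (.S0 (.negSucc 237311) (.S1 (.ofNat 6912) (.L (.N i0 i1 i2 i3)) (.S3 (.ofNat 149760) (.S0 (.negSucc 238463) (.S1 (.ofNat 8064) (.L (.N i0 i1 i2 i3)) (.S3 (.ofNat 148608) (.L (.D ⟨(.ofNat 540), (.negSucc 83), (.negSucc 134), (.negSucc 83), (.ofNat 99), (.ofNat 43), (.negSucc 134), (.ofNat 43), (.negSucc 461)⟩)) (.L (.D ⟨(.ofNat 542), (.negSucc 82), (.negSucc 129), (.negSucc 82), (.ofNat 98), (.ofNat 44), (.negSucc 129), (.ofNat 44), (.negSucc 474)⟩)))) (.S1 (.ofNat 8064) (.L (.N i0 i1 i2 i3)) (.S3 (.ofNat 148608) (.L (.D ⟨(.ofNat 554),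 (.negSucc 83), (.negSucc 139), (.negSucc 83), (.ofNat 100), (.ofNat 44), (.negSucc 139), (.ofNat 44), (.negSucc 470)⟩)) (.L (.D ⟨(.ofNat 556), (.negSucc 82), (.negSucc 133), (.negSucc 82), (.ofNat 98), (.ofNat 46), (.negSucc 133), (.ofNat 46), (.negSucc 483)⟩))))) (.S0 (.negSucc 238463) (.S1 (.ofNat 8064) (.L (.N i0 i1 i2 i3)) (.S3 (.ofNat 150912) (.L (.D ⟨(.ofNat 544), (.negSucc 82), (.negSucc 123), (.negSucc 82), (.ofNat 96), (.ofNat 46), (.negSucc 123), (.ofNat 46), (.negSucc 488)⟩)) (.L (.N i0 i3 i1 i2)))) (.S1 (.ofNat 8064) (.L (.N i0 i1 i2 i3)) (.L (.N i0 i3 i1 i2)))))) (.S1 (.ofNat 6912) (.L (.N i0 i1 i2 i3)) (.S3 (.ofNat 149760) (.S0 (.negSucc 236159) (.S1 (.ofNat 8064) (.L (.N i0 i1 i2 i3)) (.S3 (.ofNat 148608) (.L (.N i0 i3 i1 i2)) (.L (.N i0 i3 i1 i2)))) (.S1 (.ofNat 8064) (.L (.N i0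 i1 i2 i3)) (.L (.N i0 i3 i1 i2)))) (.S0 (.negSucc 236159) (.L (.N i0 i3 i1 i2)) (.L (.N i0 i3 i1 i2)))))) (.S0 (.negSucc 237311) (.S1 (.ofNat 6912) (.L (.N i0 i1 i2 i3)) (.S3 (.ofNat 154368) (.S0 (.negSucc 238463) (.S1 (.ofNat 8064) (.L (.N i0 i1 i2 i3)) (.L (.N i0 i3 i1 i2))) (.L (.N i0 i3 i1 i2))) (.L (.N i0 i3 i1 i2)))) (.S1 (.ofNat 6912) (.L (.N i0 i1 i2 i3)) (.L (.N i0 i3 i1 i2)))))) (.S1 (.ofNat 4608) (.L (.N i0 i1 i2 i3)) (.S3 (.ofNat 152064) (.S0 (.negSucc 232703) (.S1 (.ofNat 6912) (.L (.N i0 i1 i2 i3)) (.S3 (.ofNat 149760) (.L (.N i0 i3 i1 i2)) (.L (.N i0 i3 i1 i2)))) (.S1 (.ofNat 6912) (.L (.N i0 i1 i2 i3)) (.L (.N i0 i3 i1 i2)))) (.L (.N i0 i3 i1 i2))))) (.S0 (.negSucc 235007) (.S1 (.ofNat 4608) (.L (.N i0 i1 i2 i3)) (.S3 (.ofNat 161280) (.S0 (.negSucc 237311) (.S1 (.ofNat 6912) (.L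 (.N i0 i1 i2 i3)) (.L (.N i0 i3 i1 i2))) (.L (.N i0 i3 i1 i2))) (.L (.N i0 i3 i1 i2)))) (.S1 (.ofNat 4608) (.L (.N i0 i1 i2 i3)) (.L (.N i0 i3 i1 i2))))) (.S3 (.ofNat 156672) (.S0 (.negSucc 235007) (.S1 (.ofNat 13824) (.S3 (.ofNat 152064) (.S0 (.negSucc 237311) (.S1 (.ofNat 11520) (.S3 (.ofNat 149760) (.S0 (.negSucc 238463) (.S1 (.ofNat 10368) (.S3 (.ofNat 148608) (.L (.D ⟨(.ofNat 545), (.negSucc 76), (.negSucc 140), (.negSucc 76), (.ofNat 95), (.ofNat 48), (.negSucc 140), (.ofNat 48), (.negSucc 469)⟩)) (.L (.D ⟨(.ofNat 547), (.negSucc 75), (.negSucc 134), (.negSucc 75), (.ofNat 93), (.ofNat 50), (.negSucc 134), (.ofNat 50), (.negSucc 482)⟩))) (.L (.M i0 i1 i2 i3))) (.S1 (.ofNat 10368) (.S3 (.ofNat 148608) (.L (.D ⟨(.ofNat 559), (.negSucc 75), (.negSucc 144), (.negSucc 75), (.ofNat 95), (.ofNat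 49), (.negSucc 144), (.ofNat 49), (.negSucc 477)⟩)) (.L (.N i0 i3 i1 i2))) (.L (.M i0 i1 i2 i3)))) (.S0 (.negSucc 238463) (.S1 (.ofNat 10368) (.S3 (.ofNat 150912) (.L (.N i1 i3 i0 i2)) (.L (.N i0 i3 i1 i2))) (.L (.M i0 i1 i2 i3))) (.L (.N i1 i3 i0 i2)))) (.L (.M i0 i1 i2 i3))) (.S1 (.ofNat 11520) (.S3 (.ofNat 149760) (.S0 (.negSucc 236159) (.S1 (.ofNat 10368) (.L (.N i0 i3 i1 i2)) (.L (.M i0 i1 i2 i3))) (.L (.N i0 i3 i1 i2))) (.L (.N i0 i3 i1 i2))) (.L (.M i0 i1 i2 i3)))) (.S0 (.negSucc 237311) (.S1 (.ofNat 11520) (.L (.N i1 i3 i0 i2)) (.L (.M i0 i1 i2 i3))) (.L (.N i1 i3 i0 i2)))) (.L (.M i0 i1 i2 i3))) (.S1 (.ofNat 13824) (.S3 (.ofNat 152064) (.S0 (.negSucc 232703) (.S1 (.ofNat 11520) (.L (.N i0 i3 i1 i2)) (.L (.M i0 i1 i2 i3))) (.L (.N i0 i3 i1 i2))) (.L (.N i0 i3 i1 i2))) (.L (.M i0 i1 i2 i3))))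 (.L (.N i1 i3 i0 i2)))) (.S1 (.ofNat 9216) (.S3 (.ofNat 156672) (.S0 (.negSucc 225791) (.S1 (.ofNat 4608) (.L (.N i0 i1 i2 i3)) (.L (.N i0 i3 i1 i2))) (.L (.N i0 i3 i1 i2))) (.L (.N i0 i3 i1 i2))) (.S3 (.ofNat 156672) (.S0 (.negSucc 225791) (.S1 (.ofNat 13824) (.L (.N i0 i3 i1 i2)) (.L (.M i0 i1 i2 i3))) (.L (.N i1 i3 i0 i2))) (.L (.N i1 i3 i0 i2))))) (.S0 (.negSucc 230399) (.S1 (.ofNat 9216) (.S3 (.ofNat 175104) (.S0 (.negSucc 235007) (.S1 (.ofNat 4608) (.L (.N i0 i1 i2 i3)) (.L (.N i0 i3 i1 i2))) (.L (.N i0 i3 i1 i2))) (.L (.N i0 i3 i1 i2))) (.L (.N i1 i3 i0 i2))) (.S1 (.ofNat 9216) (.L (.N i0 i3 i1 i2)) (.L (.N i1 i3 i0 i2))))) (.L (.M i0 i1 i2 i3))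

def B39 : Box := ⟨⟨(.negSucc 239615), (.negSucc 221183)⟩, ⟨(.ofNat 0), (.ofNat 36864)⟩, ⟨(.ofNat 147456), (.ofNat 184320)⟩⟩

theorem ok39 : check T39 B39 = true := by decide +kernel

def T41 : Tree := .L (.B i1 i3)

def B41 : Box := ⟨⟨(.negSucc 258047), (.negSucc 221183)⟩, ⟨(.ofNat 36864), (.ofNat 73728)⟩, ⟨(.ofNat 147456), (.ofNat 221184)⟩⟩

theorem ok41 : check T41 B41 = true := by decide +kernel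

def T49 : Tree := .S1 (.ofNat 0) (.S3 (.ofNat 0) (.S0 (.ofNat 294912) (.S1 (.negSucc 294911) (.L .O0) (.S3 (.negSucc 294911) (.S0 (.ofNat 147456) (.S1 (.negSucc 147455) (.L .O0) (.L .O1)) (.L .O0)) (.S0 (.ofNat 147456) (.S1 (.negSucc 147455) (.L .O0) (.S3 (.negSucc 147455) (.S0 (.ofNat 73728) (.S1 (.negSucc 73727) (.L .O0) (.L .O1)) (.L .O0)) (.S0 (.ofNat 73728) (.S1 (.negSucc 73727) (.L .O0) (.S3 (.negSucc 73727) (.S0 (.ofNat 36864) (.S1 (.negSucc 36863) (.L .O0) (.L .O1)) (.L .O0)) (.S0 (.ofNat 36864) (.S1 (.negSucc 36863) (.L .O0) (.S3 (.negSucc 36863) (.S0 (.ofNat 18432) (.L (.M i2 i3 i0 i1)) (.L .O0)) (.S0 (.ofNat 18432) (.S1 (.negSucc 18431) (.L .O0) (.S3 (.negSucc 18431) (.L (.M i0 i3 i1 i2)) (.L (.D ⟨(.negSucc 876), (.ofNat 324), (.ofNat 324), (.ofNat 324), (.negSucc 824), (.ofNat 219),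 (.ofNat 324), (.ofNat 219), (.negSucc 824)⟩)))) (.L .O0)))) (.L .O0)))) (.L .O0)))) (.L .O0)))) (.L .O0)) (.S0 (.ofNat 294912) (.S1 (.negSucc 294911) (.L .O0) (.S3 (.ofNat 294912) (.S0 (.ofNat 147456) (.S1 (.negSucc 147455) (.L .O0) (.S3 (.ofNat 147456) (.S0 (.ofNat 73728) (.S1 (.negSucc 73727) (.L .O0) (.S3 (.ofNat 73728) (.S0 (.ofNat 36864) (.S1 (.negSucc 36863) (.L .O0) (.S3 (.ofNat 36864) (.S0 (.ofNat 18432) (.S1 (.negSucc 18431) (.L .O0) (.S3 (.ofNat 18432) (.L (.D ⟨(.negSucc 824), (.ofNat 324), (.ofNat 219), (.ofNat 324), (.negSucc 876), (.ofNat 324), (.ofNat 219), (.ofNat 324), (.negSucc 824)⟩)) (.L (.N i1 i3 i0 i2)))) (.L .O0)) (.S0 (.ofNat 18432) (.L (.N i2 i3 i0 i1)) (.L .O0)))) (.L .O0)) (.S0 (.ofNat 36864) (.S1 (.negSucc 36863) (.L .O0) (.L .Y)) (.L .O0)))) (.L .O0)) (.S0 (.ofNat 73728)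 (.S1 (.negSucc 73727) (.L .O0) (.L .Y)) (.L .O0)))) (.L .O0)) (.S0 (.ofNat 147456) (.S1 (.negSucc 147455) (.L .O0) (.L .Y)) (.L .O0)))) (.L .O0))) (.S3 (.ofNat 0) (.S0 (.ofNat 294912) (.S1 (.ofNat 294912) (.S3 (.negSucc 294911) (.L .O1) (.S0 (.ofNat 147456) (.S1 (.ofNat 147456) (.S3 (.negSucc 147455) (.L .O1) (.S0 (.ofNat 73728) (.S1 (.ofNat 73728) (.S3 (.negSucc 73727) (.L .O1) (.S0 (.ofNat 36864) (.S1 (.ofNat 36864) (.S3 (.negSucc 36863) (.L .O1) (.S0 (.ofNat 18432) (.S1 (.ofNat 18432) (.S3 (.negSucc 18431) (.L .O1) (.L (.D ⟨(.negSucc 824), (.ofNat 219), (.ofNat 324), (.ofNat 219), (.negSucc 824), (.ofNat 324), (.ofNat 324), (.ofNat 324), (.negSucc 876)⟩))) (.L .O1)) (.S1 (.ofNat 18432) (.L (.M i0 i3 i1 i2)) (.L .O1)))) (.L .O1)) (.S1 (.ofNat 36864) (.S3 (.negSucc 36863) (.L .O1) (.S0 (.ofNat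 55296) (.S1 (.ofNat 18432) (.L .O0) (.L .O1)) (.L .O0))) (.L .O1)))) (.L .O1)) (.S1 (.ofNat 73728) (.S3 (.negSucc 73727) (.L .O1) (.S0 (.ofNat 110592) (.S1 (.ofNat 36864) (.L .O0) (.L .O1)) (.L .O0))) (.L .O1)))) (.L .O1)) (.S1 (.ofNat 147456) (.S3 (.negSucc 147455) (.L .O1) (.S0 (.ofNat 221184) (.S1 (.ofNat 73728) (.L .O0) (.L .O1)) (.L .O0))) (.L .O1)))) (.L .O1)) (.S1 (.ofNat 294912) (.S3 (.negSucc 294911) (.L .O1) (.S0 (.ofNat 442368) (.S1 (.ofNat 147456) (.L .O0) (.L .O1)) (.L .O0))) (.L .O1))) (.S0 (.ofNat 294912) (.S1 (.ofNat 294912) (.S3 (.ofNat 294912) (.S0 (.ofNat 147456) (.S1 (.ofNat 147456) (.S3 (.ofNat 147456) (.S0 (.ofNat 73728) (.S1 (.ofNat 73728) (.S3 (.ofNat 73728) (.S0 (.ofNat 36864) (.S1 (.ofNat 36864) (.S3 (.ofNat 36864) (.S0 (.ofNat 18432) (.S1 (.ofNat 18432) (.S3 (.ofNat 18432)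 (.L (.D ⟨(.negSucc 811), (.ofNat 262), (.ofNat 262), (.ofNat 262), (.negSucc 811), (.ofNat 262), (.ofNat 262), (.ofNat 262), (.negSucc 811)⟩)) (.L .Y)) (.L .Y)) (.L .Y)) (.L .Y)) (.L .Y)) (.L .Y)) (.L .Y)) (.L .Y)) (.L .Y)) (.L .Y)) (.L .Y)) (.L .Y)) (.L .Y)) (.L .Y)) (.L .Y)))

def B49 : Box := ⟨⟨(.ofNat 0), (.ofNat 589824)⟩, ⟨(.negSucc 589823), (.ofNat 589824)⟩, ⟨(.negSucc 589823), (.ofNat 589824)⟩⟩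

theorem ok49 : check T49 B49 = true := by decide +kernel

end NonMorse.BB
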