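import Pool.Agent.Helper342.Alg.BBDefs

set_option linter.style.longLine false

namespace NonMorse.BB
open Ix

def T5 : Tree := .S0 (.negSucc 73727) (.L (.B i0 i3)) (.S1 (.negSucc 73727) (.L (.B i1 i3)) (.L .O1))

def B5 : Box := ⟨⟨(.negSucc 147455), (.ofNat 0)⟩, ⟨(.negSucc 147455), (.ofNat 0)⟩, ⟨(.negSucc 294911), (.negSucc 147455)⟩⟩

theorem ok5 : check T5 B5 = true := by decide +kernel

def T6 : Tree := .S1 (.negSucc 73727) (.L (.B i0 i1)) (.S3 (.negSucc 73727) (.L (.B i0 i3)) (.S0 (.negSucc 110591) (.S1 (.negSucc 36863) (.L (.B i0 i1)) (.S3 (.negSucc 36863) (.L (.B i0 i3)) (.S0 (.negSucc 129023) (.S1 (.negSucc 18431) (.S3 (.negSucc 18431) (.S0 (.negSucc 138239) (.S1 (.negSucc 27647) (.L (.B i0 i1)) (.L (.N i0 i1 i2 i3))) (.S1 (.negSucc 27647) (.L (.N i0 i1 i2 i3)) (.L (.N i0 i3 i1 i2))))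 (.L (.N i0 i1 i2 i3))) (.L (.N i0 i2 i1 i3))) (.S1 (.negSucc 18431) (.S3 (.negSucc 18431) (.S0 (.negSucc 119807) (.S1 (.negSucc 27647) (.L (.N i0 i1 i2 i3)) (.L (.N i0 i3 i1 i2))) (.S1 (.negSucc 27647) (.L (.N i0 i1 i2 i3)) (.L (.N i0 i3 i1 i2)))) (.L (.N i0 i1 i2 i3))) (.L (.N i0 i2 i1 i3)))))) (.S1 (.negSucc 36863) (.S3 (.negSucc 36863) (.S0 (.negSucc 92159) (.S1 (.negSucc 55295) (.L (.B i0 i1)) (.S3 (.negSucc 55295) (.L (.B i0 i3)) (.S0 (.negSucc 101375) (.L (.M i1 i2 i0 i3)) (.S1 (.negSucc 46079) (.L (.B i0 i1)) (.S3 (.negSucc 46079) (.L (.B i0 i3)) (.L (.M i1 i2 i0 i3))))))) (.S1 (.negSucc 55295) (.L (.B i0 i1)) (.S3 (.negSucc 55295) (.L (.B i0 i3)) (.S0 (.negSucc 82943) (.S1 (.negSucc 46079) (.L (.B i0 i1)) (.S3 (.negSucc 46079) (.L (.B i0 i3)) (.S0 (.negSucc 87551) (.S1 (.negSucc 41471)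 (.L (.M i1 i2 i0 i3)) (.S3 (.negSucc 41471) (.L (.N i0 i3 i1 i2)) (.S0 (.negSucc 89855) (.L (.M i1 i2 i0 i3)) (.S1 (.negSucc 39167) (.L (.N i0 i1 i2 i3)) (.L (.N i0 i3 i1 i2)))))) (.S1 (.negSucc 41471) (.L (.M i1 i2 i0 i3)) (.S3 (.negSucc 41471) (.L (.N i2 i3 i0 i1)) (.S0 (.negSucc 85247) (.S1 (.negSucc 39167) (.L (.N i0 i1 i2 i3)) (.L (.N i0 i3 i1 i2))) (.S1 (.negSucc 39167) (.L (.N i0 i1 i2 i3)) (.L (.N i0 i2 i1 i3))))))))) (.S1 (.negSucc 46079) (.S3 (.negSucc 46079) (.S0 (.negSucc 78335) (.L (.M i0 i2 i1 i3)) (.S1 (.negSucc 50687) (.L (.M i0 i2 i1 i3)) (.S3 (.negSucc 50687) (.L (.M i0 i2 i1 i3)) (.S0 (.negSucc 76031) (.L (.M i0 i2 i1 i3)) (.S1 (.negSucc 48383) (.L (.M i0 i2 i1 i3)) (.L (.M i1 i2 i0 i3))))))) (.S0 (.negSucc 78335) (.L (.M i1 i2 i0 i3)) (.S1 (.negSucc 50687) (.L (.M i0 i2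 i1 i3)) (.S3 (.negSucc 41471) (.S0 (.negSucc 76031) (.L (.M i1 i2 i0 i3)) (.S1 (.negSucc 48383) (.L (.M i1 i2 i0 i3)) (.S3 (.negSucc 43775) (.L (.M i1 i2 i0 i3)) (.L (.N i0 i1 i2 i3))))) (.L (.N i0 i1 i2 i3)))))) (.S3 (.negSucc 46079) (.S0 (.negSucc 78335) (.L (.N i2 i3 i0 i1)) (.S1 (.negSucc 41471) (.S3 (.negSucc 50687) (.L .O1) (.S0 (.negSucc 76031) (.L (.N i2 i3 i0 i1)) (.S1 (.negSucc 43775) (.S3 (.negSucc 48383) (.L .O1) (.L (.N i2 i3 i0 i1))) (.L .O1)))) (.L .O1))) (.S0 (.negSucc 78335) (.S1 (.negSucc 41471) (.S3 (.negSucc 41471) (.S0 (.negSucc 80639) (.S1 (.negSucc 43775) (.L (.M i1 i2 i0 i3)) (.L (.M i1 i2 i0 i3))) (.S1 (.negSucc 43775) (.L (.M i1 i2 i0 i3)) (.S3 (.negSucc 43775) (.L (.N i0 i3 i1 i2)) (.S0 (.negSucc 79487) (.S1 (.negSucc 42623) (.L (.N i0 i1 i2 i3)) (.L (.N i0 i1 i2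 i3))) (.S1 (.negSucc 42623) (.L (.N i0 i1 i2 i3)) (.L (.N i0 i1 i2 i3))))))) (.S0 (.negSucc 80639) (.L (.N i0 i1 i2 i3)) (.L (.N i0 i1 i2 i3)))) (.S3 (.negSucc 41471) (.S0 (.negSucc 80639) (.L (.N i0 i3 i1 i2)) (.L (.N i0 i3 i1 i2))) (.S0 (.negSucc 80639) (.S1 (.negSucc 39167) (.L (.N i0 i1 i2 i3)) (.L (.N i0 i1 i2 i3))) (.L (.N i0 i2 i1 i3))))) (.S1 (.negSucc 41471) (.S3 (.negSucc 41471) (.S0 (.negSucc 76031) (.S1 (.negSucc 43775) (.S3 (.negSucc 43775) (.S0 (.negSucc 77183) (.L (.M i1 i2 i0 i3)) (.S1 (.negSucc 44927) (.L (.M i1 i2 i0 i3)) (.S3 (.negSucc 44927) (.L (.N i0 i3 i1 i2)) (.L (.N i0 i1 i2 i3))))) (.S0 (.negSucc 77183) (.L (.N i0 i1 i2 i3)) (.L (.N i0 i1 i2 i3)))) (.S3 (.negSucc 43775) (.S0 (.negSucc 77183) (.L (.N i0 i3 i1 i2)) (.L (.N i0 i3 i1 i2))) (.S0 (.negSucc 77183) (.S1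 (.negSucc 42623) (.L (.N i0 i1 i2 i3)) (.L (.N i0 i1 i2 i3))) (.L (.N i0 i1 i2 i3))))) (.S1 (.negSucc 43775) (.S3 (.negSucc 43775) (.S0 (.negSucc 74879) (.S1 (.negSucc 44927) (.L (.M i1 i2 i0 i3)) (.S3 (.negSucc 44927) (.L (.N i0 i3 i1 i2)) (.L (.N i0 i1 i2 i3)))) (.S1 (.negSucc 44927) (.S3 (.negSucc 44927) (.S0 (.negSucc 74303) (.L (.M i1 i2 i0 i3)) (.S1 (.negSucc 45503) (.L (.M i1 i2 i0 i3)) (.L (.N i0 i3 i1 i2)))) (.L (.N i0 i1 i2 i3))) (.S3 (.negSucc 44927) (.L (.N i0 i3 i1 i2)) (.L (.N i0 i1 i2 i3))))) (.S0 (.negSucc 74879) (.L (.N i0 i1 i2 i3)) (.L (.N i0 i1 i2 i3)))) (.S3 (.negSucc 43775) (.S0 (.negSucc 74879) (.L (.N i0 i3 i1 i2)) (.L (.N i0 i3 i1 i2))) (.L (.N i0 i2 i1 i3))))) (.S0 (.negSucc 76031) (.L (.N i0 i1 i2 i3)) (.L (.N i0 i1 i2 i3)))) (.S3 (.negSucc 41471) (.S0 (.negSucc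 76031) (.L (.N i0 i3 i1 i2)) (.L (.N i0 i3 i1 i2))) (.L (.N i0 i2 i1 i3))))))))))) (.S0 (.negSucc 92159) (.S1 (.negSucc 55295) (.L (.B i0 i1)) (.S3 (.negSucc 18431) (.S0 (.negSucc 101375) (.L (.N i0 i1 i2 i3)) (.S1 (.negSucc 46079) (.L (.B i0 i1)) (.S3 (.negSucc 27647) (.L (.M i1 i2 i0 i3)) (.L (.N i0 i1 i2 i3))))) (.L (.N i0 i1 i2 i3)))) (.S1 (.negSucc 55295) (.L (.B i0 i1)) (.S3 (.negSucc 18431) (.S0 (.negSucc 82943) (.S1 (.negSucc 46079) (.L (.B i0 i1)) (.S3 (.negSucc 27647) (.S0 (.negSucc 87551) (.L (.N i0 i1 i2 i3)) (.L (.N i0 i1 i2 i3))) (.L (.N i0 i1 i2 i3)))) (.S1 (.negSucc 46079) (.S3 (.negSucc 27647) (.S0 (.negSucc 78335) (.L (.N i0 i1 i2 i3)) (.L (.N i0 i1 i2 i3))) (.L (.N i0 i1 i2 i3))) (.S3 (.negSucc 27647) (.S0 (.negSucc 78335) (.L (.N i0 i1 i2 i3)) (.L (.M i2 i3 i0 i1))) (.L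 (.N i0 i1 i2 i3))))) (.L (.M i2 i3 i0 i1)))))) (.S3 (.negSucc 36863) (.S0 (.negSucc 92159) (.S1 (.negSucc 18431) (.S3 (.negSucc 55295) (.L .O1) (.S0 (.negSucc 101375) (.L (.N i0 i3 i1 i2)) (.S1 (.negSucc 27647) (.S3 (.negSucc 46079) (.L .O1) (.L (.N i2 i3 i0 i1))) (.L .O1)))) (.L .O1)) (.S1 (.negSucc 18431) (.S3 (.negSucc 55295) (.L .O1) (.S0 (.negSucc 82943) (.S1 (.negSucc 27647) (.S3 (.negSucc 46079) (.L .O1) (.S0 (.negSucc 87551) (.L (.N i0 i3 i1 i2)) (.L (.N i0 i3 i1 i2)))) (.L .O1)) (.S1 (.negSucc 27647) (.S3 (.negSucc 46079) (.L .O1) (.S0 (.negSucc 78335) (.L (.N i0 i3 i1 i2)) (.L (.N i1 i2 i0 i3)))) (.L .O1)))) (.L .O1))) (.S0 (.negSucc 92159) (.S1 (.negSucc 18431) (.S3 (.negSucc 18431) (.S0 (.negSucc 101375) (.S1 (.negSucc 27647) (.S3 (.negSucc 27647) (.S0 (.negSucc 105983) (.S1 (.negSucc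 32255) (.L (.N i0 i1 i2 i3)) (.L (.N i0 i1 i2 i3))) (.S1 (.negSucc 32255) (.L (.N i0 i1 i2 i3)) (.L (.N i0 i3 i1 i2)))) (.L (.N i0 i1 i2 i3))) (.L (.N i0 i2 i1 i3))) (.S1 (.negSucc 27647) (.S3 (.negSucc 27647) (.S0 (.negSucc 96767) (.S1 (.negSucc 32255) (.L (.N i0 i1 i2 i3)) (.L (.N i0 i2 i1 i3))) (.S1 (.negSucc 32255) (.L (.N i0 i1 i2 i3)) (.L (.N i0 i2 i1 i3)))) (.L (.N i0 i1 i2 i3))) (.L (.N i0 i2 i1 i3)))) (.L (.N i0 i1 i2 i3))) (.S3 (.negSucc 18431) (.L (.N i0 i2 i1 i3)) (.L (.N i0 i1 i2 i3)))) (.S1 (.negSucc 18431) (.S3 (.negSucc 18431) (.S0 (.negSucc 82943) (.S1 (.negSucc 27647) (.L (.N i0 i2 i1 i3)) (.L (.N i0 i2 i1 i3))) (.L (.N i0 i2 i1 i3))) (.L (.N i0 i1 i2 i3))) (.L (.N i0 i2 i1 i3))))))))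

def B6 : Box := ⟨⟨(.negSucc 147455), (.negSucc 73727)⟩, ⟨(.negSucc 147455), (.ofNat 0)⟩, ⟨(.negSucc 147455), (.ofNat 0)⟩⟩

theorem ok6 : check T6 B6 = true := by decide +kernel

def T12 : Tree := .S0 (.negSucc 69119) (.S1 (.negSucc 50687) (.S3 (.negSucc 41471) (.L (.M i1 i2 i0 i3)) (.L (.M i1 i3 i0 i2))) (.S3 (.negSucc 41471) (.S0 (.negSucc 71423) (.S1 (.negSucc 48383) (.L (.M i1 i2 i0 i3)) (.S3 (.negSucc 43775) (.S0 (.negSucc 72575) (.S1 (.negSucc 47231) (.L (.M i1 i2 i0 i3)) (.S3 (.negSucc 44927) (.S0 (.negSucc 73151) (.L (.M i1 i2 i0 i3)) (.S1 (.negSucc 46655) (.L (.N i0 i1 i2 i3)) (.L (.N i0 i1 i2 i3)))) (.L (.N i0 i1 i2 i3)))) (.S1 (.negSucc 47231) (.S3 (.negSucc 44927) (.L (.M i1 i2 i0 i3)) (.L (.N i0 i1 i2 i3))) (.S3 (.negSucc 44927) (.S0 (.negSucc 71999) (.S1 (.negSucc 46655) (.L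 (.N i0 i1 i2 i3)) (.L (.N i0 i1 i2 i3))) (.S1 (.negSucc 46655) (.L (.N i0 i1 i2 i3)) (.L (.N i0 i1 i2 i3)))) (.L (.N i0 i1 i2 i3))))) (.L (.N i0 i1 i2 i3)))) (.S1 (.negSucc 48383) (.S3 (.negSucc 43775) (.S0 (.negSucc 70271) (.L (.M i1 i3 i0 i2)) (.L (.M i1 i3 i0 i2))) (.L (.N i0 i1 i2 i3))) (.S3 (.negSucc 43775) (.S0 (.negSucc 70271) (.S1 (.negSucc 47231) (.S3 (.negSucc 44927) (.S0 (.negSucc 70847) (.L (.N i0 i1 i2 i3)) (.L (.N i0 i1 i2 i3))) (.L (.N i0 i1 i2 i3))) (.S3 (.negSucc 44927) (.S0 (.negSucc 70847) (.S1 (.negSucc 46655) (.L (.N i0 i1 i2 i3)) (.L (.N i0 i1 i2 i3))) (.L (.N i0 i2 i1 i3))) (.L (.N i0 i1 i2 i3)))) (.L (.M i2 i3 i0 i1))) (.L (.M i2 i3 i0 i1))))) (.L (.M i2 i3 i0 i1)))) (.S1 (.negSucc 50687) (.S3 (.negSucc 41471) (.S0 (.negSucc 66815) (.S1 (.negSucc 52991) (.L (.M i0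 i3 i1 i2)) (.L (.M i1 i3 i0 i2))) (.L (.M i2 i3 i0 i1))) (.L (.M i1 i3 i0 i2))) (.S3 (.negSucc 41471) (.S0 (.negSucc 66815) (.S1 (.negSucc 48383) (.L (.M i2 i3 i0 i1)) (.L (.N i0 i2 i1 i3))) (.L (.M i2 i3 i0 i1))) (.L (.M i2 i3 i0 i1))))

def B12 : Box := ⟨⟨(.negSucc 73727), (.negSucc 64511)⟩, ⟨(.negSucc 55295), (.negSucc 46079)⟩, ⟨(.negSucc 46079), (.negSucc 36863)⟩⟩

theorem ok12 : check T12 B12 = true := by decide +kernel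

def T22 : Tree := .S1 (.negSucc 147455) (.L (.B i0 i1)) (.S3 (.ofNat 442368) (.S0 (.negSucc 368639) (.S1 (.negSucc 73727) (.L (.B i0 i1)) (.S3 (.ofNat 368640) (.S0 (.negSucc 405503) (.S1 (.negSucc 36863) (.L (.B i0 i1)) (.L (.M i1 i2 i0 i3))) (.S1 (.negSucc 36863) (.L (.B i0 i1)) (.S3 (.ofNat 331776) (.L (.M i0 i2 i1 i3)) (.S0 (.negSucc 387071) (.S1 (.negSucc 18431) (.L (.B i0 i1)) (.L (.M i1 i2 i0 i3))) (.S1 (.negSucc 18431) (.L (.B i0 i1)) (.S3 (.ofNat 350208) (.L (.N i0 i1 i2 i3)) (.S0 (.negSucc 377855) (.L (.N i0 i1 i2 i3)) (.L (.N i0 i1 i2 i3))))))))) (.S0 (.negSucc 405503) (.S1 (.negSucc 36863) (.L (.B i0 i1)) (.S3 (.ofNat 405504) (.S0 (.negSucc 423935) (.L (.M i1 i2 i0 i3)) (.S1 (.negSucc 18431) (.L (.B i0 i1)) (.S3 (.ofNat 387072) (.L (.N i0 i1 i2 i3)) (.S0 (.negSucc 414719) (.L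 (.N i0 i1 i2 i3)) (.L (.N i0 i1 i2 i3)))))) (.S0 (.negSucc 423935) (.S1 (.negSucc 18431) (.L (.B i0 i1)) (.S3 (.ofNat 423936) (.S0 (.negSucc 433151) (.L (.N i0 i1 i2 i3)) (.S1 (.negSucc 9215) (.L (.B i0 i1)) (.L (.N i0 i1 i2 i3)))) (.S0 (.negSucc 433151) (.S1 (.negSucc 9215) (.L (.B i0 i1)) (.L (.N i0 i1 i2 i3))) (.S1 (.negSucc 9215) (.L (.B i0 i1)) (.L (.N i0 i1 i2 i3)))))) (.S1 (.negSucc 18431) (.L (.B i0 i1)) (.S3 (.ofNat 423936) (.S0 (.negSucc 414719) (.S1 (.negSucc 9215) (.L (.B i0 i1)) (.L (.N i0 i1 i2 i3))) (.S1 (.negSucc 9215) (.L (.N i0 i1 i2 i3)) (.L (.N i0 i1 i2 i3)))) (.S0 (.negSucc 414719) (.S1 (.negSucc 9215) (.L (.B i0 i1)) (.L (.N i0 i3 i1 i2))) (.S1 (.negSucc 9215) (.L (.N i0 i1 i2 i3)) (.S3 (.ofNat 433152) (.L (.N i0 i3 i1 i2)) (.L .Y))))))))) (.S1 (.negSucc 36863) (.L (.B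 i0 i1)) (.S3 (.ofNat 405504) (.S0 (.negSucc 387071) (.S1 (.negSucc 18431) (.L (.B i0 i1)) (.S3 (.ofNat 387072) (.S0 (.negSucc 396287) (.L (.N i0 i1 i2 i3)) (.L (.N i0 i1 i2 i3))) (.S0 (.negSucc 396287) (.S1 (.negSucc 9215) (.L (.N i0 i1 i2 i3)) (.L (.N i0 i1 i2 i3))) (.S1 (.negSucc 9215) (.L (.N i0 i1 i2 i3)) (.L (.N i0 i1 i2 i3)))))) (.S1 (.negSucc 18431) (.L (.B i0 i1)) (.S3 (.ofNat 387072) (.S0 (.negSucc 377855) (.S1 (.negSucc 9215) (.L (.N i0 i1 i2 i3)) (.L (.N i0 i1 i2 i3))) (.S1 (.negSucc 9215) (.L (.N i0 i1 i2 i3)) (.L (.N i0 i1 i2 i3)))) (.S0 (.negSucc 377855) (.S1 (.negSucc 9215) (.L (.N i0 i1 i2 i3)) (.L (.N i0 i3 i1 i2))) (.S1 (.negSucc 9215) (.L (.N i0 i1 i2 i3)) (.L (.N i0 i3 i1 i2))))))) (.S0 (.negSucc 387071) (.S1 (.negSucc 18431) (.L (.B i0 i1)) (.S3 (.ofNat 423936) (.S0 (.negSucc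 396287) (.S1 (.negSucc 9215) (.L (.N i0 i1 i2 i3)) (.L (.N i0 i3 i1 i2))) (.S1 (.negSucc 9215) (.L (.N i0 i1 i2 i3)) (.S3 (.ofNat 414720) (.L (.N i0 i3 i1 i2)) (.L .Y)))) (.S0 (.negSucc 396287) (.S1 (.negSucc 9215) (.L (.N i0 i1 i2 i3)) (.L .Y)) (.L .Y)))) (.S1 (.negSucc 18431) (.L (.B i0 i1)) (.S3 (.ofNat 423936) (.S0 (.negSucc 377855) (.S1 (.negSucc 9215) (.L (.N i0 i1 i2 i3)) (.L .Y)) (.L .Y)) (.L .Y))))))))) (.S1 (.negSucc 73727) (.L (.B i0 i1)) (.S3 (.ofNat 368640) (.S0 (.negSucc 331775) (.S1 (.negSucc 36863) (.L (.B i0 i1)) (.S3 (.ofNat 331776) (.S0 (.negSucc 350207) (.S1 (.negSucc 18431) (.L (.B i0 i1)) (.S3 (.ofNat 313344) (.L (.N i0 i1 i2 i3)) (.L (.N i0 i1 i2 i3)))) (.S1 (.negSucc 18431) (.L (.B i0 i1)) (.S3 (.ofNat 313344) (.L (.N i0 i1 i2 i3)) (.S0 (.negSucc 340991) (.L (.N i0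 i1 i2 i3)) (.L (.N i0 i1 i2 i3)))))) (.S0 (.negSucc 350207) (.S1 (.negSucc 18431) (.L (.B i0 i1)) (.S3 (.ofNat 350208) (.S0 (.negSucc 359423) (.L (.N i0 i1 i2 i3)) (.L (.N i0 i1 i2 i3))) (.S0 (.negSucc 359423) (.S1 (.negSucc 9215) (.L (.N i0 i1 i2 i3)) (.L (.N i0 i1 i2 i3))) (.S1 (.negSucc 9215) (.L (.N i0 i1 i2 i3)) (.L (.N i0 i1 i2 i3)))))) (.S1 (.negSucc 18431) (.L (.B i0 i1)) (.S3 (.ofNat 350208) (.S0 (.negSucc 340991) (.S1 (.negSucc 9215) (.L (.N i0 i1 i2 i3)) (.L (.N i0 i1 i2 i3))) (.S1 (.negSucc 9215) (.L (.N i0 i1 i2 i3)) (.L (.N i0 i1 i2 i3)))) (.S0 (.negSucc 340991) (.S1 (.negSucc 9215) (.L (.N i0 i1 i2 i3)) (.L (.N i0 i3 i1 i2))) (.S1 (.negSucc 9215) (.L (.N i0 i1 i2 i3)) (.L (.N i0 i3 i1 i2))))))))) (.S1 (.negSucc 36863) (.L (.B i0 i1)) (.S3 (.ofNat 331776) (.S0 (.negSucc 313343)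 (.S1 (.negSucc 18431) (.L (.B i0 i1)) (.S3 (.ofNat 313344) (.L (.N i0 i1 i2 i3)) (.S0 (.negSucc 322559) (.L (.N i0 i1 i2 i3)) (.S1 (.negSucc 9215) (.L (.N i0 i1 i2 i3)) (.L (.N i0 i1 i2 i3)))))) (.S1 (.negSucc 18431) (.L (.B i0 i1)) (.S3 (.ofNat 313344) (.S0 (.negSucc 304127) (.L (.N i0 i1 i2 i3)) (.S1 (.negSucc 9215) (.L (.N i0 i1 i2 i3)) (.L (.N i0 i1 i2 i3)))) (.S0 (.negSucc 304127) (.S1 (.negSucc 9215) (.L (.N i0 i1 i2 i3)) (.L (.N i0 i3 i1 i2))) (.S1 (.negSucc 9215) (.L (.N i0 i1 i2 i3)) (.L (.N i0 i3 i1 i2))))))) (.S0 (.negSucc 313343) (.S1 (.negSucc 18431) (.L (.B i0 i1)) (.S3 (.ofNat 350208) (.S0 (.negSucc 322559) (.S1 (.negSucc 9215) (.L (.N i0 i1 i2 i3)) (.L (.N i0 i3 i1 i2))) (.S1 (.negSucc 9215) (.L (.N i0 i1 i2 i3)) (.L (.N i0 i3 i1 i2)))) (.S0 (.negSucc 322559) (.S1 (.negSucc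 9215) (.L (.N i0 i1 i2 i3)) (.L .Y)) (.L .Y)))) (.S1 (.negSucc 18431) (.L (.B i0 i1)) (.S3 (.ofNat 350208) (.S0 (.negSucc 304127) (.S1 (.negSucc 9215) (.L (.N i0 i1 i2 i3)) (.L .Y)) (.L .Y)) (.L .Y))))))) (.S0 (.negSucc 331775) (.S1 (.negSucc 36863) (.L (.B i0 i1)) (.S3 (.ofNat 405504) (.S0 (.negSucc 350207) (.S1 (.negSucc 18431) (.L (.B i0 i1)) (.S3 (.ofNat 387072) (.S0 (.negSucc 359423) (.S1 (.negSucc 9215) (.L (.N i0 i1 i2 i3)) (.L (.N i0 i3 i1 i2))) (.S1 (.negSucc 9215) (.L (.N i0 i1 i2 i3)) (.L (.N i0 i3 i1 i2)))) (.S0 (.negSucc 359423) (.S1 (.negSucc 9215) (.L (.N i0 i1 i2 i3)) (.L .Y)) (.L .Y)))) (.S1 (.negSucc 18431) (.L (.B i0 i1)) (.S3 (.ofNat 387072) (.S0 (.negSucc 340991) (.S1 (.negSucc 9215) (.L (.N i0 i1 i2 i3)) (.L .Y)) (.L .Y)) (.L .Y)))) (.S0 (.negSucc 350207) (.S1 (.negSucc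 18431) (.L (.B i0 i1)) (.L .Y)) (.L .Y)))) (.S1 (.negSucc 36863) (.L (.B i0 i1)) (.S3 (.ofNat 405504) (.S0 (.negSucc 313343) (.S1 (.negSucc 18431) (.L (.B i0 i1)) (.L .Y)) (.L .Y)) (.L .Y))))))) (.S0 (.negSucc 368639) (.S1 (.negSucc 73727) (.L (.B i0 i1)) (.S3 (.ofNat 516096) (.S0 (.negSucc 405503) (.S1 (.negSucc 36863) (.L (.B i0 i1)) (.S3 (.ofNat 479232) (.S0 (.negSucc 423935) (.S1 (.negSucc 18431) (.L (.B i0 i1)) (.S3 (.ofNat 460800) (.S0 (.negSucc 433151) (.S1 (.negSucc 9215) (.L (.B i0 i1)) (.L (.N i0 i3 i1 i2))) (.S1 (.negSucc 9215) (.L (.B i0 i1)) (.S3 (.ofNat 451584) (.L (.N i0 i3 i1 i2)) (.L .Y)))) (.S0 (.negSucc 433151) (.S1 (.negSucc 9215) (.L (.B i0 i1)) (.L .Y)) (.L .Y)))) (.S1 (.negSucc 18431) (.L (.B i0 i1)) (.S3 (.ofNat 460800) (.S0 (.negSucc 414719) (.S1 (.negSucc 9215) (.L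 (.B i0 i1)) (.L .Y)) (.L .Y)) (.L .Y)))) (.S0 (.negSucc 423935) (.S1 (.negSucc 18431) (.L (.B i0 i1)) (.L .Y)) (.L .Y)))) (.S1 (.negSucc 36863) (.L (.B i0 i1)) (.S3 (.ofNat 479232) (.S0 (.negSucc 387071) (.S1 (.negSucc 18431) (.L (.B i0 i1)) (.L .Y)) (.L .Y)) (.L .Y)))) (.S0 (.negSucc 405503) (.S1 (.negSucc 36863) (.L (.B i0 i1)) (.L .Y)) (.L .Y)))) (.S1 (.negSucc 73727) (.L (.B i0 i1)) (.S3 (.ofNat 516096) (.S0 (.negSucc 331775) (.S1 (.negSucc 36863) (.L (.B i0 i1)) (.L .Y)) (.L .Y)) (.L .Y)))))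

def B22 : Box := ⟨⟨(.negSucc 442367), (.negSucc 294911)⟩, ⟨(.negSucc 294911), (.ofNat 0)⟩, ⟨(.ofNat 294912), (.ofNat 589824)⟩⟩

theorem ok22 : check T22 B22 = true := by decide +kernel

def T23 : Tree := .S3 (.ofNat 294912) (.S0 (.negSucc 147455) (.L (.B i0 i1)) (.L .O0)) (.S0 (.negSucc 147455) (.L (.B i0 i1)) (.L .O0))

def B23 : Box := ⟨⟨(.negSucc 294911), (.ofNat 0)⟩, ⟨(.negSucc 589823), (.negSucc 294911)⟩, ⟨(.ofNat 0), (.ofNat 589824)⟩⟩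

theorem ok23 : check T23 B23 = true := by decide +kernel

def T27 : Tree := .S0 (.negSucc 294911) (.S1 (.ofNat 294912) (.S3 (.negSucc 294911) (.L .O1) (.S0 (.negSucc 442367) (.S1 (.ofNat 147456) (.S3 (.negSucc 147455) (.L .O1) (.S0 (.negSucc 516095) (.S1 (.ofNat 73728) (.S3 (.negSucc 73727) (.L .O1) (.S0 (.negSucc 552959) (.S1 (.ofNat 36864) (.S3 (.negSucc 36863) (.L .O1) (.S0 (.negSucc 571391) (.S1 (.ofNat 18432) (.L (.N i0 i2 i1 i3)) (.L .O1)) (.S1 (.ofNat 18432) (.L (.N i0 i2 i1 i3)) (.L .O1)))) (.L .O1)) (.S1 (.ofNat 36864) (.S3 (.negSucc 36863) (.L .O1) (.S0 (.negSucc 534527) (.S1 (.ofNat 18432) (.L (.N i0 i2 i1 i3)) (.L .O1)) (.S1 (.ofNat 18432) (.L (.N i0 i2 i1 i3)) (.L .O1)))) (.L .O1)))) (.L .O1)) (.S1 (.ofNat 73728) (.S3 (.negSucc 73727) (.L .O1) (.S0 (.negSucc 479231) (.S1 (.ofNat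 36864) (.S3 (.negSucc 36863) (.L .O1) (.S0 (.negSucc 497663) (.S1 (.ofNat 18432) (.L (.N i0 i2 i1 i3)) (.L .O1)) (.S1 (.ofNat 18432) (.L (.N i0 i2 i1 i3)) (.L .O1)))) (.L .O1)) (.S1 (.ofNat 36864) (.S3 (.negSucc 36863) (.L .O1) (.S0 (.negSucc 460799) (.S1 (.ofNat 18432) (.L (.N i0 i2 i1 i3)) (.L .O1)) (.S1 (.ofNat 18432) (.L (.N i0 i2 i1 i3)) (.L .O1)))) (.L .O1)))) (.L .O1)))) (.L .O1)) (.S1 (.ofNat 147456) (.S3 (.negSucc 147455) (.L .O1) (.S0 (.negSucc 368639) (.S1 (.ofNat 73728) (.S3 (.negSucc 73727) (.L .O1) (.S0 (.negSucc 405503) (.S1 (.ofNat 36864) (.S3 (.negSucc 36863) (.L .O1) (.S0 (.negSucc 423935) (.S1 (.ofNat 18432) (.L (.N i0 i2 i1 i3)) (.L .O1)) (.S1 (.ofNat 18432) (.L (.N i0 i2 i1 i3)) (.L .O1)))) (.L .O1)) (.S1 (.ofNat 36864) (.S3 (.negSucc 36863) (.L .O1) (.S0 (.negSucc 387071)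 (.S1 (.ofNat 18432) (.L (.N i0 i2 i1 i3)) (.L .O1)) (.S1 (.ofNat 18432) (.L (.N i0 i2 i1 i3)) (.L .O1)))) (.L .O1)))) (.L .O1)) (.S1 (.ofNat 73728) (.S3 (.negSucc 73727) (.L .O1) (.S0 (.negSucc 331775) (.S1 (.ofNat 36864) (.S3 (.negSucc 36863) (.L .O1) (.S0 (.negSucc 350207) (.S1 (.ofNat 18432) (.L (.N i0 i2 i1 i3)) (.L .O1)) (.S1 (.ofNat 18432) (.L (.N i0 i2 i1 i3)) (.L .O1)))) (.L .O1)) (.S1 (.ofNat 36864) (.S3 (.negSucc 36863) (.L .O1) (.S0 (.negSucc 313343) (.S1 (.ofNat 18432) (.L (.N i0 i2 i1 i3)) (.L .O1)) (.L (.N i0 i2 i1 i3)))) (.L .O1)))) (.L .O1)))) (.L .O1)))) (.L .O1)) (.S1 (.ofNat 294912) (.S3 (.negSucc 294911) (.L .O1) (.S0 (.negSucc 147455) (.S1 (.ofNat 147456) (.S3 (.negSucc 147455) (.L .O1) (.S0 (.negSucc 221183) (.S1 (.ofNat 73728) (.S3 (.negSucc 73727) (.L .O1) (.S0 (.negSucc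 258047) (.S1 (.ofNat 36864) (.S3 (.negSucc 36863) (.L .O1) (.S0 (.negSucc 276479) (.L (.N i0 i2 i1 i3)) (.L (.N i0 i2 i1 i3)))) (.L .O1)) (.S1 (.ofNat 36864) (.S3 (.negSucc 36863) (.L .O1) (.S0 (.negSucc 239615) (.L (.N i0 i2 i1 i3)) (.L (.N i0 i2 i1 i3)))) (.L .O1)))) (.L .O1)) (.S1 (.ofNat 73728) (.S3 (.negSucc 73727) (.L .O1) (.S0 (.negSucc 184319) (.S1 (.ofNat 36864) (.S3 (.negSucc 36863) (.L .O1) (.S0 (.negSucc 202751) (.L (.N i0 i2 i1 i3)) (.L (.N i0 i2 i1 i3)))) (.L .O1)) (.S1 (.ofNat 36864) (.S3 (.negSucc 36863) (.L .O1) (.S0 (.negSucc 165887) (.L (.N i0 i2 i1 i3)) (.L (.N i0 i3 i1 i2)))) (.L .O1)))) (.L .O1)))) (.L .O1)) (.S1 (.ofNat 147456) (.S3 (.negSucc 147455) (.L .O1) (.S0 (.negSucc 73727) (.S1 (.ofNat 73728) (.S3 (.negSucc 73727) (.L .O1) (.S0 (.negSucc 110591) (.S1 (.ofNat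 36864) (.S3 (.negSucc 36863) (.L .O1) (.S0 (.negSucc 129023) (.L (.N i0 i3 i1 i2)) (.L (.N i0 i3 i1 i2)))) (.L .O1)) (.S1 (.ofNat 36864) (.S3 (.negSucc 36863) (.L .O1) (.S0 (.negSucc 92159) (.S1 (.ofNat 18432) (.L (.N i0 i3 i1 i2)) (.L .O1)) (.S1 (.ofNat 18432) (.L (.N i0 i2 i1 i3)) (.L .O1)))) (.L .O1)))) (.L .O1)) (.S1 (.ofNat 73728) (.S3 (.negSucc 73727) (.L .O1) (.S0 (.negSucc 36863) (.S1 (.ofNat 36864) (.S3 (.negSucc 36863) (.L .O1) (.S0 (.negSucc 55295) (.L (.N i0 i2 i1 i3)) (.S1 (.ofNat 18432) (.L (.N i0 i2 i1 i3)) (.L .O1)))) (.L .O1)) (.S1 (.ofNat 36864) (.S3 (.negSucc 36863) (.L .O1) (.S0 (.negSucc 18431) (.S1 (.ofNat 18432) (.L (.N i0 i2 i1 i3)) (.L .O1)) (.S1 (.ofNat 18432) (.S3 (.negSucc 18431) (.L .O1) (.L (.D ⟨(.negSucc 824), (.ofNat 324), (.ofNat 219), (.ofNat 324), (.negSucc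 876), (.ofNat 324), (.ofNat 219), (.ofNat 324), (.negSucc 824)⟩))) (.L .O1)))) (.L .O1)))) (.L .O1)))) (.L .O1)))) (.L .O1))

def B27 : Box := ⟨⟨(.negSucc 589823), (.ofNat 0)⟩, ⟨(.ofNat 0), (.ofNat 589824)⟩, ⟨(.negSucc 589823), (.ofNat 0)⟩⟩

theorem ok27 : check T27 B27 = true := by decide +kernel

def T30 : Tree := .S1 (.ofNat 147456) (.S3 (.ofNat 442368) (.S0 (.negSucc 368639) (.S1 (.ofNat 73728) (.S3 (.ofNat 368640) (.S0 (.negSucc 405503) (.S1 (.ofNat 36864) (.S3 (.ofNat 331776) (.S0 (.negSucc 423935) (.L (.M i0 i2 i1 i3)) (.L (.M i0 i2 i1 i3))) (.S0 (.negSucc 423935) (.S1 (.ofNat 18432) (.L (.M i0 i2 i1 i3)) (.L (.B i1 i3))) (.S1 (.ofNat 18432) (.S3 (.ofNat 350208) (.L (.M i0 i2 i1 i3)) (.S0 (.negSucc 414719) (.L (.M i0 i2 i1 i3)) (.L (.M i0 i2 i1 i3)))) (.L (.B i1 i3))))) (.L (.B i1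 i3))) (.S1 (.ofNat 36864) (.S3 (.ofNat 331776) (.S0 (.negSucc 387071) (.S1 (.ofNat 18432) (.L (.M i0 i2 i1 i3)) (.L (.B i1 i3))) (.S1 (.ofNat 18432) (.S3 (.ofNat 313344) (.L (.M i0 i2 i1 i3)) (.S0 (.negSucc 377855) (.L (.M i0 i2 i1 i3)) (.S1 (.ofNat 9216) (.L (.M i0 i2 i1 i3)) (.L (.M i0 i1 i2 i3))))) (.L (.B i1 i3)))) (.S0 (.negSucc 387071) (.S1 (.ofNat 18432) (.S3 (.ofNat 350208) (.S0 (.negSucc 396287) (.L (.M i0 i2 i1 i3)) (.S1 (.ofNat 9216) (.L (.M i0 i2 i1 i3)) (.L (.M i0 i1 i2 i3)))) (.S0 (.negSucc 396287) (.S1 (.ofNat 9216) (.L (.M i0 i2 i1 i3)) (.L (.M i0 i1 i2 i3))) (.S1 (.ofNat 9216) (.S3 (.ofNat 359424) (.L (.M i0 i2 i1 i3)) (.L (.N i0 i3 i1 i2))) (.L (.M i0 i1 i2 i3))))) (.L (.B i1 i3))) (.S1 (.ofNat 18432) (.S3 (.ofNat 350208) (.S0 (.negSucc 377855) (.S1 (.ofNat 9216) (.L (.M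 i0 i2 i1 i3)) (.L (.M i0 i1 i2 i3))) (.S1 (.ofNat 9216) (.S3 (.ofNat 340992) (.L (.M i0 i2 i1 i3)) (.L (.N i0 i3 i1 i2))) (.L (.M i0 i1 i2 i3)))) (.S0 (.negSucc 377855) (.S1 (.ofNat 9216) (.L (.N i0 i3 i1 i2)) (.L (.M i0 i1 i2 i3))) (.S1 (.ofNat 9216) (.L (.N i0 i3 i1 i2)) (.L (.M i0 i1 i2 i3))))) (.L (.B i1 i3))))) (.L (.B i1 i3)))) (.S0 (.negSucc 405503) (.S1 (.ofNat 36864) (.S3 (.ofNat 405504) (.S0 (.negSucc 423935) (.S1 (.ofNat 18432) (.S3 (.ofNat 387072) (.L (.M i0 i2 i1 i3)) (.S0 (.negSucc 433151) (.S1 (.ofNat 9216) (.L (.M i0 i2 i1 i3)) (.L (.M i0 i1 i2 i3))) (.S1 (.ofNat 9216) (.S3 (.ofNat 396288) (.L (.M i0 i2 i1 i3)) (.L (.N i2 i3 i0 i1))) (.L (.M i0 i1 i2 i3))))) (.L (.B i1 i3))) (.S1 (.ofNat 18432) (.S3 (.ofNat 387072) (.S0 (.negSucc 414719) (.S1 (.ofNat 9216) (.L (.M i0 i2 i1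 i3)) (.L (.M i0 i1 i2 i3))) (.S1 (.ofNat 9216) (.S3 (.ofNat 377856) (.L (.M i0 i2 i1 i3)) (.L (.N i2 i3 i0 i1))) (.L (.M i0 i1 i2 i3)))) (.S0 (.negSucc 414719) (.S1 (.ofNat 9216) (.S3 (.ofNat 396288) (.L (.N i2 i3 i0 i1)) (.L (.N i0 i3 i1 i2))) (.L (.M i0 i1 i2 i3))) (.S1 (.ofNat 9216) (.L (.N i0 i3 i1 i2)) (.L (.M i0 i1 i2 i3))))) (.L (.B i1 i3)))) (.S0 (.negSucc 423935) (.S1 (.ofNat 18432) (.S3 (.ofNat 423936) (.S0 (.negSucc 433151) (.S1 (.ofNat 9216) (.S3 (.ofNat 414720) (.L (.N i2 i3 i0 i1)) (.L (.N i0 i3 i1 i2))) (.L (.M i0 i1 i2 i3))) (.S1 (.ofNat 9216) (.L (.N i0 i3 i1 i2)) (.L (.M i0 i1 i2 i3)))) (.S0 (.negSucc 433151) (.S1 (.ofNat 9216) (.L (.N i0 i3 i1 i2)) (.L (.B i1 i3))) (.S1 (.ofNat 9216) (.L (.N i0 i3 i1 i2)) (.L (.B i1 i3))))) (.L (.B i1 i3))) (.S1 (.ofNat 18432) (.S3 (.ofNat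 423936) (.S0 (.negSucc 414719) (.S1 (.ofNat 9216) (.L (.N i0 i3 i1 i2)) (.L (.M i0 i1 i2 i3))) (.S1 (.ofNat 9216) (.L (.N i0 i3 i1 i2)) (.L (.M i0 i1 i2 i3)))) (.S0 (.negSucc 414719) (.S1 (.ofNat 9216) (.L (.N i1 i3 i0 i2)) (.L .Y)) (.L .Y))) (.L (.B i1 i3))))) (.L (.B i1 i3))) (.S1 (.ofNat 36864) (.S3 (.ofNat 405504) (.S0 (.negSucc 387071) (.S1 (.ofNat 18432) (.S3 (.ofNat 387072) (.S0 (.negSucc 396287) (.S1 (.ofNat 9216) (.S3 (.ofNat 377856) (.L (.N i0 i3 i1 i2)) (.L (.N i0 i3 i1 i2))) (.L (.M i0 i1 i2 i3))) (.S1 (.ofNat 9216) (.L (.N i0 i3 i1 i2)) (.L (.M i0 i1 i2 i3)))) (.S0 (.negSucc 396287) (.S1 (.ofNat 9216) (.L (.N i0 i3 i1 i2)) (.L (.M i0 i1 i2 i3))) (.S1 (.ofNat 9216) (.L (.N i0 i3 i1 i2)) (.L (.M i0 i1 i2 i3))))) (.L (.B i1 i3))) (.S1 (.ofNat 18432) (.S3 (.ofNat 387072) (.S0 (.negSucc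 377855) (.S1 (.ofNat 9216) (.L (.N i0 i3 i1 i2)) (.L (.M i0 i1 i2 i3))) (.S1 (.ofNat 9216) (.L (.N i0 i3 i1 i2)) (.L (.M i0 i1 i2 i3)))) (.S0 (.negSucc 377855) (.L (.N i1 i3 i0 i2)) (.L .Y))) (.L (.B i1 i3)))) (.S0 (.negSucc 387071) (.S1 (.ofNat 18432) (.S3 (.ofNat 423936) (.S0 (.negSucc 396287) (.L (.N i1 i3 i0 i2)) (.L .Y)) (.L .Y)) (.L .Y)) (.L .Y))) (.L (.B i1 i3))))) (.L (.B i1 i3))) (.S1 (.ofNat 73728) (.S3 (.ofNat 368640) (.S0 (.negSucc 331775) (.S1 (.ofNat 36864) (.S3 (.ofNat 331776) (.S0 (.negSucc 350207) (.S1 (.ofNat 18432) (.S3 (.ofNat 313344) (.S0 (.negSucc 359423) (.L (.M i0 i2 i1 i3)) (.S1 (.ofNat 9216) (.L (.M i0 i2 i1 i3)) (.L (.M i0 i1 i2 i3)))) (.S0 (.negSucc 359423) (.S1 (.ofNat 9216) (.L (.N i2 i3 i0 i1)) (.L (.M i0 i1 i2 i3))) (.S1 (.ofNat 9216) (.S3 (.ofNat 322560) (.L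 (.N i2 i3 i0 i1)) (.L (.N i0 i3 i1 i2))) (.L (.M i0 i1 i2 i3))))) (.L (.B i1 i3))) (.S1 (.ofNat 18432) (.S3 (.ofNat 313344) (.S0 (.negSucc 340991) (.S1 (.ofNat 9216) (.L (.N i2 i3 i0 i1)) (.L (.M i0 i1 i2 i3))) (.S1 (.ofNat 9216) (.L (.N i0 i3 i1 i2)) (.L (.M i0 i1 i2 i3)))) (.S0 (.negSucc 340991) (.S1 (.ofNat 9216) (.L (.N i0 i3 i1 i2)) (.L (.M i0 i1 i2 i3))) (.S1 (.ofNat 9216) (.L (.N i0 i3 i1 i2)) (.L (.M i0 i1 i2 i3))))) (.L (.B i1 i3)))) (.S0 (.negSucc 350207) (.S1 (.ofNat 18432) (.S3 (.ofNat 350208) (.S0 (.negSucc 359423) (.S1 (.ofNat 9216) (.L (.N i0 i3 i1 i2)) (.L (.M i0 i1 i2 i3))) (.S1 (.ofNat 9216) (.L (.N i0 i3 i1 i2)) (.L (.M i0 i1 i2 i3)))) (.S0 (.negSucc 359423) (.S1 (.ofNat 9216) (.L (.N i0 i3 i1 i2)) (.L (.M i0 i1 i2 i3))) (.S1 (.ofNat 9216) (.L (.N i0 i3 i1 i2)) (.L (.M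 i0 i1 i2 i3))))) (.L (.B i1 i3))) (.S1 (.ofNat 18432) (.S3 (.ofNat 350208) (.S0 (.negSucc 340991) (.S1 (.ofNat 9216) (.L (.N i0 i3 i1 i2)) (.L (.M i0 i1 i2 i3))) (.S1 (.ofNat 9216) (.L (.N i0 i3 i1 i2)) (.L (.M i0 i1 i2 i3)))) (.S0 (.negSucc 340991) (.L (.N i1 i3 i0 i2)) (.L .Y))) (.L (.B i1 i3))))) (.L (.B i1 i3))) (.S1 (.ofNat 36864) (.S3 (.ofNat 331776) (.S0 (.negSucc 313343) (.S1 (.ofNat 18432) (.S3 (.ofNat 313344) (.S0 (.negSucc 322559) (.S1 (.ofNat 9216) (.L (.N i0 i3 i1 i2)) (.L (.M i0 i1 i2 i3))) (.S1 (.ofNat 9216) (.L (.N i0 i3 i1 i2)) (.L (.M i0 i1 i2 i3)))) (.S0 (.negSucc 322559) (.S1 (.ofNat 9216) (.L (.N i0 i3 i1 i2)) (.L (.M i0 i1 i2 i3))) (.S1 (.ofNat 9216) (.L (.N i0 i3 i1 i2)) (.L (.M i0 i1 i2 i3))))) (.L (.B i1 i3))) (.S1 (.ofNat 18432) (.S3 (.ofNat 313344) (.S0 (.negSucc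 304127) (.S1 (.ofNat 9216) (.L (.N i0 i3 i1 i2)) (.L (.M i0 i1 i2 i3))) (.L (.N i1 i3 i0 i2))) (.L (.N i1 i3 i0 i2))) (.L (.B i1 i3)))) (.S0 (.negSucc 313343) (.S1 (.ofNat 18432) (.S3 (.ofNat 350208) (.S0 (.negSucc 322559) (.L (.N i1 i3 i0 i2)) (.L .Y)) (.L .Y)) (.L .Y)) (.L .Y))) (.L (.B i1 i3)))) (.S0 (.negSucc 331775) (.S1 (.ofNat 36864) (.S3 (.ofNat 405504) (.S0 (.negSucc 350207) (.S1 (.ofNat 18432) (.S3 (.ofNat 387072) (.S0 (.negSucc 359423) (.L (.N i1 i3 i0 i2)) (.L .Y)) (.L .Y)) (.L .Y)) (.L .Y)) (.L .Y)) (.L .Y)) (.L .Y))) (.L (.B i1 i3)))) (.S0 (.negSucc 368639) (.S1 (.ofNat 73728) (.S3 (.ofNat 516096) (.S0 (.negSucc 405503) (.S1 (.ofNat 36864) (.S3 (.ofNat 479232) (.S0 (.negSucc 423935) (.S1 (.ofNat 18432) (.S3 (.ofNat 460800) (.S0 (.negSucc 433151) (.S1 (.ofNat 9216) (.L (.N i1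 i3 i0 i2)) (.L .Y)) (.L .Y)) (.L .Y)) (.L .Y)) (.L .Y)) (.L .Y)) (.L .Y)) (.L .Y)) (.L .Y)) (.L .Y)) (.L .Y))) (.L (.B i1 i3))

def B30 : Box := ⟨⟨(.negSucc 442367), (.negSucc 294911)⟩, ⟨(.ofNat 0), (.ofNat 294912)⟩, ⟨(.ofNat 294912), (.ofNat 589824)⟩⟩

theorem ok30 : check T30 B30 = true := by decide +kernel

def T40 : Tree := .S0 (.negSucc 239615) (.S1 (.ofNat 18432) (.S3 (.ofNat 202752) (.S0 (.negSucc 248831) (.S1 (.ofNat 9216) (.S3 (.ofNat 193536) (.S0 (.negSucc 253439) (.L (.N i2 i3 i0 i1)) (.L (.N i2 i3 i0 i1))) (.L (.N i0 i3 i1 i2))) (.L (.M i0 i1 i2 i3))) (.S1 (.ofNat 9216) (.L (.N i0 i3 i1 i2)) (.L (.M i0 i1 i2 i3)))) (.S0 (.negSucc 248831) (.S1 (.ofNat 9216) (.L (.N i0 i3 i1 i2)) (.L (.M i0 i1 i2 i3))) (.S1 (.ofNat 9216) (.L (.N i0 i3 i1 i2)) (.L (.M i0 i1 i2 i3))))) (.L (.M i0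 i1 i2 i3))) (.S1 (.ofNat 18432) (.S3 (.ofNat 202752) (.S0 (.negSucc 230399) (.S1 (.ofNat 9216) (.L (.N i0 i3 i1 i2)) (.L (.M i0 i1 i2 i3))) (.S1 (.ofNat 9216) (.L (.N i0 i3 i1 i2)) (.L (.M i0 i1 i2 i3)))) (.S0 (.negSucc 230399) (.S1 (.ofNat 9216) (.L (.N i0 i3 i1 i2)) (.L (.M i0 i1 i2 i3))) (.L (.N i0 i3 i1 i2)))) (.L (.M i0 i1 i2 i3)))

def B40 : Box := ⟨⟨(.negSucc 258047), (.negSucc 221183)⟩, ⟨(.ofNat 0), (.ofNat 36864)⟩, ⟨(.ofNat 184320), (.ofNat 221184)⟩⟩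

theorem ok40 : check T40 B40 = true := by decide +kernel

def T47 : Tree := .S0 (.negSucc 147455) (.S1 (.ofNat 147456) (.S3 (.ofNat 442368) (.S0 (.negSucc 221183) (.S1 (.ofNat 73728) (.S3 (.ofNat 368640) (.S0 (.negSucc 258047) (.S1 (.ofNat 36864) (.S3 (.ofNat 331776) (.S0 (.negSucc 276479) (.S1 (.ofNat 18432) (.S3 (.ofNat 313344) (.L (.N i1 i3 i0 i2)) (.L .Y)) (.L .Y)) (.L .Y)) (.L .Y)) (.L .Y)) (.L .Y)) (.L .Y)) (.L .Y)) (.L .Y)) (.L .Y)) (.L .Y)) (.L .Y)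

def B47 : Box := ⟨⟨(.negSucc 294911), (.ofNat 0)⟩, ⟨(.ofNat 0), (.ofNat 294912)⟩, ⟨(.ofNat 294912), (.ofNat 589824)⟩⟩

theorem ok47 : check T47 B47 = true := by decide +kernel

end NonMorse.BB
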