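import Pool.Agent.Helper342.Alg.BBT0
import Pool.Agent.Helper342.Alg.BBT1
import Pool.Agent.Helper342.Alg.BBT2
import Pool.Agent.Helper342.Alg.BBT3
import Pool.Agent.Helper342.Alg.BBT4
import Pool.Agent.Helper342.Alg.BBT5
import Pool.Agent.Helper342.Alg.BBT6
import Pool.Agent.Helper342.Alg.BBT7
import Pool.Agent.Helper342.Alg.BBMain

set_option linter.style.longLine false

namespace NonMorse.BB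
open Ix

theorem cov_root : Covered ⟨⟨(.negSucc 589823), (.ofNat 589824)⟩, ⟨(.negSucc 589823), (.ofNat 589824)⟩, ⟨(.negSucc 589823), (.ofNat 589824)⟩⟩ :=
 (cov_S0 ⟨⟨(.negSucc 589823), (.ofNat 589824)⟩, ⟨(.negSucc 589823), (.ofNat 589824)⟩, ⟨(.negSucc 589823), (.ofNat 589824)⟩⟩ (.ofNat 0)
 (cov_S1 ⟨⟨(.negSucc 589823), (.ofNat 0)⟩, ⟨(.negSucc 589823), (.ofNat 589824)⟩, ⟨(.negSucc 589823), (.ofNat 589824)⟩⟩ (.ofNat 0)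
 (cov_S3 ⟨⟨(.negSucc 589823), (.ofNat 0)⟩, ⟨(.negSucc 589823), (.ofNat 0)⟩, ⟨(.negSucc 589823), (.ofNat 589824)⟩⟩ (.ofNat 0)
 (cov_S0 ⟨⟨(.negSucc 589823), (.ofNat 0)⟩, ⟨(.negSucc 589823), (.ofNat 0)⟩, ⟨(.negSucc 589823), (.ofNat 0)⟩⟩ (.negSucc 294911)
 (cov_of_check T0 B0 ok0)
 (cov_S1 ⟨⟨(.negSucc 294911), (.ofNat 0)⟩, ⟨(.negSucc 589823), (.ofNat 0)⟩, ⟨(.negSucc 589823), (.ofNat 0)⟩⟩ (.negSucc 294911)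
 (cov_of_check T1 B1 ok1)
 (cov_S3 ⟨⟨(.negSucc 294911), (.ofNat 0)⟩, ⟨(.negSucc 294911), (.ofNat 0)⟩, ⟨(.negSucc 589823), (.ofNat 0)⟩⟩ (.negSucc 294911)
 (cov_of_check T2 B2 ok2)
 (cov_S0 ⟨⟨(.negSucc 294911), (.ofNat 0)⟩, ⟨(.negSucc 294911), (.ofNat 0)⟩, ⟨(.negSucc 294911), (.ofNat 0)⟩⟩ (.negSucc 147455)
 (cov_of_check T3 B3 ok3)
 (cov_S1 ⟨⟨(.negSucc 147455), (.ofNat 0)⟩, ⟨(.negSucc 294911), (.ofNat 0)⟩, ⟨(.negSucc 294911), (.ofNat 0)⟩⟩ (.negSucc 147455)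
 (cov_of_check T4 B4 ok4)
 (cov_S3 ⟨⟨(.negSucc 147455), (.ofNat 0)⟩, ⟨(.negSucc 147455), (.ofNat 0)⟩, ⟨(.negSucc 294911), (.ofNat 0)⟩⟩ (.negSucc 147455)
 (cov_of_check T5 B5 ok5)
 (cov_S0 ⟨⟨(.negSucc 147455), (.ofNat 0)⟩, ⟨(.negSucc 147455), (.ofNat 0)⟩, ⟨(.negSucc 147455), (.ofNat 0)⟩⟩ (.negSucc 73727)
 (cov_of_check T6 B6 ok6)
 (cov_S1 ⟨⟨(.negSucc 73727), (.ofNat 0)⟩, ⟨(.negSucc 147455), (.ofNat 0)⟩, ⟨(.negSucc 147455), (.ofNat 0)⟩⟩ (.negSucc 73727)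
 (cov_of_check T7 B7 ok7)
 (cov_S3 ⟨⟨(.negSucc 73727), (.ofNat 0)⟩, ⟨(.negSucc 73727), (.ofNat 0)⟩, ⟨(.negSucc 147455), (.ofNat 0)⟩⟩ (.negSucc 73727)
 (cov_of_check T8 B8 ok8)
 (cov_S0 ⟨⟨(.negSucc 73727), (.ofNat 0)⟩, ⟨(.negSucc 73727), (.ofNat 0)⟩, ⟨(.negSucc 73727), (.ofNat 0)⟩⟩ (.negSucc 36863)
 (cov_S1 ⟨⟨(.negSucc 73727), (.negSucc 36863)⟩, ⟨(.negSucc 73727), (.ofNat 0)⟩, ⟨(.negSucc 73727), (.ofNat 0)⟩⟩ (.negSucc 36863)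
 (cov_S3 ⟨⟨(.negSucc 73727), (.negSucc 36863)⟩, ⟨(.negSucc 73727), (.negSucc 36863)⟩, ⟨(.negSucc 73727), (.ofNat 0)⟩⟩ (.negSucc 36863)
 (cov_S0 ⟨⟨(.negSucc 73727), (.negSucc 36863)⟩, ⟨(.negSucc 73727), (.negSucc 36863)⟩, ⟨(.negSucc 73727), (.negSucc 36863)⟩⟩ (.negSucc 55295)
 (cov_S1 ⟨⟨(.negSucc 73727), (.negSucc 55295)⟩, ⟨(.negSucc 73727), (.negSucc 36863)⟩, ⟨(.negSucc 73727), (.negSucc 36863)⟩⟩ (.negSucc 55295)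
 (cov_of_check T9 B9 ok9)
 (cov_S3 ⟨⟨(.negSucc 73727), (.negSucc 55295)⟩, ⟨(.negSucc 55295), (.negSucc 36863)⟩, ⟨(.negSucc 73727), (.negSucc 36863)⟩⟩ (.negSucc 55295)
 (cov_of_check T10 B10 ok10)
 (cov_S0 ⟨⟨(.negSucc 73727), (.negSucc 55295)⟩, ⟨(.negSucc 55295), (.negSucc 36863)⟩, ⟨(.negSucc 55295), (.negSucc 36863)⟩⟩ (.negSucc 64511)
 (cov_S1 ⟨⟨(.negSucc 73727), (.negSucc 64511)⟩, ⟨(.negSucc 55295), (.negSucc 36863)⟩, ⟨(.negSucc 55295), (.negSucc 36863)⟩⟩ (.negSucc 46079)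
 (cov_S3 ⟨⟨(.negSucc 73727), (.negSucc 64511)⟩, ⟨(.negSucc 55295), (.negSucc 46079)⟩, ⟨(.negSucc 55295), (.negSucc 36863)⟩⟩ (.negSucc 46079)
 (cov_of_check T11 B11 ok11)
 (cov_of_check T12 B12 ok12))
 (cov_of_check T13 B13 ok13))
 (cov_of_check T14 B14 ok14))))
 (cov_of_check T15 B15 ok15))
 (cov_of_check T16 B16 ok16))
 (cov_of_check T17 B17 ok17))
 (cov_of_check T18 B18 ok18)))))))))))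
 (cov_S0 ⟨⟨(.negSucc 589823), (.ofNat 0)⟩, ⟨(.negSucc 589823), (.ofNat 0)⟩, ⟨(.ofNat 0), (.ofNat 589824)⟩⟩ (.negSucc 294911)
 (cov_S1 ⟨⟨(.negSucc 589823), (.negSucc 294911)⟩, ⟨(.negSucc 589823), (.ofNat 0)⟩, ⟨(.ofNat 0), (.ofNat 589824)⟩⟩ (.negSucc 294911)
 (cov_of_check T19 B19 ok19)
 (cov_S3 ⟨⟨(.negSucc 589823), (.negSucc 294911)⟩, ⟨(.negSucc 294911), (.ofNat 0)⟩, ⟨(.ofNat 0), (.ofNat 589824)⟩⟩ (.ofNat 294912)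
 (cov_of_check T20 B20 ok20)
 (cov_S0 ⟨⟨(.negSucc 589823), (.negSucc 294911)⟩, ⟨(.negSucc 294911), (.ofNat 0)⟩, ⟨(.ofNat 294912), (.ofNat 589824)⟩⟩ (.negSucc 442367)
 (cov_of_check T21 B21 ok21)
 (cov_of_check T22 B22 ok22))))
 (cov_S1 ⟨⟨(.negSucc 294911), (.ofNat 0)⟩, ⟨(.negSucc 589823), (.ofNat 0)⟩, ⟨(.ofNat 0), (.ofNat 589824)⟩⟩ (.negSucc 294911)
 (cov_of_check T23 B23 ok23)
 (cov_S3 ⟨⟨(.negSucc 294911), (.ofNat 0)⟩, ⟨(.negSucc 294911), (.ofNat 0)⟩, ⟨(.ofNat 0), (.ofNat 589824)⟩⟩ (.ofNat 294912)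
 (cov_S0 ⟨⟨(.negSucc 294911), (.ofNat 0)⟩, ⟨(.negSucc 294911), (.ofNat 0)⟩, ⟨(.ofNat 0), (.ofNat 294912)⟩⟩ (.negSucc 147455)
 (cov_of_check T24 B24 ok24)
 (cov_of_check T25 B25 ok25))
 (cov_of_check T26 B26 ok26)))))
 (cov_S3 ⟨⟨(.negSucc 589823), (.ofNat 0)⟩, ⟨(.ofNat 0), (.ofNat 589824)⟩, ⟨(.negSucc 589823), (.ofNat 589824)⟩⟩ (.ofNat 0)
 (cov_of_check T27 B27 ok27)
 (cov_S0 ⟨⟨(.negSucc 589823), (.ofNat 0)⟩, ⟨(.ofNat 0), (.ofNat 589824)⟩, ⟨(.ofNat 0), (.ofNat 589824)⟩⟩ (.negSucc 294911)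
 (cov_S1 ⟨⟨(.negSucc 589823), (.negSucc 294911)⟩, ⟨(.ofNat 0), (.ofNat 589824)⟩, ⟨(.ofNat 0), (.ofNat 589824)⟩⟩ (.ofNat 294912)
 (cov_S3 ⟨⟨(.negSucc 589823), (.negSucc 294911)⟩, ⟨(.ofNat 0), (.ofNat 294912)⟩, ⟨(.ofNat 0), (.ofNat 589824)⟩⟩ (.ofNat 294912)
 (cov_of_check T28 B28 ok28)
 (cov_S0 ⟨⟨(.negSucc 589823), (.negSucc 294911)⟩, ⟨(.ofNat 0), (.ofNat 294912)⟩, ⟨(.ofNat 294912), (.ofNat 589824)⟩⟩ (.negSucc 442367)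
 (cov_of_check T29 B29 ok29)
 (cov_of_check T30 B30 ok30)))
 (cov_of_check T31 B31 ok31))
 (cov_S1 ⟨⟨(.negSucc 294911), (.ofNat 0)⟩, ⟨(.ofNat 0), (.ofNat 589824)⟩, ⟨(.ofNat 0), (.ofNat 589824)⟩⟩ (.ofNat 294912)
 (cov_S3 ⟨⟨(.negSucc 294911), (.ofNat 0)⟩, ⟨(.ofNat 0), (.ofNat 294912)⟩, ⟨(.ofNat 0), (.ofNat 589824)⟩⟩ (.ofNat 294912)
 (cov_S0 ⟨⟨(.negSucc 294911), (.ofNat 0)⟩, ⟨(.ofNat 0), (.ofNat 294912)⟩, ⟨(.ofNat 0), (.ofNat 294912)⟩⟩ (.negSucc 147455)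
 (cov_S1 ⟨⟨(.negSucc 294911), (.negSucc 147455)⟩, ⟨(.ofNat 0), (.ofNat 294912)⟩, ⟨(.ofNat 0), (.ofNat 294912)⟩⟩ (.ofNat 147456)
 (cov_S3 ⟨⟨(.negSucc 294911), (.negSucc 147455)⟩, ⟨(.ofNat 0), (.ofNat 147456)⟩, ⟨(.ofNat 0), (.ofNat 294912)⟩⟩ (.ofNat 147456)
 (cov_S0 ⟨⟨(.negSucc 294911), (.negSucc 147455)⟩, ⟨(.ofNat 0), (.ofNat 147456)⟩, ⟨(.ofNat 0), (.ofNat 147456)⟩⟩ (.negSucc 221183)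
 (cov_S1 ⟨⟨(.negSucc 294911), (.negSucc 221183)⟩, ⟨(.ofNat 0), (.ofNat 147456)⟩, ⟨(.ofNat 0), (.ofNat 147456)⟩⟩ (.ofNat 73728)
 (cov_S3 ⟨⟨(.negSucc 294911), (.negSucc 221183)⟩, ⟨(.ofNat 0), (.ofNat 73728)⟩, ⟨(.ofNat 0), (.ofNat 147456)⟩⟩ (.ofNat 73728)
 (cov_of_check T32 B32 ok32)
 (cov_S0 ⟨⟨(.negSucc 294911), (.negSucc 221183)⟩, ⟨(.ofNat 0), (.ofNat 73728)⟩, ⟨(.ofNat 73728), (.ofNat 147456)⟩⟩ (.negSucc 258047)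
 (cov_of_check T33 B33 ok33)
 (cov_of_check T34 B34 ok34)))
 (cov_of_check T35 B35 ok35))
 (cov_of_check T36 B36 ok36))
 (cov_S0 ⟨⟨(.negSucc 294911), (.negSucc 147455)⟩, ⟨(.ofNat 0), (.ofNat 147456)⟩, ⟨(.ofNat 147456), (.ofNat 294912)⟩⟩ (.negSucc 221183)
 (cov_S1 ⟨⟨(.negSucc 294911), (.negSucc 221183)⟩, ⟨(.ofNat 0), (.ofNat 147456)⟩, ⟨(.ofNat 147456), (.ofNat 294912)⟩⟩ (.ofNat 73728)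
 (cov_S3 ⟨⟨(.negSucc 294911), (.negSucc 221183)⟩, ⟨(.ofNat 0), (.ofNat 73728)⟩, ⟨(.ofNat 147456), (.ofNat 294912)⟩⟩ (.ofNat 221184)
 (cov_S0 ⟨⟨(.negSucc 294911), (.negSucc 221183)⟩, ⟨(.ofNat 0), (.ofNat 73728)⟩, ⟨(.ofNat 147456), (.ofNat 221184)⟩⟩ (.negSucc 258047)
 (cov_of_check T37 B37 ok37)
 (cov_S1 ⟨⟨(.negSucc 258047), (.negSucc 221183)⟩, ⟨(.ofNat 0), (.ofNat 73728)⟩, ⟨(.ofNat 147456), (.ofNat 221184)⟩⟩ (.ofNat 36864)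
 (cov_S3 ⟨⟨(.negSucc 258047), (.negSucc 221183)⟩, ⟨(.ofNat 0), (.ofNat 36864)⟩, ⟨(.ofNat 147456), (.ofNat 221184)⟩⟩ (.ofNat 184320)
 (cov_S0 ⟨⟨(.negSucc 258047), (.negSucc 221183)⟩, ⟨(.ofNat 0), (.ofNat 36864)⟩, ⟨(.ofNat 147456), (.ofNat 184320)⟩⟩ (.negSucc 239615)
 (cov_of_check T38 B38 ok38)
 (cov_of_check T39 B39 ok39))
 (cov_of_check T40 B40 ok40))
 (cov_of_check T41 B41 ok41)))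
 (cov_of_check T42 B42 ok42))
 (cov_of_check T43 B43 ok43))
 (cov_of_check T44 B44 ok44)))
 (cov_of_check T45 B45 ok45))
 (cov_of_check T46 B46 ok46))
 (cov_of_check T47 B47 ok47))
 (cov_of_check T48 B48 ok48)))))
 (cov_of_check T49 B49 ok49))

end NonMorse.BB
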