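import Mathlib

/-!
# Interval branch-and-bound checker (integer arithmetic)
-/

namespace NonMorse.BB

/-- index of a body -/
inductive Ix | i0 | i1 | i2 | i3
deriving DecidableEq

structure Iv where
  l : Int
  h : Int

/-- `a ≤ b` -/
def leB (a b : Int) : Bool :=
  match b - a with
  | .ofNat _ => true
  | .negSucc _ => false

/-- `a < b` -/
def ltB (a b : Int) : Bool :=
  match a - b with
  | .ofNat _ => false
  | .negSucc _ => true

def imin (a b : Int) : Int := bif leB a b then a else b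
def imax (a b : Int) : Int := bif leB a b then b else a
def iabs (a : Int) : Int := bif leB 0 a then a else -a

def iadd (a b : Iv) : Iv := ⟨a.l + b.l, a.h + b.h⟩
def isub (a b : Iv) : Iv := ⟨a.l - b.h, a.h - b.l⟩
def imul (a b : Iv) : Iv :=
  ⟨imin (imin (a.l * b.l) (a.l * b.h)) (imin (a.h * b.l) (a.h * b.h)),
   imax (imax (a.l * b.l) (a.l * b.h)) (imax (a.h * b.l) (a.h * b.h))⟩
/-- multiply by an integer constant -/
def iscale (c : Int) (a : Iv) : Iv :=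
  ⟨imin (c * a.l) (c * a.h), imax (c * a.l) (c * a.h)⟩

/-- `K = 2^16`, `K² = 2^32`, `K⁷ = 2^112` -/
def K : Int := 65536
def K2 : Int := 4294967296
def K7 : Nat := 5192296858534827628530496329220096

/-- floor and ceiling division -/
def fdiv (a b : Int) : Int := a / b
def cdiv (a b : Int) : Int := -((-a) / b)

/-- a cube root of `n`, not verified -/
def newt (n : Nat) : Nat → Nat → Nat
  | 0, c => c
  | k + 1, c => newt n k ((2 * c + n / (c * c)) / 3)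

def cbrtGuess (n : Nat) : Nat := newt n 6 (2 ^ (Nat.log2 n / 3 + 1))

/-- lower bound of `K x^(-2/3)` for `x ≤ X / K²` -/
def sLo' (X c : Nat) : Nat :=
  bif Nat.ble (c * c * c * (X * X)) K7 then c
  else bif Nat.ble ((c - 1) * (c - 1) * (c - 1) * (X * X)) K7 then c - 1 else 0

def sLo (X : Nat) : Nat := sLo' X (cbrtGuess (K7 / (X * X)))

/-- upper bound of `K x^(-2/3)` for `x ≥ X / K²` (and `x ≥ 1/8`) -/
def sHi' (X c : Nat) : Nat :=
  bif Nat.ble K7 (c * c * c * (X * X)) then c else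
  bif Nat.ble K7 ((c + 1) * (c + 1) * (c + 1) * (X * X)) then c + 1 else 262144

def sHi (X : Nat) : Nat := sHi' X (cbrtGuess (K7 / (X * X)))

/-- bounds for `ν = 1/μ`, `μ ∈ [5.3, 5.4]` -/
def nul : Int := 12136
def nuh : Int := 12366

def mulnu (y : Iv) : Iv :=
  ⟨fdiv ((bif leB 0 y.l then nul else nuh) * y.l) K,
   cdiv ((bif leB 0 y.h then nuh else nul) * y.h) K⟩

structure Box where
  z0 : Iv
  z1 : Iv
  z3 : Iv

def y2I (B : Box) : Iv := ⟨-(B.z0.h + B.z1.h + B.z3.h), -(B.z0.l + B.z1.l + B.z3.l)⟩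

def yI (B : Box) : Ix → Iv
  | .i0 => B.z0
  | .i1 => B.z1
  | .i2 => y2I B
  | .i3 => B.z3

def zI (B : Box) : Ix → Iv
  | .i0 => B.z0
  | .i1 => B.z1
  | .i2 => mulnu (y2I B)
  | .i3 => B.z3

def pI (B : Box) (i j : Ix) : Iv := imul (zI B i) (zI B j)

/-- bounds for `K² x_ij`, `x_ij = 1 - z_i z_j ≥ 1/8` -/
def xOf (p : Iv) : Iv := ⟨imax (K2 - p.h) 536870912, K2 - p.l⟩

def sOf (x : Iv) : Iv := ⟨sLo x.h.toNat, sHi x.l.toNat⟩

def sI (B : Box) (i j : Ix) : Iv := sOf (xOf (pI B i j))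

def eI (B : Box) (i j k l : Ix) : Iv :=
  iadd (imul (isub (yI B j) (yI B i)) (sI B i j))
    (iadd (imul (yI B k) (isub (sI B i k) (sI B j k)))
      (imul (yI B l) (isub (sI B i l) (sI B j l))))

/-- bounds for `K s'`, `s' = (2/3) s / x` -/
def spOf (x s : Iv) : Iv := ⟨fdiv (2 * s.l * K2) (3 * x.h), cdiv (2 * s.h * K2) (3 * x.l)⟩

/-- bounds for `K c`, `c = s (2 + x) / (3 x)` -/
def ccOf (x s : Iv) : Iv :=
  ⟨fdiv (s.l * (2 * K2 + x.h)) (3 * x.h), cdiv (s.h * (2 * K2 + x.l)) (3 * x.l)⟩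

def spI (B : Box) (i j : Ix) : Iv := spOf (xOf (pI B i j)) (sI B i j)
def ccI (B : Box) (i j : Ix) : Iv := ccOf (xOf (pI B i j)) (sI B i j)

def yzI (B : Box) (k : Ix) : Iv :=
  let t := imul (yI B k) (zI B k)
  ⟨imax 0 t.l, t.h⟩

def shrink (a : Iv) : Iv := ⟨fdiv a.l K2, cdiv a.h K2⟩

def dI (B : Box) (i j k l : Ix) : Iv :=
  shrink (iadd (imul (yzI B j) (spI B i j)) (iadd (imul (yzI B k) (spI B i k))
    (imul (yzI B l) (spI B i l))))

/-- matrix entries -/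
def aI (v w1 w2 nd : Iv) : Iv := iadd (isub (isub v w1) w2) nd

structure Mat where
  a00 : Int
  a01 : Int
  a02 : Int
  a10 : Int
  a11 : Int
  a12 : Int
  a20 : Int
  a21 : Int
  a22 : Int

def comb (c0 c1 c2 : Int) (u0 u1 u2 : Iv) : Iv :=
  iadd (iscale c0 u0) (iadd (iscale c1 u1) (iscale c2 u2))

def mag (a : Iv) : Int := imax (iabs a.l) (iabs a.h)

def domRow (dg o1 o2 : Iv) : Bool := ltB (mag o1 + mag o2) dg.l

def detOk (A00 A01 A02 A10 A11 A12 A20 A21 A22 : Iv) (C : Mat) : Bool :=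
  domRow (comb C.a00 C.a01 C.a02 A00 A10 A20) (comb C.a00 C.a01 C.a02 A01 A11 A21)
    (comb C.a00 C.a01 C.a02 A02 A12 A22) &&
  domRow (comb C.a10 C.a11 C.a12 A01 A11 A21) (comb C.a10 C.a11 C.a12 A00 A10 A20)
    (comb C.a10 C.a11 C.a12 A02 A12 A22) &&
  domRow (comb C.a20 C.a21 C.a22 A02 A12 A22) (comb C.a20 C.a21 C.a22 A00 A10 A20)
    (comb C.a20 C.a21 C.a22 A01 A11 A21)

open Ix in
def dOk (B : Box) (C : Mat) : Bool :=
  let nd := mulnu (dI B i2 i0 i1 i3)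
  let c01 := ccI B i0 i1
  let c03 := ccI B i0 i3
  let c13 := ccI B i1 i3
  let c02 := ccI B i0 i2
  let c12 := ccI B i1 i2
  let c32 := ccI B i3 i2
  detOk (aI (dI B i0 i1 i2 i3) c02 c02 nd) (aI c01 c02 c12 nd) (aI c03 c02 c32 nd)
    (aI c01 c12 c02 nd) (aI (dI B i1 i0 i2 i3) c12 c12 nd) (aI c13 c12 c32 nd)
    (aI c03 c32 c02 nd) (aI c13 c32 c12 nd) (aI (dI B i3 i0 i1 i2) c32 c32 nd) C

def Ix.toN : Ix → Nat
  | .i0 => 0
  | .i1 => 1
  | .i2 => 2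
  | .i3 => 3

def neB (i j : Ix) : Bool := !(Nat.beq i.toN j.toN)

def dist4 (i j k l : Ix) : Bool := neB i j && neB i k && neB i l && neB j k && neB j l && neB k l

inductive Leaf
  | O0
  | O1
  | Y
  | B (i j : Ix)
  | N (i j k l : Ix)
  | M (i j k l : Ix)
  | D (C : Mat)

def leafOk (B : Box) : Leaf → Bool
  | .O0 => ltB B.z1.h B.z0.l
  | .O1 => ltB B.z3.h B.z1.l
  | .Y => ltB (y2I B).h 0
  | .B i j => neB i j && ltB (7 * K2) (8 * (pI B i j).l)
  | .N i j k l => dist4 i j k l && ltB 0 (eI B i j k l).l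
  | .M i j k l => dist4 i j k l && ltB (eI B i j k l).h 0
  | .D C => dOk B C

inductive Tree
  | L (f : Leaf)
  | S0 (c : Int) (l r : Tree)
  | S1 (c : Int) (l r : Tree)
  | S3 (c : Int) (l r : Tree)

def check : Tree → Box → Bool
  | .L f, B => leafOk B f
  | .S0 c l r, B => check l ⟨⟨B.z0.l, c⟩, B.z1, B.z3⟩ && check r ⟨⟨c, B.z0.h⟩, B.z1, B.z3⟩
  | .S1 c l r, B => check l ⟨B.z0, ⟨B.z1.l, c⟩, B.z3⟩ && check r ⟨B.z0, ⟨c, B.z1.h⟩, B.z3⟩
  | .S3 c l r, B => check l ⟨B.z0, B.z1, ⟨B.z3.l, c⟩⟩ && check r ⟨B.z0, B.z1, ⟨c, B.z3.h⟩⟩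

end NonMorse.BB
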