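import Pool.Agent.Helper342.Alg.BBDefs

/-!
# Soundness of the branch-and-bound checker
-/

namespace NonMorse.BB

def Iv.has (I : Iv) (x : ℝ) : Prop := (I.l : ℝ) ≤ x ∧ x ≤ (I.h : ℝ)

theorem leB_iff (a b : Int) : leB a b = true ↔ a ≤ b := by
  unfold leB
  rcases h : b - a with n | n
  · simp only [true_iff]; have : (0:ℤ) ≤ b - a := by rw [h]; exact Int.natCast_nonneg n
    omega
  · simp only [Bool.false_eq_true, false_iff]
    have : b - a < 0 := by rw [h]; exact Int.negSucc_lt_zero n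
    omega

theorem ltB_iff (a b : Int) : ltB a b = true ↔ a < b := by
  unfold ltB
  rcases h : a - b with n | n
  · simp only [Bool.false_eq_true, false_iff]
    have : (0:ℤ) ≤ a - b := by rw [h]; exact Int.natCast_nonneg n
    omega
  · simp only [true_iff]
    have : a - b < 0 := by rw [h]; exact Int.negSucc_lt_zero n
    omega

theorem imin_eq (a b : Int) : imin a b = min a b := by
  unfold imin
  rcases h : leB a b with _ | _
  · have : ¬ a ≤ b := by rw [← leB_iff]; simp [h]
    simp only [cond_false]; rw [min_eq_right]; omega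
  · have : a ≤ b := by rw [← leB_iff]; exact h
    simp only [cond_true]; rw [min_eq_left this]

theorem imax_eq (a b : Int) : imax a b = max a b := by
  unfold imax
  rcases h : leB a b with _ | _
  · have : ¬ a ≤ b := by rw [← leB_iff]; simp [h]
    simp only [cond_false]; rw [max_eq_left]; omega
  · have : a ≤ b := by rw [← leB_iff]; exact h
    simp only [cond_true]; rw [max_eq_right this]

theorem iabs_eq (a : Int) : iabs a = |a| := by
  unfold iabs
  rcases h : leB 0 a with _ | _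
  · have : ¬ 0 ≤ a := by rw [← leB_iff]; simp [h]
    simp only [cond_false]; rw [abs_of_neg]; omega
  · have : 0 ≤ a := by rw [← leB_iff]; exact h
    simp only [cond_true]; rw [abs_of_nonneg this]

theorem has_add {a b : Iv} {x y : ℝ} (ha : a.has x) (hb : b.has y) : (iadd a b).has (x + y) := by
  obtain ⟨h1, h2⟩ := ha
  obtain ⟨h3, h4⟩ := hb
  constructor <;> simp only [iadd] <;> push_cast <;> linarith

theorem has_sub {a b : Iv} {x y : ℝ} (ha : a.has x) (hb : b.has y) : (isub a b).has (x - y) := by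
  obtain ⟨h1, h2⟩ := ha
  obtain ⟨h3, h4⟩ := hb
  constructor <;> simp only [isub] <;> push_cast <;> linarith

theorem mul_le_max4 {a b c d x y : ℝ} (h1 : a ≤ x) (h2 : x ≤ b) (h3 : c ≤ y) (h4 : y ≤ d) :
    min (min (a * c) (a * d)) (min (b * c) (b * d)) ≤ x * y ∧
      x * y ≤ max (max (a * c) (a * d)) (max (b * c) (b * d)) := by
  constructor
  · rcases le_total 0 y with hy | hy
    · have e1 : a * y ≤ x * y := mul_le_mul_of_nonneg_right h1 hy
      rcases le_total 0 a with ha | ha
      · have : a * c ≤ a * y := mul_le_mul_of_nonneg_left h3 ha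
        calc _ ≤ min (a * c) (a * d) := min_le_left _ _
          _ ≤ a * c := min_le_left _ _
          _ ≤ _ := by linarith
      · have : a * d ≤ a * y := mul_le_mul_of_nonpos_left h4 ha
        calc _ ≤ min (a * c) (a * d) := min_le_left _ _
          _ ≤ a * d := min_le_right _ _
          _ ≤ _ := by linarith
    · have e1 : b * y ≤ x * y := mul_le_mul_of_nonpos_right h2 hy
      rcases le_total 0 b with ha | ha
      · have : b * c ≤ b * y := mul_le_mul_of_nonneg_left h3 ha
        calc _ ≤ min (b * c) (b * d) := min_le_right _ _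
          _ ≤ b * c := min_le_left _ _
          _ ≤ _ := by linarith
      · have : b * d ≤ b * y := mul_le_mul_of_nonpos_left h4 ha
        calc _ ≤ min (b * c) (b * d) := min_le_right _ _
          _ ≤ b * d := min_le_right _ _
          _ ≤ _ := by linarith
  · rcases le_total 0 y with hy | hy
    · have e1 : x * y ≤ b * y := mul_le_mul_of_nonneg_right h2 hy
      rcases le_total 0 b with ha | ha
      · have : b * y ≤ b * d := mul_le_mul_of_nonneg_left h4 ha
        calc x * y ≤ b * d := by linarith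
          _ ≤ max (b * c) (b * d) := le_max_right _ _
          _ ≤ _ := le_max_right _ _
      · have : b * y ≤ b * c := mul_le_mul_of_nonpos_left h3 ha
        calc x * y ≤ b * c := by linarith
          _ ≤ max (b * c) (b * d) := le_max_left _ _
          _ ≤ _ := le_max_right _ _
    · have e1 : x * y ≤ a * y := mul_le_mul_of_nonpos_right h1 hy
      rcases le_total 0 a with ha | ha
      · have : a * y ≤ a * d := mul_le_mul_of_nonneg_left h4 ha
        calc x * y ≤ a * d := by linarith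
          _ ≤ max (a * c) (a * d) := le_max_right _ _
          _ ≤ _ := le_max_left _ _
      · have : a * y ≤ a * c := mul_le_mul_of_nonpos_left h3 ha
        calc x * y ≤ a * c := by linarith
          _ ≤ max (a * c) (a * d) := le_max_left _ _
          _ ≤ _ := le_max_left _ _

theorem has_mul {a b : Iv} {x y : ℝ} (ha : a.has x) (hb : b.has y) : (imul a b).has (x * y) := by
  have := mul_le_max4 ha.1 ha.2 hb.1 hb.2
  constructor
  · simp only [imul, imin_eq]; push_cast; exact this.1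
  · simp only [imul, imax_eq]; push_cast; exact this.2

theorem has_scale {a : Iv} {x : ℝ} (c : Int) (ha : a.has x) : (iscale c a).has (c * x) := by
  obtain ⟨h1, h2⟩ := ha
  constructor
  · simp only [iscale, imin_eq]; push_cast
    rcases le_total 0 (c:ℝ) with hc | hc
    · exact (min_le_left _ _).trans (mul_le_mul_of_nonneg_left h1 hc)
    · exact (min_le_right _ _).trans (mul_le_mul_of_nonpos_left h2 hc)
  · simp only [iscale, imax_eq]; push_cast
    rcases le_total 0 (c:ℝ) with hc | hc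
    · exact (mul_le_mul_of_nonneg_left h2 hc).trans (le_max_right _ _)
    · exact (mul_le_mul_of_nonpos_left h1 hc).trans (le_max_left _ _)

theorem fdiv_le (a b : Int) (hb : 0 < b) : ((fdiv a b : Int) : ℝ) ≤ (a : ℝ) / b := by
  unfold fdiv
  rw [le_div_iff₀ (by exact_mod_cast hb)]
  exact_mod_cast Int.ediv_mul_le a (ne_of_gt hb)

theorem le_cdiv (a b : Int) (hb : 0 < b) : (a : ℝ) / b ≤ ((cdiv a b : Int) : ℝ) := by
  unfold cdiv
  have := fdiv_le (-a) b hb
  unfold fdiv at this
  push_cast at this ⊢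
  rw [neg_div] at this
  linarith

theorem mag_le {a : Iv} {x : ℝ} (ha : a.has x) : |x| ≤ (mag a : ℝ) := by
  obtain ⟨h1, h2⟩ := ha
  unfold mag
  rw [imax_eq, iabs_eq, iabs_eq]
  push_cast
  rw [abs_le]
  constructor
  · have := neg_abs_le (a.l : ℝ)
    have := le_max_left |(a.l:ℝ)| |(a.h:ℝ)|
    linarith
  · have := le_abs_self (a.h : ℝ)
    have := le_max_right |(a.l:ℝ)| |(a.h:ℝ)|
    linarith

theorem has_mulnu {y : Iv} {Y N : ℝ} (hN1 : (nul : ℝ) ≤ N) (hN2 : N ≤ nuh) (hy : y.has Y) :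
    (mulnu y).has (N * Y / 65536) := by
  obtain ⟨h1, h2⟩ := hy
  have hn1 : (0:ℝ) < (nul:ℝ) := by unfold nul; norm_num
  have hn2 : (0:ℝ) < (nuh:ℝ) := by unfold nuh; norm_num
  have hK : (0:ℤ) < K := by unfold K; norm_num
  constructor
  · refine (fdiv_le _ _ hK).trans ?_
    have : ((K:ℤ):ℝ) = 65536 := by unfold K; norm_num
    rw [this]
    apply div_le_div_of_nonneg_right _ (by norm_num)
    rcases h : leB 0 y.l with _ | _
    · have h' : ¬ 0 ≤ y.l := by rw [← leB_iff]; simp [h]
      have h'' : (y.l : ℝ) ≤ 0 := by exact_mod_cast (not_le.mp h').le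
      simp only [cond_false]; push_cast
      calc (nuh:ℝ) * y.l ≤ N * y.l := mul_le_mul_of_nonpos_right hN2 h''
        _ ≤ N * Y := mul_le_mul_of_nonneg_left h1 (by linarith)
    · have h' : 0 ≤ y.l := by rw [← leB_iff]; exact h
      have h'' : 0 ≤ (y.l : ℝ) := by exact_mod_cast h'
      simp only [cond_true]; push_cast
      calc (nul:ℝ) * y.l ≤ N * y.l := mul_le_mul_of_nonneg_right hN1 h''
        _ ≤ N * Y := mul_le_mul_of_nonneg_left h1 (by linarith)
  · refine le_trans ?_ (le_cdiv _ _ hK)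
    have : ((K:ℤ):ℝ) = 65536 := by unfold K; norm_num
    rw [this]
    apply div_le_div_of_nonneg_right _ (by norm_num)
    rcases h : leB 0 y.h with _ | _
    · have h' : ¬ 0 ≤ y.h := by rw [← leB_iff]; simp [h]
      have h'' : (y.h : ℝ) ≤ 0 := by exact_mod_cast (not_le.mp h').le
      simp only [cond_false]; push_cast
      calc N * Y ≤ N * y.h := mul_le_mul_of_nonneg_left h2 (by linarith)
        _ ≤ (nul:ℝ) * y.h := mul_le_mul_of_nonpos_right hN1 h''
    · have h' : 0 ≤ y.h := by rw [← leB_iff]; exact h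
      have h'' : 0 ≤ (y.h : ℝ) := by exact_mod_cast h'
      simp only [cond_true]; push_cast
      calc N * Y ≤ N * y.h := mul_le_mul_of_nonneg_left h2 (by linarith)
        _ ≤ (nuh:ℝ) * y.h := mul_le_mul_of_nonneg_right hN2 h''

/-- `S³ X² = K⁷` -/
def Rel (S X : ℝ) : Prop := 0 < S ∧ 4294967296 / 8 ≤ X ∧ S ^ 3 * X ^ 2 = 65536 ^ 7

theorem K7_eq : (K7 : ℝ) = 65536 ^ 7 := by unfold K7; norm_num

theorem sLo'_le {S X : ℝ} (h : Rel S X) (X0 c : ℕ) (hX : X ≤ X0) : ((sLo' X0 c : ℕ) : ℝ) ≤ S := by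
  obtain ⟨hS, hX8, hrel⟩ := h
  have hXpos : 0 < X := by linarith
  have hX0 : (0:ℝ) < X0 := by linarith
  have key : ∀ d : ℕ, Nat.ble (d * d * d * (X0 * X0)) K7 = true → (d : ℝ) ≤ S := by
    intro d hd
    have h1 : d * d * d * (X0 * X0) ≤ K7 := Nat.le_of_ble_eq_true hd
    have h2 : (d:ℝ) ^ 3 * (X0:ℝ) ^ 2 ≤ 65536 ^ 7 := by
      rw [← K7_eq]
      have : ((d * d * d * (X0 * X0) : ℕ) : ℝ) ≤ (K7 : ℝ) := by exact_mod_cast h1
      push_cast at this
      nlinarith [this]
    by_contra hcon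
    push Not at hcon
    have h3 : S ^ 3 < (d:ℝ) ^ 3 := pow_lt_pow_left₀ hcon hS.le (by norm_num)
    have h4 : S ^ 3 * X ^ 2 < (d:ℝ) ^ 3 * (X0:ℝ) ^ 2 := by
      have h5 : X ^ 2 ≤ (X0:ℝ) ^ 2 := pow_le_pow_left₀ hXpos.le hX 2
      have h6 : 0 < (X0:ℝ) ^ 2 := by positivity
      calc S ^ 3 * X ^ 2 ≤ S ^ 3 * (X0:ℝ) ^ 2 := mul_le_mul_of_nonneg_left h5 (by positivity)
        _ < _ := mul_lt_mul_of_pos_right h3 h6
    linarith
  unfold sLo'
  rcases h1 : Nat.ble (c * c * c * (X0 * X0)) K7 with _ | _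
  · simp only [cond_false]
    rcases h2 : Nat.ble ((c - 1) * (c - 1) * (c - 1) * (X0 * X0)) K7 with _ | _
    · simp only [cond_false]; push_cast; exact hS.le
    · simp only [cond_true]; exact key _ h2
  · simp only [cond_true]; exact key _ h1

theorem le_sHi' {S X : ℝ} (h : Rel S X) (X0 c : ℕ) (hX : (X0 : ℝ) ≤ X) : S ≤ ((sHi' X0 c : ℕ) : ℝ) := by
  obtain ⟨hS, hX8, hrel⟩ := h
  have hXpos : 0 < X := by linarith
  have key : ∀ d : ℕ, Nat.ble K7 (d * d * d * (X0 * X0)) = true → S ≤ (d : ℝ) := by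
    intro d hd
    have h1 : K7 ≤ d * d * d * (X0 * X0) := Nat.le_of_ble_eq_true hd
    have h2 : 65536 ^ 7 ≤ (d:ℝ) ^ 3 * (X0:ℝ) ^ 2 := by
      rw [← K7_eq]
      have : (K7 : ℝ) ≤ ((d * d * d * (X0 * X0) : ℕ) : ℝ) := by exact_mod_cast h1
      push_cast at this
      nlinarith [this]
    by_contra hcon
    push Not at hcon
    have h3 : (d:ℝ) ^ 3 < S ^ 3 := pow_lt_pow_left₀ hcon (by positivity) (by norm_num)
    have h4 : (d:ℝ) ^ 3 * (X0:ℝ) ^ 2 < S ^ 3 * X ^ 2 := by
      have h5 : (X0:ℝ) ^ 2 ≤ X ^ 2 := pow_le_pow_left₀ (by positivity) hX 2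
      calc (d:ℝ) ^ 3 * (X0:ℝ) ^ 2 ≤ (d:ℝ) ^ 3 * X ^ 2 := mul_le_mul_of_nonneg_left h5 (by positivity)
        _ < _ := mul_lt_mul_of_pos_right h3 (by positivity)
    linarith
  unfold sHi'
  rcases h1 : Nat.ble K7 (c * c * c * (X0 * X0)) with _ | _
  · simp only [cond_false]
    rcases h2 : Nat.ble K7 ((c + 1) * (c + 1) * (c + 1) * (X0 * X0)) with _ | _
    · simp only [cond_false]; push_cast
      by_contra hcon
      push Not at hcon
      have h3 : (262144:ℝ) ^ 3 < S ^ 3 := pow_lt_pow_left₀ hcon (by positivity) (by norm_num)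
      have h4 : (262144:ℝ) ^ 3 * (4294967296 / 8) ^ 2 < S ^ 3 * X ^ 2 := by
        have h5 : ((4294967296:ℝ) / 8) ^ 2 ≤ X ^ 2 := pow_le_pow_left₀ (by positivity) hX8 2
        calc (262144:ℝ) ^ 3 * (4294967296 / 8) ^ 2 < S ^ 3 * (4294967296 / 8) ^ 2 :=
              mul_lt_mul_of_pos_right h3 (by positivity)
          _ ≤ _ := mul_le_mul_of_nonneg_left h5 (by positivity)
      rw [hrel] at h4
      norm_num at h4
    · simp only [cond_true]; exact key _ h2
  · simp only [cond_true]; exact key _ h1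

theorem has_sOf {S X : ℝ} (h : Rel S X) {x : Iv} (hx : x.has X) : (sOf x).has S := by
  have hXpos : 0 < X := by have := h.2.1; linarith
  constructor
  · simp only [sOf]
    have := sLo'_le h x.h.toNat (cbrtGuess (K7 / (x.h.toNat * x.h.toNat))) (by
      have h0 : (0:ℝ) < x.h := lt_of_lt_of_le hXpos hx.2
      have h1 : (0:ℤ) < x.h := by exact_mod_cast h0
      have h2 : ((x.h.toNat : ℤ) : ℝ) = (x.h : ℝ) := by rw [Int.toNat_of_nonneg h1.le]
      have h3 : ((x.h.toNat : ℕ) : ℝ) = (x.h : ℝ) := by rw [← h2]; push_cast; rfl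
      rw [h3]; exact hx.2)
    exact_mod_cast this
  · simp only [sOf]
    have := le_sHi' h x.l.toNat (cbrtGuess (K7 / (x.l.toNat * x.l.toNat))) (by
      rcases le_total 0 x.l with h1 | h1
      · have h3 : ((x.l.toNat : ℕ) : ℝ) = (x.l : ℝ) := by
          have h2 : ((x.l.toNat : ℤ) : ℝ) = (x.l : ℝ) := by rw [Int.toNat_of_nonneg h1]
          rw [← h2]; push_cast; rfl
        rw [h3]; exact hx.1
      · rw [Int.toNat_of_nonpos h1]; push_cast; exact hXpos.le)
    exact_mod_cast this

theorem sOf_nonneg (x : Iv) : 0 ≤ (sOf x).l := by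
  simp only [sOf]; exact Int.natCast_nonneg _

theorem has_xOf {P : ℝ} {p : Iv} (hp : p.has P) (h : P ≤ 7 / 8 * 4294967296) :
    (xOf p).has (4294967296 - P) := by
  constructor
  · simp only [xOf, imax_eq, K2]; push_cast
    apply max_le
    · linarith [hp.2]
    · linarith
  · simp only [xOf, K2]; push_cast; linarith [hp.1]

theorem xOf_pos (p : Iv) : 0 < (xOf p).l := by
  simp only [xOf, imax_eq]
  exact lt_of_lt_of_le (by norm_num) (le_max_right _ _)

theorem has_spOf {S X : ℝ} (hS : 0 < S) {x s : Iv} (hx : x.has X) (hs : s.has S)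
    (hx0 : 0 < x.l) (hs0 : 0 ≤ s.l) : (spOf x s).has (2 * S * 4294967296 / (3 * X)) := by
  have hxl : (0:ℝ) < x.l := by exact_mod_cast hx0
  have hX : 0 < X := lt_of_lt_of_le hxl hx.1
  have hxh : (0:ℝ) < x.h := lt_of_lt_of_le hX hx.2
  have hxh' : 0 < x.h := by exact_mod_cast hxh
  have hsl : (0:ℝ) ≤ s.l := by exact_mod_cast hs0
  constructor
  · simp only [spOf]
    refine (fdiv_le _ _ (by omega)).trans ?_
    push_cast [K2]
    apply div_le_div₀ (by positivity) _ (by positivity) _
    · nlinarith [hs.1]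
    · linarith [hx.2]
  · simp only [spOf]
    refine le_trans ?_ (le_cdiv _ _ (by omega))
    push_cast [K2]
    have : (0:ℝ) < s.h := lt_of_lt_of_le hS hs.2
    apply div_le_div₀ (by positivity) _ (by positivity) _
    · nlinarith [hs.2]
    · linarith [hx.1]

theorem has_ccOf {S X : ℝ} (hS : 0 < S) {x s : Iv} (hx : x.has X) (hs : s.has S)
    (hx0 : 0 < x.l) (hs0 : 0 ≤ s.l) : (ccOf x s).has (S * (2 * 4294967296 + X) / (3 * X)) := by
  have hxl : (0:ℝ) < x.l := by exact_mod_cast hx0
  have hX : 0 < X := lt_of_lt_of_le hxl hx.1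
  have hxh : (0:ℝ) < x.h := lt_of_lt_of_le hX hx.2
  have hxh' : 0 < x.h := by exact_mod_cast hxh
  have hsl : (0:ℝ) ≤ s.l := by exact_mod_cast hs0
  have e2 : (2 * 4294967296 + X : ℝ) = 8589934592 + X := by norm_num
  rw [e2]
  have hmono : ∀ a b : ℝ, 0 < a → a ≤ b → (8589934592 + b) / (3 * b) ≤
      (8589934592 + a) / (3 * a) := by
    intro a b ha hab
    have hb : 0 < b := by linarith
    rw [div_le_div_iff₀ (by positivity) (by positivity)]
    nlinarith
  constructor
  · simp only [ccOf]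
    refine (fdiv_le _ _ (by omega)).trans ?_
    push_cast [K2]
    rw [mul_div_assoc, mul_div_assoc]
    apply mul_le_mul hs.1 (hmono _ _ hX hx.2) (by positivity) hS.le
  · simp only [ccOf]
    refine le_trans ?_ (le_cdiv _ _ (by omega))
    push_cast [K2]
    rw [mul_div_assoc, mul_div_assoc]
    apply mul_le_mul hs.2 (hmono _ _ hxl hx.1) (by positivity) (by linarith [hs.2])

/-- 3x3 diagonal dominance -/
theorem dom3 {e00 e01 e02 e10 e11 e12 e20 e21 e22 u v w : ℝ}
    (h0 : |e01| + |e02| < e00) (h1 : |e10| + |e12| < e11) (h2 : |e20| + |e21| < e22)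
    (q0 : e00 * u + e01 * v + e02 * w = 0) (q1 : e10 * u + e11 * v + e12 * w = 0)
    (q2 : e20 * u + e21 * v + e22 * w = 0) : u = 0 ∧ v = 0 ∧ w = 0 := by
  have hb : ∀ (e x M : ℝ), |x| ≤ M → |e * x| ≤ |e| * M := by
    intro e x M hx
    rw [abs_mul]; exact mul_le_mul_of_nonneg_left hx (abs_nonneg _)
  -- the maximum
  have key : ∀ (d o1 o2 x y z : ℝ), |o1| + |o2| < d → d * x + o1 * y + o2 * z = 0 →
      |y| ≤ |x| → |z| ≤ |x| → x = 0 := by
    intro d o1 o2 x y z hd hq hy hz
    by_contra hx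
    have hx' : 0 < |x| := abs_pos.mpr hx
    have hd0 : 0 < d := lt_of_le_of_lt (by positivity) hd
    have h3 : d * |x| = |o1 * y + o2 * z| := by
      have : d * x = -(o1 * y + o2 * z) := by linarith
      rw [← abs_neg (o1 * y + o2 * z), ← this, abs_mul, abs_of_pos hd0]
    have h4 : |o1 * y + o2 * z| ≤ |o1| * |x| + |o2| * |x| :=
      (abs_add_le _ _).trans (add_le_add (hb _ _ _ hy) (hb _ _ _ hz))
    nlinarith
  have hz3 : ∀ x y z : ℝ, x = 0 → |y| ≤ |x| → |z| ≤ |x| → y = 0 ∧ z = 0 := by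
    intro x y z hx hy hz
    subst hx
    rw [abs_zero] at hy hz
    exact ⟨abs_nonpos_iff.mp hy, abs_nonpos_iff.mp hz⟩
  rcases le_total |u| |v| with huv | huv
  · rcases le_total |v| |w| with hvw | hvw
    · have hw : w = 0 := key e22 e20 e21 w u v h2 (by linarith) (huv.trans hvw) hvw
      obtain ⟨a, b⟩ := hz3 w u v hw (huv.trans hvw) hvw
      exact ⟨a, b, hw⟩
    · have hv : v = 0 := key e11 e10 e12 v u w h1 (by linarith) huv hvw
      obtain ⟨a, b⟩ := hz3 v u w hv huv hvw
      exact ⟨a, hv, b⟩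
  · rcases le_total |u| |w| with huw | huw
    · have hw : w = 0 := key e22 e20 e21 w u v h2 (by linarith) huw (huv.trans huw)
      obtain ⟨a, b⟩ := hz3 w u v hw huw (huv.trans huw)
      exact ⟨a, b, hw⟩
    · have hu : u = 0 := key e00 e01 e02 u v w h0 (by linarith) huv huw
      obtain ⟨a, b⟩ := hz3 u v w hu huv huw
      exact ⟨hu, a, b⟩

end NonMorse.BB
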