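import Pool.Agent.Helper342.Alg.BBDefs

set_option linter.style.longLine false

namespace NonMorse.BB
open Ix

def T11 : Tree := .S0 (.negSucc 69119) (.S1 (.negSucc 50687) (.L (.M i1 i2 i0 i3)) (.S3 (.negSucc 50687) (.L (.N i2 i3 i0 i1)) (.S0 (.negSucc 71423) (.S1 (.negSucc 48383) (.L (.M i1 i2 i0 i3)) (.S3 (.negSucc 48383) (.L (.M i0 i2 i1 i3)) (.S0 (.negSucc 72575) (.S1 (.negSucc 47231) (.L (.M i0 i2 i1 i3)) (.S3 (.negSucc 47231) (.L (.M i0 i2 i1 i3)) (.S0 (.negSucc 73151) (.L (.M i1 i2 i0 i3)) (.S1 (.negSucc 46655) (.L (.M i1 i2 i0 i3)) (.L (.M i1 i2 i0 i3)))))) (.S1 (.negSucc 47231) (.L (.M i1 i2 i0 i3)) (.S3 (.negSucc 47231) (.L (.N i2 i3 i0 i1)) (.S0 (.negSucc 71999) (.S1 (.negSucc 46655) (.L (.M i1 i2 i0 i3)) (.S3 (.negSucc 46655) (.L (.N i2 i3 i0 i1)) (.S0 (.negSucc 72287) (.L (.D ⟨(.negSucc 297), (.ofNat 204), (.ofNat 204),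 (.ofNat 204), (.negSucc 40), (.negSucc 151), (.ofNat 204), (.negSucc 151), (.negSucc 40)⟩)) (.L (.D ⟨(.negSucc 303), (.ofNat 208), (.ofNat 208), (.ofNat 208), (.negSucc 40), (.negSucc 155), (.ofNat 208), (.negSucc 155), (.negSucc 40)⟩))))) (.S1 (.negSucc 46655) (.S3 (.negSucc 46655) (.S0 (.negSucc 71711) (.L (.M i1 i2 i0 i3)) (.L (.D ⟨(.negSucc 310), (.ofNat 214), (.ofNat 214), (.ofNat 214), (.negSucc 46), (.negSucc 160), (.ofNat 214), (.negSucc 160), (.negSucc 46)⟩))) (.S0 (.negSucc 71711) (.L (.N i0 i1 i2 i3)) (.L (.N i0 i1 i2 i3)))) (.S3 (.negSucc 46655) (.S0 (.negSucc 71711) (.L (.N i0 i3 i1 i2)) (.L (.N i0 i3 i1 i2))) (.S0 (.negSucc 71711) (.L (.D ⟨(.negSucc 309), (.ofNat 212), (.ofNat 212), (.ofNat 212), (.negSucc 40), (.negSucc 159), (.ofNat 212), (.negSucc 159), (.negSucc 40)⟩)) (.L (.D ⟨(.negSucc 315), (.ofNat 217), (.ofNat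 217), (.ofNat 217), (.negSucc 40), (.negSucc 164), (.ofNat 217), (.negSucc 164), (.negSucc 40)⟩))))))))))) (.S1 (.negSucc 48383) (.S3 (.negSucc 48383) (.S0 (.negSucc 70271) (.L (.M i0 i2 i1 i3)) (.S1 (.negSucc 49535) (.L (.M i0 i2 i1 i3)) (.L (.M i0 i2 i1 i3)))) (.S0 (.negSucc 70271) (.L (.M i1 i2 i0 i3)) (.S1 (.negSucc 49535) (.L (.M i1 i2 i0 i3)) (.S3 (.negSucc 47231) (.S0 (.negSucc 69695) (.L (.M i1 i2 i0 i3)) (.S1 (.negSucc 48959) (.L (.M i1 i2 i0 i3)) (.S3 (.negSucc 47807) (.S0 (.negSucc 69407) (.L (.M i0 i2 i1 i3)) (.S1 (.negSucc 48671) (.L (.M i0 i2 i1 i3)) (.L (.M i1 i2 i0 i3)))) (.S0 (.negSucc 69407) (.L (.M i1 i2 i0 i3)) (.L (.M i1 i3 i0 i2)))))) (.S0 (.negSucc 69695) (.L (.M i1 i3 i0 i2)) (.L (.M i1 i3 i0 i2))))))) (.S3 (.negSucc 48383) (.S0 (.negSucc 70271) (.L (.N i2 i3 i0 i1)) (.S1 (.negSucc 47231) (.S3 (.negSucc 49535)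 (.L .O1) (.S0 (.negSucc 69695) (.L (.N i2 i3 i0 i1)) (.S1 (.negSucc 47807) (.S3 (.negSucc 48959) (.L .O1) (.S0 (.negSucc 69407) (.L (.M i0 i2 i1 i3)) (.S1 (.negSucc 48095) (.L (.M i0 i2 i1 i3)) (.L .O1)))) (.L .O1)))) (.L .O1))) (.S0 (.negSucc 70271) (.S1 (.negSucc 47231) (.S3 (.negSucc 47231) (.S0 (.negSucc 70847) (.S1 (.negSucc 47807) (.L (.M i0 i2 i1 i3)) (.L (.M i1 i2 i0 i3))) (.S1 (.negSucc 47807) (.L (.M i1 i2 i0 i3)) (.S3 (.negSucc 47807) (.L (.N i2 i3 i0 i1)) (.S0 (.negSucc 70559) (.L (.D ⟨(.negSucc 327), (.ofNat 226), (.ofNat 226), (.ofNat 226), (.negSucc 54), (.negSucc 171), (.ofNat 226), (.negSucc 171), (.negSucc 54)⟩)) (.L (.D ⟨(.negSucc 335), (.ofNat 232), (.ofNat 232), (.ofNat 232), (.negSucc 54), (.negSucc 176), (.ofNat 232), (.negSucc 176), (.negSucc 54)⟩)))))) (.S0 (.negSucc 70847) (.S1 (.negSucc 47807) (.L (.M i1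 i2 i0 i3)) (.S3 (.negSucc 46655) (.L (.M i1 i2 i0 i3)) (.S0 (.negSucc 71135) (.L (.N i0 i1 i2 i3)) (.L (.N i0 i1 i2 i3))))) (.S1 (.negSucc 47807) (.S3 (.negSucc 46655) (.L (.M i1 i2 i0 i3)) (.L (.N i0 i1 i2 i3))) (.S3 (.negSucc 46655) (.S0 (.negSucc 70559) (.L (.D ⟨(.negSucc 328), (.ofNat 230), (.ofNat 224), (.ofNat 230), (.negSucc 58), (.negSucc 172), (.ofNat 224), (.negSucc 172), (.negSucc 42)⟩)) (.L (.D ⟨(.negSucc 336), (.ofNat 235), (.ofNat 229), (.ofNat 235), (.negSucc 58), (.negSucc 177), (.ofNat 229), (.negSucc 177), (.negSucc 42)⟩))) (.S0 (.negSucc 70559) (.L (.N i0 i1 i2 i3)) (.L (.N i0 i1 i2 i3))))))) (.S3 (.negSucc 47231) (.S0 (.negSucc 70847) (.S1 (.negSucc 46655) (.S3 (.negSucc 47807) (.L .O1) (.L (.N i2 i3 i0 i1))) (.L .O1)) (.S1 (.negSucc 46655) (.S3 (.negSucc 47807) (.L .O1) (.S0 (.negSucc 70559) (.L (.D ⟨(.negSucc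 328), (.ofNat 224), (.ofNat 230), (.ofNat 224), (.negSucc 42), (.negSucc 172), (.ofNat 230), (.negSucc 172), (.negSucc 58)⟩)) (.L (.D ⟨(.negSucc 336), (.ofNat 229), (.ofNat 235), (.ofNat 229), (.negSucc 42), (.negSucc 177), (.ofNat 235), (.negSucc 177), (.negSucc 58)⟩)))) (.L .O1))) (.S0 (.negSucc 70847) (.S1 (.negSucc 46655) (.S3 (.negSucc 46655) (.S0 (.negSucc 71135) (.L (.D ⟨(.negSucc 317), (.ofNat 218), (.ofNat 218), (.ofNat 218), (.negSucc 46), (.negSucc 165), (.ofNat 218), (.negSucc 165), (.negSucc 46)⟩)) (.L (.D ⟨(.negSucc 323), (.ofNat 223), (.ofNat 223), (.ofNat 223), (.negSucc 47), (.negSucc 169), (.ofNat 223), (.negSucc 169), (.negSucc 47)⟩))) (.S0 (.negSucc 71135) (.L (.N i0 i1 i2 i3)) (.L (.N i0 i1 i2 i3)))) (.S3 (.negSucc 46655) (.S0 (.negSucc 71135) (.L (.N i0 i3 i1 i2)) (.L (.N i0 i3 i1 i2))) (.L (.N i0 i2 i1 i3))))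 (.S1 (.negSucc 46655) (.S3 (.negSucc 46655) (.S0 (.negSucc 70559) (.L (.D ⟨(.negSucc 330), (.ofNat 228), (.ofNat 228), (.ofNat 228), (.negSucc 47), (.negSucc 174), (.ofNat 228), (.negSucc 174), (.negSucc 47)⟩)) (.L (.D ⟨(.negSucc 337), (.ofNat 233), (.ofNat 233), (.ofNat 233), (.negSucc 47), (.negSucc 179), (.ofNat 233), (.negSucc 179), (.negSucc 47)⟩))) (.L (.N i0 i2 i1 i3))) (.L (.N i0 i2 i1 i3)))))) (.S1 (.negSucc 47231) (.S3 (.negSucc 47231) (.S0 (.negSucc 69695) (.S1 (.negSucc 47807) (.S3 (.negSucc 47807) (.S0 (.negSucc 69983) (.L (.M i0 i2 i1 i3)) (.S1 (.negSucc 48095) (.L (.M i0 i2 i1 i3)) (.L (.D ⟨(.negSucc 350), (.ofNat 241), (.ofNat 243), (.ofNat 241), (.negSucc 59), (.negSucc 184), (.ofNat 243), (.negSucc 184), (.negSucc 64)⟩)))) (.S0 (.negSucc 69983) (.L (.D ⟨(.negSucc 341), (.ofNat 240), (.ofNat 233), (.ofNat 240), (.negSucc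 66), (.negSucc 180), (.ofNat 233), (.negSucc 180), (.negSucc 50)⟩)) (.L (.D ⟨(.negSucc 350), (.ofNat 246), (.ofNat 238), (.ofNat 246), (.negSucc 67), (.negSucc 185), (.ofNat 238), (.negSucc 185), (.negSucc 50)⟩)))) (.S3 (.negSucc 47807) (.S0 (.negSucc 69983) (.L (.D ⟨(.negSucc 341), (.ofNat 233), (.ofNat 240), (.ofNat 233), (.negSucc 50), (.negSucc 180), (.ofNat 240), (.negSucc 180), (.negSucc 66)⟩)) (.L (.D ⟨(.negSucc 350), (.ofNat 238), (.ofNat 246), (.ofNat 238), (.negSucc 50), (.negSucc 185), (.ofNat 246), (.negSucc 185), (.negSucc 67)⟩))) (.S0 (.negSucc 69983) (.L (.D ⟨(.negSucc 343), (.ofNat 237), (.ofNat 237), (.ofNat 237), (.negSucc 54), (.negSucc 181), (.ofNat 237), (.negSucc 181), (.negSucc 54)⟩)) (.L (.D ⟨(.negSucc 351), (.ofNat 243), (.ofNat 243), (.ofNat 243), (.negSucc 55), (.negSucc 186), (.ofNat 243), (.negSucc 186),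 (.negSucc 55)⟩))))) (.S1 (.negSucc 47807) (.S3 (.negSucc 47807) (.S0 (.negSucc 69407) (.L (.D ⟨(.negSucc 359), (.ofNat 249), (.ofNat 249), (.ofNat 249), (.negSucc 64), (.negSucc 190), (.ofNat 249), (.negSucc 190), (.negSucc 64)⟩)) (.L (.D ⟨(.negSucc 368), (.ofNat 255), (.ofNat 255), (.ofNat 255), (.negSucc 64), (.negSucc 195), (.ofNat 255), (.negSucc 195), (.negSucc 64)⟩))) (.S0 (.negSucc 69407) (.L (.D ⟨(.negSucc 358), (.ofNat 252), (.ofNat 244), (.ofNat 252), (.negSucc 68), (.negSucc 190), (.ofNat 244), (.negSucc 190), (.negSucc 50)⟩)) (.L (.D ⟨(.negSucc 367), (.ofNat 258), (.ofNat 250), (.ofNat 258), (.negSucc 69), (.negSucc 196), (.ofNat 250), (.negSucc 196), (.negSucc 51)⟩)))) (.S3 (.negSucc 47807) (.S0 (.negSucc 69407) (.L (.D ⟨(.negSucc 358), (.ofNat 244), (.ofNat 252), (.ofNat 244), (.negSucc 50), (.negSucc 190), (.ofNat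 252), (.negSucc 190), (.negSucc 68)⟩)) (.L (.D ⟨(.negSucc 367), (.ofNat 250), (.ofNat 258), (.ofNat 250), (.negSucc 51), (.negSucc 196), (.ofNat 258), (.negSucc 196), (.negSucc 69)⟩))) (.S0 (.negSucc 69407) (.L (.D ⟨(.negSucc 359), (.ofNat 249), (.ofNat 249), (.ofNat 249), (.negSucc 55), (.negSucc 191), (.ofNat 249), (.negSucc 191), (.negSucc 55)⟩)) (.L (.D ⟨(.negSucc 367), (.ofNat 255), (.ofNat 255), (.ofNat 255), (.negSucc 56), (.negSucc 197), (.ofNat 255), (.negSucc 197), (.negSucc 56)⟩)))))) (.S0 (.negSucc 69695) (.S1 (.negSucc 47807) (.S3 (.negSucc 46655) (.S0 (.negSucc 69983) (.L (.M i1 i3 i0 i2)) (.L (.M i1 i3 i0 i2))) (.L (.N i0 i1 i2 i3))) (.S3 (.negSucc 46655) (.S0 (.negSucc 69983) (.L (.D ⟨(.negSucc 343), (.ofNat 241), (.ofNat 234), (.ofNat 241), (.negSucc 59), (.negSucc 182), (.ofNat 234), (.negSucc 182), (.negSucc 42)⟩))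 (.L (.M i2 i3 i0 i1))) (.L (.N i0 i2 i1 i3)))) (.S1 (.negSucc 47807) (.L (.M i2 i3 i0 i1)) (.L (.N i0 i2 i1 i3))))) (.S3 (.negSucc 47231) (.S0 (.negSucc 69695) (.S1 (.negSucc 46655) (.S3 (.negSucc 47807) (.L .O1) (.S0 (.negSucc 69983) (.L (.D ⟨(.negSucc 343), (.ofNat 234), (.ofNat 241), (.ofNat 234), (.negSucc 42), (.negSucc 182), (.ofNat 241), (.negSucc 182), (.negSucc 59)⟩)) (.L (.N i1 i2 i0 i3)))) (.L .O1)) (.S1 (.negSucc 46655) (.L (.N i1 i2 i0 i3)) (.L .O1))) (.S0 (.negSucc 69695) (.S1 (.negSucc 46655) (.L (.N i0 i2 i1 i3)) (.L (.N i0 i2 i1 i3))) (.L (.N i0 i2 i1 i3))))))))))) (.S1 (.negSucc 50687) (.S3 (.negSucc 50687) (.S0 (.negSucc 66815) (.L (.M i0 i2 i1 i3)) (.S1 (.negSucc 52991) (.L (.M i0 i2 i1 i3)) (.S3 (.negSucc 52991) (.L (.M i0 i2 i1 i3)) (.S0 (.negSucc 65663) (.L (.M i0 i2 i1 i3)) (.S1 (.negSucc 51839) (.L (.M i0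 i2 i1 i3)) (.S3 (.negSucc 51839) (.L (.M i0 i1 i2 i3)) (.S0 (.negSucc 65087) (.L (.M i0 i2 i1 i3)) (.S1 (.negSucc 51263) (.L (.M i0 i1 i2 i3)) (.L (.M i0 i1 i2 i3)))))))))) (.S0 (.negSucc 66815) (.S1 (.negSucc 52991) (.L (.M i0 i2 i1 i3)) (.S3 (.negSucc 48383) (.S0 (.negSucc 67967) (.L (.M i0 i2 i1 i3)) (.L (.M i0 i2 i1 i3))) (.S0 (.negSucc 67967) (.L (.M i0 i3 i1 i2)) (.S1 (.negSucc 51839) (.L (.M i0 i3 i1 i2)) (.L (.M i0 i3 i1 i2)))))) (.S1 (.negSucc 52991) (.S3 (.negSucc 48383) (.L (.M i1 i2 i0 i3)) (.L (.M i0 i3 i1 i2))) (.S3 (.negSucc 48383) (.S0 (.negSucc 65663) (.S1 (.negSucc 51839) (.L (.M i0 i2 i1 i3)) (.S3 (.negSucc 49535) (.S0 (.negSucc 66239) (.L (.M i0 i2 i1 i3)) (.L (.M i0 i2 i1 i3))) (.L (.M i0 i3 i1 i2)))) (.S1 (.negSucc 51839) (.L (.M i0 i3 i1 i2)) (.S3 (.negSucc 49535) (.S0 (.negSucc 65087) (.L (.M i0 i3 i1 i2))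 (.L (.M i0 i3 i1 i2))) (.L (.M i2 i3 i0 i1))))) (.S0 (.negSucc 65663) (.S1 (.negSucc 51839) (.L (.M i0 i3 i1 i2)) (.L (.M i1 i3 i0 i2))) (.L (.M i2 i3 i0 i1))))))) (.S3 (.negSucc 50687) (.S0 (.negSucc 66815) (.S1 (.negSucc 48383) (.S3 (.negSucc 52991) (.L .O1) (.S0 (.negSucc 67967) (.L (.M i0 i2 i1 i3)) (.L (.M i0 i2 i1 i3)))) (.L .O1)) (.S1 (.negSucc 48383) (.S3 (.negSucc 52991) (.L .O1) (.S0 (.negSucc 65663) (.S1 (.negSucc 49535) (.S3 (.negSucc 51839) (.L .O1) (.S0 (.negSucc 66239) (.L (.M i0 i1 i2 i3)) (.L (.M i0 i1 i2 i3)))) (.L .O1)) (.S1 (.negSucc 49535) (.S3 (.negSucc 51839) (.L .O1) (.S0 (.negSucc 65087) (.L (.M i0 i1 i2 i3)) (.L (.M i0 i1 i2 i3)))) (.L .O1)))) (.L .O1))) (.S0 (.negSucc 66815) (.S1 (.negSucc 48383) (.S3 (.negSucc 48383) (.S0 (.negSucc 67967) (.S1 (.negSucc 49535) (.L (.M i0 i2 i1 i3)) (.S3 (.negSucc 49535)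 (.L (.M i0 i2 i1 i3)) (.S0 (.negSucc 68543) (.S1 (.negSucc 48959) (.L (.M i0 i2 i1 i3)) (.S3 (.negSucc 48959) (.L (.M i0 i2 i1 i3)) (.S0 (.negSucc 68831) (.L (.M i0 i2 i1 i3)) (.S1 (.negSucc 48671) (.L (.M i0 i2 i1 i3)) (.L (.D ⟨(.negSucc 391), (.ofNat 269), (.ofNat 272), (.ofNat 269), (.negSucc 72), (.negSucc 207), (.ofNat 272), (.negSucc 207), (.negSucc 78)⟩)))))) (.S1 (.negSucc 48959) (.S3 (.negSucc 48959) (.L (.M i0 i2 i1 i3)) (.S0 (.negSucc 68255) (.L (.M i0 i2 i1 i3)) (.L (.M i0 i3 i1 i2)))) (.S3 (.negSucc 48959) (.S0 (.negSucc 68255) (.L (.M i0 i1 i2 i3)) (.L (.M i0 i1 i2 i3))) (.S0 (.negSucc 68255) (.S1 (.negSucc 48671) (.L (.D ⟨(.negSucc 404), (.ofNat 280), (.ofNat 278), (.ofNat 280), (.negSucc 81), (.negSucc 214), (.ofNat 278), (.negSucc 214), (.negSucc 77)⟩)) (.L (.D ⟨(.negSucc 403), (.ofNat 277), (.ofNat 279), (.ofNat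 277), (.negSucc 74), (.negSucc 214), (.ofNat 279), (.negSucc 214), (.negSucc 79)⟩))) (.S1 (.negSucc 48671) (.L (.D ⟨(.negSucc 416), (.ofNat 289), (.ofNat 286), (.ofNat 289), (.negSucc 83), (.negSucc 221), (.ofNat 286), (.negSucc 221), (.negSucc 78)⟩)) (.L (.D ⟨(.negSucc 415), (.ofNat 285), (.ofNat 287), (.ofNat 285), (.negSucc 75), (.negSucc 221), (.ofNat 287), (.negSucc 221), (.negSucc 81)⟩))))))))) (.S1 (.negSucc 49535) (.S3 (.negSucc 49535) (.L (.M i0 i2 i1 i3)) (.S0 (.negSucc 67391) (.S1 (.negSucc 50111) (.L (.M i0 i2 i1 i3)) (.S3 (.negSucc 48959) (.L (.M i0 i2 i1 i3)) (.L (.M i0 i3 i1 i2)))) (.S1 (.negSucc 50111) (.L (.M i0 i3 i1 i2)) (.S3 (.negSucc 48959) (.L (.M i0 i3 i1 i2)) (.L (.M i0 i3 i1 i2)))))) (.S3 (.negSucc 49535) (.S0 (.negSucc 67391) (.S1 (.negSucc 48959) (.L (.M i0 i1 i2 i3)) (.L .O1)) (.S1 (.negSucc 48959) (.S3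 (.negSucc 50111) (.L .O1) (.L (.M i0 i1 i2 i3))) (.L .O1))) (.S0 (.negSucc 67391) (.S1 (.negSucc 48959) (.S3 (.negSucc 48959) (.S0 (.negSucc 67679) (.L (.M i0 i2 i1 i3)) (.S1 (.negSucc 49247) (.L (.M i0 i1 i2 i3)) (.L (.M i0 i1 i2 i3)))) (.S0 (.negSucc 67679) (.L (.M i0 i3 i1 i2)) (.L (.M i0 i3 i1 i2)))) (.S3 (.negSucc 48959) (.S0 (.negSucc 67679) (.L (.M i0 i1 i2 i3)) (.L (.M i0 i1 i2 i3))) (.S0 (.negSucc 67679) (.S1 (.negSucc 48671) (.L (.D ⟨(.negSucc 429), (.ofNat 297), (.ofNat 294), (.ofNat 297), (.negSucc 85), (.negSucc 228), (.ofNat 294), (.negSucc 228), (.negSucc 80)⟩)) (.L (.N i1 i2 i0 i3))) (.S1 (.negSucc 48671) (.L (.N i1 i2 i0 i3)) (.L (.N i1 i2 i0 i3)))))) (.S1 (.negSucc 48959) (.S3 (.negSucc 48959) (.S0 (.negSucc 67103) (.S1 (.negSucc 49247) (.L (.M i0 i1 i2 i3)) (.L (.M i0 i1 i2 i3))) (.S1 (.negSucc 49247) (.L (.M i0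 i1 i2 i3)) (.L (.M i0 i1 i2 i3)))) (.L (.M i2 i3 i0 i1))) (.L (.N i1 i2 i0 i3))))))) (.S0 (.negSucc 67967) (.S1 (.negSucc 49535) (.S3 (.negSucc 47231) (.S0 (.negSucc 68543) (.L (.M i0 i3 i1 i2)) (.L (.M i0 i3 i1 i2))) (.L (.M i0 i3 i1 i2))) (.S3 (.negSucc 47231) (.S0 (.negSucc 68543) (.S1 (.negSucc 48959) (.S3 (.negSucc 47807) (.L (.M i0 i3 i1 i2)) (.L (.M i0 i3 i1 i2))) (.S3 (.negSucc 47807) (.S0 (.negSucc 68831) (.S1 (.negSucc 48671) (.L (.M i0 i3 i1 i2)) (.L (.D ⟨(.negSucc 379), (.ofNat 265), (.ofNat 259), (.ofNat 265), (.negSucc 76), (.negSucc 201), (.ofNat 259), (.negSucc 201), (.negSucc 62)⟩))) (.S1 (.negSucc 48671) (.L (.M i0 i3 i1 i2)) (.L (.D ⟨(.negSucc 389), (.ofNat 272), (.ofNat 266), (.ofNat 272), (.negSucc 77), (.negSucc 207), (.ofNat 266), (.negSucc 207), (.negSucc 63)⟩)))) (.S0 (.negSucc 68831) (.L (.D ⟨(.negSucc 376),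 (.ofNat 269), (.ofNat 251), (.ofNat 269), (.negSucc 83), (.negSucc 200), (.ofNat 251), (.negSucc 200), (.negSucc 46)⟩)) (.L (.M i2 i3 i0 i1))))) (.S1 (.negSucc 48959) (.S3 (.negSucc 47807) (.L (.M i0 i3 i1 i2)) (.L (.M i0 i3 i1 i2))) (.S3 (.negSucc 47807) (.S0 (.negSucc 68255) (.S1 (.negSucc 48671) (.L (.M i0 i3 i1 i2)) (.L (.D ⟨(.negSucc 400), (.ofNat 280), (.ofNat 273), (.ofNat 280), (.negSucc 78), (.negSucc 213), (.ofNat 273), (.negSucc 213), (.negSucc 63)⟩))) (.L (.M i2 i3 i0 i1))) (.L (.M i2 i3 i0 i1))))) (.L (.M i2 i3 i0 i1)))) (.S1 (.negSucc 49535) (.S3 (.negSucc 47231) (.S0 (.negSucc 67391) (.L (.M i0 i3 i1 i2)) (.L (.M i0 i3 i1 i2))) (.L (.M i1 i3 i0 i2))) (.S3 (.negSucc 47231) (.S0 (.negSucc 67391) (.L (.M i2 i3 i0 i1)) (.L (.M i2 i3 i0 i1))) (.L (.M i2 i3 i0 i1)))))) (.S3 (.negSucc 48383) (.S0 (.negSucc 67967) (.S1 (.negSucc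 47231) (.S3 (.negSucc 49535) (.L .O1) (.S0 (.negSucc 68543) (.S1 (.negSucc 47807) (.S3 (.negSucc 48959) (.L .O1) (.S0 (.negSucc 68831) (.S1 (.negSucc 48095) (.L (.D ⟨(.negSucc 379), (.ofNat 259), (.ofNat 266), (.ofNat 259), (.negSucc 64), (.negSucc 201), (.ofNat 266), (.negSucc 201), (.negSucc 78)⟩)) (.L .O1)) (.S1 (.negSucc 48095) (.L (.D ⟨(.negSucc 390), (.ofNat 266), (.ofNat 273), (.ofNat 266), (.negSucc 65), (.negSucc 207), (.ofNat 273), (.negSucc 207), (.negSucc 80)⟩)) (.L .O1)))) (.L .O1)) (.S1 (.negSucc 47807) (.S3 (.negSucc 48959) (.L .O1) (.S0 (.negSucc 68255) (.S1 (.negSucc 48095) (.L (.D ⟨(.negSucc 401), (.ofNat 273), (.ofNat 281), (.ofNat 273), (.negSucc 66), (.negSucc 213), (.ofNat 281), (.negSucc 213), (.negSucc 81)⟩)) (.L .O1)) (.L (.N i1 i2 i0 i3)))) (.L .O1)))) (.L .O1)) (.S1 (.negSucc 47231) (.S3 (.negSucc 49535)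 (.L .O1) (.S0 (.negSucc 67391) (.L (.N i1 i2 i0 i3)) (.L (.N i1 i2 i0 i3)))) (.L .O1))) (.S0 (.negSucc 67967) (.S1 (.negSucc 47231) (.S3 (.negSucc 47231) (.S0 (.negSucc 68543) (.S1 (.negSucc 47807) (.S3 (.negSucc 47807) (.S0 (.negSucc 68831) (.L (.D ⟨(.negSucc 378), (.ofNat 262), (.ofNat 262), (.ofNat 262), (.negSucc 65), (.negSucc 201), (.ofNat 262), (.negSucc 201), (.negSucc 65)⟩)) (.L (.D ⟨(.negSucc 388), (.ofNat 268), (.ofNat 268), (.ofNat 268), (.negSucc 66), (.negSucc 207), (.ofNat 268), (.negSucc 207), (.negSucc 66)⟩))) (.L (.M i2 i3 i0 i1))) (.S3 (.negSucc 47807) (.L (.N i1 i2 i0 i3)) (.L (.N i0 i2 i1 i3)))) (.S1 (.negSucc 47807) (.S3 (.negSucc 47807) (.S0 (.negSucc 68255) (.L (.D ⟨(.negSucc 398), (.ofNat 275), (.ofNat 275), (.ofNat 275), (.negSucc 67), (.negSucc 214), (.ofNat 275), (.negSucc 214), (.negSucc 67)⟩)) (.L (.N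 i1 i2 i0 i3))) (.L (.N i0 i2 i1 i3))) (.L (.N i0 i2 i1 i3)))) (.L (.M i2 i3 i0 i1))) (.L (.N i1 i2 i0 i3))) (.S1 (.negSucc 47231) (.L (.N i1 i2 i0 i3)) (.L (.N i0 i2 i1 i3)))))) (.S1 (.negSucc 48383) (.S3 (.negSucc 48383) (.S0 (.negSucc 65663) (.S1 (.negSucc 49535) (.S3 (.negSucc 49535) (.S0 (.negSucc 66239) (.S1 (.negSucc 50111) (.L (.M i0 i2 i1 i3)) (.S3 (.negSucc 50111) (.L (.M i0 i1 i2 i3)) (.S0 (.negSucc 66527) (.L (.M i0 i1 i2 i3)) (.L (.M i0 i1 i2 i3))))) (.S1 (.negSucc 50111) (.S3 (.negSucc 50111) (.L (.M i0 i1 i2 i3)) (.L (.M i0 i3 i1 i2))) (.S3 (.negSucc 50111) (.L (.M i0 i1 i2 i3)) (.S0 (.negSucc 65951) (.L (.M i0 i1 i2 i3)) (.L (.M i0 i1 i2 i3)))))) (.S0 (.negSucc 66239) (.S1 (.negSucc 50111) (.L (.M i0 i3 i1 i2)) (.S3 (.negSucc 48959) (.L (.M i0 i3 i1 i2)) (.L (.M i0 i3 i1 i2)))) (.S1 (.negSucc 50111) (.L (.M i0 i3 i1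 i2)) (.L (.M i2 i3 i0 i1))))) (.S3 (.negSucc 49535) (.S0 (.negSucc 66239) (.S1 (.negSucc 48959) (.S3 (.negSucc 50111) (.L .O1) (.L (.M i0 i1 i2 i3))) (.L .O1)) (.S1 (.negSucc 48959) (.L (.N i1 i2 i0 i3)) (.L .O1))) (.S0 (.negSucc 66239) (.S1 (.negSucc 48959) (.S3 (.negSucc 48959) (.S0 (.negSucc 66527) (.S1 (.negSucc 49247) (.L (.M i0 i1 i2 i3)) (.L (.M i0 i1 i2 i3))) (.L (.N i1 i2 i0 i3))) (.L (.N i1 i2 i0 i3))) (.L (.N i1 i2 i0 i3))) (.L (.N i1 i2 i0 i3))))) (.S1 (.negSucc 49535) (.S3 (.negSucc 49535) (.S0 (.negSucc 65087) (.S1 (.negSucc 50111) (.S3 (.negSucc 50111) (.L (.M i0 i1 i2 i3)) (.L (.M i0 i3 i1 i2))) (.L (.N i1 i2 i0 i3))) (.S1 (.negSucc 50111) (.S3 (.negSucc 50111) (.L (.M i0 i1 i2 i3)) (.L (.M i0 i3 i1 i2))) (.L (.N i1 i2 i0 i3)))) (.L (.M i2 i3 i0 i1))) (.L (.N i1 i2 i0 i3)))) (.L (.M i2 i3 i0 i1))) (.S3 (.negSucc 48383)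 (.L (.N i1 i2 i0 i3)) (.L (.N i0 i2 i1 i3)))))))

def B11 : Box := ⟨⟨(.negSucc 73727), (.negSucc 64511)⟩, ⟨(.negSucc 55295), (.negSucc 46079)⟩, ⟨(.negSucc 55295), (.negSucc 46079)⟩⟩

theorem ok11 : check T11 B11 = true := by decide +kernel

end NonMorse.BB
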