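import Mathlib

open Set Filter Topology

namespace NonMorse

lemma dichotomy (F h : ℝ × ℝ → ℝ) (p : ℝ × ℝ) (hF : AnalyticAt ℝ F p) (hh : AnalyticAt ℝ h p)
    (hF0 : F p = 0) (hd : fderiv ℝ F p (0, 1) ≠ 0) :
    (∀ᶠ q in 𝓝 p, F q = 0 → h q = 0) ∨ (∀ᶠ q in 𝓝 p, F q = 0 → q ≠ p → h q ≠ 0) := by
  set D := fderiv ℝ F p with hD
  set c : ℝ := D (0, 1) with hc
  have hDe : ∀ v : ℝ × ℝ, D v = D (v.1, 0) + v.2 * c := by
    intro v
    have : v = (v.1, 0) + v.2 • ((0 : ℝ), (1 : ℝ)) := by ext <;> simp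
    conv_lhs => rw [this]
    rw [map_add, map_smul, smul_eq_mul]
  let f1 : (ℝ × ℝ) →L[ℝ] (ℝ × ℝ) := (ContinuousLinearMap.fst ℝ ℝ ℝ).prod D
  let f2 : (ℝ × ℝ) →L[ℝ] (ℝ × ℝ) := (ContinuousLinearMap.fst ℝ ℝ ℝ).prod
    (c⁻¹ • (ContinuousLinearMap.snd ℝ ℝ ℝ - D.comp ((ContinuousLinearMap.fst ℝ ℝ ℝ).prod 0)))
  have h1 : Function.LeftInverse f2 f1 := by
    intro v
    have : D v - D (v.1, 0) = v.2 * c := by rw [hDe v]; ring
    ext
    · simp [f1, f2]
    · simp only [f1, f2, ContinuousLinearMap.prod_apply, ContinuousLinearMap.coe_fst',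
        ContinuousLinearMap.smul_apply, ContinuousLinearMap.sub_apply,
        ContinuousLinearMap.coe_snd', ContinuousLinearMap.comp_apply,
        ContinuousLinearMap.zero_apply, smul_eq_mul]
      rw [this]
      field_simp
  have h2 : Function.RightInverse f2 f1 := by
    intro v
    ext
    · simp [f1, f2]
    · simp only [f1, f2, ContinuousLinearMap.prod_apply, ContinuousLinearMap.coe_fst',
        ContinuousLinearMap.smul_apply, ContinuousLinearMap.sub_apply,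
        ContinuousLinearMap.coe_snd', ContinuousLinearMap.comp_apply,
        ContinuousLinearMap.zero_apply, smul_eq_mul]
      rw [hDe]
      field_simp
      ring
  let e : (ℝ × ℝ) ≃L[ℝ] (ℝ × ℝ) := ContinuousLinearEquiv.equivOfInverse f1 f2 h1 h2
  set Φ : ℝ × ℝ → ℝ × ℝ := fun q => (q.1, F q) with hΦ
  have hΦa : AnalyticAt ℝ Φ p := analyticAt_fst.prod hF
  have hΦd' : HasFDerivAt Φ f1 p := hasFDerivAt_fst.prodMk hF.differentiableAt.hasFDerivAt
  have hΦd : fderiv ℝ Φ p = (e : (ℝ × ℝ) →L[ℝ] (ℝ × ℝ)) := by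
    rw [hΦd'.fderiv]
    ext <;> rfl
  have hs : HasStrictFDerivAt Φ (e : (ℝ × ℝ) →L[ℝ] (ℝ × ℝ)) p := by
    rw [← hΦd]
    exact hΦa.hasStrictFDerivAt
  set Ψ := hs.localInverse Φ e p with hΨ
  have hΨa : AnalyticAt ℝ Ψ (Φ p) := by
    have := (hs.toOpenPartialHomeomorph Φ).analyticAt_symm' (a := p) (i := e)
      hs.mem_toOpenPartialHomeomorph_source (by simpa using hΦa) (by simpa using hΦd)
    exact this
  have hleft : ∀ᶠ q in 𝓝 p, Ψ (Φ q) = q := hs.eventually_left_inverse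
  have hΦp : Φ p = (p.1, 0) := by simp [hΦ, hF0]
  have hΨp : Ψ (Φ p) = p := hleft.self_of_nhds
  have hua : AnalyticAt ℝ (fun s : ℝ => h (Ψ (s, 0))) p.1 := by
    have ha : AnalyticAt ℝ (fun s : ℝ => (s, (0 : ℝ))) p.1 := analyticAt_id.prod analyticAt_const
    have hb : AnalyticAt ℝ (fun s : ℝ => Ψ (s, 0)) p.1 := by
      have : AnalyticAt ℝ Ψ ((fun s : ℝ => (s, (0 : ℝ))) p.1) := by
        show AnalyticAt ℝ Ψ (p.1, 0)
        rw [← hΦp]
        exact hΨa
      exact AnalyticAt.comp (g := Ψ) (f := fun s : ℝ => (s, (0 : ℝ))) this ha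
    have hh' : AnalyticAt ℝ h ((fun s : ℝ => Ψ (s, 0)) p.1) := by
      show AnalyticAt ℝ h (Ψ (p.1, 0))
      rw [← hΦp, hΨp]
      exact hh
    exact AnalyticAt.comp (g := h) (f := fun s : ℝ => Ψ (s, 0)) hh' hb
  have hfst : Tendsto (fun q : ℝ × ℝ => q.1) (𝓝 p) (𝓝 p.1) := continuous_fst.continuousAt
  rcases hua.eventually_eq_zero_or_eventually_ne_zero with H | H
  · left
    filter_upwards [hleft, hfst.eventually H] with q hq1 hq2 hq3
    have : Φ q = (q.1, 0) := by simp [hΦ, hq3]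
    rw [this] at hq1
    rw [hq1] at hq2
    exact hq2
  · right
    rw [eventually_nhdsWithin_iff] at H
    filter_upwards [hleft, hfst.eventually H] with q hq1 hq2 hq3 hq4
    have h5 : Φ q = (q.1, 0) := by simp [hΦ, hq3]
    have h6 : q.1 ≠ p.1 := by
      intro h7
      apply hq4
      rw [← hq1, h5, h7, ← hΦp, hΨp]
    have h8 := hq2 h6
    rw [h5] at hq1
    rwa [hq1] at h8

lemma exists_graph (F : ℝ × ℝ → ℝ) (hF : AnalyticOnNhd ℝ F univ)
    {a b l u : ℝ} (hlu : l ≤ u)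
    (hlo : ∀ x ∈ Icc a b, F (x, l) < 0) (hup : ∀ x ∈ Icc a b, 0 < F (x, u))
    (hder : ∀ x ∈ Icc a b, ∀ y ∈ Icc l u, 0 < fderiv ℝ F (x, y) (0, 1)) :
    ∃ φ : ℝ → ℝ, ContinuousOn φ (Icc a b) ∧ ∀ x ∈ Icc a b, φ x ∈ Icc l u ∧ F (x, φ x) = 0 ∧
      ∀ y ∈ Icc l u, F (x, y) = 0 → y = φ x := by
  have hFc : Continuous F := by
    rw [continuous_iff_continuousAt]
    exact fun x => (hF x (mem_univ x)).continuousAt
  have hmono : ∀ x ∈ Icc a b, StrictMonoOn (fun y => F (x, y)) (Icc l u) := by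
    intro x hx
    apply strictMonoOn_of_deriv_pos (convex_Icc l u)
    · exact (hFc.comp (by fun_prop)).continuousOn
    · intro y hy
      have hy' : y ∈ Icc l u := interior_subset hy
      have h1 : HasFDerivAt F (fderiv ℝ F (x, y)) (x, y) :=
        (hF (x, y) (mem_univ _)).differentiableAt.hasFDerivAt
      have h2 : HasDerivAt (fun y : ℝ => (x, y)) ((0 : ℝ), (1 : ℝ)) y :=
        (hasDerivAt_const y x).prodMk (hasDerivAt_id y)
      have h3 : HasDerivAt (fun y => F (x, y)) (fderiv ℝ F (x, y) (0, 1)) y :=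
        h1.comp_hasDerivAt y h2
      rw [h3.deriv]
      exact hder x hx y hy'
  have hex : ∀ x ∈ Icc a b, ∃ y ∈ Icc l u, F (x, y) = 0 := by
    intro x hx
    have h1 : ContinuousOn (fun y => F (x, y)) (Icc l u) :=
      (hFc.comp (by fun_prop)).continuousOn
    have h2 := intermediate_value_Icc hlu h1
    obtain ⟨y, hy, hy0⟩ := h2 ⟨(hlo x hx).le, (hup x hx).le⟩
    exact ⟨y, hy, hy0⟩
  have hex' : ∀ x, ∃ y, x ∈ Icc a b → y ∈ Icc l u ∧ F (x, y) = 0 := by
    intro x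
    by_cases hx : x ∈ Icc a b
    · obtain ⟨y, hy, hy0⟩ := hex x hx
      exact ⟨y, fun _ => ⟨hy, hy0⟩⟩
    · exact ⟨0, fun h => absurd h hx⟩
  choose φ hφ using hex'
  refine ⟨φ, ?_, fun x hx => ⟨(hφ x hx).1, (hφ x hx).2, fun y hy hy0 => ?_⟩⟩
  · rw [Metric.continuousOn_iff]
    intro x hx ε hε
    obtain ⟨hy, hy0⟩ := hφ x hx
    have hyl : l < φ x := by
      rcases lt_or_eq_of_le hy.1 with h | h
      · exact h
      · have := hlo x hx
        rw [h, hy0] at this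
        exact absurd this (lt_irrefl _)
    have hyu : φ x < u := by
      rcases lt_or_eq_of_le hy.2 with h | h
      · exact h
      · have := hup x hx
        rw [← h, hy0] at this
        exact absurd this (lt_irrefl _)
    obtain ⟨δ, hδ0, hδ1, hδ2, hδ3⟩ : ∃ δ > 0, δ < ε ∧ l ≤ φ x - δ ∧ φ x + δ ≤ u := by
      refine ⟨min (ε / 2) (min (φ x - l) (u - φ x)), ?_, ?_, ?_, ?_⟩
      · exact lt_min (by linarith) (lt_min (by linarith) (by linarith))
      · exact lt_of_le_of_lt (min_le_left _ _) (by linarith)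
      · have : min (ε / 2) (min (φ x - l) (u - φ x)) ≤ φ x - l :=
          (min_le_right _ _).trans (min_le_left _ _)
        linarith
      · have : min (ε / 2) (min (φ x - l) (u - φ x)) ≤ u - φ x :=
          (min_le_right _ _).trans (min_le_right _ _)
        linarith
    have hm1 : φ x - δ ∈ Icc l u := ⟨hδ2, by linarith⟩
    have hm2 : φ x + δ ∈ Icc l u := ⟨by linarith, hδ3⟩
    have hneg : F (x, φ x - δ) < 0 := by
      have : F (x, φ x - δ) < F (x, φ x) := hmono x hx hm1 hy (by linarith)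
      rwa [hy0] at this
    have hpos : 0 < F (x, φ x + δ) := by
      have : F (x, φ x) < F (x, φ x + δ) := hmono x hx hy hm2 (by linarith)
      rwa [hy0] at this
    have e1 : ∀ᶠ x' in 𝓝 x, F (x', φ x - δ) < 0 := by
      have hc : ContinuousAt (fun x' => F (x', φ x - δ)) x := by
        apply Continuous.continuousAt
        exact hFc.comp (by fun_prop)
      exact hc.eventually_lt continuousAt_const hneg
    have e2 : ∀ᶠ x' in 𝓝 x, 0 < F (x', φ x + δ) := by
      have hc : ContinuousAt (fun x' => F (x', φ x + δ)) x := by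
        apply Continuous.continuousAt
        exact hFc.comp (by fun_prop)
      exact continuousAt_const.eventually_lt hc hpos
    obtain ⟨η, hη, hη'⟩ := Metric.eventually_nhds_iff.1 (e1.and e2)
    refine ⟨η, hη, fun x' hx' hd => ?_⟩
    obtain ⟨g1, g2⟩ := hη' hd
    obtain ⟨hz, hz0⟩ := hφ x' hx'
    have i1 : φ x - δ < φ x' := by
      by_contra hcon
      push Not at hcon
      have : F (x', φ x') ≤ F (x', φ x - δ) := (hmono x' hx').monotoneOn hz hm1 hcon
      rw [hz0] at this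
      linarith
    have i2 : φ x' < φ x + δ := by
      by_contra hcon
      push Not at hcon
      have : F (x', φ x + δ) ≤ F (x', φ x') := (hmono x' hx').monotoneOn hm2 hz hcon
      rw [hz0] at this
      linarith
    rw [Real.dist_eq, abs_lt]
    constructor <;> linarith
  · exact (hmono x hx).injOn hy (hφ x hx).1 (by
      show F (x, y) = F (x, φ x)
      rw [hy0, (hφ x hx).2])

/-- TARGET 1: analytic continuation along the zero curve of `F` inside a box in which the zero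
curve is a graph over the first coordinate. -/
theorem box_lemma (F h : ℝ × ℝ → ℝ) (hF : AnalyticOnNhd ℝ F univ) (hh : AnalyticOnNhd ℝ h univ)
    {a b l u : ℝ}
    (hlo : ∀ x ∈ Icc a b, F (x, l) < 0) (hup : ∀ x ∈ Icc a b, 0 < F (x, u))
    (hder : ∀ x ∈ Icc a b, ∀ y ∈ Icc l u, 0 < fderiv ℝ F (x, y) (0, 1))
    {p₀ p₁ : ℝ × ℝ} (h₀ : p₀.1 ∈ Icc a b ∧ p₀.2 ∈ Icc l u) (hF₀ : F p₀ = 0)
    (hV : ∀ᶠ p in 𝓝 p₀, F p = 0 → h p = 0)
    (h₁ : p₁.1 ∈ Icc a b ∧ p₁.2 ∈ Icc l u) (hF₁ : F p₁ = 0) :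
    ∀ᶠ p in 𝓝 p₁, F p = 0 → h p = 0 := by
  have hlu : l ≤ u := h₀.2.1.trans h₀.2.2
  obtain ⟨φ, hφc, hφ⟩ := exists_graph F hF hlu hlo hup hder
  have : PreconnectedSpace (Icc a b) := Subtype.preconnectedSpace isPreconnected_Icc
  let g : Icc a b → ℝ × ℝ := fun x => (x.1, φ x.1)
  have hg : Continuous g := by
    apply Continuous.prodMk continuous_subtype_val
    exact continuousOn_iff_continuous_domRestrict.1 hφc
  let S : Set (Icc a b) := {x | ∀ᶠ q in 𝓝 (g x), F q = 0 → h q = 0}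
  have hFg : ∀ x : Icc a b, F (g x) = 0 := fun x => (hφ x.1 x.2).2.1
  have hopen : IsOpen S := by
    rw [isOpen_iff_eventually]
    intro x hx
    exact hg.continuousAt.eventually (eventually_eventually_nhds.2 hx)
  have hclosed : IsClosed S := by
    rw [← isOpen_compl_iff, isOpen_iff_eventually]
    intro x hx
    rcases dichotomy F h (g x) (hF _ (mem_univ _)) (hh _ (mem_univ _)) (hFg x)
      (hder x.1 x.2 (φ x.1) (hφ x.1 x.2).1).ne' with H | H
    · exact absurd H hx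
    · filter_upwards [hg.continuousAt.eventually H] with x' hx' hxS
      by_cases hxx : x' = x
      · rw [hxx] at hxS
        exact hx hxS
      · have h1 : g x' ≠ g x := by
          intro h2
          apply hxx
          have h3 : (g x').1 = (g x).1 := by rw [h2]
          exact Subtype.ext h3
        exact hx' (hFg x') h1 (Eventually.self_of_nhds hxS (hFg x'))
  have e0 : g ⟨p₀.1, h₀.1⟩ = p₀ := by
    have := (hφ p₀.1 h₀.1).2.2 p₀.2 h₀.2 hF₀
    show (p₀.1, φ p₀.1) = p₀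
    rw [← this]
  have e1 : g ⟨p₁.1, h₁.1⟩ = p₁ := by
    have := (hφ p₁.1 h₁.1).2.2 p₁.2 h₁.2 hF₁
    show (p₁.1, φ p₁.1) = p₁
    rw [← this]
  have huniv : S = univ := by
    apply IsClopen.eq_univ ⟨hclosed, hopen⟩
    refine ⟨⟨p₀.1, h₀.1⟩, ?_⟩
    show ∀ᶠ q in 𝓝 (g ⟨p₀.1, h₀.1⟩), F q = 0 → h q = 0
    rw [e0]
    exact hV
  have : (⟨p₁.1, h₁.1⟩ : Icc a b) ∈ S := by rw [huniv]; exact mem_univ _
  have h3 : ∀ᶠ q in 𝓝 (g ⟨p₁.1, h₁.1⟩), F q = 0 → h q = 0 := this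
  rwa [e1] at h3

/-- TARGET 2: intermediate value theorem along the zero curve. -/
theorem box_ivt (F g : ℝ × ℝ → ℝ) (hF : AnalyticOnNhd ℝ F univ) (hg : Continuous g)
    {a b l u : ℝ} (hab : a ≤ b) (hlu : l ≤ u)
    (hlo : ∀ x ∈ Icc a b, F (x, l) < 0) (hup : ∀ x ∈ Icc a b, 0 < F (x, u))
    (hder : ∀ x ∈ Icc a b, ∀ y ∈ Icc l u, 0 < fderiv ℝ F (x, y) (0, 1))
    (ha : ∀ y ∈ Icc l u, F (a, y) = 0 → g (a, y) ≤ 0)
    (hb : ∀ y ∈ Icc l u, F (b, y) = 0 → 0 ≤ g (b, y)) :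
    ∃ x ∈ Icc a b, ∃ y ∈ Icc l u, F (x, y) = 0 ∧ g (x, y) = 0 := by
  obtain ⟨φ, hφc, hφ⟩ := exists_graph F hF hlu hlo hup hder
  have hc : ContinuousOn (fun x => g (x, φ x)) (Icc a b) :=
    hg.comp_continuousOn (continuousOn_id.prodMk hφc)
  have haI : a ∈ Icc a b := left_mem_Icc.2 hab
  have hbI : b ∈ Icc a b := right_mem_Icc.2 hab
  obtain ⟨x, hx, hx0⟩ := intermediate_value_Icc hab hc
    ⟨ha _ (hφ a haI).1 (hφ a haI).2.1, hb _ (hφ b hbI).1 (hφ b hbI).2.1⟩
  exact ⟨x, hx, φ x, (hφ x hx).1, (hφ x hx).2.1, hx0⟩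

end NonMorse
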