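import Pool.Agent.Helper342.Alg.Defs

open Complex

namespace NonMorse

/-- derivative of `pot` -/
noncomputable def dpot {N : ℕ} (m : Fin N → ℝ) (q w : Fin N → ℂ) : ℝ :=
  -∑ a, ∑ b ∈ Finset.Ioi a, m a * m b * ip (q a - q b) (w a - w b) / ‖q a - q b‖ ^ 3

/-- second derivative of `pot` -/
noncomputable def ddpot {N : ℕ} (m : Fin N → ℝ) (q v w : Fin N → ℂ) : ℝ :=
  ∑ a, ∑ b ∈ Finset.Ioi a, m a * m b * (-(ip (v a - v b) (w a - w b)) / ‖q a - q b‖ ^ 3 +
    3 * ip (q a - q b) (v a - v b) * ip (q a - q b) (w a - w b) / ‖q a - q b‖ ^ 5)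

/-- mass inner product -/
noncomputable def bi {N : ℕ} (m : Fin N → ℝ) (v w : Fin N → ℂ) : ℝ := ∑ a, m a * ip (v a) (w a)

/-- explicit first derivative of `npot` -/
noncomputable def G {N : ℕ} (m : Fin N → ℝ) (q w : Fin N → ℂ) : ℝ :=
  bi m q w / Real.sqrt (inertia m q) * pot m q + Real.sqrt (inertia m q) * dpot m q w

/-- explicit second derivative of `npot` -/
noncomputable def H {N : ℕ} (m : Fin N → ℝ) (q v w : Fin N → ℂ) : ℝ :=
  Real.sqrt (inertia m q) * ddpot m q v w + bi m v w * pot m q / Real.sqrt (inertia m q) +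
    (bi m q v * dpot m q w + bi m q w * dpot m q v) / Real.sqrt (inertia m q) -
    bi m q v * bi m q w * pot m q / Real.sqrt (inertia m q) ^ 3

section aux1056

lemma aux_norm {x : ℂ} (hx : x ≠ 0) (y : ℂ) :
    HasDerivAt (fun t : ℝ => ‖x + (t : ℂ) * y‖) (ip x y / ‖x‖) 0 := by
  have h1 : HasDerivAt (fun t : ℝ => (x.re + t * y.re) ^ 2 + (x.im + t * y.im) ^ 2) (2 * ip x y) 0 := by
    have a1 : HasDerivAt (fun t : ℝ => x.re + t * y.re) y.re 0 := by
      simpa using ((hasDerivAt_id (0 : ℝ)).mul_const y.re).const_add x.re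
    have a2 : HasDerivAt (fun t : ℝ => x.im + t * y.im) y.im 0 := by
      simpa using ((hasDerivAt_id (0 : ℝ)).mul_const y.im).const_add x.im
    have a3 := (a1.fun_pow 2).fun_add (a2.fun_pow 2)
    refine a3.congr_deriv ?_
    simp [ip]
    ring
  have e : (fun t : ℝ => ‖x + (t : ℂ) * y‖) = fun t : ℝ => Real.sqrt ((x.re + t * y.re) ^ 2 + (x.im + t * y.im) ^ 2) := by
    funext t
    rw [Complex.norm_def, Complex.normSq_apply]
    congr 1
    simp
    ring
  have h0 : (x.re + 0 * y.re) ^ 2 + (x.im + 0 * y.im) ^ 2 = ‖x‖ ^ 2 := by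
    rw [Complex.sq_norm, Complex.normSq_apply]; ring
  have hxn : 0 < ‖x‖ := norm_pos_iff.2 hx
  rw [e]
  have h2 := h1.sqrt (by rw [h0]; positivity)
  rw [h0, Real.sqrt_sq hxn.le] at h2
  refine h2.congr_deriv ?_
  field_simp

lemma aux_normsq (x y : ℂ) :
    HasDerivAt (fun t : ℝ => ‖x + (t : ℂ) * y‖ ^ 2) (2 * ip x y) 0 := by
  have h1 : HasDerivAt (fun t : ℝ => (x.re + t * y.re) ^ 2 + (x.im + t * y.im) ^ 2) (2 * ip x y) 0 := by
    have a1 : HasDerivAt (fun t : ℝ => x.re + t * y.re) y.re 0 := by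
      simpa using ((hasDerivAt_id (0 : ℝ)).mul_const y.re).const_add x.re
    have a2 : HasDerivAt (fun t : ℝ => x.im + t * y.im) y.im 0 := by
      simpa using ((hasDerivAt_id (0 : ℝ)).mul_const y.im).const_add x.im
    have a3 := (a1.fun_pow 2).fun_add (a2.fun_pow 2)
    refine a3.congr_deriv ?_
    simp [ip]
    ring
  have e : (fun t : ℝ => ‖x + (t : ℂ) * y‖ ^ 2) = fun t : ℝ => ((x.re + t * y.re) ^ 2 + (x.im + t * y.im) ^ 2) := by
    funext t
    rw [Complex.sq_norm, Complex.normSq_apply]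
    simp
    ring
  rw [e]; exact h1

lemma aux_ip (x y w : ℂ) :
    HasDerivAt (fun t : ℝ => ip (x + (t : ℂ) * y) w) (ip y w) 0 := by
  have a1 : HasDerivAt (fun t : ℝ => x.re + t * y.re) y.re 0 := by
    simpa using ((hasDerivAt_id (0 : ℝ)).mul_const y.re).const_add x.re
  have a2 : HasDerivAt (fun t : ℝ => x.im + t * y.im) y.im 0 := by
    simpa using ((hasDerivAt_id (0 : ℝ)).mul_const y.im).const_add x.im
  have a3 := (a1.mul_const w.re).fun_add (a2.mul_const w.im)
  have e : (fun t : ℝ => ip (x + (t : ℂ) * y) w) =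
      fun t : ℝ => (x.re + t * y.re) * w.re + (x.im + t * y.im) * w.im := by
    funext t
    simp [ip]
  rw [e]
  exact a3

variable {N : ℕ}

lemma aux_line (q v : Fin N → ℂ) (t : ℝ) (a : Fin N) : (q + t • v) a = q a + (t : ℂ) * v a := by
  simp

lemma aux_line2 (q v : Fin N → ℂ) (t : ℝ) (a b : Fin N) :
    (q + t • v) a - (q + t • v) b = (q a - q b) + (t : ℂ) * (v a - v b) := by
  simp; ring

lemma aux_inertia (m : Fin N → ℝ) (q v : Fin N → ℂ) :
    HasDerivAt (fun t : ℝ => inertia m (q + t • v)) (2 * bi m q v) 0 := by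
  unfold inertia bi
  have h := HasDerivAt.fun_sum (u := Finset.univ) (fun (a : Fin N) _ =>
    (aux_normsq (q a) (v a)).const_mul (m a))
  have e : 2 * ∑ a, m a * ip (q a) (v a) = ∑ a, m a * (2 * ip (q a) (v a)) := by
    rw [Finset.mul_sum]
    exact Finset.sum_congr rfl fun a _ => by ring
  rw [e]
  simp only [aux_line]
  exact h

lemma aux_zero (q v : Fin N → ℂ) : q + (0 : ℝ) • v = q := by simp

lemma aux_sqrt (m : Fin N → ℝ) (q v : Fin N → ℂ) (hI : 0 < inertia m q) :
    HasDerivAt (fun t : ℝ => Real.sqrt (inertia m (q + t • v)))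
      (bi m q v / Real.sqrt (inertia m q)) 0 := by
  have h := (aux_inertia m q v).sqrt (by rw [aux_zero]; exact hI.ne')
  rw [aux_zero] at h
  refine h.congr_deriv ?_
  have : 0 < Real.sqrt (inertia m q) := Real.sqrt_pos.2 hI
  field_simp

lemma aux_bi (m : Fin N → ℝ) (q v w : Fin N → ℂ) :
    HasDerivAt (fun t : ℝ => bi m (q + t • v) w) (bi m v w) 0 := by
  unfold bi
  have h := HasDerivAt.fun_sum (u := Finset.univ) (fun (a : Fin N) _ =>
    (aux_ip (q a) (v a) (w a)).const_mul (m a))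
  simp only [aux_line]
  exact h

lemma aux_pot (m : Fin N → ℝ) (q v : Fin N → ℂ) (hq : CollisionFree q) :
    HasDerivAt (fun t : ℝ => pot m (q + t • v)) (dpot m q v) 0 := by
  unfold pot dpot
  simp only [aux_line2]
  have h : ∀ a : Fin N, ∀ b ∈ Finset.Ioi a,
      HasDerivAt (fun t : ℝ => m a * m b / ‖(q a - q b) + (t : ℂ) * (v a - v b)‖)
        (-(m a * m b * ip (q a - q b) (v a - v b) / ‖q a - q b‖ ^ 3)) 0 := by
    intro a b hb
    have hne : q a - q b ≠ 0 := sub_ne_zero.2 (hq a b (Finset.mem_Ioi.1 hb).ne)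
    have hn : 0 < ‖q a - q b‖ := norm_pos_iff.2 hne
    have h1 := (aux_norm hne (v a - v b)).fun_inv (by simpa using hn.ne')
    have h2 := h1.const_mul (m a * m b)
    refine h2.congr_deriv ?_
    simp
    field_simp
  have h2 := HasDerivAt.fun_sum (u := Finset.univ) (fun (a : Fin N) _ =>
    HasDerivAt.fun_sum (u := Finset.Ioi a) (fun b hb => h a b hb))
  refine h2.congr_deriv ?_
  simp only [Finset.sum_neg_distrib]

lemma aux_dpot (m : Fin N → ℝ) (q v w : Fin N → ℂ) (hq : CollisionFree q) :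
    HasDerivAt (fun t : ℝ => dpot m (q + t • v) w) (ddpot m q v w) 0 := by
  unfold dpot ddpot
  simp only [aux_line2]
  have h : ∀ a : Fin N, ∀ b ∈ Finset.Ioi a,
      HasDerivAt (fun t : ℝ => m a * m b * ip ((q a - q b) + (t : ℂ) * (v a - v b)) (w a - w b) /
          ‖(q a - q b) + (t : ℂ) * (v a - v b)‖ ^ 3)
        (-(m a * m b * (-(ip (v a - v b) (w a - w b)) / ‖q a - q b‖ ^ 3 +
    3 * ip (q a - q b) (v a - v b) * ip (q a - q b) (w a - w b) / ‖q a - q b‖ ^ 5))) 0 := by
    intro a b hb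
    have hne : q a - q b ≠ 0 := sub_ne_zero.2 (hq a b (Finset.mem_Ioi.1 hb).ne)
    have hn : 0 < ‖q a - q b‖ := norm_pos_iff.2 hne
    have h1 := (aux_norm hne (v a - v b)).fun_pow 3
    have h3 := (aux_ip (q a - q b) (v a - v b) (w a - w b)).const_mul (m a * m b)
    have h2 := h3.fun_div h1 (by simpa using hn.ne')
    refine h2.congr_deriv ?_
    simp
    field_simp
    ring
  have h2 := (HasDerivAt.fun_sum (u := Finset.univ) (fun (a : Fin N) _ =>
    HasDerivAt.fun_sum (u := Finset.Ioi a) (fun b hb => h a b hb))).fun_neg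
  refine h2.congr_deriv ?_
  simp only [Finset.sum_neg_distrib, neg_neg]

lemma aux_G (m : Fin N → ℝ) (q w : Fin N → ℂ) (hq : CollisionFree q) (hI : 0 < inertia m q) :
    HasDerivAt (fun t : ℝ => npot m (q + t • w)) (G m q w) 0 := by
  unfold npot G
  have h := (aux_sqrt m q w hI).fun_mul (aux_pot m q w hq)
  simp only [aux_zero] at h
  exact h

lemma aux_H (m : Fin N → ℝ) (q v w : Fin N → ℂ) (hq : CollisionFree q) (hI : 0 < inertia m q) :
    HasDerivAt (fun t : ℝ => G m (q + t • v) w) (H m q v w) 0 := by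
  unfold G H
  have hs : 0 < Real.sqrt (inertia m q) := Real.sqrt_pos.2 hI
  have h1 := (aux_bi m q v w).fun_div (aux_sqrt m q v hI) (by rw [aux_zero]; exact hs.ne')
  have h2 := h1.fun_mul (aux_pot m q v hq)
  have h3 := (aux_sqrt m q v hI).fun_mul (aux_dpot m q v w hq)
  have h := h2.fun_add h3
  simp only [aux_zero] at h
  refine h.congr_deriv ?_
  field_simp
  ring

lemma aux_cd (m : Fin N → ℝ) (q : Fin N → ℂ) (hq : CollisionFree q) (hI : 0 < inertia m q) :
    ContDiffAt ℝ 2 (npot m) q := by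
  have hev : ∀ a : Fin N, ContDiffAt ℝ 2 (fun x : Fin N → ℂ => x a) q := fun a =>
    (contDiff_apply ℝ ℂ a).contDiffAt
  have h1 : ContDiffAt ℝ 2 (inertia m) q := by
    unfold inertia
    exact ContDiffAt.sum fun a _ => contDiffAt_const.mul ((hev a).norm_sq ℝ)
  have h2 : ContDiffAt ℝ 2 (pot m) q := by
    unfold pot
    refine ContDiffAt.sum fun a _ => ContDiffAt.sum fun b hb => ?_
    have hne : q a - q b ≠ 0 := sub_ne_zero.2 (hq a b (Finset.mem_Ioi.1 hb).ne)
    have hn : 0 < ‖q a - q b‖ := norm_pos_iff.2 hne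
    exact contDiffAt_const.div (((hev a).sub (hev b)).norm ℝ hne) hn.ne'
  exact (h1.sqrt hI.ne').mul h2

lemma aux_open (m : Fin N → ℝ) (q : Fin N → ℂ) (hq : CollisionFree q) (hI : 0 < inertia m q) :
    ∀ᶠ x in nhds q, CollisionFree x ∧ 0 < inertia m x := by
  have h1 : ∀ᶠ x in nhds q, CollisionFree x := by
    unfold CollisionFree
    rw [Filter.eventually_all]
    intro a
    rw [Filter.eventually_all]
    intro b
    by_cases hab : a = b
    · filter_upwards with x h
      exact absurd hab h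
    · have hc : ContinuousAt (fun x : Fin N → ℂ => x a) q := (continuous_apply a).continuousAt
      have hc' : ContinuousAt (fun x : Fin N → ℂ => x b) q := (continuous_apply b).continuousAt
      have := hc.ne_iff_eventually_ne hc'
      filter_upwards [this.1 (hq a b hab)] with x hx _
      exact hx
  have h2 : ∀ᶠ x in nhds q, 0 < inertia m x := by
    have hc : Continuous (inertia m) := by
      unfold inertia
      fun_prop
    exact hc.continuousAt.eventually_const_lt hI
  exact h1.and h2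

end aux1056

/-- TARGET 1 -/
theorem fderiv_npot {N : ℕ} (m : Fin N → ℝ) (q : Fin N → ℂ) (hq : CollisionFree q)
    (hI : 0 < inertia m q) (w : Fin N → ℂ) : fderiv ℝ (npot m) q w = G m q w := by
  have hd : DifferentiableAt ℝ (npot m) q := (aux_cd m q hq hI).differentiableAt (by norm_num)
  have h1 := hd.hasFDerivAt.hasLineDerivAt w
  exact h1.unique (aux_G m q w hq hI)

/-- TARGET 2 -/
theorem fderiv2_npot {N : ℕ} (m : Fin N → ℝ) (q : Fin N → ℂ) (hq : CollisionFree q)
    (hI : 0 < inertia m q) (v w : Fin N → ℂ) :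
    fderiv ℝ (fderiv ℝ (npot m)) q v w = H m q v w := by
  have hcd := aux_cd m q hq hI
  have h1 : ContDiffAt ℝ 1 (fderiv ℝ (npot m)) q := hcd.fderiv_right (by norm_num)
  have hd : DifferentiableAt ℝ (fderiv ℝ (npot m)) q := h1.differentiableAt (by norm_num)
  have h2 : HasFDerivAt (fun x => fderiv ℝ (npot m) x w)
      ((fderiv ℝ (fderiv ℝ (npot m)) q).flip w) q := by
    have := hd.hasFDerivAt.clm_apply (hasFDerivAt_const w q)
    simpa using this
  have h3 : (fun x => fderiv ℝ (npot m) x w) =ᶠ[nhds q] fun x => G m x w := by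
    filter_upwards [aux_open m q hq hI] with x hx
    exact fderiv_npot m x hx.1 hx.2 w
  have h4 : HasFDerivAt (fun x => G m x w) ((fderiv ℝ (fderiv ℝ (npot m)) q).flip w) q :=
    h2.congr_of_eventuallyEq h3.symm
  have h5 := h4.hasLineDerivAt v
  have h6 := h5.unique (aux_H m q v w hq hI)
  simpa using h6

end NonMorse

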