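import Pool.Agent.Helper342.Alg.Defs

open Complex

namespace NonMorse

theorem cc_alpha {N : ℕ} (c : Fin N → Fin N → ℝ) (hc : ∀ a b, 0 < c a b) (f : Fin N → ℝ)
    (h : ∀ a, ∑ b, c a b * (f a - f b) = 0) : ∀ a b, f a = f b := by
  rcases Nat.eq_zero_or_pos N with rfl | hN
  · exact fun a => a.elim0
  obtain ⟨k, _, hk⟩ := Finset.exists_max_image Finset.univ f ⟨⟨0, hN⟩, Finset.mem_univ _⟩
  have h1 : ∀ b, f b = f k := by
    intro b
    have h2 := (Finset.sum_eq_zero_iff_of_nonneg (fun b _ =>
      mul_nonneg (hc k b).le (sub_nonneg.mpr (hk b (Finset.mem_univ _))))).mp (h k) b (Finset.mem_univ _)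
    rcases mul_eq_zero.mp h2 with h3 | h3
    · exact absurd h3 (hc k b).ne'
    · linarith
  intro a b
  rw [h1 a, h1 b]

theorem cc_beta {N : ℕ} (m : Fin N → ℝ) (hm : ∀ a, 0 < m a) (lam : ℝ) (x β : Fin N → ℝ)
    (hx : Function.Injective x)
    (h1 : ∀ a, ∑ b, m b * (lam - 1 / |x a - x b| ^ 3) * (x a - x b) = 0)
    (h2 : ∀ a, ∑ b, m b * (lam - 1 / |x a - x b| ^ 3) * (β a - β b) = 0) :
    ∃ σ c : ℝ, ∀ a, β a = σ * x a + c := by
  classical
  by_cases hne : ∃ k l : Fin N, x k < x l
  · obtain ⟨k0, l0, h0⟩ := hne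
    obtain ⟨⟨k, l⟩, hkl, hmax⟩ := Finset.exists_max_image
      ((Finset.univ : Finset (Fin N × Fin N)).filter fun p => x p.1 < x p.2)
      (fun p => (β p.2 - β p.1) / (x p.2 - x p.1)) ⟨(k0, l0), by simpa using h0⟩
    simp only [Finset.mem_filter, Finset.mem_univ, true_and, Prod.forall] at hkl hmax
    set σ := (β l - β k) / (x l - x k) with hσ
    have hkl' : 0 < x l - x k := sub_pos.mpr hkl
    have hσ1 : σ * (x l - x k) = β l - β k := div_mul_cancel₀ _ hkl'.ne'
    have hmon : ∀ a b, x a < x b → β b - σ * x b ≤ β a - σ * x a := by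
      intro a b hab
      have h3 := hmax a b hab
      rw [div_le_iff₀ (sub_pos.mpr hab)] at h3
      linarith
    set c := β k - σ * x k with hc
    have hl : β l - σ * x l = c := by rw [hc]; linarith
    have hrow : ∀ a, ∑ b, m b * (lam - 1 / |x a - x b| ^ 3) * ((β a - σ * x a) - (β b - σ * x b)) = 0 := by
      intro a
      have h3 : ∑ b, m b * (lam - 1 / |x a - x b| ^ 3) * ((β a - σ * x a) - (β b - σ * x b)) =
          ∑ b, m b * (lam - 1 / |x a - x b| ^ 3) * (β a - β b) -
          σ * ∑ b, m b * (lam - 1 / |x a - x b| ^ 3) * (x a - x b) := by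
        rw [Finset.mul_sum, ← Finset.sum_sub_distrib]
        exact Finset.sum_congr rfl fun b _ => by ring
      rw [h3, h1, h2]; ring
    have hdiff : ∑ b, m b * (1 / |x l - x b| ^ 3 - 1 / |x k - x b| ^ 3) * (c - (β b - σ * x b)) = 0 := by
      have h3 := hrow k
      have h4 := hrow l
      rw [← hc] at h3
      rw [hl] at h4
      rw [← sub_eq_zero_of_eq (h3.trans h4.symm), ← Finset.sum_sub_distrib]
      exact Finset.sum_congr rfl fun b _ => by ring
    have hterm : ∀ b, 0 ≤ m b * (1 / |x l - x b| ^ 3 - 1 / |x k - x b| ^ 3) * (c - (β b - σ * x b)) ∧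
        (m b * (1 / |x l - x b| ^ 3 - 1 / |x k - x b| ^ 3) * (c - (β b - σ * x b)) = 0 → β b - σ * x b = c) := by
      intro b
      rcases lt_trichotomy (x b) (x k) with h3 | h3 | h3
      · have h4 : |x k - x b| < |x l - x b| := by
          rw [abs_of_pos (by linarith), abs_of_pos (by linarith)]; linarith
        have h5 : 0 < |x k - x b| := abs_pos.mpr (by linarith)
        have h6 : 1 / |x l - x b| ^ 3 < 1 / |x k - x b| ^ 3 :=
          one_div_lt_one_div_of_lt (by positivity) (pow_lt_pow_left₀ h4 h5.le (by norm_num))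
        have h7 := hmon b k h3
        have h8 := hm b
        constructor
        · have : 0 ≤ m b * (1 / |x k - x b| ^ 3 - 1 / |x l - x b| ^ 3) * ((β b - σ * x b) - c) :=
            mul_nonneg (mul_nonneg h8.le (by linarith)) (by linarith)
          linarith
        · intro h9
          rcases mul_eq_zero.mp h9 with h10 | h10
          · rcases mul_eq_zero.mp h10 with h11 | h11 <;> linarith
          · linarith
      · have h4 : b = k := hx h3
        subst h4
        rw [← hc]
        simp
      · rcases lt_trichotomy (x b) (x l) with h4 | h4 | h4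
        · have h5 := hmon k b h3
          have h6 := hmon b l h4
          have h7 : β b - σ * x b = c := by linarith
          rw [h7]
          simp
        · have h5 : b = l := hx h4
          subst h5
          rw [hl]
          simp
        · have h5 : |x l - x b| < |x k - x b| := by
            rw [abs_of_neg (by linarith), abs_of_neg (by linarith)]; linarith
          have h6 : 0 < |x l - x b| := abs_pos.mpr (by linarith)
          have h7 : 1 / |x k - x b| ^ 3 < 1 / |x l - x b| ^ 3 :=
            one_div_lt_one_div_of_lt (by positivity) (pow_lt_pow_left₀ h5 h6.le (by norm_num))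
          have h8 := hmon l b h4
          have h9 := hm b
          constructor
          · exact mul_nonneg (mul_nonneg h9.le (by linarith)) (by linarith)
          · intro h10
            rcases mul_eq_zero.mp h10 with h11 | h11
            · rcases mul_eq_zero.mp h11 with h12 | h12 <;> linarith
            · linarith
    refine ⟨σ, c, fun b => ?_⟩
    have h3 := (Finset.sum_eq_zero_iff_of_nonneg fun b _ => (hterm b).1).mp hdiff b (Finset.mem_univ _)
    have h4 := (hterm b).2 h3
    linarith
  · push Not at hne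
    rcases Nat.eq_zero_or_pos N with rfl | hN
    · exact ⟨0, 0, fun a => a.elim0⟩
    · refine ⟨0, β ⟨0, hN⟩, fun a => ?_⟩
      have h3 : a = ⟨0, hN⟩ := hx (le_antisymm (hne _ _) (hne _ _))
      rw [h3]; ring

/-- TARGET -/
theorem collinear_trivial {N : ℕ} (m : Fin N → ℝ) (hm : ∀ a, 0 < m a) (lam : ℝ) (hlam : 0 < lam)
    (q v : Fin N → ℂ) (hq : CollisionFree q) (hcc : ccEq m lam q) (hlin : linEq m lam q v)
    (hcol : Collinear ℝ (Set.range q)) : TrivialMotion q v := by
  obtain ⟨p0, e0, he0⟩ := (collinear_iff_exists_forall_eq_smul_vadd (Set.range q)).mp hcol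
  -- a unit direction
  obtain ⟨e, x, he, hqx⟩ : ∃ (e : ℂ) (x : Fin N → ℝ), ‖e‖ = 1 ∧ ∀ a, q a = p0 + (x a : ℂ) * e := by
    choose r hr using fun a => he0 (q a) ⟨a, rfl⟩
    by_cases h0 : e0 = 0
    · refine ⟨1, fun _ => 0, by simp, fun a => ?_⟩
      rw [hr a, h0]
      simp
    · have h1 : ‖e0‖ ≠ 0 := norm_ne_zero_iff.mpr h0
      refine ⟨e0 / (‖e0‖ : ℂ), fun a => r a * ‖e0‖, by simp [h1], fun a => ?_⟩
      rw [hr a, vadd_eq_add, real_smul]
      have h2 : (‖e0‖ : ℂ) ≠ 0 := by exact_mod_cast h1
      push_cast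
      field_simp
      ring
  have hxinj : Function.Injective x := by
    intro a b hab
    by_contra hne
    exact hq a b hne (by rw [hqx a, hqx b, hab])
  have he1 : e * (starRingEnd ℂ) e = 1 := by
    rw [mul_conj, normSq_eq_norm_sq, he]; simp
  have hene : e ≠ 0 := by
    rintro rfl
    simp at he
  have hd : ∀ a b, ‖q a - q b‖ = |x a - x b| := by
    intro a b
    have h1 : q a - q b = ((x a - x b : ℝ) : ℂ) * e := by rw [hqx a, hqx b]; push_cast; ring
    rw [h1, norm_mul, he, mul_one, norm_real, Real.norm_eq_abs]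
  have hqd : ∀ a b, q a - q b = ((x a - x b : ℝ) : ℂ) * e := by
    intro a b
    rw [hqx a, hqx b]; push_cast; ring
  let w : Fin N → ℂ := fun a => v a * (starRingEnd ℂ) e
  have hv : ∀ a, v a = w a * e := by
    intro a
    show v a = v a * (starRingEnd ℂ) e * e
    rw [mul_assoc, mul_comm ((starRingEnd ℂ) e) e, he1, mul_one]
  have hip : ∀ a b, ip (q a - q b) (v a - v b) = (x a - x b) * ((w a).re - (w b).re) := by
    intro a b
    have h1 : ∀ (s : ℝ) (z : ℂ), ip ((s : ℂ) * e) (z * e) = s * z.re := by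
      intro s z
      have h2 : e.re * e.re + e.im * e.im = 1 := by
        have := he1
        rw [mul_conj, normSq_apply] at this
        exact_mod_cast this
      simp only [ip, mul_re, mul_im, ofReal_re, ofReal_im]
      linear_combination (s * z.re) * h2
    rw [hqd, hv a, hv b, ← sub_mul, h1, sub_re]
  have hccx : ∀ a, ∑ b, m b * (lam - 1 / |x a - x b| ^ 3) * (x a - x b) = 0 := by
    intro a
    have h1 := hcc a
    simp only [hd] at h1
    simp only [hqd] at h1
    have h2 : ((∑ b, m b * (lam - 1 / |x a - x b| ^ 3) * (x a - x b) : ℝ) : ℂ) * e = 0 := by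
      rw [← h1]
      push_cast
      rw [Finset.sum_mul]
      exact Finset.sum_congr rfl fun b _ => by ring
    rcases mul_eq_zero.mp h2 with h3 | h3
    · exact_mod_cast h3
    · exact absurd h3 hene
  have hlin2 : ∀ a, ∑ b, (((m b * (lam - 1 / |x a - x b| ^ 3) : ℝ) : ℂ) * (w a - w b) +
      ((3 * m b * ((x a - x b) * ((w a).re - (w b).re)) / |x a - x b| ^ 5 * (x a - x b) : ℝ) : ℂ)) = 0 := by
    intro a
    have h1 := hlin a
    simp only [hip] at h1
    simp only [hd] at h1
    simp only [hqd] at h1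
    have h2 : (∑ b, (((m b * (lam - 1 / |x a - x b| ^ 3) : ℝ) : ℂ) * (w a - w b) +
      ((3 * m b * ((x a - x b) * ((w a).re - (w b).re)) / |x a - x b| ^ 5 * (x a - x b) : ℝ) : ℂ))) * e = 0 := by
      rw [← h1, Finset.sum_mul]
      refine Finset.sum_congr rfl fun b _ => ?_
      rw [hv a, hv b]
      push_cast
      ring
    exact (mul_eq_zero.mp h2).resolve_right hene
  have hα : ∀ a b, (w a).re = (w b).re := by
    refine cc_alpha (fun a b => m b * (lam + 2 / |x a - x b| ^ 3)) (fun a b => ?_) _ (fun a => ?_)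
    · exact mul_pos (hm b) (add_pos_of_pos_of_nonneg hlam (by positivity))
    · have h1 := congrArg Complex.re (hlin2 a)
      rw [re_sum] at h1
      simp only [zero_re] at h1
      rw [← h1]
      refine Finset.sum_congr rfl fun b _ => ?_
      rw [add_re, re_ofReal_mul, sub_re, ofReal_re]
      by_cases hab : a = b
      · subst hab; simp
      · have h2 : |x a - x b| ≠ 0 := abs_ne_zero.mpr (sub_ne_zero.mpr fun h => hab (hxinj h))
        have h3 : (x a - x b) * (x a - x b) = |x a - x b| ^ 2 := by rw [sq_abs]; ring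
        have h4 : 3 * m b * ((x a - x b) * ((w a).re - (w b).re)) / |x a - x b| ^ 5 * (x a - x b) =
            3 * m b * ((w a).re - (w b).re) * ((x a - x b) * (x a - x b)) / |x a - x b| ^ 5 := by ring
        rw [h4, h3]
        field_simp
        ring
  obtain ⟨σ, c, hσ⟩ := cc_beta m hm lam x (fun a => (w a).im) hxinj hccx (fun a => by
    have h1 := congrArg Complex.im (hlin2 a)
    rw [im_sum] at h1
    simp only [zero_im] at h1
    rw [← h1]
    refine Finset.sum_congr rfl fun b _ => ?_
    rw [add_im, im_ofReal_mul, sub_im, ofReal_im, add_zero])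
  rcases Nat.eq_zero_or_pos N with hN | hN
  · subst hN
    exact ⟨0, 0, fun a => a.elim0⟩
  · refine ⟨σ, -(σ * I * p0) + (((w ⟨0, hN⟩).re : ℂ) + c * I) * e, fun a => ?_⟩
    have h1 : w a = ((w ⟨0, hN⟩).re : ℂ) + ((σ * x a + c : ℝ) : ℂ) * I := by
      rw [← hα a ⟨0, hN⟩, ← hσ a]
      exact (re_add_im (w a)).symm
    rw [hv a, h1, hqx a]
    push_cast
    ring

end NonMorse
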