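import Mathlib

/-!
# Central configurations and the non-Morse mass set
-/

open Complex

namespace NonMorse

/-- Newtonian potential `U_m(q) = ∑_{a<b} m_a m_b / |q_a - q_b|` of `N` bodies in the plane `ℂ`. -/
noncomputable def pot {N : ℕ} (m : Fin N → ℝ) (q : Fin N → ℂ) : ℝ :=
  ∑ a, ∑ b ∈ Finset.Ioi a, m a * m b / ‖q a - q b‖

/-- Moment of inertia `I_m(q) = ∑ m_a |q_a|²`. -/
noncomputable def inertia {N : ℕ} (m : Fin N → ℝ) (q : Fin N → ℂ) : ℝ :=
  ∑ a, m a * ‖q a‖ ^ 2

/-- The normalized potential `Ũ = √I · U`. -/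
noncomputable def npot {N : ℕ} (m : Fin N → ℝ) (q : Fin N → ℂ) : ℝ :=
  Real.sqrt (inertia m q) * pot m q

/-- The real linear space of centered configurations, `∑ m_a q_a = 0`. -/
def centered {N : ℕ} (m : Fin N → ℝ) : Submodule ℝ (Fin N → ℂ) where
  carrier := {q | ∑ a, (m a : ℂ) * q a = 0}
  add_mem' := by
    intro q q' hq hq'
    simp only [Set.mem_setOf_eq] at hq hq' ⊢
    simp [mul_add, Finset.sum_add_distrib, hq, hq']
  zero_mem' := by simp
  smul_mem' := by
    intro c q hq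
    simp only [Set.mem_setOf_eq] at hq ⊢
    have : ∀ a, (m a : ℂ) * (c • q) a = (c : ℂ) * ((m a : ℂ) * q a) := by
      intro a
      simp only [Pi.smul_apply, Complex.real_smul]
      ring
    simp only [this, ← Finset.mul_sum, hq, mul_zero]

/-- No two bodies coincide. -/
def CollisionFree {N : ℕ} (q : Fin N → ℂ) : Prop := ∀ a b, a ≠ b → q a ≠ q b

/-- `q` is a centered collision-free critical point of `Ũ` restricted to centered configurations
(equivalently, its class is a critical point of `Ũ` on the shape space `ℂP^{N-2} ∖ Δ`). -/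
def IsCriticalPt {N : ℕ} (m : Fin N → ℝ) (q : Fin N → ℂ) : Prop :=
  q ∈ centered m ∧ CollisionFree q ∧ ∀ w ∈ centered m, fderiv ℝ (npot m) q w = 0

/-- The Hessian of `Ũ` (on centered configurations) at `q` has a kernel vector that is not tangent
to the orbit `ℂ^* q`; for a critical point `q` this says that the Hessian of the function induced
by `Ũ` on the shape space `ℂP^{N-2} ∖ Δ` is degenerate at the class of `q`. -/
def HasDegenerateHessian {N : ℕ} (m : Fin N → ℝ) (q : Fin N → ℂ) : Prop :=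
  ∃ v ∈ centered m, (∀ w ∈ centered m, fderiv ℝ (fderiv ℝ (npot m)) q v w = 0) ∧
    v ∉ Submodule.span ℝ {q, fun a => I * q a}

/-- The open mass simplex `Σ`. -/
def massSimplex (N : ℕ) : Set (Fin N → ℝ) := {m | (∀ a, 0 < m a) ∧ ∑ a, m a = 1}

/-- `B_N`: the masses in `Σ` for which `Ũ` is not a Morse function on the shape space. -/
def nonMorseSet (N : ℕ) : Set (Fin N → ℝ) :=
  {m | m ∈ massSimplex N ∧ ∃ q, IsCriticalPt m q ∧ HasDegenerateHessian m q}

/-- `S = Σ ∩ {f_1 = ... = f_k = 0}` for finitely many real polynomials `f_i`. -/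
def IsAlgebraicSubvariety {N : ℕ} (S : Set (Fin N → ℝ)) : Prop :=
  ∃ F : Finset (MvPolynomial (Fin N) ℝ),
    S = {m | m ∈ massSimplex N ∧ ∀ f ∈ F, MvPolynomial.eval m f = 0}

/-! ### Algebraic reformulation -/

/-- The real inner product of `ℂ = ℝ²`. -/
def ip (u v : ℂ) : ℝ := u.re * v.re + u.im * v.im

/-- Equation of central configurations (multiplier `lam`). -/
def ccEq {N : ℕ} (m : Fin N → ℝ) (lam : ℝ) (q : Fin N → ℂ) : Prop :=
  ∀ a, ∑ b, ((m b * (lam - 1 / ‖q a - q b‖ ^ 3) : ℝ) : ℂ) * (q a - q b) = 0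

/-- Linearization of `ccEq` at `q` in the direction `v` (with `lam` fixed). -/
def linEq {N : ℕ} (m : Fin N → ℝ) (lam : ℝ) (q v : Fin N → ℂ) : Prop :=
  ∀ a, ∑ b, (((m b * (lam - 1 / ‖q a - q b‖ ^ 3) : ℝ) : ℂ) * (v a - v b) +
    ((3 * m b * ip (q a - q b) (v a - v b) / ‖q a - q b‖ ^ 5 : ℝ) : ℂ) * (q a - q b)) = 0

/-- `v` is an infinitesimal rigid motion of `q`. -/
def TrivialMotion {N : ℕ} (q v : Fin N → ℂ) : Prop :=
  ∃ (θ : ℝ) (c : ℂ), ∀ a, v a = θ * I * q a + c

end NonMorse
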