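import Pool.Agent.Helper342.Alg.Defs

/-! # Dziobek reduction of noncollinear central configurations of four bodies (proved by helper836) -/

open Complex

namespace NonMorse

/-- signed areas -/
def DA (X Y : Fin 4 → ℝ) : Fin 4 → ℝ :=
  ![(X 2 - X 1) * (Y 3 - Y 1) - (Y 2 - Y 1) * (X 3 - X 1),
    -((X 2 - X 0) * (Y 3 - Y 0) - (Y 2 - Y 0) * (X 3 - X 0)),
    (X 1 - X 0) * (Y 3 - Y 0) - (Y 1 - Y 0) * (X 3 - X 0),
    -((X 1 - X 0) * (Y 2 - Y 0) - (Y 1 - Y 0) * (X 2 - X 0))]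

/-- derivative of the signed areas -/
def dDA (X Y U V : Fin 4 → ℝ) : Fin 4 → ℝ :=
  ![(U 2 - U 1) * (Y 3 - Y 1) - (V 2 - V 1) * (X 3 - X 1) +
      ((X 2 - X 1) * (V 3 - V 1) - (Y 2 - Y 1) * (U 3 - U 1)),
    -((U 2 - U 0) * (Y 3 - Y 0) - (V 2 - V 0) * (X 3 - X 0) +
      ((X 2 - X 0) * (V 3 - V 0) - (Y 2 - Y 0) * (U 3 - U 0))),
    (U 1 - U 0) * (Y 3 - Y 0) - (V 1 - V 0) * (X 3 - X 0) +
      ((X 1 - X 0) * (V 3 - V 0) - (Y 1 - Y 0) * (U 3 - U 0)),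
    -((U 1 - U 0) * (Y 2 - Y 0) - (V 1 - V 0) * (X 2 - X 0) +
      ((X 1 - X 0) * (V 2 - V 0) - (Y 1 - Y 0) * (U 2 - U 0)))]

theorem DA_0 (X Y : Fin 4 → ℝ) : DA X Y 0 =
    (X 2 - X 1) * (Y 3 - Y 1) - (Y 2 - Y 1) * (X 3 - X 1) := rfl
theorem DA_1 (X Y : Fin 4 → ℝ) : DA X Y 1 =
    -((X 2 - X 0) * (Y 3 - Y 0) - (Y 2 - Y 0) * (X 3 - X 0)) := rfl
theorem DA_2 (X Y : Fin 4 → ℝ) : DA X Y 2 =
    (X 1 - X 0) * (Y 3 - Y 0) - (Y 1 - Y 0) * (X 3 - X 0) := rfl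
theorem DA_3 (X Y : Fin 4 → ℝ) : DA X Y 3 =
    -((X 1 - X 0) * (Y 2 - Y 0) - (Y 1 - Y 0) * (X 2 - X 0)) := rfl

theorem dDA_0 (X Y U V : Fin 4 → ℝ) : dDA X Y U V 0 =
    (U 2 - U 1) * (Y 3 - Y 1) - (V 2 - V 1) * (X 3 - X 1) +
      ((X 2 - X 1) * (V 3 - V 1) - (Y 2 - Y 1) * (U 3 - U 1)) := rfl
theorem dDA_1 (X Y U V : Fin 4 → ℝ) : dDA X Y U V 1 =
    -((U 2 - U 0) * (Y 3 - Y 0) - (V 2 - V 0) * (X 3 - X 0) +
      ((X 2 - X 0) * (V 3 - V 0) - (Y 2 - Y 0) * (U 3 - U 0))) := rfl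
theorem dDA_2 (X Y U V : Fin 4 → ℝ) : dDA X Y U V 2 =
    (U 1 - U 0) * (Y 3 - Y 0) - (V 1 - V 0) * (X 3 - X 0) +
      ((X 1 - X 0) * (V 3 - V 0) - (Y 1 - Y 0) * (U 3 - U 0)) := rfl
theorem dDA_3 (X Y U V : Fin 4 → ℝ) : dDA X Y U V 3 =
    -((U 1 - U 0) * (Y 2 - Y 0) - (V 1 - V 0) * (X 2 - X 0) +
      ((X 1 - X 0) * (V 2 - V 0) - (Y 1 - Y 0) * (U 2 - U 0))) := rfl

theorem DA_sum (X Y : Fin 4 → ℝ) : DA X Y 0 + DA X Y 1 + DA X Y 2 + DA X Y 3 = 0 := by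
  rw [DA_0, DA_1, DA_2, DA_3]; ring

theorem DA_sumX (X Y : Fin 4 → ℝ) :
    DA X Y 0 * X 0 + DA X Y 1 * X 1 + DA X Y 2 * X 2 + DA X Y 3 * X 3 = 0 := by
  rw [DA_0, DA_1, DA_2, DA_3]; ring

theorem DA_sumY (X Y : Fin 4 → ℝ) :
    DA X Y 0 * Y 0 + DA X Y 1 * Y 1 + DA X Y 2 * Y 2 + DA X Y 3 * Y 3 = 0 := by
  rw [DA_0, DA_1, DA_2, DA_3]; ring

theorem dDA_sum (X Y U V : Fin 4 → ℝ) :
    dDA X Y U V 0 + dDA X Y U V 1 + dDA X Y U V 2 + dDA X Y U V 3 = 0 := by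
  rw [dDA_0, dDA_1, dDA_2, dDA_3]; ring

theorem dDA_sumX (X Y U V : Fin 4 → ℝ) :
    (dDA X Y U V 0 * X 0 + dDA X Y U V 1 * X 1 + dDA X Y U V 2 * X 2 + dDA X Y U V 3 * X 3) +
    (DA X Y 0 * U 0 + DA X Y 1 * U 1 + DA X Y 2 * U 2 + DA X Y 3 * U 3) = 0 := by
  rw [dDA_0, dDA_1, dDA_2, dDA_3, DA_0, DA_1, DA_2, DA_3]; ring

theorem dDA_sumY (X Y U V : Fin 4 → ℝ) :
    (dDA X Y U V 0 * Y 0 + dDA X Y U V 1 * Y 1 + dDA X Y U V 2 * Y 2 + dDA X Y U V 3 * Y 3) +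
    (DA X Y 0 * V 0 + DA X Y 1 * V 1 + DA X Y 2 * V 2 + DA X Y 3 * V 3) = 0 := by
  rw [dDA_0, dDA_1, dDA_2, dDA_3, DA_0, DA_1, DA_2, DA_3]; ring

theorem wD_rel (X Y : Fin 4 → ℝ) (w : Fin 4 → Fin 4 → ℝ)
    (hR : ∀ a, w a 0 * (X 0 - X a) + w a 1 * (X 1 - X a) + w a 2 * (X 2 - X a) +
      w a 3 * (X 3 - X a) = 0)
    (hI : ∀ a, w a 0 * (Y 0 - Y a) + w a 1 * (Y 1 - Y a) + w a 2 * (Y 2 - Y a) +
      w a 3 * (Y 3 - Y a) = 0) (a b d : Fin 4) (hab : a ≠ b) (hbd : b ≠ d) (had : a ≠ d) :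
    w a b * DA X Y d = w a d * DA X Y b := by
  have key : ∀ c : Fin 4, (Y c - Y a) * (w a 0 * (X 0 - X a) + w a 1 * (X 1 - X a) +
      w a 2 * (X 2 - X a) + w a 3 * (X 3 - X a)) - (X c - X a) * (w a 0 * (Y 0 - Y a) +
      w a 1 * (Y 1 - Y a) + w a 2 * (Y 2 - Y a) + w a 3 * (Y 3 - Y a)) = 0 := by
    intro c
    rw [hR a, hI a]
    ring
  have k0 := key 0
  have k1 := key 1
  have k2 := key 2
  have k3 := key 3
  fin_cases a <;> fin_cases b <;> fin_cases d <;>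
    first
    | exact absurd rfl hab
    | exact absurd rfl hbd
    | exact absurd rfl had
    | (simp only [Fin.zero_eta, Fin.mk_one, Fin.reduceFinMk, DA_0, DA_1, DA_2, DA_3] at *
       first
       | linear_combination k0
       | linear_combination k1
       | linear_combination k2
       | linear_combination k3
       | linear_combination (-1 : ℝ) * k0
       | linear_combination (-1 : ℝ) * k1
       | linear_combination (-1 : ℝ) * k2
       | linear_combination (-1 : ℝ) * k3)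

theorem wD_rel' (X Y U V : Fin 4 → ℝ) (w w' : Fin 4 → Fin 4 → ℝ)
    (hR : ∀ a, w a 0 * (X 0 - X a) + w a 1 * (X 1 - X a) + w a 2 * (X 2 - X a) +
      w a 3 * (X 3 - X a) = 0)
    (hI : ∀ a, w a 0 * (Y 0 - Y a) + w a 1 * (Y 1 - Y a) + w a 2 * (Y 2 - Y a) +
      w a 3 * (Y 3 - Y a) = 0)
    (hR' : ∀ a, (w a 0 * (U 0 - U a) + w a 1 * (U 1 - U a) + w a 2 * (U 2 - U a) +
      w a 3 * (U 3 - U a)) + (w' a 0 * (X 0 - X a) + w' a 1 * (X 1 - X a) +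
      w' a 2 * (X 2 - X a) + w' a 3 * (X 3 - X a)) = 0)
    (hI' : ∀ a, (w a 0 * (V 0 - V a) + w a 1 * (V 1 - V a) + w a 2 * (V 2 - V a) +
      w a 3 * (V 3 - V a)) + (w' a 0 * (Y 0 - Y a) + w' a 1 * (Y 1 - Y a) +
      w' a 2 * (Y 2 - Y a) + w' a 3 * (Y 3 - Y a)) = 0)
    (a b d : Fin 4) (hab : a ≠ b) (hbd : b ≠ d) (had : a ≠ d) :
    w' a b * DA X Y d + w a b * dDA X Y U V d = w' a d * DA X Y b + w a d * dDA X Y U V b := by
  have key : ∀ c : Fin 4, (Y c - Y a) * ((w a 0 * (U 0 - U a) + w a 1 * (U 1 - U a) +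
      w a 2 * (U 2 - U a) + w a 3 * (U 3 - U a)) + (w' a 0 * (X 0 - X a) + w' a 1 * (X 1 - X a) +
      w' a 2 * (X 2 - X a) + w' a 3 * (X 3 - X a))) -
      (X c - X a) * ((w a 0 * (V 0 - V a) + w a 1 * (V 1 - V a) + w a 2 * (V 2 - V a) +
      w a 3 * (V 3 - V a)) + (w' a 0 * (Y 0 - Y a) + w' a 1 * (Y 1 - Y a) +
      w' a 2 * (Y 2 - Y a) + w' a 3 * (Y 3 - Y a))) +
      (V c - V a) * (w a 0 * (X 0 - X a) + w a 1 * (X 1 - X a) +
      w a 2 * (X 2 - X a) + w a 3 * (X 3 - X a)) - (U c - U a) * (w a 0 * (Y 0 - Y a) +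
      w a 1 * (Y 1 - Y a) + w a 2 * (Y 2 - Y a) + w a 3 * (Y 3 - Y a)) = 0 := by
    intro c
    rw [hR a, hI a, hR' a, hI' a]
    ring
  have k0 := key 0
  have k1 := key 1
  have k2 := key 2
  have k3 := key 3
  clear hR hI hR' hI' key
  fin_cases a <;> fin_cases b <;> fin_cases d <;>
    first
    | exact absurd rfl hab
    | exact absurd rfl hbd
    | exact absurd rfl had
    | (simp only [Fin.zero_eta, Fin.mk_one, Fin.reduceFinMk, DA_0, DA_1, DA_2, DA_3,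
        dDA_0, dDA_1, dDA_2, dDA_3] at *
       first
       | linear_combination k0
       | linear_combination k1
       | linear_combination k2
       | linear_combination k3
       | linear_combination (-1 : ℝ) * k0
       | linear_combination (-1 : ℝ) * k1
       | linear_combination (-1 : ℝ) * k2
       | linear_combination (-1 : ℝ) * k3)

theorem const_lemma (f : Fin 4 → Fin 4 → ℝ) (hs : ∀ a b, f a b = f b a)
    (h : ∀ a b d, a ≠ b → b ≠ d → a ≠ d → f a b = f a d) (a b : Fin 4) (hab : a ≠ b) :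
    f a b = f 0 1 := by
  have h0 : ∀ b : Fin 4, b ≠ 0 → f 0 b = f 0 1 := by
    intro b hb
    by_cases h1 : b = 1
    · rw [h1]
    · exact h 0 b 1 (Ne.symm hb) h1 (by decide)
  by_cases ha : a = 0
  · subst ha
    exact h0 b (Ne.symm hab)
  by_cases hb : b = 0
  · subst hb
    rw [hs]
    exact h0 a ha
  · rw [h a b 0 hab hb ha, hs]
    exact h0 a ha

theorem circle_line {ax ay bx by' cx cy px py : ℝ}
    (h1 : (ax - px) ^ 2 + (ay - py) ^ 2 = (bx - px) ^ 2 + (by' - py) ^ 2)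
    (h2 : (ax - px) ^ 2 + (ay - py) ^ 2 = (cx - px) ^ 2 + (cy - py) ^ 2)
    (h3 : (bx - ax) * (cy - ay) - (by' - ay) * (cx - ax) = 0)
    (hab : 0 < (ax - bx) ^ 2 + (ay - by') ^ 2) (hac : 0 < (ax - cx) ^ 2 + (ay - cy) ^ 2)
    (hbc : 0 < (bx - cx) ^ 2 + (by' - cy) ^ 2) : False := by
  obtain ⟨ux, hux⟩ : ∃ ux, ux = bx - ax := ⟨_, rfl⟩
  obtain ⟨uy, huy⟩ : ∃ uy, uy = by' - ay := ⟨_, rfl⟩
  obtain ⟨vx, hvx⟩ : ∃ vx, vx = cx - ax := ⟨_, rfl⟩
  obtain ⟨vy, hvy⟩ : ∃ vy, vy = cy - ay := ⟨_, rfl⟩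
  obtain ⟨sx, hsx⟩ : ∃ sx, sx = px - ax := ⟨_, rfl⟩
  obtain ⟨sy, hsy⟩ : ∃ sy, sy = py - ay := ⟨_, rfl⟩
  have e1 : ux ^ 2 + uy ^ 2 = 2 * (ux * sx + uy * sy) := by
    rw [hux, huy, hsx, hsy]; linear_combination (-1 : ℝ) * h1
  have e2 : vx ^ 2 + vy ^ 2 = 2 * (vx * sx + vy * sy) := by
    rw [hvx, hvy, hsx, hsy]; linear_combination (-1 : ℝ) * h2
  have e3 : ux * vy - uy * vx = 0 := by rw [hux, huy, hvx, hvy]; linear_combination h3
  have p1 : 0 < ux ^ 2 + uy ^ 2 := by rw [hux, huy]; linarith [hab, sq_nonneg (ax - bx)]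
  have p2 : 0 < vx ^ 2 + vy ^ 2 := by rw [hvx, hvy]; linarith [hac, sq_nonneg (ax - bx)]
  have p3 : 0 < (ux - vx) ^ 2 + (uy - vy) ^ 2 := by
    rw [hux, huy, hvx, hvy]
    have : (bx - ax - (cx - ax)) ^ 2 + (by' - ay - (cy - ay)) ^ 2 =
      (bx - cx) ^ 2 + (by' - cy) ^ 2 := by ring
    rw [this]; exact hbc
  set N := ux ^ 2 + uy ^ 2 with hN
  set K := ux * vx + uy * vy with hK
  have f1 : N * vx = K * ux := by rw [hN, hK]; linear_combination (-uy) * e3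
  have f2 : N * vy = K * uy := by rw [hN, hK]; linear_combination ux * e3
  have f3 : N * (vx ^ 2 + vy ^ 2) = K * N := by
    have : N * (vx ^ 2 + vy ^ 2) = K * (2 * (ux * sx + uy * sy)) := by
      rw [e2]
      linear_combination 2 * sx * f1 + 2 * sy * f2
    rw [this, ← e1]
  have f4 : vx ^ 2 + vy ^ 2 = K := by
    have : N * (vx ^ 2 + vy ^ 2) = N * K := by rw [f3]; ring
    exact mul_left_cancel₀ p1.ne' this
  have f5 : N * K = K * K := by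
    have h5 : N * (N * K) = N * (K * K) := by
      rw [← f4]
      have e5 : N * (N * (vx ^ 2 + vy ^ 2)) = (N * vx) ^ 2 + (N * vy) ^ 2 := by ring
      have e6 : N * ((vx ^ 2 + vy ^ 2) * (vx ^ 2 + vy ^ 2)) =
          K ^ 2 * N := by
        rw [f4]
        ring
      rw [e5, f1, f2, e6]
      rw [hN]
      ring
    exact mul_left_cancel₀ p1.ne' h5
  have hK0 : 0 < K := by rw [← f4]; exact p2
  have f6 : N = K := mul_right_cancel₀ hK0.ne' f5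
  have g1 : vx = ux := by
    rw [f6] at f1
    exact mul_left_cancel₀ hK0.ne' f1
  have g2 : vy = uy := by
    rw [f6] at f2
    exact mul_left_cancel₀ hK0.ne' f2
  rw [g1, g2] at p3
  simp at p3

theorem sum_DD (D X Y : Fin 4 → ℝ) (h0 : D 0 + D 1 + D 2 + D 3 = 0)
    (hX : D 0 * X 0 + D 1 * X 1 + D 2 * X 2 + D 3 * X 3 = 0)
    (hY : D 0 * Y 0 + D 1 * Y 1 + D 2 * Y 2 + D 3 * Y 3 = 0) (ρ : ℝ) (hρ : ρ ≠ 0)
    (hneg : ∀ a b, a ≠ b → D a * D b * (((X a - X b) ^ 2 + (Y a - Y b) ^ 2) - ρ ^ 2) ≤ 0)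
    (hD : ∃ a, D a ≠ 0) : False := by
  have h01 := hneg 0 1 (by decide)
  have h02 := hneg 0 2 (by decide)
  have h03 := hneg 0 3 (by decide)
  have h12 := hneg 1 2 (by decide)
  have h13 := hneg 1 3 (by decide)
  have h23 := hneg 2 3 (by decide)
  have e : D 0 * D 1 * (((X 0 - X 1) ^ 2 + (Y 0 - Y 1) ^ 2) - ρ ^ 2) +
      D 0 * D 2 * (((X 0 - X 2) ^ 2 + (Y 0 - Y 2) ^ 2) - ρ ^ 2) +
      D 0 * D 3 * (((X 0 - X 3) ^ 2 + (Y 0 - Y 3) ^ 2) - ρ ^ 2) +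
      D 1 * D 2 * (((X 1 - X 2) ^ 2 + (Y 1 - Y 2) ^ 2) - ρ ^ 2) +
      D 1 * D 3 * (((X 1 - X 3) ^ 2 + (Y 1 - Y 3) ^ 2) - ρ ^ 2) +
      D 2 * D 3 * (((X 2 - X 3) ^ 2 + (Y 2 - Y 3) ^ 2) - ρ ^ 2) =
      ρ ^ 2 / 2 * (D 0 ^ 2 + D 1 ^ 2 + D 2 ^ 2 + D 3 ^ 2) := by
    linear_combination (D 0 * (X 0 ^ 2 + Y 0 ^ 2) + D 1 * (X 1 ^ 2 + Y 1 ^ 2) +
      D 2 * (X 2 ^ 2 + Y 2 ^ 2) + D 3 * (X 3 ^ 2 + Y 3 ^ 2)) * h0 -
      (D 0 * X 0 + D 1 * X 1 + D 2 * X 2 + D 3 * X 3) * hX -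
      (D 0 * Y 0 + D 1 * Y 1 + D 2 * Y 2 + D 3 * Y 3) * hY -
      ρ ^ 2 / 2 * (D 0 + D 1 + D 2 + D 3) * h0
  have hρ2 : 0 < ρ ^ 2 := by positivity
  have hpos : 0 < D 0 ^ 2 + D 1 ^ 2 + D 2 ^ 2 + D 3 ^ 2 := by
    obtain ⟨a, ha⟩ := hD
    have ha2 : 0 < D a ^ 2 := by positivity
    fin_cases a
    · have : 0 < D 0 ^ 2 := ha2
      nlinarith [sq_nonneg (D 1), sq_nonneg (D 2), sq_nonneg (D 3)]
    · have : 0 < D 1 ^ 2 := ha2
      nlinarith [sq_nonneg (D 0), sq_nonneg (D 2), sq_nonneg (D 3)]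
    · have : 0 < D 2 ^ 2 := ha2
      nlinarith [sq_nonneg (D 1), sq_nonneg (D 0), sq_nonneg (D 3)]
    · have : 0 < D 3 ^ 2 := ha2
      nlinarith [sq_nonneg (D 1), sq_nonneg (D 2), sq_nonneg (D 0)]
  have : 0 < ρ ^ 2 / 2 * (D 0 ^ 2 + D 1 ^ 2 + D 2 ^ 2 + D 3 ^ 2) := by positivity
  linarith

/-- sums `∑ D_b |q_a - q_b|²` do not depend on `a` -/
theorem sum_Dr (D X Y : Fin 4 → ℝ) (h0 : D 0 + D 1 + D 2 + D 3 = 0)
    (hX : D 0 * X 0 + D 1 * X 1 + D 2 * X 2 + D 3 * X 3 = 0)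
    (hY : D 0 * Y 0 + D 1 * Y 1 + D 2 * Y 2 + D 3 * Y 3 = 0) (x y : ℝ) :
    D 0 * ((x - X 0) ^ 2 + (y - Y 0) ^ 2) + D 1 * ((x - X 1) ^ 2 + (y - Y 1) ^ 2) +
      D 2 * ((x - X 2) ^ 2 + (y - Y 2) ^ 2) + D 3 * ((x - X 3) ^ 2 + (y - Y 3) ^ 2) =
    D 0 * (X 0 ^ 2 + Y 0 ^ 2) + D 1 * (X 1 ^ 2 + Y 1 ^ 2) +
      D 2 * (X 2 ^ 2 + Y 2 ^ 2) + D 3 * (X 3 ^ 2 + Y 3 ^ 2) := by
  linear_combination (x ^ 2 + y ^ 2) * h0 - 2 * x * hX - 2 * y * hY

theorem sum_dDr (D D' X Y U V : Fin 4 → ℝ) (h0 : D 0 + D 1 + D 2 + D 3 = 0)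
    (hX : D 0 * X 0 + D 1 * X 1 + D 2 * X 2 + D 3 * X 3 = 0)
    (hY : D 0 * Y 0 + D 1 * Y 1 + D 2 * Y 2 + D 3 * Y 3 = 0)
    (h0' : D' 0 + D' 1 + D' 2 + D' 3 = 0)
    (hX' : (D' 0 * X 0 + D' 1 * X 1 + D' 2 * X 2 + D' 3 * X 3) +
      (D 0 * U 0 + D 1 * U 1 + D 2 * U 2 + D 3 * U 3) = 0)
    (hY' : (D' 0 * Y 0 + D' 1 * Y 1 + D' 2 * Y 2 + D' 3 * Y 3) +
      (D 0 * V 0 + D 1 * V 1 + D 2 * V 2 + D 3 * V 3) = 0) (x y u v : ℝ) :
    (D' 0 * ((x - X 0) ^ 2 + (y - Y 0) ^ 2) + D' 1 * ((x - X 1) ^ 2 + (y - Y 1) ^ 2) +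
      D' 2 * ((x - X 2) ^ 2 + (y - Y 2) ^ 2) + D' 3 * ((x - X 3) ^ 2 + (y - Y 3) ^ 2)) +
    2 * (D 0 * ((x - X 0) * (u - U 0) + (y - Y 0) * (v - V 0)) +
      D 1 * ((x - X 1) * (u - U 1) + (y - Y 1) * (v - V 1)) +
      D 2 * ((x - X 2) * (u - U 2) + (y - Y 2) * (v - V 2)) +
      D 3 * ((x - X 3) * (u - U 3) + (y - Y 3) * (v - V 3))) =
    (D' 0 * (X 0 ^ 2 + Y 0 ^ 2) + D' 1 * (X 1 ^ 2 + Y 1 ^ 2) +
      D' 2 * (X 2 ^ 2 + Y 2 ^ 2) + D' 3 * (X 3 ^ 2 + Y 3 ^ 2)) +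
    2 * (D 0 * (X 0 * U 0 + Y 0 * V 0) + D 1 * (X 1 * U 1 + Y 1 * V 1) +
      D 2 * (X 2 * U 2 + Y 2 * V 2) + D 3 * (X 3 * U 3 + Y 3 * V 3)) := by
  linear_combination (x ^ 2 + y ^ 2) * h0' - 2 * x * hX' - 2 * y * hY' +
    2 * (x * u + y * v) * h0 - 2 * u * hX - 2 * v * hY

theorem collinear_of_DA (q : Fin 4 → ℂ) (hq : q 0 ≠ q 1) (X Y : Fin 4 → ℝ)
    (hX : ∀ a, X a = (q a).re) (hY : ∀ a, Y a = (q a).im) (h2 : DA X Y 2 = 0)
    (h3 : DA X Y 3 = 0) : Collinear ℝ (Set.range q) := by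
  have hpos : 0 < (X 1 - X 0) ^ 2 + (Y 1 - Y 0) ^ 2 := by
    by_contra hcon
    push Not at hcon
    have e1 : X 1 - X 0 = 0 := by
      have : (X 1 - X 0) ^ 2 = 0 := le_antisymm (by nlinarith [sq_nonneg (Y 1 - Y 0)]) (sq_nonneg _)
      exact pow_eq_zero_iff (two_ne_zero) |>.1 this
    have e2 : Y 1 - Y 0 = 0 := by
      have : (Y 1 - Y 0) ^ 2 = 0 := le_antisymm (by nlinarith [sq_nonneg (X 1 - X 0)]) (sq_nonneg _)
      exact pow_eq_zero_iff (two_ne_zero) |>.1 this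
    apply hq
    apply Complex.ext
    · rw [← hX, ← hX]; linarith
    · rw [← hY, ← hY]; linarith
  rw [DA_2] at h2
  rw [DA_3] at h3
  have key : ∀ x y : ℝ, (X 1 - X 0) * (y - Y 0) - (Y 1 - Y 0) * (x - X 0) = 0 →
      ∃ t : ℝ, x = t * (X 1 - X 0) + X 0 ∧ y = t * (Y 1 - Y 0) + Y 0 := by
    intro x y hxy
    refine ⟨((x - X 0) * (X 1 - X 0) + (y - Y 0) * (Y 1 - Y 0)) /
      ((X 1 - X 0) ^ 2 + (Y 1 - Y 0) ^ 2), ?_, ?_⟩
    · field_simp
      linear_combination (-(Y 1 - Y 0)) * hxy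
    · field_simp
      linear_combination (X 1 - X 0) * hxy
  rw [collinear_iff_of_mem (p₀ := q 0) (Set.mem_range_self 0)]
  refine ⟨q 1 - q 0, ?_⟩
  have fin : ∀ a, (∃ t : ℝ, X a = t * (X 1 - X 0) + X 0 ∧ Y a = t * (Y 1 - Y 0) + Y 0) →
      ∃ t : ℝ, q a = t • (q 1 - q 0) +ᵥ q 0 := by
    rintro a ⟨t, h1, h2⟩
    refine ⟨t, ?_⟩
    apply Complex.ext
    · rw [vadd_eq_add, Complex.add_re, Complex.real_smul, Complex.re_ofReal_mul, Complex.sub_re,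
        ← hX, ← hX, ← hX, h1]
    · rw [vadd_eq_add, Complex.add_im, Complex.real_smul, Complex.im_ofReal_mul, Complex.sub_im,
        ← hY, ← hY, ← hY, h2]
  rintro _ ⟨a, rfl⟩
  apply fin
  fin_cases a
  · exact ⟨0, by simp, by simp⟩
  · exact ⟨1, by simp, by simp⟩
  · exact key (X 2) (Y 2) (by linarith)
  · exact key (X 3) (Y 3) (by linarith)

theorem DA_ne_zero (X Y : Fin 4 → ℝ) (w : Fin 4 → Fin 4 → ℝ)
    (hpos : ∀ a b, a ≠ b → 0 < (X a - X b) ^ 2 + (Y a - Y b) ^ 2)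
    (hrel : ∀ a b d, a ≠ b → b ≠ d → a ≠ d → w a b * DA X Y d = w a d * DA X Y b)
    (hw : ∀ a b d, a ≠ d → b ≠ d → w a d = 0 → w b d = 0 →
      (X a - X d) ^ 2 + (Y a - Y d) ^ 2 = (X b - X d) ^ 2 + (Y b - Y d) ^ 2)
    (hex : ∃ a, DA X Y a ≠ 0) (d : Fin 4) : DA X Y d ≠ 0 := by
  intro hd
  have hsum := DA_sum X Y
  have hw0 : ∀ a, a ≠ d → w a d = 0 := by
    intro a had
    have hb : ∃ b, b ≠ a ∧ b ≠ d ∧ DA X Y b ≠ 0 := by
      by_contra hcon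
      push Not at hcon
      have hDa : DA X Y a = 0 := by
        have e : DA X Y a + ∑ b ∈ Finset.univ.erase a, DA X Y b = 0 := by
          rw [Finset.add_sum_erase _ _ (Finset.mem_univ a), Fin.sum_univ_four]
          exact hsum
        rw [Finset.sum_eq_zero, add_zero] at e
        · exact e
        · intro b hb
          by_cases hbd : b = d
          · rw [hbd]; exact hd
          · exact hcon b (Finset.ne_of_mem_erase hb) hbd
      obtain ⟨b, hb⟩ := hex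
      by_cases h1 : b = a
      · rw [h1] at hb; exact hb hDa
      · by_cases h2 : b = d
        · rw [h2] at hb; exact hb hd
        · exact hb (hcon b h1 h2)
    obtain ⟨b, hba, hbd, hb⟩ := hb
    have := hrel a b d (Ne.symm hba) hbd had
    rw [hd, mul_zero] at this
    exact (mul_eq_zero.1 this.symm).resolve_right hb
  have heq : ∀ a b, a ≠ d → b ≠ d →
      (X a - X d) ^ 2 + (Y a - Y d) ^ 2 = (X b - X d) ^ 2 + (Y b - Y d) ^ 2 :=
    fun a b ha hb => hw a b d ha hb (hw0 a ha) (hw0 b hb)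
  fin_cases d
  · exact circle_line (heq 1 2 (by decide) (by decide)) (heq 1 3 (by decide) (by decide)) hd
      (hpos 1 2 (by decide)) (hpos 1 3 (by decide)) (hpos 2 3 (by decide))
  · have hd' : -((X 2 - X 0) * (Y 3 - Y 0) - (Y 2 - Y 0) * (X 3 - X 0)) = 0 := hd
    exact circle_line (heq 0 2 (by decide) (by decide)) (heq 0 3 (by decide) (by decide))
      (neg_eq_zero.1 hd') (hpos 0 2 (by decide)) (hpos 0 3 (by decide)) (hpos 2 3 (by decide))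
  · exact circle_line (heq 0 1 (by decide) (by decide)) (heq 0 3 (by decide) (by decide)) hd
      (hpos 0 1 (by decide)) (hpos 0 3 (by decide)) (hpos 1 3 (by decide))
  · have hd' : -((X 1 - X 0) * (Y 2 - Y 0) - (Y 1 - Y 0) * (X 2 - X 0)) = 0 := hd
    exact circle_line (heq 0 1 (by decide) (by decide)) (heq 0 2 (by decide) (by decide))
      (neg_eq_zero.1 hd') (hpos 0 1 (by decide)) (hpos 0 2 (by decide)) (hpos 1 2 (by decide))

/-- infinitesimal rigidity of a nondegenerate configuration -/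
theorem trivial_of_ip (q v : Fin 4 → ℂ) (X Y U V : Fin 4 → ℝ)
    (hX : ∀ a, X a = (q a).re) (hY : ∀ a, Y a = (q a).im) (hU : ∀ a, U a = (v a).re)
    (hV : ∀ a, V a = (v a).im)
    (hpos : 0 < (X 1 - X 0) ^ 2 + (Y 1 - Y 0) ^ 2)
    (hip : ∀ a b, a ≠ b → (X a - X b) * (U a - U b) + (Y a - Y b) * (V a - V b) = 0)
    (h2 : DA X Y 2 ≠ 0) (h3 : DA X Y 3 ≠ 0) : TrivialMotion q v := by
  obtain ⟨θ, e1, e2⟩ : ∃ θ : ℝ, U 1 - U 0 = -θ * (Y 1 - Y 0) ∧ V 1 - V 0 = θ * (X 1 - X 0) := by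
    have h10 := hip 1 0 (by decide)
    refine ⟨((X 1 - X 0) * (V 1 - V 0) - (Y 1 - Y 0) * (U 1 - U 0)) /
      ((X 1 - X 0) ^ 2 + (Y 1 - Y 0) ^ 2), ?_, ?_⟩
    · field_simp
      linear_combination (X 1 - X 0) * h10
    · field_simp
      linear_combination (Y 1 - Y 0) * h10
  -- a vector orthogonal to two independent vectors vanishes
  have key : ∀ a : Fin 4, a ≠ 0 → a ≠ 1 →
      (X 1 - X 0) * (Y a - Y 0) - (Y 1 - Y 0) * (X a - X 0) ≠ 0 →
      U a - U 0 = -θ * (Y a - Y 0) ∧ V a - V 0 = θ * (X a - X 0) := by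
    intro a ha0 ha1 hne
    have f0 := hip a 0 ha0
    have f1 := hip a 1 ha1
    obtain ⟨p, hp⟩ : ∃ p, p = U a - U 0 + θ * (Y a - Y 0) := ⟨_, rfl⟩
    obtain ⟨r, hr⟩ : ∃ r, r = V a - V 0 - θ * (X a - X 0) := ⟨_, rfl⟩
    have g0 : (X a - X 0) * p + (Y a - Y 0) * r = 0 := by
      rw [hp, hr]
      linear_combination f0
    have g1 : (X a - X 1) * p + (Y a - Y 1) * r = 0 := by
      rw [hp, hr]
      linear_combination f1 + (X a - X 1) * e1 + (Y a - Y 1) * e2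
    have g2 : (X 1 - X 0) * p + (Y 1 - Y 0) * r = 0 := by linear_combination g0 - g1
    have g3 : ((X 1 - X 0) * (Y a - Y 0) - (Y 1 - Y 0) * (X a - X 0)) * p = 0 := by
      linear_combination (Y a - Y 0) * g2 - (Y 1 - Y 0) * g0
    have g4 : ((X 1 - X 0) * (Y a - Y 0) - (Y 1 - Y 0) * (X a - X 0)) * r = 0 := by
      linear_combination (X 1 - X 0) * g0 - (X a - X 0) * g2
    have g5 := (mul_eq_zero.1 g3).resolve_left hne
    have g6 := (mul_eq_zero.1 g4).resolve_left hne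
    constructor
    · linarith
    · linarith
  have all : ∀ a : Fin 4, U a - U 0 = -θ * (Y a - Y 0) ∧ V a - V 0 = θ * (X a - X 0) := by
    intro a
    fin_cases a
    · exact ⟨by simp, by simp⟩
    · exact ⟨e1, e2⟩
    · exact key 2 (by decide) (by decide) (by
        intro h
        apply h3
        rw [DA_3]
        linarith)
    · exact key 3 (by decide) (by decide) (by
        intro h
        apply h2
        rw [DA_2]
        linarith)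
  refine ⟨θ, v 0 - θ * I * q 0, fun a => ?_⟩
  obtain ⟨b1, b2⟩ := all a
  apply Complex.ext
  · simp only [Complex.add_re, Complex.sub_re, Complex.mul_re, Complex.ofReal_re, Complex.I_re,
      Complex.ofReal_im, Complex.I_im, Complex.mul_im, mul_zero, mul_one, zero_mul, sub_zero,
      zero_sub, add_zero, zero_add, ← hX, ← hY, ← hU, ← hV]
    linarith
  · simp only [Complex.add_im, Complex.sub_im, Complex.mul_re, Complex.ofReal_re, Complex.I_re,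
      Complex.ofReal_im, Complex.I_im, Complex.mul_im, mul_zero, mul_one, zero_mul, sub_zero,
      zero_sub, add_zero, zero_add, ← hX, ← hY, ← hU, ← hV]
    linarith

/-- TARGET -/
theorem noncollinear_reduction (m : Fin 4 → ℝ) (hm : ∀ a, 0 < m a) (lam : ℝ) (hlam : 0 < lam)
    (q v : Fin 4 → ℂ) (hq : CollisionFree q) (hcc : ccEq m lam q) (hlin : linEq m lam q v)
    (htriv : ¬ TrivialMotion q v) (hnc : ¬ Collinear ℝ (Set.range q)) :
    ∃ (z ζ : Fin 4 → ℝ) (r : Fin 4 → Fin 4 → ℝ),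
      (∀ a b, r a b = r b a) ∧
      (∀ a b, a ≠ b → 0 < r a b ∧ r a b ^ 3 * (1 - z a * z b) = 1) ∧
      (∀ a b c, a ≠ b → b ≠ c → a ≠ c → r a c ≤ r a b + r b c) ∧
      (∀ a, z a ≠ 0) ∧
      (∑ a, m a * z a = 0) ∧
      (∃ c, ∀ a, ∑ b ∈ Finset.univ.erase a, m b * z b * r a b ^ 2 = c) ∧
      ζ ≠ 0 ∧
      (∑ a, m a * ζ a = 0) ∧
      (∃ c, ∀ a, ∑ b ∈ Finset.univ.erase a,
        m b * (ζ b * r a b ^ 2 + z b * (2 / 3) * r a b ^ 5 * (ζ a * z b + z a * ζ b)) = c) := by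
  classical
  obtain ⟨X, hX⟩ : ∃ X : Fin 4 → ℝ, ∀ a, X a = (q a).re := ⟨_, fun _ => rfl⟩
  obtain ⟨Y, hY⟩ : ∃ Y : Fin 4 → ℝ, ∀ a, Y a = (q a).im := ⟨_, fun _ => rfl⟩
  obtain ⟨U, hU⟩ : ∃ U : Fin 4 → ℝ, ∀ a, U a = (v a).re := ⟨_, fun _ => rfl⟩
  obtain ⟨V, hV⟩ : ∃ V : Fin 4 → ℝ, ∀ a, V a = (v a).im := ⟨_, fun _ => rfl⟩
  obtain ⟨R, hR⟩ : ∃ R : Fin 4 → Fin 4 → ℝ, ∀ a b, R a b = ‖q a - q b‖ := ⟨_, fun _ _ => rfl⟩
  have hR2 : ∀ a b, R a b ^ 2 = (X a - X b) ^ 2 + (Y a - Y b) ^ 2 := by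
    intro a b
    rw [hR, ← Complex.normSq_eq_norm_sq, Complex.normSq_apply, Complex.sub_re, Complex.sub_im,
      hX, hX, hY, hY]
    ring
  have hRs : ∀ a b, R a b = R b a := fun a b => by rw [hR, hR, norm_sub_rev]
  have hR0 : ∀ a, R a a = 0 := fun a => by rw [hR, sub_self, norm_zero]
  have hRp : ∀ a b, a ≠ b → 0 < R a b := fun a b hab => by
    rw [hR, norm_pos_iff, sub_ne_zero]
    exact hq a b hab
  have hpos2 : ∀ a b, a ≠ b → 0 < (X a - X b) ^ 2 + (Y a - Y b) ^ 2 := fun a b hab => by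
    rw [← hR2]
    have := hRp a b hab
    positivity
  have hip : ∀ a b, ip (q a - q b) (v a - v b) =
      (X a - X b) * (U a - U b) + (Y a - Y b) * (V a - V b) := by
    intro a b
    unfold ip
    rw [Complex.sub_re, Complex.sub_im, Complex.sub_re, Complex.sub_im, hX, hX, hY, hY, hU, hU,
      hV, hV]
  obtain ⟨S, hS⟩ : ∃ S : Fin 4 → Fin 4 → ℝ, ∀ a b, S a b = 1 / R a b ^ 3 - lam :=
    ⟨_, fun _ _ => rfl⟩
  obtain ⟨S', hS'⟩ : ∃ S' : Fin 4 → Fin 4 → ℝ, ∀ a b, S' a b =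
      -3 * ((X a - X b) * (U a - U b) + (Y a - Y b) * (V a - V b)) / R a b ^ 5 :=
    ⟨_, fun _ _ => rfl⟩
  obtain ⟨w, hw⟩ : ∃ w : Fin 4 → Fin 4 → ℝ, ∀ a b, w a b = m a * m b * S a b :=
    ⟨_, fun _ _ => rfl⟩
  obtain ⟨w', hw'⟩ : ∃ w' : Fin 4 → Fin 4 → ℝ, ∀ a b, w' a b = m a * m b * S' a b :=
    ⟨_, fun _ _ => rfl⟩
  -- rows of the equations
  have rowX : ∀ a, w a 0 * (X 0 - X a) + w a 1 * (X 1 - X a) + w a 2 * (X 2 - X a) +
      w a 3 * (X 3 - X a) = 0 := by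
    intro a
    have h := congrArg Complex.re (hcc a)
    simp only [Fin.sum_univ_four, Complex.add_re, Complex.re_ofReal_mul, Complex.sub_re,
      Complex.zero_re, ← hX, ← hR] at h
    simp only [hw, hS]
    linear_combination (m a) * h
  have rowY : ∀ a, w a 0 * (Y 0 - Y a) + w a 1 * (Y 1 - Y a) + w a 2 * (Y 2 - Y a) +
      w a 3 * (Y 3 - Y a) = 0 := by
    intro a
    have h := congrArg Complex.im (hcc a)
    simp only [Fin.sum_univ_four, Complex.add_im, Complex.im_ofReal_mul, Complex.sub_im,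
      Complex.zero_im, ← hY, ← hR] at h
    simp only [hw, hS]
    linear_combination (m a) * h
  have rowX' : ∀ a, (w a 0 * (U 0 - U a) + w a 1 * (U 1 - U a) + w a 2 * (U 2 - U a) +
      w a 3 * (U 3 - U a)) + (w' a 0 * (X 0 - X a) + w' a 1 * (X 1 - X a) +
      w' a 2 * (X 2 - X a) + w' a 3 * (X 3 - X a)) = 0 := by
    intro a
    have h := congrArg Complex.re (hlin a)
    simp only [Complex.add_re, Complex.re_ofReal_mul, Complex.sub_re,
      Complex.zero_re, Fin.sum_univ_four, hip, ← hX, ← hU, ← hR] at h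
    simp only [hw, hS, hw', hS']
    linear_combination (m a) * h
  have rowY' : ∀ a, (w a 0 * (V 0 - V a) + w a 1 * (V 1 - V a) + w a 2 * (V 2 - V a) +
      w a 3 * (V 3 - V a)) + (w' a 0 * (Y 0 - Y a) + w' a 1 * (Y 1 - Y a) +
      w' a 2 * (Y 2 - Y a) + w' a 3 * (Y 3 - Y a)) = 0 := by
    intro a
    have h := congrArg Complex.im (hlin a)
    simp only [Complex.add_im, Complex.im_ofReal_mul, Complex.sub_im,
      Complex.zero_im, Fin.sum_univ_four, hip, ← hY, ← hV, ← hR] at h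
    simp only [hw, hS, hw', hS']
    linear_combination (m a) * h
  have hrel := wD_rel X Y w rowX rowY
  have hrel' := wD_rel' X Y U V w w' rowX rowY rowX' rowY'
  have hws : ∀ a b, w a b = w b a := fun a b => by rw [hw, hw, hS, hS, hRs a b]; ring
  have hws' : ∀ a b, w' a b = w' b a := fun a b => by rw [hw', hw', hS', hS', hRs a b]; ring
  -- the areas do not vanish
  have hD : ∀ d, DA X Y d ≠ 0 := by
    refine DA_ne_zero X Y w hpos2 hrel ?_ ?_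
    · intro a b d had hbd ha hb
      rw [hw] at ha hb
      have ha' : S a d = 0 := (mul_eq_zero.1 ha).resolve_left (mul_pos (hm a) (hm d)).ne'
      have hb' : S b d = 0 := (mul_eq_zero.1 hb).resolve_left (mul_pos (hm b) (hm d)).ne'
      rw [hS] at ha' hb'
      have h1 : R a d ^ 3 = R b d ^ 3 := by
        have e1 : 1 / R a d ^ 3 = 1 / R b d ^ 3 := by linarith
        have p1 : 0 < R a d ^ 3 := pow_pos (hRp a d had) 3
        have p2 : 0 < R b d ^ 3 := pow_pos (hRp b d hbd) 3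
        rw [div_eq_div_iff p1.ne' p2.ne'] at e1
        linarith
      have h2 : R a d = R b d :=
        (pow_left_inj₀ (hRp a d had).le (hRp b d hbd).le (by norm_num)).1 h1
      rw [← hR2, ← hR2, h2]
    · by_contra hcon
      push Not at hcon
      exact hnc (collinear_of_DA q (hq 0 1 (by decide)) X Y hX hY (hcon 2) (hcon 3))
  obtain ⟨D, hDdef⟩ : ∃ D : Fin 4 → ℝ, ∀ a, D a = DA X Y a := ⟨_, fun _ => rfl⟩
  obtain ⟨D', hD'def⟩ : ∃ D' : Fin 4 → ℝ, ∀ a, D' a = dDA X Y U V a := ⟨_, fun _ => rfl⟩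
  have sD := DA_sum X Y
  have sDX := DA_sumX X Y
  have sDY := DA_sumY X Y
  have sD' := dDA_sum X Y U V
  have sDX' := dDA_sumX X Y U V
  have sDY' := dDA_sumY X Y U V
  have hD2 := hD 2
  have hD3 := hD 3
  simp only [← hDdef, ← hD'def] at hrel hrel' hD sD sDX sDY sD' sDX' sDY'
  -- κ
  obtain ⟨κ, hκ⟩ : ∃ κ : ℝ, ∀ a b, a ≠ b → w a b = κ * (D a * D b) := by
    refine ⟨w 0 1 / (D 0 * D 1), fun a b hab => ?_⟩
    have h1 := const_lemma (fun a b => w a b / (D a * D b))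
      (fun a b => by rw [hws, mul_comm (D a)])
      (fun a b d h1 h2 h3 => by
        rw [div_eq_div_iff (mul_ne_zero (hD _) (hD _)) (mul_ne_zero (hD _) (hD _))]
        linear_combination (D a) * hrel a b d h1 h2 h3) a b hab
    rw [← h1, div_mul_cancel₀ _ (mul_ne_zero (hD _) (hD _))]
  have hSκ : ∀ a b, a ≠ b → S a b = κ * (D a * D b) / (m a * m b) := by
    intro a b hab
    rw [eq_div_iff (mul_pos (hm a) (hm b)).ne', ← hκ a b hab, hw]
    ring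
  have hκneg : κ < 0 := by
    by_contra hcon
    push Not at hcon
    obtain ⟨ρ, hρ0, hρ3⟩ : ∃ ρ : ℝ, 0 < ρ ∧ ρ ^ 3 = 1 / lam := by
      refine ⟨(1 / lam) ^ ((3 : ℕ) : ℝ)⁻¹, Real.rpow_pos_of_pos (by positivity) _, ?_⟩
      exact Real.rpow_inv_natCast_pow (by positivity) (by norm_num)
    refine sum_DD D X Y sD sDX sDY ρ hρ0.ne' ?_ ⟨0, hD 0⟩
    intro a b hab
    rw [← hR2]
    have hRab := hRp a b hab
    have h1 : 0 ≤ D a * D b * S a b := by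
      rw [hSκ a b hab]
      have := mul_pos (hm a) (hm b)
      have e : D a * D b * (κ * (D a * D b) / (m a * m b)) =
          κ * (D a * D b) ^ 2 / (m a * m b) := by ring
      rw [e]
      positivity
    have hlamρ : lam = 1 / ρ ^ 3 := by rw [hρ3]; field_simp
    rw [hS, hlamρ] at h1
    rcases lt_trichotomy (R a b) ρ with h | h | h
    · have h2 : 1 / ρ ^ 3 < 1 / R a b ^ 3 := by
        apply one_div_lt_one_div_of_lt (by positivity)
        exact pow_lt_pow_left₀ h hRab.le (by norm_num)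
      have h3 : 0 ≤ D a * D b := by
        by_contra hc
        push Not at hc
        nlinarith
      have h4 : R a b ^ 2 ≤ ρ ^ 2 := pow_le_pow_left₀ hRab.le h.le 2
      nlinarith
    · rw [h, sub_self, mul_zero]
    · have h2 : 1 / R a b ^ 3 < 1 / ρ ^ 3 := by
        apply one_div_lt_one_div_of_lt (by positivity)
        exact pow_lt_pow_left₀ h hρ0.le (by norm_num)
      have h3 : D a * D b ≤ 0 := by
        by_contra hc
        push Not at hc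
        nlinarith
      have h4 : ρ ^ 2 ≤ R a b ^ 2 := pow_le_pow_left₀ hρ0.le h.le 2
      nlinarith
  -- τ
  have hw0 : ∀ a b, a ≠ b → w a b ≠ 0 := fun a b hab => by
    rw [hκ a b hab]
    exact mul_ne_zero hκneg.ne (mul_ne_zero (hD _) (hD _))
  obtain ⟨τ, hτ⟩ : ∃ τ : ℝ, ∀ a b, a ≠ b → w' a b = w a b * (τ + D' a / D a + D' b / D b) := by
    refine ⟨w' 0 1 / w 0 1 - D' 0 / D 0 - D' 1 / D 1, fun a b hab => ?_⟩
    have h1 := const_lemma (fun a b => if a = b then 0 else w' a b / w a b - D' a / D a - D' b / D b)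
      (fun a b => by
        by_cases h : a = b
        · rw [if_pos h, if_pos h.symm]
        · rw [if_neg h, if_neg (Ne.symm h), hws a b, hws' a b]
          ring)
      (fun a b d h1 h2 h3 => by
        rw [if_neg h1, if_neg h3]
        have e1 := hrel a b d h1 h2 h3
        have e2 := hrel' a b d h1 h2 h3
        have n1 := hw0 a b h1
        have n2 := hw0 a d h3
        have n3 := hD b
        have n4 := hD d
        have e3 : w' a b / w a b + D' d / D d = w' a d / w a d + D' b / D b := by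
          have a1 : w' a b / w a b + D' d / D d = (w' a b * D d + w a b * D' d) / (w a b * D d) := by
            field_simp
          have a2 : w' a d / w a d + D' b / D b = (w' a d * D b + w a d * D' b) / (w a d * D b) := by
            field_simp
          rw [a1, a2, e2, e1]
        linarith) a b hab
    rw [if_neg hab, if_neg (by decide)] at h1
    have n1 := hw0 a b hab
    have e : w' a b / w a b = w' 0 1 / w 0 1 - D' 0 / D 0 - D' 1 / D 1 + D' a / D a + D' b / D b := by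
      linarith
    rw [← e]
    field_simp
  -- the scaling factors
  obtain ⟨s, hs0, hs3⟩ : ∃ s : ℝ, 0 < s ∧ s ^ 3 = lam := by
    refine ⟨lam ^ ((3 : ℕ) : ℝ)⁻¹, Real.rpow_pos_of_pos hlam _, ?_⟩
    exact Real.rpow_inv_natCast_pow hlam.le (by norm_num)
  obtain ⟨μ, hμ0, hμ2⟩ : ∃ μ : ℝ, 0 < μ ∧ μ ^ 2 = -κ / lam := by
    have h1 : 0 < -κ / lam := div_pos (by linarith) hlam
    exact ⟨Real.sqrt (-κ / lam), Real.sqrt_pos.2 h1, Real.sq_sqrt h1.le⟩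
  obtain ⟨z, hz⟩ : ∃ z : Fin 4 → ℝ, ∀ a, z a = μ * D a / m a := ⟨_, fun _ => rfl⟩
  obtain ⟨ζ, hζ⟩ : ∃ ζ : Fin 4 → ℝ, ∀ a, ζ a = z a * (D' a / D a + τ / 2) := ⟨_, fun _ => rfl⟩
  have hmz : ∀ a, m a * z a = μ * D a := fun a => by
    rw [hz]
    have := (hm a).ne'
    field_simp
  have hmζ : ∀ a, m a * ζ a = μ * (D' a + τ / 2 * D a) := fun a => by
    rw [hζ, ← mul_assoc, hmz]
    have := hD a
    field_simp
  have hzz : ∀ a b, a ≠ b → z a * z b = -S a b / lam := by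
    intro a b hab
    rw [hSκ a b hab, hz, hz]
    have h1 := (hm a).ne'
    have h2 := (hm b).ne'
    have e : μ * D a / m a * (μ * D b / m b) = μ ^ 2 * (D a * D b) / (m a * m b) := by ring
    rw [e, hμ2]
    field_simp
  have hzζ : ∀ a b, a ≠ b → ζ a * z b + z a * ζ b = -S' a b / lam := by
    intro a b hab
    have e1 : S' a b = S a b * (τ + D' a / D a + D' b / D b) := by
      have h1 := hτ a b hab
      rw [hw', hw] at h1
      have h2 := mul_pos (hm a) (hm b)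
      have h3 : m a * m b * S' a b = m a * m b * (S a b * (τ + D' a / D a + D' b / D b)) := by
        rw [h1]; ring
      exact mul_left_cancel₀ h2.ne' h3
    rw [hζ, hζ, e1]
    have e2 : z a * (D' a / D a + τ / 2) * z b + z a * (z b * (D' b / D b + τ / 2)) =
        (z a * z b) * (τ + D' a / D a + D' b / D b) := by ring
    rw [e2, hzz a b hab]
    ring
  have hr' : ∀ a b, s * R a b = s * ‖q a - q b‖ := fun a b => by rw [hR]
  refine ⟨z, ζ, fun a b => s * R a b, ?_, ?_, ?_, ?_, ?_, ?_, ?_, ?_, ?_⟩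
  · intro a b
    simp only
    rw [hRs]
  · intro a b hab
    simp only
    have hRab := hRp a b hab
    refine ⟨mul_pos hs0 hRab, ?_⟩
    rw [hzz a b hab, hS, mul_pow, hs3]
    field_simp
    ring
  · intro a b c _ _ _
    simp only
    rw [← mul_add]
    apply mul_le_mul_of_nonneg_left _ hs0.le
    rw [hR, hR, hR]
    have := norm_add_le (q a - q b) (q b - q c)
    rwa [sub_add_sub_cancel] at this
  · intro a
    rw [hz]
    exact div_ne_zero (mul_ne_zero hμ0.ne' (hD a)) (hm a).ne'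
  · rw [Fin.sum_univ_four]
    simp only [hmz]
    linear_combination μ * sD
  · refine ⟨μ * s ^ 2 * (D 0 * (X 0 ^ 2 + Y 0 ^ 2) + D 1 * (X 1 ^ 2 + Y 1 ^ 2) +
      D 2 * (X 2 ^ 2 + Y 2 ^ 2) + D 3 * (X 3 ^ 2 + Y 3 ^ 2)), fun a => ?_⟩
    rw [Finset.sum_erase _ (by simp only; rw [hR0]; ring), Fin.sum_univ_four]
    simp only [hmz, mul_pow, hR2]
    linear_combination (μ * s ^ 2) * sum_Dr D X Y sD sDX sDY (X a) (Y a)
  · intro h0
    apply htriv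
    have hip0 : ∀ a b, a ≠ b → (X a - X b) * (U a - U b) + (Y a - Y b) * (V a - V b) = 0 := by
      intro a b hab
      have h1 := hzζ a b hab
      rw [h0] at h1
      simp only [Pi.zero_apply, zero_mul, mul_zero, add_zero] at h1
      have h2 : S' a b = 0 := by
        rcases div_eq_zero_iff.1 h1.symm with h | h
        · linarith
        · exact absurd h hlam.ne'
      rw [hS'] at h2
      have hRab := pow_pos (hRp a b hab) 5
      rcases div_eq_zero_iff.1 h2 with h | h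
      · linarith
      · exact absurd h hRab.ne'
    exact trivial_of_ip q v X Y U V hX hY hU hV (hpos2 1 0 (by decide)) hip0 hD2 hD3
  · rw [Fin.sum_univ_four]
    simp only [hmζ]
    linear_combination μ * sD' + μ * (τ / 2) * sD
  · refine ⟨μ * s ^ 2 * (((D' 0 * (X 0 ^ 2 + Y 0 ^ 2) + D' 1 * (X 1 ^ 2 + Y 1 ^ 2) +
      D' 2 * (X 2 ^ 2 + Y 2 ^ 2) + D' 3 * (X 3 ^ 2 + Y 3 ^ 2)) +
      2 * (D 0 * (X 0 * U 0 + Y 0 * V 0) + D 1 * (X 1 * U 1 + Y 1 * V 1) +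
      D 2 * (X 2 * U 2 + Y 2 * V 2) + D 3 * (X 3 * U 3 + Y 3 * V 3))) +
      τ / 2 * (D 0 * (X 0 ^ 2 + Y 0 ^ 2) + D 1 * (X 1 ^ 2 + Y 1 ^ 2) +
      D 2 * (X 2 ^ 2 + Y 2 ^ 2) + D 3 * (X 3 ^ 2 + Y 3 ^ 2))), fun a => ?_⟩
    have hterm : ∀ b, m b * (ζ b * (s * R a b) ^ 2 + z b * (2 / 3) * (s * R a b) ^ 5 *
        (ζ a * z b + z a * ζ b)) =
        μ * s ^ 2 * ((D' b + τ / 2 * D b) * ((X a - X b) ^ 2 + (Y a - Y b) ^ 2) +
          2 * (D b * ((X a - X b) * (U a - U b) + (Y a - Y b) * (V a - V b)))) := by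
      intro b
      by_cases hab : a = b
      · subst hab
        rw [hR0]
        ring
      · have hRab := hRp a b hab
        have e1 : m b * (ζ b * (s * R a b) ^ 2 + z b * (2 / 3) * (s * R a b) ^ 5 *
            (ζ a * z b + z a * ζ b)) = (m b * ζ b) * (s ^ 2 * R a b ^ 2) +
            (m b * z b) * (2 / 3) * (s ^ 2 * s ^ 3 * R a b ^ 5) * (ζ a * z b + z a * ζ b) := by
          ring
        rw [e1, hmζ, hmz, hzζ a b hab, hs3, hS', ← hR2]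
        field_simp
    rw [Finset.sum_erase _ (by rw [hterm]; ring), Fin.sum_univ_four]
    simp only [hterm]
    linear_combination (μ * s ^ 2) * sum_dDr D D' X Y U V sD sDX sDY sD' sDX' sDY' (X a) (Y a)
      (U a) (V a) + (μ * s ^ 2 * (τ / 2)) * sum_Dr D X Y sD sDX sDY (X a) (Y a)

end NonMorse
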