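import Pool.Agent.Helper342.Alg.Calc

open Complex

namespace NonMorse

theorem ip_zero_left (w : ℂ) : ip 0 w = 0 := by simp [ip]
theorem ip_zero_right (w : ℂ) : ip w 0 = 0 := by simp [ip]
theorem ip_comm (v w : ℂ) : ip v w = ip w v := by simp [ip]; ring
theorem ip_self (v : ℂ) : ip v v = ‖v‖ ^ 2 := by
  rw [← Complex.normSq_eq_norm_sq, Complex.normSq_apply]; rfl
theorem ip_self_nonneg (v : ℂ) : 0 ≤ ip v v := by rw [ip_self]; positivity
theorem ip_self_eq_zero {v : ℂ} (h : ip v v = 0) : v = 0 := by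
  rw [ip_self] at h
  exact norm_eq_zero.mp (by nlinarith [sq_nonneg ‖v‖, norm_nonneg v, pow_eq_zero_iff (two_ne_zero) |>.mp h])
theorem ip_sum_left {ι : Type*} (s : Finset ι) (f : ι → ℂ) (w : ℂ) :
    ip (∑ i ∈ s, f i) w = ∑ i ∈ s, ip (f i) w := by
  simp only [ip, Complex.re_sum, Complex.im_sum, Finset.sum_mul, Finset.sum_add_distrib]
theorem ip_real_mul_left (c : ℝ) (v w : ℂ) : ip ((c : ℂ) * v) w = c * ip v w := by
  simp [ip]; ring
theorem ip_real_mul_right (c : ℝ) (v w : ℂ) : ip v ((c : ℂ) * w) = c * ip v w := by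
  simp [ip]; ring
theorem ip_add_left (u v w : ℂ) : ip (u + v) w = ip u w + ip v w := by simp [ip]; ring
theorem ip_sub_right (u v w : ℂ) : ip u (v - w) = ip u v - ip u w := by simp [ip]; ring
theorem ip_add_right (u v w : ℂ) : ip u (v + w) = ip u v + ip u w := by simp [ip]; ring
theorem ip_sub_left (u v w : ℂ) : ip (u - v) w = ip u w - ip v w := by simp [ip]; ring
theorem ip_neg_left (v w : ℂ) : ip (-v) w = - ip v w := by simp [ip]; ring

/-- sum over a<b of a symmetric function vanishing on the diagonal -/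
theorem sum_Ioi_symm {N : ℕ} (f : Fin N → Fin N → ℝ) (hs : ∀ a b, f a b = f b a)
    (hd : ∀ a, f a a = 0) : 2 * ∑ a, ∑ b ∈ Finset.Ioi a, f a b = ∑ a, ∑ b, f a b := by
  have h1 : ∀ a : Fin N, ∑ b, f a b = ∑ b ∈ Finset.Iio a, f a b + ∑ b ∈ Finset.Ioi a, f a b := by
    intro a
    have : (Finset.univ : Finset (Fin N)) = (Finset.Iio a ∪ {a}) ∪ Finset.Ioi a := by
      ext b
      simp only [Finset.mem_univ, Finset.mem_union, Finset.mem_Iio, Finset.mem_singleton,
        Finset.mem_Ioi, true_iff]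
      rcases lt_trichotomy b a with h | h | h
      · exact Or.inl (Or.inl h)
      · exact Or.inl (Or.inr h)
      · exact Or.inr h
    rw [this, Finset.sum_union, Finset.sum_union]
    · simp [hd]
    · simp
    · rw [Finset.disjoint_left]
      intro b hb hb'
      simp only [Finset.mem_union, Finset.mem_Iio, Finset.mem_singleton, Finset.mem_Ioi] at hb hb'
      rcases hb with h | h
      · exact absurd hb' (not_lt.mpr h.le)
      · exact absurd hb' (by rw [h]; exact lt_irrefl _)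
  have h2 : ∑ a : Fin N, ∑ b ∈ Finset.Iio a, f a b = ∑ a, ∑ b ∈ Finset.Ioi a, f a b := by
    rw [Finset.sum_sigma', Finset.sum_sigma']
    refine Finset.sum_bij' (fun x _ => ⟨x.2, x.1⟩) (fun x _ => ⟨x.2, x.1⟩) ?_ ?_ ?_ ?_ ?_
    · rintro ⟨a, b⟩ h; simpa using h
    · rintro ⟨a, b⟩ h; simpa using h
    · rintro ⟨a, b⟩ h; rfl
    · rintro ⟨a, b⟩ h; rfl
    · rintro ⟨a, b⟩ h; exact hs _ _
  rw [Finset.sum_congr rfl (fun a _ => h1 a), Finset.sum_add_distrib, h2]
  ring

theorem S_antisymm {N : ℕ} (m : Fin N → ℝ) (X : Fin N → Fin N → ℂ) (hX : ∀ a b, X a b = - X b a)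
    (w : Fin N → ℂ) :
    ∑ a, ∑ b, m a * m b * ip (X a b) (w a - w b) =
      2 * ∑ a, m a * ip (∑ b, (m b : ℂ) * X a b) (w a) := by
  have h1 : ∑ a, ∑ b, m a * m b * ip (X a b) (w b) = - ∑ a, ∑ b, m a * m b * ip (X a b) (w a) := by
    rw [Finset.sum_comm, ← Finset.sum_neg_distrib]
    refine Finset.sum_congr rfl fun a _ => ?_
    rw [← Finset.sum_neg_distrib]
    refine Finset.sum_congr rfl fun b _ => ?_
    rw [hX b a, ip_neg_left]; ring
  have h2 : ∑ a, m a * ip (∑ b, (m b : ℂ) * X a b) (w a) = ∑ a, ∑ b, m a * m b * ip (X a b) (w a) := by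
    refine Finset.sum_congr rfl fun a _ => ?_
    rw [ip_sum_left, Finset.mul_sum]
    refine Finset.sum_congr rfl fun b _ => ?_
    rw [ip_real_mul_left]; ring
  rw [h2]
  simp only [ip_sub_right, mul_sub, Finset.sum_sub_distrib]
  rw [h1]; ring

theorem row_centered {N : ℕ} (m : Fin N → ℝ) (X : Fin N → Fin N → ℂ) (hX : ∀ a b, X a b = - X b a) :
    ∑ a, (m a : ℂ) * (∑ b, (m b : ℂ) * X a b) = 0 := by
  have h : ∑ a, (m a : ℂ) * (∑ b, (m b : ℂ) * X a b) = - ∑ a, (m a : ℂ) * (∑ b, (m b : ℂ) * X a b) := by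
    conv_lhs => 
      simp only [Finset.mul_sum]
      rw [Finset.sum_comm]
    rw [← Finset.sum_neg_distrib]
    refine Finset.sum_congr rfl fun a _ => ?_
    rw [Finset.mul_sum, ← Finset.sum_neg_distrib]
    refine Finset.sum_congr rfl fun b _ => ?_
    rw [hX b a]; ring
  exact self_eq_neg.mp h

/-- ccEq row -/
noncomputable def CC {N : ℕ} (m : Fin N → ℝ) (lam : ℝ) (q : Fin N → ℂ) (a : Fin N) : ℂ :=
  ∑ b, (m b : ℂ) * (((lam - 1 / ‖q a - q b‖ ^ 3 : ℝ) : ℂ) * (q a - q b))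

/-- linEq row -/
noncomputable def LL {N : ℕ} (m : Fin N → ℝ) (lam : ℝ) (q v : Fin N → ℂ) (a : Fin N) : ℂ :=
  ∑ b, (m b : ℂ) * (((lam - 1 / ‖q a - q b‖ ^ 3 : ℝ) : ℂ) * (v a - v b) +
    ((3 * ip (q a - q b) (v a - v b) / ‖q a - q b‖ ^ 5 : ℝ) : ℂ) * (q a - q b))

theorem ccEq_iff {N : ℕ} (m : Fin N → ℝ) (lam : ℝ) (q : Fin N → ℂ) :
    ccEq m lam q ↔ ∀ a, CC m lam q a = 0 := by
  unfold ccEq CC
  refine forall_congr' fun a => ?_
  have : ∀ b, ((m b * (lam - 1 / ‖q a - q b‖ ^ 3) : ℝ) : ℂ) * (q a - q b) =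
      (m b : ℂ) * (((lam - 1 / ‖q a - q b‖ ^ 3 : ℝ) : ℂ) * (q a - q b)) := by
    intro b; rw [Complex.ofReal_mul]; ring
  simp only [this]

theorem linEq_iff {N : ℕ} (m : Fin N → ℝ) (lam : ℝ) (q v : Fin N → ℂ) :
    linEq m lam q v ↔ ∀ a, LL m lam q v a = 0 := by
  unfold linEq LL
  refine forall_congr' fun a => ?_
  have : ∀ b, (((m b * (lam - 1 / ‖q a - q b‖ ^ 3) : ℝ) : ℂ) * (v a - v b) +
    ((3 * m b * ip (q a - q b) (v a - v b) / ‖q a - q b‖ ^ 5 : ℝ) : ℂ) * (q a - q b)) =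
      (m b : ℂ) * (((lam - 1 / ‖q a - q b‖ ^ 3 : ℝ) : ℂ) * (v a - v b) +
    ((3 * ip (q a - q b) (v a - v b) / ‖q a - q b‖ ^ 5 : ℝ) : ℂ) * (q a - q b)) := by
    intro b
    rw [Complex.ofReal_mul, mul_add, 
      show (3 * m b * ip (q a - q b) (v a - v b) / ‖q a - q b‖ ^ 5 : ℝ) = 
        m b * (3 * ip (q a - q b) (v a - v b) / ‖q a - q b‖ ^ 5) by ring, 
      Complex.ofReal_mul]; ring
  simp only [this]

theorem CC_anti {N : ℕ} (lam : ℝ) (q : Fin N → ℂ) (a b : Fin N) :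
    (((lam - 1 / ‖q a - q b‖ ^ 3 : ℝ) : ℂ) * (q a - q b)) =
     -(((lam - 1 / ‖q b - q a‖ ^ 3 : ℝ) : ℂ) * (q b - q a)) := by
  rw [norm_sub_rev (q b) (q a)]; ring

theorem LL_anti {N : ℕ} (lam : ℝ) (q v : Fin N → ℂ) (a b : Fin N) :
    (((lam - 1 / ‖q a - q b‖ ^ 3 : ℝ) : ℂ) * (v a - v b) +
    ((3 * ip (q a - q b) (v a - v b) / ‖q a - q b‖ ^ 5 : ℝ) : ℂ) * (q a - q b)) =
     -(((lam - 1 / ‖q b - q a‖ ^ 3 : ℝ) : ℂ) * (v b - v a) +
    ((3 * ip (q b - q a) (v b - v a) / ‖q b - q a‖ ^ 5 : ℝ) : ℂ) * (q b - q a)) := by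
  have h : ip (q b - q a) (v b - v a) = ip (q a - q b) (v a - v b) := by
    simp [ip]; ring
  rw [norm_sub_rev (q b) (q a), h]; ring

theorem bi_S {N : ℕ} (m : Fin N → ℝ) (hm : ∑ a, m a = 1) (q w : Fin N → ℂ) (hq : q ∈ centered m) :
    2 * bi m q w = ∑ a, ∑ b, m a * m b * ip (q a - q b) (w a - w b) := by
  rw [S_antisymm m (fun a b => q a - q b) (fun a b => by ring) w]
  unfold bi
  congr 1
  refine Finset.sum_congr rfl fun a _ => ?_
  congr 2
  have h : ∑ b, (m b : ℂ) * q b = 0 := hq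
  have h' : ∑ b, (m b : ℂ) = 1 := by rw [← Complex.ofReal_sum, hm]; simp
  simp only [mul_sub, Finset.sum_sub_distrib, h, ← Finset.sum_mul, h']
  ring

theorem lemC {N : ℕ} (m : Fin N → ℝ) (hm : ∑ a, m a = 1) (lam : ℝ) (q w : Fin N → ℂ)
    (hq : q ∈ centered m) :
    dpot m q w + lam * bi m q w = ∑ a, m a * ip (CC m lam q a) (w a) := by
  have h1 : 2 * dpot m q w = - ∑ a, ∑ b, m a * m b * ip (q a - q b) (w a - w b) / ‖q a - q b‖ ^ 3 := by
    unfold dpot
    rw [mul_neg, sum_Ioi_symm]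
    · intro a b
      have h : ip (q b - q a) (w b - w a) = ip (q a - q b) (w a - w b) := by
        simp [ip]; ring
      rw [h, norm_sub_rev (q b) (q a)]; ring
    · intro a; simp [ip]
  have h2 := bi_S m hm q w hq
  have h3 := S_antisymm m (fun a b => (((lam - 1 / ‖q a - q b‖ ^ 3 : ℝ) : ℂ) * (q a - q b)))
    (CC_anti lam q) w
  have h4 : 2 * (dpot m q w + lam * bi m q w) = 2 * ∑ a, m a * ip (CC m lam q a) (w a) := by
    unfold CC
    rw [← h3, mul_add, h1, show 2 * (lam * bi m q w) = lam * (2 * bi m q w) by ring, h2,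
      Finset.mul_sum, ← Finset.sum_neg_distrib, ← Finset.sum_add_distrib]
    refine Finset.sum_congr rfl fun a _ => ?_
    rw [Finset.mul_sum, ← Finset.sum_neg_distrib, ← Finset.sum_add_distrib]
    refine Finset.sum_congr rfl fun b _ => ?_
    rw [ip_real_mul_left]
    ring
  linarith

theorem lemD {N : ℕ} (m : Fin N → ℝ) (hm : ∑ a, m a = 1) (lam : ℝ) (q v w : Fin N → ℂ)
    (hv : v ∈ centered m) :
    ddpot m q v w + lam * bi m v w = ∑ a, m a * ip (LL m lam q v a) (w a) := by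
  have h1 : 2 * ddpot m q v w = ∑ a, ∑ b, m a * m b * (-(ip (v a - v b) (w a - w b)) / ‖q a - q b‖ ^ 3 +
    3 * ip (q a - q b) (v a - v b) * ip (q a - q b) (w a - w b) / ‖q a - q b‖ ^ 5) := by
    unfold ddpot
    rw [sum_Ioi_symm]
    · intro a b
      have h : ip (v b - v a) (w b - w a) = ip (v a - v b) (w a - w b) := by
        simp [ip]; ring
      have h' : ip (q b - q a) (w b - w a) = ip (q a - q b) (w a - w b) := by
        simp [ip]; ring
      have h'' : ip (q b - q a) (v b - v a) = ip (q a - q b) (v a - v b) := by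
        simp [ip]; ring
      rw [h, h', h'', norm_sub_rev (q b) (q a)]; ring
    · intro a; simp [ip]
  have h2 := bi_S m hm v w hv
  have h3 := S_antisymm m (fun a b => (((lam - 1 / ‖q a - q b‖ ^ 3 : ℝ) : ℂ) * (v a - v b) +
    ((3 * ip (q a - q b) (v a - v b) / ‖q a - q b‖ ^ 5 : ℝ) : ℂ) * (q a - q b)))
    (LL_anti lam q v) w
  have h4 : 2 * (ddpot m q v w + lam * bi m v w) = 2 * ∑ a, m a * ip (LL m lam q v a) (w a) := by
    unfold LL
    rw [← h3, mul_add, h1, show 2 * (lam * bi m v w) = lam * (2 * bi m v w) by ring, h2,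
      Finset.mul_sum, ← Finset.sum_add_distrib]
    refine Finset.sum_congr rfl fun a _ => ?_
    rw [Finset.mul_sum, ← Finset.sum_add_distrib]
    refine Finset.sum_congr rfl fun b _ => ?_
    rw [ip_add_left, ip_real_mul_left, ip_real_mul_left]
    ring
  linarith

theorem ddpot_self {N : ℕ} (m : Fin N → ℝ) (q w : Fin N → ℂ) (hq : CollisionFree q) :
    ddpot m q q w = -2 * dpot m q w := by
  unfold ddpot dpot
  rw [neg_mul_neg, Finset.mul_sum]
  refine Finset.sum_congr rfl fun a _ => ?_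
  rw [Finset.mul_sum]
  refine Finset.sum_congr rfl fun b hb => ?_
  have hab : a ≠ b := (Finset.mem_Ioi.mp hb).ne
  have hr : ‖q a - q b‖ ≠ 0 := norm_ne_zero_iff.mpr (sub_ne_zero.mpr (hq a b hab))
  rw [ip_self]
  field_simp
  ring

theorem dpot_self {N : ℕ} (m : Fin N → ℝ) (q : Fin N → ℂ) (hq : CollisionFree q) :
    dpot m q q = - pot m q := by
  unfold dpot pot
  congr 1
  refine Finset.sum_congr rfl fun a _ => ?_
  refine Finset.sum_congr rfl fun b hb => ?_
  have hab : a ≠ b := (Finset.mem_Ioi.mp hb).ne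
  have hr : ‖q a - q b‖ ≠ 0 := norm_ne_zero_iff.mpr (sub_ne_zero.mpr (hq a b hab))
  rw [ip_self]
  field_simp

theorem ddpot_comm {N : ℕ} (m : Fin N → ℝ) (q v w : Fin N → ℂ) :
    ddpot m q v w = ddpot m q w v := by
  unfold ddpot
  refine Finset.sum_congr rfl fun a _ => ?_
  refine Finset.sum_congr rfl fun b hb => ?_
  rw [ip_comm (v a - v b)]; ring

theorem bi_comm {N : ℕ} (m : Fin N → ℝ) (v w : Fin N → ℂ) : bi m v w = bi m w v := by
  unfold bi
  refine Finset.sum_congr rfl fun a _ => ?_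
  rw [ip_comm]

theorem bi_self {N : ℕ} (m : Fin N → ℝ) (v : Fin N → ℂ) : bi m v v = inertia m v := by
  unfold bi inertia
  refine Finset.sum_congr rfl fun a _ => ?_
  rw [ip_self]

theorem inertia_pos {N : ℕ} (hN : 2 ≤ N) (m : Fin N → ℝ) (hm : ∀ a, 0 < m a) (q : Fin N → ℂ)
    (hq : CollisionFree q) : 0 < inertia m q := by
  unfold inertia
  have h : ∃ a, q a ≠ 0 := by
    by_contra hcon
    push Not at hcon
    have := hq ⟨0, by omega⟩ ⟨1, by omega⟩ (by simp)
    exact this (by rw [hcon, hcon])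
  obtain ⟨a, ha⟩ := h
  refine Finset.sum_pos' (fun b _ => mul_nonneg (hm b).le (by positivity)) ⟨a, Finset.mem_univ _, ?_⟩
  have := norm_pos_iff.mpr ha
  exact mul_pos (hm a) (by positivity)

theorem pot_pos {N : ℕ} (hN : 2 ≤ N) (m : Fin N → ℝ) (hm : ∀ a, 0 < m a) (q : Fin N → ℂ)
    (hq : CollisionFree q) : 0 < pot m q := by
  unfold pot
  refine Finset.sum_pos' (fun a _ => Finset.sum_nonneg fun b _ => ?_)
    ⟨⟨0, by omega⟩, Finset.mem_univ _, ?_⟩
  · exact div_nonneg (mul_nonneg (hm a).le (hm b).le) (norm_nonneg _)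
  · refine Finset.sum_pos' (fun b _ => div_nonneg (mul_nonneg (hm _).le (hm b).le) (norm_nonneg _))
      ⟨⟨1, by omega⟩, ?_, ?_⟩
    · simp [Finset.mem_Ioi]
    · have := norm_pos_iff.mpr (sub_ne_zero.mpr (hq ⟨0, by omega⟩ ⟨1, by omega⟩ (by simp)))
      exact div_pos (mul_pos (hm _) (hm _)) this

theorem row_zero {N : ℕ} (m : Fin N → ℝ) (hm : ∀ a, 0 < m a) (F : Fin N → ℂ)
    (h : ∑ a, m a * ip (F a) (F a) = 0) (a : Fin N) : F a = 0 := by
  have := (Finset.sum_eq_zero_iff_of_nonneg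
    (fun b _ => mul_nonneg (hm b).le (ip_self_nonneg (F b)))).mp h a (Finset.mem_univ _)
  rcases mul_eq_zero.mp this with h | h
  · exact absurd h (hm a).ne'
  · exact ip_self_eq_zero h

theorem H_crit {N : ℕ} (m : Fin N → ℝ) (lam : ℝ) (q v w : Fin N → ℂ)
    (hI : 0 < inertia m q) (hpot : pot m q = lam * inertia m q)
    (hv : dpot m q v = - lam * bi m q v) (hw : dpot m q w = - lam * bi m q w) :
    H m q v w = Real.sqrt (inertia m q) * (ddpot m q v w + lam * bi m v w
      - 3 * (lam / inertia m q) * bi m q v * bi m q w) := by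
  unfold H
  rw [hpot, hv, hw]
  have hs : 0 < Real.sqrt (inertia m q) := Real.sqrt_pos.mpr hI
  have hs2 : inertia m q = Real.sqrt (inertia m q) ^ 2 := (Real.sq_sqrt hI.le).symm
  generalize Real.sqrt (inertia m q) = s at *
  rw [hs2]
  field_simp
  ring

theorem ddpot_sub_smul {N : ℕ} (m : Fin N → ℝ) (q v w : Fin N → ℂ) (c : ℝ) :
    ddpot m q (v - c • q) w = ddpot m q v w - c * ddpot m q q w := by
  unfold ddpot
  rw [Finset.mul_sum, ← Finset.sum_sub_distrib]
  refine Finset.sum_congr rfl fun a _ => ?_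
  rw [Finset.mul_sum, ← Finset.sum_sub_distrib]
  refine Finset.sum_congr rfl fun b _ => ?_
  have h1 : ip ((v - c • q) a - (v - c • q) b) (w a - w b) =
    ip (v a - v b) (w a - w b) - c * ip (q a - q b) (w a - w b) := by
    simp [ip]; ring
  have h2 : ip (q a - q b) ((v - c • q) a - (v - c • q) b) =
    ip (q a - q b) (v a - v b) - c * ip (q a - q b) (q a - q b) := by
    simp [ip]; ring
  rw [h1, h2]
  ring

theorem bi_sub_smul {N : ℕ} (m : Fin N → ℝ) (q v w : Fin N → ℂ) (c : ℝ) :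
    bi m (v - c • q) w = bi m v w - c * bi m q w := by
  unfold bi
  rw [Finset.mul_sum, ← Finset.sum_sub_distrib]
  refine Finset.sum_congr rfl fun a _ => ?_
  simp [ip]; ring

/-- TARGET 1. (`h1`, `h2` are the derivative formulas, proved elsewhere.) -/
theorem nonMorse_imp {N : ℕ} (hN : 2 ≤ N)
    (h1 : ∀ (m : Fin N → ℝ) (q : Fin N → ℂ), CollisionFree q → 0 < inertia m q →
      ∀ w, fderiv ℝ (npot m) q w = G m q w)
    (h2 : ∀ (m : Fin N → ℝ) (q : Fin N → ℂ), CollisionFree q → 0 < inertia m q →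
      ∀ v w, fderiv ℝ (fderiv ℝ (npot m)) q v w = H m q v w)
    (m : Fin N → ℝ) (hm : m ∈ nonMorseSet N) :
    ∃ (q v : Fin N → ℂ) (lam : ℝ), 0 < lam ∧ CollisionFree q ∧ ccEq m lam q ∧ linEq m lam q v ∧
      ¬ TrivialMotion q v := by
  obtain ⟨⟨hmpos, hmsum⟩, q, ⟨hqc, hqf, hcrit⟩, v, hvc, hker, hspan⟩ := hm
  have hI := inertia_pos hN m hmpos q hqf
  have hP := pot_pos hN m hmpos q hqf
  obtain ⟨lam, hlam⟩ : ∃ lam, lam = pot m q / inertia m q := ⟨_, rfl⟩
  have hlampos : 0 < lam := by rw [hlam]; exact div_pos hP hI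
  have hpot : pot m q = lam * inertia m q := by rw [hlam]; field_simp
  have hs : 0 < Real.sqrt (inertia m q) := Real.sqrt_pos.mpr hI
  have hs2 : inertia m q = Real.sqrt (inertia m q) ^ 2 := (Real.sq_sqrt hI.le).symm
  -- first-order condition
  have hd : ∀ w ∈ centered m, dpot m q w = - lam * bi m q w := by
    intro w hw
    have hG := hcrit w hw
    rw [h1 m q hqf hI w] at hG
    unfold G at hG
    rw [hpot] at hG
    generalize Real.sqrt (inertia m q) = s at *
    rw [hs2] at hG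
    have : s * (lam * bi m q w + dpot m q w) = 0 := by
      rw [← hG]; field_simp
    have := (mul_eq_zero.mp this).resolve_left hs.ne'
    linarith
  have hCCc : (CC m lam q) ∈ centered m := row_centered m _ (CC_anti lam q)
  have hCC0 : ∀ a, CC m lam q a = 0 := by
    apply row_zero m hmpos
    rw [← lemC m hmsum lam q _ hqc, hd _ hCCc]
    ring
  -- the corrected kernel vector
  obtain ⟨c, hc⟩ : ∃ c, c = bi m q v / inertia m q := ⟨_, rfl⟩
  have hv'c : v - c • q ∈ centered m := (centered m).sub_mem hvc ((centered m).smul_mem c hqc)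
  have hLLc : (LL m lam q (v - c • q)) ∈ centered m := row_centered m _ (LL_anti lam q _)
  have hlin : ∀ w ∈ centered m, ddpot m q (v - c • q) w + lam * bi m (v - c • q) w = 0 := by
    intro w hw
    have hH := hker w hw
    rw [h2 m q hqf hI v w, H_crit m lam q v w hI hpot (hd v hvc) (hd w hw)] at hH
    have hH' := (mul_eq_zero.mp hH).resolve_left hs.ne'
    rw [ddpot_sub_smul, bi_sub_smul, ddpot_self m q w hqf, hd w hw]
    have : 3 * (lam / inertia m q) * bi m q v * bi m q w = 3 * lam * c * bi m q w := by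
      rw [hc]; ring
    rw [this] at hH'
    linear_combination hH'
  have hLL0 : ∀ a, LL m lam q (v - c • q) a = 0 := by
    apply row_zero m hmpos
    rw [← lemD m hmsum lam q _ _ hv'c]
    exact hlin _ hLLc
  refine ⟨q, v - c • q, lam, hlampos, hqf, (ccEq_iff m lam q).mpr hCC0,
    (linEq_iff m lam q _).mpr hLL0, ?_⟩
  rintro ⟨θ, c0, hθ⟩
  have h' : ∑ b, (m b : ℂ) = 1 := by rw [← Complex.ofReal_sum, hmsum]; simp
  have hq0 : ∑ b, (m b : ℂ) * q b = 0 := hqc
  have hv0 : ∑ b, (m b : ℂ) * (v - c • q) b = 0 := hv'c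
  have hc0 : c0 = 0 := by
    have e : ∑ b, (m b : ℂ) * (v - c • q) b = θ * I * ∑ b, (m b : ℂ) * q b + c0 * ∑ b, (m b : ℂ) := by
      rw [Finset.mul_sum, Finset.mul_sum, ← Finset.sum_add_distrib]
      refine Finset.sum_congr rfl fun b _ => ?_
      rw [hθ b]; ring
    rw [hv0, hq0, h'] at e
    simpa using e.symm
  apply hspan
  rw [Submodule.mem_span_pair]
  refine ⟨c, θ, ?_⟩
  ext a
  have := hθ a
  rw [hc0] at this
  simp only [Pi.sub_apply, Pi.smul_apply, Complex.real_smul] at this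
  simp only [Pi.add_apply, Pi.smul_apply, Complex.real_smul]
  linear_combination -this

/-- TARGET 2. -/
theorem nonMorse_of {N : ℕ} (hN : 2 ≤ N)
    (h1 : ∀ (m : Fin N → ℝ) (q : Fin N → ℂ), CollisionFree q → 0 < inertia m q →
      ∀ w, fderiv ℝ (npot m) q w = G m q w)
    (h2 : ∀ (m : Fin N → ℝ) (q : Fin N → ℂ), CollisionFree q → 0 < inertia m q →
      ∀ v w, fderiv ℝ (fderiv ℝ (npot m)) q v w = H m q v w)
    (m : Fin N → ℝ) (hm : m ∈ massSimplex N)
    (q v : Fin N → ℂ) (lam : ℝ) (hlam : 0 < lam) (hq : CollisionFree q)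
    (hcc : ccEq m lam q) (hlin : linEq m lam q v) (hv : ¬ TrivialMotion q v) :
    m ∈ nonMorseSet N := by
  have hm' := hm
  obtain ⟨hmpos, hmsum⟩ := hm'
  have h' : ∑ b, (m b : ℂ) = 1 := by rw [← Complex.ofReal_sum, hmsum]; simp
  obtain ⟨cq, hcq⟩ : ∃ c : ℂ, c = ∑ b, (m b : ℂ) * q b := ⟨_, rfl⟩
  obtain ⟨cv, hcv⟩ : ∃ c : ℂ, c = ∑ b, (m b : ℂ) * v b := ⟨_, rfl⟩
  obtain ⟨q', hq'⟩ : ∃ q' : Fin N → ℂ, q' = fun a => q a - cq := ⟨_, rfl⟩
  obtain ⟨v', hv'⟩ : ∃ v' : Fin N → ℂ, v' = fun a => v a - cv := ⟨_, rfl⟩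
  have hq'ab : ∀ a b, q' a - q' b = q a - q b := by intro a b; rw [hq']; ring
  have hv'ab : ∀ a b, v' a - v' b = v a - v b := by intro a b; rw [hv']; ring
  have hq'c : q' ∈ centered m := by
    show ∑ b, (m b : ℂ) * q' b = 0
    rw [hq']
    simp only [mul_sub, Finset.sum_sub_distrib, ← Finset.sum_mul, h', ← hcq]
    ring
  have hv'c : v' ∈ centered m := by
    show ∑ b, (m b : ℂ) * v' b = 0
    rw [hv']
    simp only [mul_sub, Finset.sum_sub_distrib, ← Finset.sum_mul, h', ← hcv]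
    ring
  have hq'f : CollisionFree q' := by
    intro a b hab h
    exact hq a b hab (sub_eq_zero.mp (by rw [← hq'ab, h, sub_self]))
  have hcc' : ccEq m lam q' := by
    intro a
    have := hcc a
    simpa only [hq'ab] using this
  have hlin' : linEq m lam q' v' := by
    intro a
    have := hlin a
    simpa only [hq'ab, hv'ab] using this
  rw [ccEq_iff] at hcc'
  rw [linEq_iff] at hlin'
  have hI := inertia_pos hN m hmpos q' hq'f
  have hs : 0 < Real.sqrt (inertia m q') := Real.sqrt_pos.mpr hI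
  have hs2 : inertia m q' = Real.sqrt (inertia m q') ^ 2 := (Real.sq_sqrt hI.le).symm
  have hd : ∀ w, dpot m q' w = - lam * bi m q' w := by
    intro w
    have := lemC m hmsum lam q' w hq'c
    rw [Finset.sum_eq_zero] at this
    · linarith
    · intro a _
      rw [hcc' a, ip_zero_left, mul_zero]
  have hdd : ∀ w, ddpot m q' v' w + lam * bi m v' w = 0 := by
    intro w
    have := lemD m hmsum lam q' v' w hv'c
    rw [Finset.sum_eq_zero] at this
    · linarith
    · intro a _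
      rw [hlin' a, ip_zero_left, mul_zero]
  have hpot : pot m q' = lam * inertia m q' := by
    have := hd q'
    rw [dpot_self m q' hq'f, bi_self] at this
    linarith
  have hbi : bi m q' v' = 0 := by
    have := hdd q'
    rw [ddpot_comm, ddpot_self m q' v' hq'f, hd v', bi_comm m v' q'] at this
    have h3 : lam * (3 * bi m q' v') = 0 := by linarith
    have := (mul_eq_zero.mp h3).resolve_left hlam.ne'
    linarith
  refine ⟨hm, q', ⟨hq'c, hq'f, ?_⟩, v', hv'c, ?_, ?_⟩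
  · intro w _
    rw [h1 m q' hq'f hI w]
    unfold G
    rw [hpot, hd w]
    generalize Real.sqrt (inertia m q') = s at *
    rw [hs2]
    field_simp
    ring
  · intro w _
    rw [h2 m q' hq'f hI v' w, H_crit m lam q' v' w hI hpot (hd v') (hd w), hdd w, hbi]
    ring
  · intro hmem
    rw [Submodule.mem_span_pair] at hmem
    obtain ⟨s, t, hst⟩ := hmem
    apply hv
    have hva : ∀ a, v' a = s * q' a + t * (I * q' a) := by
      intro a
      rw [← hst]
      simp [Complex.real_smul]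
    have hbs : bi m q' v' = s * inertia m q' := by
      rw [← bi_self]
      unfold bi
      rw [Finset.mul_sum]
      refine Finset.sum_congr rfl fun a _ => ?_
      rw [hva a]
      simp [ip]; ring
    have hs0 : s = 0 := by
      rw [hbi] at hbs
      exact (mul_eq_zero.mp hbs.symm).resolve_right hI.ne'
    refine ⟨t, cv - t * I * cq, ?_⟩
    intro a
    have := hva a
    rw [hs0, hv', hq'] at this
    simp only [Complex.ofReal_zero, zero_mul, zero_add] at this
    linear_combination this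

end NonMorse

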