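import Pool.Agent.Helper342.Alg.Start
import Pool.Agent.Helper342.Alg.Calc

/-!
# Homogenization, and vanishing near the start
-/

namespace NonMorse

open Set Filter Topology NonMorse.Path

noncomputable def mv (t s : ℝ) : Fin 4 → ℝ := ![M1 t s, M1 t s, M3 t s, M4 t s]

noncomputable def Sm (t s : ℝ) : ℝ := ∑ i, mv t s i

noncomputable def hom (f : MvPolynomial (Fin 4) ℝ) (z : ℝ × ℝ) : ℝ :=
  ∑ d ∈ f.support, f.coeff d * Sm (z.1 / 1024) (z.2 / 1024) ^ (f.totalDegree - ∑ i, d i) *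
    ∏ i, mv (z.1 / 1024) (z.2 / 1024) i ^ d i

theorem M1_analytic {u w : ℝ × ℝ → ℝ} {z : ℝ × ℝ} (hu : AnalyticAt ℝ u z) (hw : AnalyticAt ℝ w z) :
    AnalyticAt ℝ (fun z => M1 (u z) (w z)) z := by
  unfold M1 pA pd
  fun_prop

theorem M3_analytic {u w : ℝ × ℝ → ℝ} {z : ℝ × ℝ} (hu : AnalyticAt ℝ u z) (hw : AnalyticAt ℝ w z) :
    AnalyticAt ℝ (fun z => M3 (u z) (w z)) z := by
  unfold M3 pA pd
  fun_prop

theorem M4_analytic {u w : ℝ × ℝ → ℝ} {z : ℝ × ℝ} (hu : AnalyticAt ℝ u z) (hw : AnalyticAt ℝ w z) :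
    AnalyticAt ℝ (fun z => M4 (u z) (w z)) z := by
  unfold M4 pA pd
  fun_prop

theorem fst_analytic (z : ℝ × ℝ) : AnalyticAt ℝ (fun z : ℝ × ℝ => z.1 / 1024) z :=
  analyticAt_fst.div analyticAt_const (by norm_num)

theorem snd_analytic (z : ℝ × ℝ) : AnalyticAt ℝ (fun z : ℝ × ℝ => z.2 / 1024) z :=
  analyticAt_snd.div analyticAt_const (by norm_num)

theorem mv_analytic (i : Fin 4) :
    AnalyticOnNhd ℝ (fun z : ℝ × ℝ => mv (z.1 / 1024) (z.2 / 1024) i) univ := by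
  intro z _
  fin_cases i
  · exact M1_analytic (fst_analytic z) (snd_analytic z)
  · exact M1_analytic (fst_analytic z) (snd_analytic z)
  · exact M3_analytic (fst_analytic z) (snd_analytic z)
  · exact M4_analytic (fst_analytic z) (snd_analytic z)

theorem Sm_analytic : AnalyticOnNhd ℝ (fun z : ℝ × ℝ => Sm (z.1 / 1024) (z.2 / 1024)) univ := by
  intro z _
  unfold Sm
  exact Finset.analyticAt_fun_sum _ fun i _ => mv_analytic i z (mem_univ _)

theorem hom_analytic (f : MvPolynomial (Fin 4) ℝ) : AnalyticOnNhd ℝ (hom f) univ := by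
  intro z _
  unfold hom
  refine Finset.analyticAt_fun_sum _ fun d _ => ?_
  refine (analyticAt_const.mul ((Sm_analytic z (mem_univ _)).pow _)).mul ?_
  exact Finset.analyticAt_fun_prod _ fun i _ => (mv_analytic i z (mem_univ _)).pow _

theorem hom_eq (f : MvPolynomial (Fin 4) ℝ) (z : ℝ × ℝ)
    (hS : Sm (z.1 / 1024) (z.2 / 1024) ≠ 0) :
    hom f z = Sm (z.1 / 1024) (z.2 / 1024) ^ f.totalDegree *
      MvPolynomial.eval
        (fun i => mv (z.1 / 1024) (z.2 / 1024) i / Sm (z.1 / 1024) (z.2 / 1024)) f := by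
  rw [MvPolynomial.eval_eq', Finset.mul_sum]
  unfold hom
  refine Finset.sum_congr rfl fun d hd => ?_
  have h1 : ∑ i, d i ≤ f.totalDegree := by
    have := MvPolynomial.le_totalDegree hd
    rw [Finsupp.sum_fintype] at this
    · exact this
    · intro _; rfl
  obtain ⟨e, he⟩ := Nat.exists_eq_add_of_le h1
  have h2 : f.totalDegree - ∑ i, d i = e := by omega
  rw [h2, he, pow_add]
  simp only [div_pow, Finset.prod_div_distrib, Finset.prod_pow_eq_pow_sum]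
  field_simp

theorem ccEq_smul {N : ℕ} {m : Fin N → ℝ} {lam : ℝ} {q : Fin N → ℂ} (c : ℝ)
    (h : ccEq m lam q) : ccEq (fun i => c * m i) lam q := by
  intro a
  have := h a
  have e : ∀ b, ((c * m b * (lam - 1 / ‖q a - q b‖ ^ 3) : ℝ) : ℂ) * (q a - q b) =
      (c : ℂ) * (((m b * (lam - 1 / ‖q a - q b‖ ^ 3) : ℝ) : ℂ) * (q a - q b)) := by
    intro b; push_cast; ring
  simp only [e]
  rw [← Finset.mul_sum, this, mul_zero]

theorem linEq_smul {N : ℕ} {m : Fin N → ℝ} {lam : ℝ} {q v : Fin N → ℂ} (c : ℝ)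
    (h : linEq m lam q v) : linEq (fun i => c * m i) lam q v := by
  intro a
  have := h a
  have e : ∀ b, (((c * m b * (lam - 1 / ‖q a - q b‖ ^ 3) : ℝ) : ℂ) * (v a - v b) +
    ((3 * (c * m b) * ip (q a - q b) (v a - v b) / ‖q a - q b‖ ^ 5 : ℝ) : ℂ) * (q a - q b)) =
      (c : ℂ) * ((((m b * (lam - 1 / ‖q a - q b‖ ^ 3) : ℝ) : ℂ) * (v a - v b) +
    ((3 * m b * ip (q a - q b) (v a - v b) / ‖q a - q b‖ ^ 5 : ℝ) : ℂ) * (q a - q b))) := by
    intro b; push_cast; ring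
  simp only [e]
  rw [← Finset.mul_sum, this, mul_zero]

/-- genuine degenerate masses near the start -/
theorem genuine (t s : ℝ) (ht : 0 < t) (hts : t < s) (hs : s < 1) (h1 : s * (1 - t ^ 2) < 2 * t)
    (h2 : 4 * t < 1 + t ^ 2) (h3 : 1 + s ^ 2 < 4 * s) (hQ : Q8 t s = 0) :
    0 < Sm t s ∧ (fun i => mv t s i / Sm t s) ∈ nonMorseSet 4 := by
  obtain ⟨k1, k3, k4⟩ := masses_pos t s ht hts hs h1 h2 h3
  have hmv : ∀ i, 0 < mv t s i := by
    intro i
    fin_cases i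
    · exact k1
    · exact k1
    · exact k3
    · exact k4
  have hS : 0 < Sm t s := Finset.sum_pos (fun i _ => hmv i) ⟨0, Finset.mem_univ _⟩
  refine ⟨hS, ?_⟩
  obtain ⟨q, v, lam, hlam, hq, hcc, hlin, htr⟩ := kite_degenerate t s ht hts hs hQ k1 k3 k4
  have hm : (fun i => mv t s i / Sm t s) ∈ massSimplex 4 := by
    refine ⟨fun i => div_pos (hmv i) hS, ?_⟩
    rw [← Finset.sum_div]
    exact div_self hS.ne'
  have e : (fun i => mv t s i / Sm t s) = fun i => (Sm t s)⁻¹ * mv t s i := by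
    funext i; rw [div_eq_inv_mul]
  refine nonMorse_of (by norm_num) fderiv_npot fderiv2_npot _ hm q v lam hlam hq ?_ ?_ htr
  · rw [e]; exact ccEq_smul _ hcc
  · rw [e]; exact linEq_smul _ hlin

theorem start_V (f : MvPolynomial (Fin 4) ℝ) (hf : ∀ m ∈ nonMorseSet 4, MvPolynomial.eval m f = 0) :
    ∃ p ∈ b0.R, F p = 0 ∧ V (hom f) p := by
  obtain ⟨p, hp, hF, hp2, hp1, hp1'⟩ := start_root
  refine ⟨p, hp, hF, ?_⟩
  unfold V
  have c1 : Continuous fun z : ℝ × ℝ => z.1 / 1024 := by fun_prop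
  have c2 : Continuous fun z : ℝ × ℝ => z.2 / 1024 := by fun_prop
  have hlt : ∀ {u w : ℝ × ℝ → ℝ}, Continuous u → Continuous w → u p < w p →
      ∀ᶠ z in 𝓝 p, u z < w z := fun hu hw h => hu.continuousAt.eventually_lt hw.continuousAt h
  have a1 : ∀ᶠ z : ℝ × ℝ in 𝓝 p, 0 < z.1 / 1024 := hlt continuous_const c1 (by linarith)
  have a2 : ∀ᶠ z : ℝ × ℝ in 𝓝 p, z.1 / 1024 < z.2 / 1024 := hlt c1 c2 (by
    simp only [hp2]; linarith)
  have a3 : ∀ᶠ z : ℝ × ℝ in 𝓝 p, z.2 / 1024 < 1 := hlt c2 continuous_const (by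
    simp only [hp2]; norm_num)
  have a4 : ∀ᶠ z : ℝ × ℝ in 𝓝 p, z.2 / 1024 * (1 - (z.1 / 1024) ^ 2) < 2 * (z.1 / 1024) :=
    hlt (by fun_prop) (by fun_prop) (by simp only [hp2]; nlinarith)
  have a5 : ∀ᶠ z : ℝ × ℝ in 𝓝 p, 4 * (z.1 / 1024) < 1 + (z.1 / 1024) ^ 2 :=
    hlt (by fun_prop) (by fun_prop) (by nlinarith)
  have a6 : ∀ᶠ z : ℝ × ℝ in 𝓝 p, 1 + (z.2 / 1024) ^ 2 < 4 * (z.2 / 1024) :=
    hlt (by fun_prop) (by fun_prop) (by simp only [hp2]; norm_num)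
  filter_upwards [a1, a2, a3, a4, a5, a6] with z b1 b2 b3 b4 b5 b6 hFz
  have hC : ev2 C (z.1 / 1024) (z.2 / 1024) = 0 := by
    have h3 := ev2_G0 (z.1 / 1024) (z.2 / 1024)
    have ex : (1024:ℝ) * (z.1 / 1024) = z.1 := by ring
    have ey : (1024:ℝ) * (z.2 / 1024) = z.2 := by ring
    rw [ex, ey] at h3
    have : ev2 G0 z.1 z.2 = 0 := hFz
    rw [this] at h3
    have h4 : (0:ℝ) < 1024 ^ 30 := by positivity
    rcases mul_eq_zero.1 h3.symm with h5 | h5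
    · exact absurd h5 h4.ne'
    · exact h5
  have hQ : Q8 (z.1 / 1024) (z.2 / 1024) = 0 := by rw [Q8_eq, hC, mul_zero]
  obtain ⟨g1, g2⟩ := genuine _ _ b1 b2 b3 b4 b5 b6 hQ
  rw [hom_eq f z g1.ne', hf _ g2, mul_zero]

end NonMorse
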