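import Pool.Agent.Helper342.Alg.Defs

open Complex

namespace NonMorse

def pA (t : ℝ) : ℝ := 1 + t ^ 2
def pd (t s : ℝ) : ℝ := 2 * s * (1 - t ^ 2) - 2 * t * (1 - s ^ 2)

/-- mass of the bodies at `-1` and `1` -/
def M1 (t s : ℝ) : ℝ :=
  8 * (2 * t) ^ 2 * (2 * s) ^ 2 * (pd t s ^ 3 - (2 * s) ^ 3 * pA t ^ 3) *
    (pd t s ^ 3 - (2 * t) ^ 3 * pA s ^ 3) * pA t ^ 3 * pA s ^ 3
/-- mass of the body at `i (1-t²)/(2t)` -/
def M3 (t s : ℝ) : ℝ :=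
  2 * (1 - s ^ 2) * (pA s ^ 3 - 8 * (2 * s) ^ 3) * pd t s ^ 2 * (2 * s) ^ 2 *
    (pd t s ^ 3 - (2 * t) ^ 3 * pA s ^ 3) * pA t ^ 6
/-- mass of the body at `i (1-s²)/(2s)` -/
def M4 (t s : ℝ) : ℝ :=
  -2 * (1 - t ^ 2) * (pA t ^ 3 - 8 * (2 * t) ^ 3) * pd t s ^ 2 * (2 * t) ^ 2 *
    (pd t s ^ 3 - (2 * s) ^ 3 * pA t ^ 3) * pA s ^ 6

/-- transversal degeneracy polynomial -/
def Q8 (t s : ℝ) : ℝ :=
  (pA t ^ 3 - 8 * (2 * t) ^ 3) * (pd t s ^ 3 - (2 * s) ^ 3 * pA t ^ 3) * (2 * s) * (1 - s ^ 2) *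
      pA t ^ 2 * pA s ^ 3
    - (pA s ^ 3 - 8 * (2 * s) ^ 3) * (pd t s ^ 3 - (2 * t) ^ 3 * pA s ^ 3) * (2 * t) * (1 - t ^ 2) *
      pA t ^ 3 * pA s ^ 2
    - 3 * pd t s ^ 4 * (2 * t) * (2 * s) *
      (8 * (2 * t) ^ 3 * pA s ^ 3 + 8 * (2 * s) ^ 3 * pA t ^ 3 - pA t ^ 3 * pA s ^ 3)
    + 24 * pd t s * (2 * t) ^ 4 * (2 * s) ^ 4 * pA t ^ 3 * pA s ^ 3

/-- the real algebra behind the kite -/
theorem kite_alg (y3 y4 A B C D A5 B5 m1 m3 m4 : ℝ) (hm1 : 0 < m1) (hm3 : 0 < m3) (hm4 : 0 < m4)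
    (hh : 0 < y3 - y4) (hAD : A - D ≠ 0) (hBD : B - D ≠ 0) (hA : 0 < A) (hB : 0 < B) (hC : 0 < C)
    (r1 : m3 * (A - D) * (y3 - y4) = 2 * y4 * (C - B) * m1)
    (r2 : m4 * (B - D) * (y3 - y4) = -2 * y3 * (C - A) * m1)
    (hs : (C - A) * (A - D) * B5 * y4 - (C - B) * (B - D) * A5 * y3
      + 3 * (y4 - y3) * A5 * B5 * (A + B - C - D) = 0) :
    ∃ lam : ℝ, 0 < lam ∧
      2 * m1 * (lam - C) + m3 * (lam - A) + m4 * (lam - B) = 0 ∧
      m3 * (lam - A) * y3 + m4 * (lam - B) * y4 = 0 ∧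
      2 * m1 * (lam - A) * y3 + m4 * (lam - D) * (y3 - y4) = 0 ∧
      2 * m1 * (lam - B) * y4 - m3 * (lam - D) * (y3 - y4) = 0 ∧
      2 * m1 * (m4 * B5 * y4) * (lam - A + 3 * A5)
        + m4 * (lam - D) * (m4 * B5 * y4 + m3 * A5 * y3) = 0 ∧
      2 * m1 * (-(m3 * A5 * y3)) * (lam - B + 3 * B5)
        - m3 * (lam - D) * (m4 * B5 * y4 + m3 * A5 * y3) = 0 ∧
      m3 * (m4 * B5 * y4) * (lam - A + 3 * A5) - m4 * (m3 * A5 * y3) * (lam - B + 3 * B5) = 0 := by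
  obtain ⟨K, hK⟩ : ∃ K, K = A + B - C - D := ⟨_, rfl⟩
  obtain ⟨h, hdef⟩ : ∃ h, h = y3 - y4 := ⟨_, rfl⟩
  rw [← hdef] at hh r1 r2
  have hh0 : h ≠ 0 := hh.ne'
  have hmass : 0 < 2 * m1 + m3 + m4 := by positivity
  have e1 : (2 * m1 + m3 + m4) * (A - D) * (B - D) * h
      = 2 * m1 * K * (y3 * (A - D) - y4 * (B - D)) := by
    rw [hK]
    linear_combination (B - D) * r1 + (A - D) * r2 + 2 * m1 * (A - D) * (B - D) * hdef
  have hK0 : K ≠ 0 := by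
    intro h0
    rw [h0, mul_zero, zero_mul] at e1
    exact mul_ne_zero (mul_ne_zero (mul_ne_zero hmass.ne' hAD) hBD) hh0 e1
  obtain ⟨lam, hlam⟩ : ∃ lam, lam * K = A * B - C * D := ⟨(A * B - C * D) / K, by field_simp⟩
  have lA : (lam - A) * K = -((A - C) * (A - D)) := by rw [hK] at hlam ⊢; linear_combination hlam
  have lB : (lam - B) * K = -((B - C) * (B - D)) := by rw [hK] at hlam ⊢; linear_combination hlam
  have lC : (lam - C) * K = (A - C) * (B - C) := by rw [hK] at hlam ⊢; linear_combination hlam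
  have lD : (lam - D) * K = (A - D) * (B - D) := by rw [hK] at hlam ⊢; linear_combination hlam
  have hKh : K * h ≠ 0 := mul_ne_zero hK0 hh0
  have q1 : 2 * m1 * (lam - C) + m3 * (lam - A) + m4 * (lam - B) = 0 := by
    apply (mul_eq_zero_iff_right hKh).mp
    linear_combination 2 * m1 * h * lC + m3 * h * lA + m4 * h * lB - (A - C) * r1 - (B - C) * r2
      + 2 * m1 * (A - C) * (B - C) * hdef
  have q2 : m3 * (lam - A) * y3 + m4 * (lam - B) * y4 = 0 := by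
    apply (mul_eq_zero_iff_right hKh).mp
    linear_combination m3 * y3 * h * lA + m4 * y4 * h * lB - (A - C) * y3 * r1 - (B - C) * y4 * r2
  have q3 : 2 * m1 * (lam - A) * y3 + m4 * (lam - D) * h = 0 := by
    apply (mul_eq_zero_iff_right hK0).mp
    linear_combination 2 * m1 * y3 * lA + m4 * h * lD + (A - D) * r2
  have q4 : 2 * m1 * (lam - B) * y4 - m3 * (lam - D) * h = 0 := by
    apply (mul_eq_zero_iff_right hK0).mp
    linear_combination 2 * m1 * y4 * lB - m3 * h * lD - (B - D) * r1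
  have hs' : (A - C) * (A - D) * B5 * y4 - (B - C) * (B - D) * A5 * y3 + 3 * h * A5 * B5 * K = 0 := by
    rw [hdef, hK]; linear_combination -hs
  have q5 : 2 * m1 * (m4 * B5 * y4) * (lam - A + 3 * A5)
        + m4 * (lam - D) * (m4 * B5 * y4 + m3 * A5 * y3) = 0 := by
    have hne : K * h * (B - D) * h ≠ 0 := mul_ne_zero (mul_ne_zero hKh hBD) hh0
    rw [← mul_eq_zero_iff_right hne]
    linear_combination (2 * m1 * (m4 * B5 * y4) * h * (B - D) * h) * lA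
      + (m4 * (m4 * B5 * y4 + m3 * A5 * y3) * h * (B - D) * h) * lD
      + (A - D) * (m4 * B5 * y4 + m3 * A5 * y3) * (B - D) * h * r2
      + 2 * m1 * (B - D) * h * (-(m4 * B5 * y4) * (A - C) * (A - D)) * hdef
      + 2 * m1 * B5 * y4 * ((A - C) * (A - D) * y4 + 3 * A5 * K * h) * r2
      + 2 * m1 * (B - D) * y3 ^ 2 * (A - C) * A5 * r1
      + 4 * m1 ^ 2 * y3 * y4 * (A - C) * hs'
  have q6 : 2 * m1 * (-(m3 * A5 * y3)) * (lam - B + 3 * B5)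
        - m3 * (lam - D) * (m4 * B5 * y4 + m3 * A5 * y3) = 0 := by
    have hne : K * h * (A - D) * h ≠ 0 := mul_ne_zero (mul_ne_zero hKh hAD) hh0
    rw [← mul_eq_zero_iff_right hne]
    linear_combination (2 * m1 * (-(m3 * A5 * y3)) * h * (A - D) * h) * lB
      - (m3 * (m4 * B5 * y4 + m3 * A5 * y3) * h * (A - D) * h) * lD
      - (B - D) * (m4 * B5 * y4 + m3 * A5 * y3) * (A - D) * h * r1
      + 2 * m1 * (A - D) * h * ((m3 * A5 * y3) * (B - C) * (B - D)) * hdef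
      + 2 * m1 * (-A5 * y3) * (-(B - C) * (B - D) * y3 + 3 * B5 * K * h) * r1
      + 2 * m1 * (A - D) * y4 ^ 2 * (B - C) * B5 * r2
      + 4 * m1 ^ 2 * y3 * y4 * (B - C) * hs'
  have q7 : m3 * (m4 * B5 * y4) * (lam - A + 3 * A5) - m4 * (m3 * A5 * y3) * (lam - B + 3 * B5) = 0 := by
    apply (mul_eq_zero_iff_right hm1.ne').mp
    linear_combination (m3 / 2) * q5 + (m4 / 2) * q6
  refine ⟨lam, ?_, q1, q2, ?_, ?_, q5, q6, q7⟩
  · have : lam * (2 * m1 + m3 + m4) = 2 * m1 * C + m3 * A + m4 * B := by linear_combination q1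
    have hpos : 0 < lam * (2 * m1 + m3 + m4) := by rw [this]; positivity
    exact pos_of_mul_pos_left hpos hmass.le
  · rw [← hdef]; exact q3
  · rw [← hdef]; exact q4


/-- the configuration equations for the kite from the scalar ones -/
theorem kite_conf (y3 y4 A B C D A5 B5 C5 D5 m1 m3 m4 lam x3 x4 : ℝ) (q v : Fin 4 → ℂ)
    (hq : q = ![-1, 1, I * y3, I * y4]) (hv : v = ![0, 0, (x3 : ℂ), (x4 : ℂ)])
    (W W5 : Fin 4 → Fin 4 → ℝ)
    (hWd : W = ![![0, C, A, B], ![C, 0, A, B], ![A, A, 0, D], ![B, B, D, 0]])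
    (hW5d : W5 = ![![0, C5, A5, B5], ![C5, 0, A5, B5], ![A5, A5, 0, D5], ![B5, B5, D5, 0]])
    (hW : ∀ a b, 1 / ‖q a - q b‖ ^ 3 = W a b) (hW5 : ∀ a b, 1 / ‖q a - q b‖ ^ 5 = W5 a b)
    (q1 : 2 * m1 * (lam - C) + m3 * (lam - A) + m4 * (lam - B) = 0)
    (q2 : m3 * (lam - A) * y3 + m4 * (lam - B) * y4 = 0)
    (q3 : 2 * m1 * (lam - A) * y3 + m4 * (lam - D) * (y3 - y4) = 0)
    (q4 : 2 * m1 * (lam - B) * y4 - m3 * (lam - D) * (y3 - y4) = 0)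
    (q5 : 2 * m1 * x3 * (lam - A + 3 * A5) + m4 * (lam - D) * (x3 - x4) = 0)
    (q6 : 2 * m1 * x4 * (lam - B + 3 * B5) - m3 * (lam - D) * (x3 - x4) = 0)
    (q7 : m3 * x3 * (lam - A + 3 * A5) + m4 * x4 * (lam - B + 3 * B5) = 0)
    (q8 : m3 * A5 * y3 * x3 + m4 * B5 * y4 * x4 = 0) :
    ccEq ![m1, m1, m3, m4] lam q ∧ linEq ![m1, m1, m3, m4] lam q v := by
  have a0 : q 0 = -1 := by rw [hq]; rfl
  have a1 : q 1 = 1 := by rw [hq]; rfl
  have a2 : q 2 = I * y3 := by rw [hq]; rfl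
  have a3 : q 3 = I * y4 := by rw [hq]; rfl
  have b0 : v 0 = 0 := by rw [hv]; rfl
  have b1 : v 1 = 0 := by rw [hv]; rfl
  have b2 : v 2 = x3 := by rw [hv]; rfl
  have b3 : v 3 = x4 := by rw [hv]; rfl
  constructor
  · intro a
    simp only [hW]
    rw [Fin.sum_univ_four]
    fin_cases a <;>
    · simp only [Fin.zero_eta, Fin.mk_one, Fin.reduceFinMk, a0, a1, a2, a3, hWd]
      apply Complex.ext <;> simp <;>
      first
        | linear_combination (-1) * q1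
        | linear_combination q1
        | linear_combination (-1) * q2
        | linear_combination q3
        | linear_combination q4
  · intro a
    have hh : ∀ b, 3 * (![m1, m1, m3, m4] : Fin 4 → ℝ) b * ip (q a - q b) (v a - v b) /
        ‖q a - q b‖ ^ 5 = 3 * (![m1, m1, m3, m4] : Fin 4 → ℝ) b * ip (q a - q b) (v a - v b) *
        W5 a b := by
      intro b
      rw [← hW5, mul_one_div]
    simp only [hW, hh]
    rw [Fin.sum_univ_four]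
    fin_cases a <;>
    · simp only [Fin.zero_eta, Fin.mk_one, Fin.reduceFinMk, a0, a1, a2, a3, b0, b1, b2, b3, hWd,
        hW5d, ip]
      apply Complex.ext <;> simp <;>
      first
        | linear_combination (-1) * q7
        | linear_combination (-3) * q8
        | linear_combination 3 * q8
        | linear_combination q5
        | linear_combination q6

theorem norm_kite (y : ℝ) (p : ℝ) (hp : 0 ≤ p) (h : p ^ 2 = 1 + y ^ 2) :
    ‖(-1 : ℂ) - I * y‖ = p ∧ ‖(1 : ℂ) - I * y‖ = p := by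
  constructor
  · rw [Complex.norm_def, Real.sqrt_eq_iff_mul_self_eq (Complex.normSq_nonneg _) hp,
      Complex.normSq_apply]
    simp
    linear_combination -h
  · rw [Complex.norm_def, Real.sqrt_eq_iff_mul_self_eq (Complex.normSq_nonneg _) hp,
      Complex.normSq_apply]
    simp
    linear_combination -h

theorem rel_alg (a b P R u w d : ℝ) (ha : a ≠ 0) (hb : b ≠ 0) (hP : P ≠ 0) (hR : R ≠ 0)
    (hd : d ≠ 0) :
    (2 * w * (R ^ 3 - 8 * b ^ 3) * d ^ 2 * b ^ 2 * (d ^ 3 - a ^ 3 * R ^ 3) * P ^ 6) *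
        (1 / (P / a) ^ 3 - 1 / (d / (a * b)) ^ 3) * (d / (a * b))
      = 2 * (w / b) * (1 / 8 - 1 / (R / b) ^ 3) *
        (8 * a ^ 2 * b ^ 2 * (d ^ 3 - b ^ 3 * P ^ 3) * (d ^ 3 - a ^ 3 * R ^ 3) * P ^ 3 * R ^ 3) ∧
    (-2 * u * (P ^ 3 - 8 * a ^ 3) * d ^ 2 * a ^ 2 * (d ^ 3 - b ^ 3 * P ^ 3) * R ^ 6) *
        (1 / (R / b) ^ 3 - 1 / (d / (a * b)) ^ 3) * (d / (a * b))
      = -2 * (u / a) * (1 / 8 - 1 / (P / a) ^ 3) *
        (8 * a ^ 2 * b ^ 2 * (d ^ 3 - b ^ 3 * P ^ 3) * (d ^ 3 - a ^ 3 * R ^ 3) * P ^ 3 * R ^ 3) := by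
  constructor
  · field_simp
    try ring
  · field_simp
    try ring

theorem star_alg (a b P R u w d : ℝ) (ha : a ≠ 0) (hb : b ≠ 0) (hP : P ≠ 0) (hR : R ≠ 0)
    (hd : d ≠ 0)
    (hQ : (P ^ 3 - 8 * a ^ 3) * (d ^ 3 - b ^ 3 * P ^ 3) * b * w * P ^ 2 * R ^ 3
      - (R ^ 3 - 8 * b ^ 3) * (d ^ 3 - a ^ 3 * R ^ 3) * a * u * P ^ 3 * R ^ 2
      - 3 * d ^ 4 * a * b * (8 * a ^ 3 * R ^ 3 + 8 * b ^ 3 * P ^ 3 - P ^ 3 * R ^ 3)
      + 24 * d * a ^ 4 * b ^ 4 * P ^ 3 * R ^ 3 = 0) :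
    (1 / 8 - 1 / (P / a) ^ 3) * (1 / (P / a) ^ 3 - 1 / (d / (a * b)) ^ 3) * (1 / (R / b) ^ 5) *
        (w / b)
      - (1 / 8 - 1 / (R / b) ^ 3) * (1 / (R / b) ^ 3 - 1 / (d / (a * b)) ^ 3) *
        (1 / (P / a) ^ 5) * (u / a)
      + 3 * (-(d / (a * b))) * (1 / (P / a) ^ 5) * (1 / (R / b) ^ 5) *
        (1 / (P / a) ^ 3 + 1 / (R / b) ^ 3 - 1 / 8 - 1 / (d / (a * b)) ^ 3) = 0 := by
  have h0 : 8 * P ^ 8 * R ^ 8 * d ^ 3 ≠ 0 := by positivity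
  apply (mul_eq_zero_iff_right h0).mp
  have e : ((1 / 8 - 1 / (P / a) ^ 3) * (1 / (P / a) ^ 3 - 1 / (d / (a * b)) ^ 3) *
        (1 / (R / b) ^ 5) * (w / b)
      - (1 / 8 - 1 / (R / b) ^ 3) * (1 / (R / b) ^ 3 - 1 / (d / (a * b)) ^ 3) *
        (1 / (P / a) ^ 5) * (u / a)
      + 3 * (-(d / (a * b))) * (1 / (P / a) ^ 5) * (1 / (R / b) ^ 5) *
        (1 / (P / a) ^ 3 + 1 / (R / b) ^ 3 - 1 / 8 - 1 / (d / (a * b)) ^ 3)) *
        (8 * P ^ 8 * R ^ 8 * d ^ 3)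
      = a ^ 3 * b ^ 3 * ((P ^ 3 - 8 * a ^ 3) * (d ^ 3 - b ^ 3 * P ^ 3) * b * w * P ^ 2 * R ^ 3
      - (R ^ 3 - 8 * b ^ 3) * (d ^ 3 - a ^ 3 * R ^ 3) * a * u * P ^ 3 * R ^ 2
      - 3 * d ^ 4 * a * b * (8 * a ^ 3 * R ^ 3 + 8 * b ^ 3 * P ^ 3 - P ^ 3 * R ^ 3)
      + 24 * d * a ^ 4 * b ^ 4 * P ^ 3 * R ^ 3) := by
    field_simp
    ring
  rw [e, hQ, mul_zero]

/-- TARGET -/
theorem kite_degenerate (t s : ℝ) (ht : 0 < t) (hts : t < s) (hs : s < 1) (hQ : Q8 t s = 0)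
    (h1 : 0 < M1 t s) (h3 : 0 < M3 t s) (h4 : 0 < M4 t s) :
    ∃ (q v : Fin 4 → ℂ) (lam : ℝ), 0 < lam ∧ CollisionFree q ∧
      ccEq ![M1 t s, M1 t s, M3 t s, M4 t s] lam q ∧
      linEq ![M1 t s, M1 t s, M3 t s, M4 t s] lam q v ∧ ¬ TrivialMotion q v := by
  have hs0 : 0 < s := ht.trans hts
  obtain ⟨a, ha⟩ : ∃ a, a = 2 * t := ⟨_, rfl⟩
  obtain ⟨b, hb⟩ : ∃ b, b = 2 * s := ⟨_, rfl⟩
  obtain ⟨P, hP⟩ : ∃ P, P = pA t := ⟨_, rfl⟩
  obtain ⟨R, hR⟩ : ∃ R, R = pA s := ⟨_, rfl⟩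
  obtain ⟨d, hd⟩ : ∃ d, d = pd t s := ⟨_, rfl⟩
  obtain ⟨u, hu⟩ : ∃ u, u = 1 - t ^ 2 := ⟨_, rfl⟩
  obtain ⟨w, hw⟩ : ∃ w, w = 1 - s ^ 2 := ⟨_, rfl⟩
  have ha0 : 0 < a := by rw [ha]; positivity
  have hb0 : 0 < b := by rw [hb]; positivity
  have hP0 : 0 < P := by rw [hP]; unfold pA; positivity
  have hR0 : 0 < R := by rw [hR]; unfold pA; positivity
  have hd0 : 0 < d := by
    have : d = 2 * (s - t) * (1 + t * s) := by rw [hd]; unfold pd; ring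
    rw [this]
    exact mul_pos (mul_pos two_pos (sub_pos.2 hts)) (by positivity)
  have hw0 : 0 < w := by rw [hw]; nlinarith
  have hu0 : 0 < u := by rw [hu]; nlinarith
  have hduw : d = b * u - a * w := by rw [hd, ha, hb, hu, hw]; unfold pd; ring
  have hPu : P ^ 2 = a ^ 2 + u ^ 2 := by rw [hP, ha, hu]; unfold pA; ring
  have hRw : R ^ 2 = b ^ 2 + w ^ 2 := by rw [hR, hb, hw]; unfold pA; ring
  have hM1 : M1 t s = 8 * a ^ 2 * b ^ 2 * (d ^ 3 - b ^ 3 * P ^ 3) * (d ^ 3 - a ^ 3 * R ^ 3) * P ^ 3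
      * R ^ 3 := by rw [ha, hb, hP, hR, hd]; unfold M1; ring
  have hM3 : M3 t s = 2 * w * (R ^ 3 - 8 * b ^ 3) * d ^ 2 * b ^ 2 * (d ^ 3 - a ^ 3 * R ^ 3) * P ^ 6 := by
    rw [ha, hb, hP, hR, hd, hw]; unfold M3; ring
  have hM4 : M4 t s = -2 * u * (P ^ 3 - 8 * a ^ 3) * d ^ 2 * a ^ 2 * (d ^ 3 - b ^ 3 * P ^ 3) * R ^ 6 := by
    rw [ha, hb, hP, hR, hd, hu]; unfold M4; ring
  have hQ' : (P ^ 3 - 8 * a ^ 3) * (d ^ 3 - b ^ 3 * P ^ 3) * b * w * P ^ 2 * R ^ 3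
      - (R ^ 3 - 8 * b ^ 3) * (d ^ 3 - a ^ 3 * R ^ 3) * a * u * P ^ 3 * R ^ 2
      - 3 * d ^ 4 * a * b * (8 * a ^ 3 * R ^ 3 + 8 * b ^ 3 * P ^ 3 - P ^ 3 * R ^ 3)
      + 24 * d * a ^ 4 * b ^ 4 * P ^ 3 * R ^ 3 = 0 := by
    rw [← hQ, ha, hb, hP, hR, hd, hu, hw]; unfold Q8; ring
  obtain ⟨R1, R2⟩ := rel_alg a b P R u w d ha0.ne' hb0.ne' hP0.ne' hR0.ne' hd0.ne'
  have R3 := star_alg a b P R u w d ha0.ne' hb0.ne' hP0.ne' hR0.ne' hd0.ne' hQ'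
  rw [← hM3, ← hM1] at R1
  rw [← hM4, ← hM1] at R2
  have hf1 : d ^ 3 - b ^ 3 * P ^ 3 ≠ 0 := by
    intro h; rw [hM1, h] at h1; simp at h1
  have hf2 : d ^ 3 - a ^ 3 * R ^ 3 ≠ 0 := by
    intro h; rw [hM1, h] at h1; simp at h1
  clear hM1 hM3 hM4 hQ hQ'
  generalize M1 t s = m1 at *
  generalize M3 t s = m3 at *
  generalize M4 t s = m4 at *
  obtain ⟨y3, hy3⟩ : ∃ y3, y3 = u / a := ⟨_, rfl⟩
  obtain ⟨y4, hy4⟩ : ∃ y4, y4 = w / b := ⟨_, rfl⟩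
  have hh : y3 - y4 = d / (a * b) := by
    rw [hy3, hy4, hduw]; field_simp
  have hh0 : 0 < y3 - y4 := by rw [hh]; positivity
  rw [← hh, ← hy4] at R1
  rw [← hh, ← hy3] at R2
  rw [← hh, ← hy3, ← hy4] at R3
  have hAD : 1 / (P / a) ^ 3 - 1 / (y3 - y4) ^ 3 ≠ 0 := by
    rw [hh]
    have : 1 / (P / a) ^ 3 - 1 / (d / (a * b)) ^ 3
        = a ^ 3 * (d ^ 3 - b ^ 3 * P ^ 3) / (P ^ 3 * d ^ 3) := by field_simp
    rw [this]
    exact div_ne_zero (mul_ne_zero (by positivity) hf1) (by positivity)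
  have hBD : 1 / (R / b) ^ 3 - 1 / (y3 - y4) ^ 3 ≠ 0 := by
    rw [hh]
    have : 1 / (R / b) ^ 3 - 1 / (d / (a * b)) ^ 3
        = b ^ 3 * (d ^ 3 - a ^ 3 * R ^ 3) / (R ^ 3 * d ^ 3) := by field_simp
    rw [this]
    exact div_ne_zero (mul_ne_zero (by positivity) hf2) (by positivity)
  obtain ⟨lam, l0, q1, q2, q3, q4, q5, q6, q7⟩ := kite_alg y3 y4 (1 / (P / a) ^ 3) (1 / (R / b) ^ 3)
    (1 / 8) (1 / (y3 - y4) ^ 3) (1 / (P / a) ^ 5) (1 / (R / b) ^ 5) m1 m3 m4 h1 h3 h4 hh0 hAD hBD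
    (by positivity) (by positivity) (by norm_num) R1 R2 (by linear_combination R3)
  obtain ⟨n1, n2⟩ := norm_kite y3 (P / a) (by positivity) (by
    rw [hy3, div_pow, div_pow, hPu]; field_simp)
  obtain ⟨n3, n4⟩ := norm_kite y4 (R / b) (by positivity) (by
    rw [hy4, div_pow, div_pow, hRw]; field_simp)
  have n5 : ‖I * (y3 : ℂ) - I * y4‖ = y3 - y4 := by
    rw [← mul_sub, norm_mul, Complex.norm_I, one_mul, ← Complex.ofReal_sub, Complex.norm_real,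
      Real.norm_eq_abs, abs_of_pos hh0]
  have n6 : ‖(-1 : ℂ) - 1‖ = 2 := by norm_num
  have hN : ∀ i j : Fin 4, ‖(![-1, 1, I * y3, I * y4] : Fin 4 → ℂ) i -
      (![-1, 1, I * y3, I * y4] : Fin 4 → ℂ) j‖ =
      (![![0, 2, P / a, R / b], ![2, 0, P / a, R / b], ![P / a, P / a, 0, y3 - y4],
        ![R / b, R / b, y3 - y4, 0]] : Fin 4 → Fin 4 → ℝ) i j := by
    intro i j
    fin_cases i <;> fin_cases j <;>
      simp only [Fin.zero_eta, Fin.mk_one, Fin.reduceFinMk, Matrix.cons_val_zero,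
        Matrix.cons_val_one, Matrix.cons_val, sub_self, norm_zero] <;>
      first
        | exact n6
        | exact n1
        | exact n2
        | exact n3
        | exact n4
        | exact n5
        | (rw [norm_sub_rev]; first
            | exact n6
            | exact n1
            | exact n2
            | exact n3
            | exact n4
            | exact n5)
  have hdd : (0:ℝ) < P / a := by positivity
  have hde : (0:ℝ) < R / b := by positivity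
  refine ⟨![-1, 1, I * y3, I * y4],
    ![0, 0, ((m4 * (1 / (R / b) ^ 5) * y4 : ℝ) : ℂ), ((-(m3 * (1 / (P / a) ^ 5) * y3) : ℝ) : ℂ)],
    lam, l0, ?_, ?_⟩
  · intro i j hij h
    have e := hN i j
    rw [h, sub_self, norm_zero] at e
    fin_cases i <;> fin_cases j <;>
      simp only [Fin.zero_eta, Fin.mk_one, Fin.reduceFinMk, Matrix.cons_val_zero,
        Matrix.cons_val_one, Matrix.cons_val] at e <;>
      first
        | exact hij rfl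
        | linarith
  · rw [← and_assoc]
    constructor
    · refine kite_conf y3 y4 (1 / (P / a) ^ 3) (1 / (R / b) ^ 3) (1 / 8) (1 / (y3 - y4) ^ 3)
        (1 / (P / a) ^ 5) (1 / (R / b) ^ 5) (1 / 32) (1 / (y3 - y4) ^ 5) m1 m3 m4 lam _ _ _ _
        rfl rfl _ _ rfl rfl ?_ ?_ q1 q2 q3 q4 ?_ ?_ ?_ ?_
      · intro i j
        rw [hN]
        fin_cases i <;> fin_cases j <;>
          simp only [Fin.zero_eta, Fin.mk_one, Fin.reduceFinMk, Matrix.cons_val_zero,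
            Matrix.cons_val_one, Matrix.cons_val] <;> norm_num
      · intro i j
        rw [hN]
        fin_cases i <;> fin_cases j <;>
          simp only [Fin.zero_eta, Fin.mk_one, Fin.reduceFinMk, Matrix.cons_val_zero,
            Matrix.cons_val_one, Matrix.cons_val] <;> norm_num
      · linear_combination q5
      · linear_combination q6
      · linear_combination q7
      · ring
    · rintro ⟨θ, c, hc⟩
      have c0 := hc 0
      have c1 := hc 1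
      have c2 := hc 2
      simp only [Matrix.cons_val_zero, Matrix.cons_val_one, Matrix.cons_val] at c0 c1 c2
      have e1 : (θ : ℂ) * I = 0 := by linear_combination (c0 - c1) / 2
      have e2 : c = 0 := by linear_combination -c0 + e1
      have e3 : ((m4 * (1 / (R / b) ^ 5) * y4 : ℝ) : ℂ) = 0 := by
        linear_combination c2 + e1 * (I * y3) + e2
      have e4 : m4 * (1 / (R / b) ^ 5) * y4 = 0 := by exact_mod_cast e3
      have hy40 : 0 < y4 := by rw [hy4]; positivity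
      have : 0 < m4 * (1 / (R / b) ^ 5) * y4 := by positivity
      linarith

end NonMorse
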