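import Pool.Agent.Helper342.Alg.BBAll
import Pool.Agent.Helper342.Alg.Apriori
import Pool.Agent.Helper342.Alg.Dziobek

/-!
# All central configurations for the masses `(1,1,μ,1)`, `5.3 ≤ μ ≤ 5.4`, are nondegenerate
-/

namespace NonMorse

open Finset NonMorse.BB

def mm (μ : ℝ) : Fin 4 → ℝ := ![1, 1, μ, 1]

structure Dat (μ : ℝ) (z ζ : Fin 4 → ℝ) (r : Fin 4 → Fin 4 → ℝ) : Prop where
  sym : ∀ a b, r a b = r b a
  hr : ∀ a b, a ≠ b → 0 < r a b ∧ r a b ^ 3 * (1 - z a * z b) = 1 ∧ z a * z b ≤ 7 / 8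
  bd : ∀ a, |z a| < 9
  hz : ∑ a, mm μ a * z a = 0
  hT : ∃ c, ∀ a, ∑ b ∈ univ.erase a, mm μ b * z b * r a b ^ 2 = c
  hζ : ∑ a, mm μ a * ζ a = 0
  hL : ∃ c, ∀ a, ∑ b ∈ univ.erase a,
        mm μ b * (ζ b * r a b ^ 2 + z b * (2 / 3) * r a b ^ 5 * (ζ a * z b + z a * ζ b)) = c

theorem Dat.neg {μ : ℝ} {z ζ : Fin 4 → ℝ} {r : Fin 4 → Fin 4 → ℝ} (h : Dat μ z ζ r) :
    Dat μ (fun a => - z a) ζ r where
  sym := h.sym
  hr := fun a b hab => by
    obtain ⟨h1, h2, h3⟩ := h.hr a b hab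
    have e : (- z a) * (- z b) = z a * z b := by ring
    exact ⟨h1, by rw [e]; exact h2, by rw [e]; exact h3⟩
  bd := fun a => by rw [abs_neg]; exact h.bd a
  hz := by
    have := h.hz
    simp only [mul_neg, sum_neg_distrib, this, neg_zero]
  hT := by
    obtain ⟨c, hc⟩ := h.hT
    refine ⟨-c, fun a => ?_⟩
    rw [← hc a, ← sum_neg_distrib]
    exact sum_congr rfl fun b _ => by ring
  hζ := h.hζ
  hL := by
    obtain ⟨c, hc⟩ := h.hL
    refine ⟨c, fun a => ?_⟩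
    rw [← hc a]
    exact sum_congr rfl fun b _ => by ring

theorem Dat.perm {μ : ℝ} {z ζ : Fin 4 → ℝ} {r : Fin 4 → Fin 4 → ℝ} (h : Dat μ z ζ r)
    (σ : Equiv.Perm (Fin 4)) (hσ : ∀ a, mm μ (σ a) = mm μ a) :
    Dat μ (fun a => z (σ a)) (fun a => ζ (σ a)) (fun a b => r (σ a) (σ b)) where
  sym := fun a b => h.sym _ _
  hr := fun a b hab => h.hr _ _ (fun h' => hab (σ.injective h'))
  bd := fun a => h.bd _
  hz := by
    have := h.hz
    rw [← Equiv.sum_comp σ] at this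
    simpa only [hσ] using this
  hT := by
    obtain ⟨c, hc⟩ := h.hT
    refine ⟨c, fun a => ?_⟩
    rw [← hc (σ a), sum_erase_eq_sub (mem_univ _), sum_erase_eq_sub (mem_univ _),
      ← Equiv.sum_comp σ (fun b => mm μ b * z b * r (σ a) b ^ 2)]
    simp only [hσ]
  hζ := by
    have := h.hζ
    rw [← Equiv.sum_comp σ] at this
    simpa only [hσ] using this
  hL := by
    obtain ⟨c, hc⟩ := h.hL
    refine ⟨c, fun a => ?_⟩
    rw [← hc (σ a), sum_erase_eq_sub (mem_univ _), sum_erase_eq_sub (mem_univ _),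
      ← Equiv.sum_comp σ (fun b => mm μ b * (ζ b * r (σ a) b ^ 2 + z b * (2 / 3) * r (σ a) b ^ 5 *
        (ζ (σ a) * z b + z (σ a) * ζ b)))]
    simp only [hσ]

def ix : Ix → Fin 4
  | .i0 => 0
  | .i1 => 1
  | .i2 => 2
  | .i3 => 3

theorem ix_inj {i j : Ix} (h : i ≠ j) : ix i ≠ ix j := by
  cases i <;> cases j <;> simp_all [ix]

theorem sum3 (f : Ix → ℝ) (i j k l : Ix) (h1 : i ≠ j) (h2 : i ≠ k) (h3 : i ≠ l) (h4 : j ≠ k)
    (h5 : j ≠ l) (h6 : k ≠ l) :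
    f j + f k + f l = f .i0 + f .i1 + f .i2 + f .i3 - f i := by
  cases i <;> cases j <;> simp at h1 <;> cases k <;> simp at h2 h4 <;> cases l <;>
    simp at h3 h5 h6 <;> ring

theorem Dat.base {μ : ℝ} (hμ1 : 53 / 10 ≤ μ) (hμ2 : μ ≤ 54 / 10) {z ζ : Fin 4 → ℝ}
    {r : Fin 4 → Fin 4 → ℝ} (h : Dat μ z ζ r) (h01 : z 0 ≤ z 1) (h13 : z 1 ≤ z 3)
    (h2 : 0 ≤ z 2) : ζ = 0 := by
  have hμ : 0 < μ := by linarith
  obtain ⟨c, hc⟩ : ∃ c : Cfg, c = ⟨μ⁻¹, fun i => z (ix i), fun i j => r (ix i) (ix j),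
    fun i => ζ (ix i)⟩ := ⟨_, rfl⟩
  have hz := h.hz
  have hζ := h.hζ
  simp only [Fin.sum_univ_four, mm, Matrix.cons_val_zero, Matrix.cons_val_one, Matrix.cons_val,
    one_mul] at hz hζ
  have y2 : c.y .i2 = μ * z 2 := by
    rw [hc]; simp only [Cfg.y, ix]; linarith
  have η2 : c.η .i2 = μ * ζ 2 := by
    rw [hc]; simp only [Cfg.η, ix]; linarith
  obtain ⟨cT, hT⟩ := h.hT
  obtain ⟨cL, hL⟩ := h.hL
  have E0 : ∀ f : Fin 4 → ℝ, ∑ b ∈ univ.erase 0, f b = f 1 + f 2 + f 3 := by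
    intro f; rw [sum_erase_eq_sub (mem_univ _), Fin.sum_univ_four]; ring
  have E1 : ∀ f : Fin 4 → ℝ, ∑ b ∈ univ.erase 1, f b = f 0 + f 2 + f 3 := by
    intro f; rw [sum_erase_eq_sub (mem_univ _), Fin.sum_univ_four]; ring
  have E2 : ∀ f : Fin 4 → ℝ, ∑ b ∈ univ.erase 2, f b = f 0 + f 1 + f 3 := by
    intro f; rw [sum_erase_eq_sub (mem_univ _), Fin.sum_univ_four]; ring
  have E3 : ∀ f : Fin 4 → ℝ, ∑ b ∈ univ.erase 3, f b = f 0 + f 1 + f 2 := by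
    intro f; rw [sum_erase_eq_sub (mem_univ _), Fin.sum_univ_four]; ring
  have T0 := hT 0
  have T1 := hT 1
  have T2 := hT 2
  have T3 := hT 3
  have L0 := hL 0
  have L1 := hL 1
  have L2 := hL 2
  have L3 := hL 3
  rw [E0] at T0 L0
  rw [E1] at T1 L1
  rw [E2] at T2 L2
  rw [E3] at T3 L3
  simp only [mm, Matrix.cons_val_zero, Matrix.cons_val_one, Matrix.cons_val, one_mul] at T0 T1 T2 T3
  simp only [mm, Matrix.cons_val_zero, Matrix.cons_val_one, Matrix.cons_val, one_mul] at L0 L1 L2 L3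
  have s01 := h.sym 1 0
  have s02 := h.sym 2 0
  have s03 := h.sym 3 0
  have s12 := h.sym 2 1
  have s13 := h.sym 3 1
  have s23 := h.sym 3 2
  rw [s01] at T1 L1
  rw [s02, s12] at T2 L2
  rw [s03, s13, s23] at T3 L3
  have D0 : c.DT .i0 .i1 .i2 .i3 = cL := by
    rw [← L0]
    simp only [Cfg.DT, Cfg.cc, Cfg.d, Cfg.sp]
    rw [y2, η2, hc]
    simp only [Cfg.y, Cfg.η, ix]
    ring
  have D1 : c.DT .i1 .i0 .i2 .i3 = cL := by
    rw [← L1]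
    simp only [Cfg.DT, Cfg.cc, Cfg.d, Cfg.sp]
    rw [y2, η2, hc]
    simp only [Cfg.y, Cfg.η, ix, s01]
    ring
  have D2 : c.DT .i2 .i0 .i1 .i3 = cL := by
    rw [← L2]
    simp only [Cfg.DT, Cfg.cc, Cfg.d, Cfg.sp]
    rw [hc]
    simp only [Cfg.y, Cfg.η, ix, s02, s12]
    ring
  have D3 : c.DT .i3 .i0 .i1 .i2 = cL := by
    rw [← L3]
    simp only [Cfg.DT, Cfg.cc, Cfg.d, Cfg.sp]
    rw [y2, η2, hc]
    simp only [Cfg.y, Cfg.η, ix, s03, s13, s23]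
    ring
  have good : Good c := by
    constructor
    · rw [hc]; simp only [nul]; push_cast
      rw [← div_eq_mul_inv, le_div_iff₀ hμ]; linarith
    · rw [hc]; simp only [nuh]; push_cast
      rw [← div_eq_mul_inv, div_le_iff₀ hμ]; linarith
    · rw [y2, hc]; simp only [ix]; field_simp
    · rw [η2, hc]; simp only [ix]; field_simp
    · intro i j; rw [hc]; exact h.sym _ _
    · intro i j hij; rw [hc]; exact h.hr _ _ (ix_inj hij)
    · have key : ∀ i j k l : Ix, i ≠ j → i ≠ k → i ≠ l → j ≠ k → j ≠ l → k ≠ l →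
        c.y j * c.r i j ^ 2 + c.y k * c.r i k ^ 2 + c.y l * c.r i l ^ 2 = cT := by
        intro i j k l
        intro g1 g2 g3 g4 g5 g6
        have := sum3 (fun b => c.y b * c.r i b ^ 2) i j k l g1 g2 g3 g4 g5 g6
        rw [this]
        clear this g1 g2 g3 g4 g5 g6
        cases i
        · rw [y2, hc, ← T0]; simp only [Cfg.y, ix]; ring
        · rw [y2, hc, ← T1]; simp only [Cfg.y, ix, s01]; ring
        · rw [y2, hc, ← T2]; simp only [Cfg.y, ix, s02, s12]; ring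
        · rw [y2, hc, ← T3]; simp only [Cfg.y, ix, s03, s13, s23]; ring
      intro i j k l h1 h2 h3 h4 h5 h6
      have k1 := key i j k l h1 h2 h3 h4 h5 h6
      have k2 := key j i k l h1.symm h4 h5 h2 h3 h6
      have e : c.r j i = c.r i j := by rw [hc]; exact h.sym _ _
      rw [e] at k2
      rw [k1, k2]
    · rw [D0, D2]
    · rw [D1, D2]
    · rw [D3, D2]
    · rw [hc]; exact h01
    · rw [hc]; exact h13
    · rw [y2]; positivity
  have hb : ∀ a, (-589824 : ℝ) ≤ 65536 * z a ∧ 65536 * z a ≤ 589824 := by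
    intro a
    have := abs_lt.1 (h.bd a)
    constructor <;> linarith [this.1, this.2]
  have hcov := cov_root c good (by
    rw [hc]
    have e1 : ((Int.negSucc 589823 : ℤ) : ℝ) = -589824 := by
      rw [Int.cast_negSucc]; norm_num
    have e2 : ((Int.ofNat 589824 : ℤ) : ℝ) = 589824 := by
      rw [Int.ofNat_eq_natCast, Int.cast_natCast]; norm_num
    refine ⟨⟨?_, ?_⟩, ⟨?_, ?_⟩, ⟨?_, ?_⟩⟩
    · exact e1 ▸ (hb 0).1
    · exact e2 ▸ (hb 0).2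
    · exact e1 ▸ (hb 1).1
    · exact e2 ▸ (hb 1).2
    · exact e1 ▸ (hb 3).1
    · exact e2 ▸ (hb 3).2)
  rw [hc] at hcov
  funext a
  fin_cases a
  · exact hcov .i0
  · exact hcov .i1
  · exact hcov .i2
  · exact hcov .i3

theorem mm_swap {μ : ℝ} {i j : Fin 4} (h : mm μ i = mm μ j) (a : Fin 4) :
    mm μ (Equiv.swap i j a) = mm μ a := by
  rw [Equiv.swap_apply_def]
  split_ifs with h1 h2
  · rw [h1, h]
  · rw [h2, h]
  · rfl

theorem zero_of_swap {ζ : Fin 4 → ℝ} (i j : Fin 4) (h : (fun a => ζ (Equiv.swap i j a)) = 0) :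
    ζ = 0 := by
  funext a
  have := congrFun h (Equiv.swap i j a)
  simpa using this

theorem Dat.step2 {μ : ℝ} (hμ1 : 53 / 10 ≤ μ) (hμ2 : μ ≤ 54 / 10) {z ζ : Fin 4 → ℝ}
    {r : Fin 4 → Fin 4 → ℝ} (h : Dat μ z ζ r) (h01 : z 0 ≤ z 1) (h03 : z 0 ≤ z 3)
    (h2 : 0 ≤ z 2) : ζ = 0 := by
  rcases le_total (z 1) (z 3) with h13 | h13
  · exact h.base hμ1 hμ2 h01 h13 h2
  · have h' := h.perm (Equiv.swap 1 3) (mm_swap rfl)
    exact zero_of_swap 1 3 (h'.base hμ1 hμ2 h03 h13 h2)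

theorem Dat.step1 {μ : ℝ} (hμ1 : 53 / 10 ≤ μ) (hμ2 : μ ≤ 54 / 10) {z ζ : Fin 4 → ℝ}
    {r : Fin 4 → Fin 4 → ℝ} (h : Dat μ z ζ r) (h01 : z 0 ≤ z 1) (h2 : 0 ≤ z 2) : ζ = 0 := by
  rcases le_total (z 0) (z 3) with h03 | h03
  · exact h.step2 hμ1 hμ2 h01 h03 h2
  · have h' := h.perm (Equiv.swap 0 3) (mm_swap rfl)
    exact zero_of_swap 0 3 (h'.step2 hμ1 hμ2 (h03.trans h01) h03 h2)

theorem Dat.step0 {μ : ℝ} (hμ1 : 53 / 10 ≤ μ) (hμ2 : μ ≤ 54 / 10) {z ζ : Fin 4 → ℝ}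
    {r : Fin 4 → Fin 4 → ℝ} (h : Dat μ z ζ r) (h2 : 0 ≤ z 2) : ζ = 0 := by
  rcases le_total (z 0) (z 1) with h01 | h01
  · exact h.step1 hμ1 hμ2 h01 h2
  · have h' := h.perm (Equiv.swap 0 1) (mm_swap rfl)
    exact zero_of_swap 0 1 (h'.step1 hμ1 hμ2 h01 h2)

theorem Dat.zero {μ : ℝ} (hμ1 : 53 / 10 ≤ μ) (hμ2 : μ ≤ 54 / 10) {z ζ : Fin 4 → ℝ}
    {r : Fin 4 → Fin 4 → ℝ} (h : Dat μ z ζ r) : ζ = 0 := by
  rcases le_total 0 (z 2) with h2 | h2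
  · exact h.step0 hμ1 hμ2 h2
  · exact h.neg.step0 hμ1 hμ2 (by linarith)

end NonMorse
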