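import Pool.Agent.Helper342.Alg.PathStep

/-!
# The path certificate
-/

namespace NonMorse.Path

def b0 : Box := ⟨2, 508, 260, 38, 17⟩

def ls0 : List Link := [
  ⟨257, 476, 265, 476, ⟨2, 444, 268, 34, 23⟩⟩,
  ⟨275, 417, 283, 417, ⟨2, 393, 292, 25, 33⟩⟩,
  ⟨300, 374, 308, 374, ⟨2, 352, 321, 22, 34⟩⟩,
  ⟨335, 332, 335, 340, ⟨0, 355, 319, 21, 25⟩⟩,
  ⟨370, 304, 370, 312, ⟨0, 394, 292, 25, 25⟩⟩,
  ⟨413, 278, 413, 286, ⟨0, 442, 267, 29, 26⟩⟩,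
  ⟨465, 252, 465, 260, ⟨0, 490, 241, 26, 29⟩⟩,
  ⟨509, 224, 509, 232, ⟨0, 531, 210, 22, 28⟩⟩]

def ls1 : List Link := [
  ⟨542, 194, 550, 194, ⟨2, 167, 568, 27, 26⟩⟩,
  ⟨578, 147, 586, 147, ⟨2, 119, 599, 29, 27⟩⟩,
  ⟨617, 92, 617, 100, ⟨0, 641, 74, 24, 41⟩⟩,
  ⟨659, 58, 659, 66, ⟨0, 694, 46, 36, 40⟩⟩,
  ⟨724, 33, 724, 41, ⟨0, 769, 27, 45, 25⟩⟩,
  ⟨808, 16, 808, 24, ⟨0, 871, 13, 63, 28⟩⟩,
  ⟨928, 3, 928, 11, ⟨0, 1014, 1, 86, 38⟩⟩,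
  ⟨1093, -9, 1093, -1, ⟨0, 1189, -12, 96, 31⟩⟩]

def ls2 : List Link := [
  ⟨1278, -23, 1278, -15, ⟨0, 1376, -28, 98, 32⟩⟩,
  ⟨1467, -44, 1467, -36, ⟨0, 1544, -54, 77, 31⟩⟩,
  ⟨1614, -80, 1614, -72, ⟨0, 1629, -83, 17, 19⟩⟩,
  ⟨1638, -91, 1640, -91, ⟨2, -105, 1648, 14, 10⟩⟩,
  ⟨1644, -112, 1652, -112, ⟨2, -131, 1637, 28, 61⟩⟩,
  ⟨1608, -149, 1608, -157, ⟨1, 1562, -176, 47, 28⟩⟩,
  ⟨1521, -188, 1521, -196, ⟨1, 1463, -214, 58, 36⟩⟩,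
  ⟨1411, -228, 1411, -236, ⟨1, 1349, -252, 63, 36⟩⟩]

def ls3 : List Link := [
  ⟨1292, -266, 1292, -274, ⟨1, 1232, -289, 61, 42⟩⟩,
  ⟨1177, -303, 1177, -311, ⟨1, 1117, -326, 60, 42⟩⟩,
  ⟨1064, -338, 1064, -346, ⟨1, 1007, -360, 58, 40⟩⟩,
  ⟨955, -372, 955, -380, ⟨1, 898, -393, 57, 36⟩⟩,
  ⟨847, -403, 847, -411, ⟨1, 795, -420, 53, 36⟩⟩,
  ⟨748, -426, 748, -434, ⟨1, 685, -438, 63, 28⟩⟩,
  ⟨628, -435, 628, -443, ⟨1, 565, -431, 64, 31⟩⟩,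
  ⟨507, -409, 507, -417, ⟨1, 464, -395, 44, 38⟩⟩]

def ls4 : List Link := [
  ⟨427, -372, 427, -380, ⟨1, 389, -356, 38, 36⟩⟩,
  ⟨358, -336, 358, -344, ⟨1, 316, -322, 42, 33⟩⟩,
  ⟨281, -308, 281, -316, ⟨1, 224, -309, 57, 18⟩⟩,
  ⟨174, -316, 174, -324, ⟨1, 139, -333, 36, 18⟩⟩,
  ⟨114, -341, 114, -349, ⟨1, 83, -361, 32, 21⟩⟩,
  ⟨58, -371, 58, -379, ⟨1, 28, -393, 30, 22⟩⟩,
  ⟨4, -404, 4, -412, ⟨1, -25, -426, 29, 23⟩⟩,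
  ⟨-48, -438, -48, -446, ⟨1, -75, -460, 30, 23⟩⟩]

def ls5 : List Link := [
  ⟨-98, -473, -98, -481, ⟨1, -124, -497, 27, 24⟩⟩,
  ⟨-145, -511, -145, -517, ⟨1, -169, -536, 25, 25⟩⟩]

theorem b0_ok : b0.ok = true := by decide +kernel

def c0 : Box := ⟨0, 531, 210, 22, 28⟩

theorem last0 : lastBox b0 ls0 = c0 := rfl

theorem chain0 : chainOk b0 ls0 = true := by decide +kernel

def c1 : Box := ⟨0, 1189, -12, 96, 31⟩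

theorem last1 : lastBox c0 ls1 = c1 := rfl

theorem chain1 : chainOk c0 ls1 = true := by decide +kernel

def c2 : Box := ⟨1, 1349, -252, 63, 36⟩

theorem last2 : lastBox c1 ls2 = c2 := rfl

theorem chain2 : chainOk c1 ls2 = true := by decide +kernel

def c3 : Box := ⟨1, 464, -395, 44, 38⟩

theorem last3 : lastBox c2 ls3 = c3 := rfl

theorem chain3 : chainOk c2 ls3 = true := by decide +kernel

def c4 : Box := ⟨1, -75, -460, 30, 23⟩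

theorem last4 : lastBox c3 ls4 = c4 := rfl

theorem chain4 : chainOk c3 ls4 = true := by decide +kernel

def c5 : Box := ⟨1, -169, -536, 25, 25⟩

theorem last5 : lastBox c4 ls5 = c5 := rfl

theorem chain5 : chainOk c4 ls5 = true := by decide +kernel

theorem path {h : ℝ × ℝ → ℝ} (hh : AnalyticOnNhd ℝ h Set.univ)
    (h₀ : ∃ p ∈ b0.R, F p = 0 ∧ V h p) : W h c5 := by
  have w0 := step hh b0_ok h₀
  have w1 := chain_sound hh chain0 w0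
  rw [last0] at w1
  have w2 := chain_sound hh chain1 w1
  rw [last1] at w2
  have w3 := chain_sound hh chain2 w2
  rw [last2] at w3
  have w4 := chain_sound hh chain3 w3
  rw [last3] at w4
  have w5 := chain_sound hh chain4 w4
  rw [last4] at w5
  have w6 := chain_sound hh chain5 w5
  rw [last5] at w6
  exact w6

end NonMorse.Path
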