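import Pool.Agent.Helper342.Alg.PathPoly
import Pool.Agent.Helper342.Alg.PathData

/-!
# The end point of the path: a non-genuine point of the curve with positive masses `(1,1,μ,1)`
-/

namespace NonMorse.Path

open Set Filter Topology


def lg : List (List Int) :=
  add2 (mul2 (mul2 (mul2 (cst 4) (pow2 (mul2 (cst 2) pS) 2)) lX) (pow2 lAt 3)) (mul2 (mul2
    (mul2 (sub2 (cst 1) (pow2 pT 2)) (sub2 (pow2 lAt 3) (mul2 (cst 8) (pow2 (mul2 (cst 2) pT)
    3)))) (pow2 lpd 2)) (pow2 lAs 3))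
def lN : List (List Int) :=
  mul2 (mul2 (mul2 (sub2 (cst 1) (pow2 pS 2)) (sub2 (pow2 lAs 3) (mul2 (cst 8) (pow2 (mul2 (cst
    2) pS) 3)))) (pow2 lpd 2)) (pow2 lAt 3)
def lD : List (List Int) :=
  mul2 (mul2 (mul2 (cst 4) (pow2 (mul2 (cst 2) pT) 2)) lY) (pow2 lAs 3)

noncomputable def X (t s : ℝ) : ℝ := pd t s ^ 3 - (2 * t) ^ 3 * pA s ^ 3
noncomputable def Y (t s : ℝ) : ℝ := pd t s ^ 3 - (2 * s) ^ 3 * pA t ^ 3
noncomputable def g (t s : ℝ) : ℝ :=
  4 * (2 * s) ^ 2 * X t s * pA t ^ 3 +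
    (1 - t ^ 2) * (pA t ^ 3 - 8 * (2 * t) ^ 3) * pd t s ^ 2 * pA s ^ 3
noncomputable def N3 (t s : ℝ) : ℝ :=
  (1 - s ^ 2) * (pA s ^ 3 - 8 * (2 * s) ^ 3) * pd t s ^ 2 * pA t ^ 3
noncomputable def D3 (t s : ℝ) : ℝ := 4 * (2 * t) ^ 2 * Y t s * pA s ^ 3

theorem ev2_lg (t s : ℝ) : ev2 lg t s = g t s := by
  simp only [lg, lAt, lAs, lpd, lX, ev2_add2, ev2_sub2, ev2_mul2, ev2_pow2, ev2_cst, ev2_pT,
    ev2_pS, g, X, pA, pd, Int.cast_ofNat, Int.cast_one]

theorem ev2_lN (t s : ℝ) : ev2 lN t s = N3 t s := by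
  simp only [lN, lAt, lAs, lpd, ev2_add2, ev2_sub2, ev2_mul2, ev2_pow2, ev2_cst, ev2_pT,
    ev2_pS, N3, pA, pd, Int.cast_ofNat, Int.cast_one]

theorem ev2_lD (t s : ℝ) : ev2 lD t s = D3 t s := by
  simp only [lD, lAt, lAs, lpd, lY, ev2_add2, ev2_sub2, ev2_mul2, ev2_pow2, ev2_cst, ev2_pT,
    ev2_pS, D3, Y, pA, pd, Int.cast_ofNat, Int.cast_one]

/-- finer scale -/
def K : Int := 16384

def lP1 : List (List Int) :=
  sub2 (mul2 (cst 10) lN) (mul2 (cst 53) lD)
def lP2 : List (List Int) :=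
  sub2 (mul2 (cst 54) lD) (mul2 (cst 10) lN)

def sC : List (List Int) := pscaleU K 15 C
def sg : List (List Int) := pscaleU K 20 lg
def sP1 : List (List Int) := pscaleU K 20 lP1
def sP2 : List (List Int) := pscaleU K 20 lP2

theorem lenC : lenOk 15 C = true := by decide +kernel
theorem leng : lenOk 20 lg = true := by decide +kernel
theorem lenP1 : lenOk 20 lP1 = true := by decide +kernel
theorem lenP2 : lenOk 20 lP2 = true := by decide +kernel

theorem fin_box : boxOk (negP sC) (-3048) (-8917) 3 5 = true := by decide +kernel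
theorem fin_g1 : posOn sg (-3051) (-8917) 0 5 = true := by decide +kernel
theorem fin_g2 : posOn (negP sg) (-3045) (-8917) 0 5 = true := by decide +kernel
theorem fin_P1 : posOn sP1 (-3048) (-8917) 3 5 = true := by decide +kernel
theorem fin_P2 : posOn sP2 (-3048) (-8917) 3 5 = true := by decide +kernel

theorem pos_scale {m : ℕ} {P : List (List Int)} (hP : lenOk m P = true) {x y : ℝ}
    (h : 0 < ev2 (pscaleU K m P) x y) : 0 < ev2 P (x / 16384) (y / 16384) := by
  have h1 := ev2_pscaleU K m P hP (x / 16384) (y / 16384)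
  have e1 : ((K : Int) : ℝ) = 16384 := by norm_num [K]
  rw [e1] at h1
  have ex : (16384:ℝ) * (x / 16384) = x := by ring
  have ey : (16384:ℝ) * (y / 16384) = y := by ring
  rw [ex, ey] at h1
  rw [h1] at h
  by_contra hc
  push Not at hc
  have : (0:ℝ) < 16384 ^ P.length * 16384 ^ m := by positivity
  nlinarith

theorem scale_eq {m : ℕ} {P : List (List Int)} (hP : lenOk m P = true) (x y : ℝ) :
    ev2 (pscaleU K m P) x y = 16384 ^ P.length * 16384 ^ m * ev2 P (x / 16384) (y / 16384) := by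
  have h1 := ev2_pscaleU K m P hP (x / 16384) (y / 16384)
  have e1 : ((K : Int) : ℝ) = 16384 := by norm_num [K]
  rw [e1] at h1
  have ex : (16384:ℝ) * (x / 16384) = x := by ring
  have ey : (16384:ℝ) * (y / 16384) = y := by ring
  rwa [ex, ey] at h1

theorem final_raw : ∃ t s : ℝ, (1024 * t, 1024 * s) ∈ c5.R ∧ ev2 C t s = 0 ∧ g t s = 0 ∧
    0 < 10 * N3 t s - 53 * D3 t s ∧ 0 < 54 * D3 t s - 10 * N3 t s ∧ t < 0 ∧ -1 < t ∧ s < 0 := by
  obtain ⟨hρ, hσ, hlo, hup, hder⟩ := boxOk_sound fin_box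
  have key := box_ivt (fun z : ℝ × ℝ => ev2 (negP sC) z.1 z.2)
    (fun z : ℝ × ℝ => ev2 (negP sg) z.1 z.2) (analytic_ev2 _)
    (by
      rw [continuous_iff_continuousAt]
      exact fun x => (analytic_ev2 (negP sg) x (mem_univ x)).continuousAt)
    (by norm_num) (by norm_num) hlo hup hder
    (by
      intro y hy _
      have := posOn_sound fin_g1 (x := (((-3048 : ℤ) : ℝ) - ((3 : ℤ) : ℝ))) (y := y)
        (by constructor <;> norm_num) hy
      simp only [ev2_negP]
      linarith)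
    (by
      intro y hy _
      have := posOn_sound fin_g2 (x := (((-3048 : ℤ) : ℝ) + ((3 : ℤ) : ℝ))) (y := y)
        (by constructor <;> norm_num) hy
      exact this.le)
  obtain ⟨x, hx, y, hy, h1, h2⟩ := key
  have k1 := pos_scale lenP1 (posOn_sound fin_P1 hx hy)
  have k2 := pos_scale lenP2 (posOn_sound fin_P2 hx hy)
  rw [ev2_negP, neg_eq_zero] at h1 h2
  have e1 := scale_eq lenC x y
  have e2 := scale_eq leng x y
  have e1' : ev2 C (x / 16384) (y / 16384) = 0 := by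
    have h3 : ev2 sC x y = 0 := h1
    rw [sC, e1] at h3
    rcases mul_eq_zero.1 h3 with h4 | h4
    · exfalso
      have : (0:ℝ) < 16384 ^ C.length * 16384 ^ 15 := by positivity
      exact this.ne' h4
    · exact h4
  have e2' : ev2 lg (x / 16384) (y / 16384) = 0 := by
    have h3 : ev2 sg x y = 0 := h2
    rw [sg, e2] at h3
    rcases mul_eq_zero.1 h3 with h4 | h4
    · exfalso
      have : (0:ℝ) < 16384 ^ lg.length * 16384 ^ 20 := by positivity
      exact this.ne' h4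
    · exact h4
  simp only [lP1, lP2, ev2_sub2, ev2_mul2, ev2_cst, ev2_lN, ev2_lD] at k1 k2
  rw [ev2_lg] at e2'
  obtain ⟨hx1, hx2⟩ := hx
  obtain ⟨hy1, hy2⟩ := hy
  norm_num at hx1 hx2 hy1 hy2 k1 k2
  refine ⟨x / 16384, y / 16384, ?_, e1', e2', by linarith, by linarith, by linarith,
    by linarith, by linarith⟩
  show (_ ∧ _)
  constructor
  · constructor <;> simp only [c5] <;> push_cast <;> linarith
  · constructor <;> simp only [c5] <;> push_cast <;> linarith

theorem final_point : ∃ t s μ : ℝ, (1024 * t, 1024 * s) ∈ c5.R ∧ ev2 C t s = 0 ∧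
    53 / 10 ≤ μ ∧ μ ≤ 54 / 10 ∧ M1 t s ≠ 0 ∧ M4 t s = M1 t s ∧ M3 t s = μ * M1 t s := by
  obtain ⟨t, s, hR, hC, hg, h1, h2, ht0, ht1, hs0⟩ := final_raw
  have hD : 0 < D3 t s := by linarith
  have hN : 0 < N3 t s := by linarith
  have hAt : 0 < pA t := by unfold pA; positivity
  have hAs : 0 < pA s := by unfold pA; positivity
  have hpd : pd t s ≠ 0 := by
    intro h0
    have : N3 t s = 0 := by unfold N3; rw [h0]; ring
    linarith
  have hY : 0 < Y t s := by
    have h3 : 0 < 4 * (2 * t) ^ 2 * pA s ^ 3 := by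
      have : t ≠ 0 := ht0.ne
      positivity
    have h4 : D3 t s = 4 * (2 * t) ^ 2 * pA s ^ 3 * Y t s := by unfold D3; ring
    rw [h4] at hD
    exact (pos_iff_pos_of_mul_pos hD).1 h3
  have hX : X t s < 0 := by
    have h3 : 0 < (1 - t ^ 2) * (pA t ^ 3 - 8 * (2 * t) ^ 3) * pd t s ^ 2 * pA s ^ 3 := by
      have a1 : 0 < 1 - t ^ 2 := by nlinarith
      have a2 : 0 < pA t ^ 3 - 8 * (2 * t) ^ 3 := by
        have : 0 < -(2 * t) ^ 3 := by
          have : -(2 * t) ^ 3 = (2 * (-t)) ^ 3 := by ring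
          rw [this]
          have : 0 < -t := by linarith
          positivity
        have b2 : 0 < pA t ^ 3 := by positivity
        linarith
      have a3 : 0 < pd t s ^ 2 := by positivity
      exact mul_pos (mul_pos (mul_pos a1 a2) a3) (by positivity)
    have h4 : 4 * (2 * s) ^ 2 * pA t ^ 3 * X t s < 0 := by
      have : 4 * (2 * s) ^ 2 * pA t ^ 3 * X t s =
          g t s - (1 - t ^ 2) * (pA t ^ 3 - 8 * (2 * t) ^ 3) * pd t s ^ 2 * pA s ^ 3 := by
        unfold g; ring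
      rw [this, hg]; linarith
    have h5 : 0 < 4 * (2 * s) ^ 2 * pA t ^ 3 := by
      have : s ≠ 0 := hs0.ne
      positivity
    by_contra hc
    push Not at hc
    nlinarith [mul_nonneg h5.le hc]
  have eM1 : M1 t s = 2 * D3 t s * (2 * s) ^ 2 * X t s * pA t ^ 3 := by
    unfold M1 D3 X Y; ring
  have hM1 : M1 t s ≠ 0 := by
    rw [eM1]
    have : s ≠ 0 := hs0.ne
    have := hX.ne
    positivity
  refine ⟨t, s, N3 t s / D3 t s, hR, hC, ?_, ?_, hM1, ?_, ?_⟩
  · rw [le_div_iff₀ hD]; linarith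
  · rw [div_le_iff₀ hD]; linarith
  · have : M1 t s - M4 t s = 2 * (2 * t) ^ 2 * Y t s * pA s ^ 3 * g t s := by
      unfold M1 M4 g X Y; ring
    rw [hg] at this
    linarith
  · have : M3 t s = 2 * N3 t s * (2 * s) ^ 2 * X t s * pA t ^ 3 := by
      unfold M3 N3 X; ring
    rw [this, eM1]
    field_simp

end NonMorse.Path
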