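import Pool.Agent.Helper342.Alg.Hom
import Pool.Agent.Helper342.Alg.PathFinal
import Pool.Agent.Helper342.Alg.NotB
import Pool.Agent.Helper342.Alg.Collinear

/-!
# The set of masses with a degenerate central configuration of four bodies is not algebraic
-/

namespace NonMorse

open Set Filter Topology NonMorse.Path

theorem notin {μ : ℝ} (hμ1 : 53 / 10 ≤ μ) (hμ2 : μ ≤ 54 / 10) {m : Fin 4 → ℝ}
    (hm : ∀ i, m i = mm μ i / (3 + μ)) : m ∉ nonMorseSet 4 := by
  intro h
  obtain ⟨q, v, lam, hlam, hq, hcc, hlin, htr⟩ :=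
    nonMorse_imp (by norm_num) fderiv_npot fderiv2_npot m h
  have hμ : 0 < μ := by linarith
  have e : (fun i => (3 + μ) * m i) = mm μ := by
    funext i
    rw [hm i]
    field_simp
  have hcc' : ccEq (mm μ) lam q := by
    have := ccEq_smul (3 + μ) hcc
    rwa [e] at this
  have hlin' : linEq (mm μ) lam q v := by
    have := linEq_smul (3 + μ) hlin
    rwa [e] at this
  have hpos : ∀ a, 0 < mm μ a := by
    intro a
    fin_cases a
    · exact one_pos
    · exact one_pos
    · exact hμ
    · exact one_pos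
  by_cases hcol : Collinear ℝ (Set.range q)
  · exact htr (collinear_trivial (mm μ) hpos lam hlam q v hq hcc' hlin' hcol)
  · obtain ⟨z, ζ, r, h1, h2, h3, h4, h5, h6, h7, h8, h9⟩ :=
      noncollinear_reduction (mm μ) hpos lam hlam q v hq hcc' hlin' htr hcol
    obtain ⟨a1, a2⟩ := apriori μ hμ1 hμ2 z r h1 h2 h3 h4 h5 h6
    have hd : Dat μ z ζ r :=
      ⟨h1, fun a b hab => ⟨(h2 a b hab).1, (h2 a b hab).2, a1 a b hab⟩, a2, h5, h6, h8, h9⟩
    exact h7 (hd.zero hμ1 hμ2)

theorem notAlgebraic : ¬ IsAlgebraicSubvariety (nonMorseSet 4) := by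
  rintro ⟨Fs, hF⟩
  obtain ⟨t, s, μ, hR, hC, hμ1, hμ2, hM1, hM4, hM3⟩ := final_point
  have hμ : 0 < μ := by linarith
  have hS : Sm t s = (3 + μ) * M1 t s := by
    simp only [Sm, mv, Fin.sum_univ_four, Matrix.cons_val_zero, Matrix.cons_val_one,
      Matrix.cons_val]
    rw [hM4, hM3]; ring
  have hS0 : Sm t s ≠ 0 := by
    rw [hS]
    exact mul_ne_zero (by positivity) hM1
  have hm : ∀ i, mv t s i / Sm t s = mm μ i / (3 + μ) := by
    have h3 : (3 + μ) ≠ 0 := by positivity
    intro i
    rw [hS]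
    fin_cases i
    · show M1 t s / ((3 + μ) * M1 t s) = 1 / (3 + μ)
      field_simp
    · show M1 t s / ((3 + μ) * M1 t s) = 1 / (3 + μ)
      field_simp
    · show M3 t s / ((3 + μ) * M1 t s) = μ / (3 + μ)
      rw [hM3]; field_simp
    · show M4 t s / ((3 + μ) * M1 t s) = 1 / (3 + μ)
      rw [hM4]; field_simp
  have hF0 : Path.F (1024 * t, 1024 * s) = 0 := by
    show ev2 G0 (1024 * t) (1024 * s) = 0
    rw [ev2_G0, hC, mul_zero]
  have key : ∀ f ∈ Fs, MvPolynomial.eval (fun i => mv t s i / Sm t s) f = 0 := by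
    intro f hf
    have hv : ∀ m ∈ nonMorseSet 4, MvPolynomial.eval m f = 0 := by
      intro m hm
      rw [hF] at hm
      exact hm.2 f hf
    have hW := path (hom_analytic f) (start_V f hv)
    have h0 : hom f (1024 * t, 1024 * s) = 0 := (hW _ hR hF0).self_of_nhds hF0
    have e1 : (1024 * t, 1024 * s).1 / 1024 = t := by simp
    have e2 : (1024 * t, 1024 * s).2 / 1024 = s := by simp
    have h1 := hom_eq f (1024 * t, 1024 * s) (by rw [e1, e2]; exact hS0)
    rw [h0, e1, e2] at h1
    rcases mul_eq_zero.1 h1.symm with h2 | h2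
    · exact absurd h2 (pow_ne_zero _ hS0)
    · exact h2
  have hmem : (fun i => mv t s i / Sm t s) ∈ nonMorseSet 4 := by
    rw [hF]
    refine ⟨⟨fun i => ?_, ?_⟩, key⟩
    · show 0 < mv t s i / Sm t s
      rw [hm i]
      fin_cases i
      · exact div_pos one_pos (by positivity)
      · exact div_pos one_pos (by positivity)
      · exact div_pos hμ (by positivity)
      · exact div_pos one_pos (by positivity)
    · rw [← Finset.sum_div]
      exact div_self hS0
  exact notin hμ1 hμ2 hm hmem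

end NonMorse
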