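import Mathlib

/-!
# Integer polynomials in two variables as coefficient lists; box checker
-/

namespace NonMorse.Path

/-- coefficients of `prev + (y + c) * r(y)` where `prev` is a constant -/
def mulx (c : Int) : Int → List Int → List Int
  | prev, [] => [prev]
  | prev, r :: rs => (prev + c * r) :: mulx c r rs

/-- coefficients of `p (y + c)` -/
def shift1 (c : Int) : List Int → List Int
  | [] => []
  | a :: q => mulx c a (shift1 c q)

/-- `x + c * y` on coefficient lists -/
def addS (c : Int) : List Int → List Int → List Int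
  | [], ys => ys.map (fun y => c * y)
  | xs, [] => xs
  | x :: xs, y :: ys => (x + c * y) :: addS c xs ys

def mulxR (c : Int) : List Int → List (List Int) → List (List Int)
  | prev, [] => [prev]
  | prev, r :: rs => addS c prev r :: mulxR c r rs

def shiftR (c : Int) : List (List Int) → List (List Int)
  | [] => []
  | a :: q => mulxR c a (shiftR c q)

/-- coefficients of `P (x + p, y + q)` -/
def shift2 (p q : Int) (P : List (List Int)) : List (List Int) := shiftR p (P.map (shift1 q))

def iabs (a : Int) : Int :=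
  match a with
  | .ofNat n => .ofNat n
  | .negSucc n => .ofNat (n + 1)

def posB (a : Int) : Bool :=
  match a with
  | .ofNat n => !(Nat.beq n 0)
  | .negSucc _ => false

/-- `∑ |e_j| σ^j` -/
def absSum (σ : Int) : List Int → Int
  | [] => 0
  | e :: es => iabs e + σ * absSum σ es

/-- `∑ (k + j) |e_j| σ^j` -/
def dAbs (σ : Int) : Int → List Int → Int
  | _, [] => 0
  | k, e :: es => k * iabs e + σ * dAbs σ (k + 1) es

def rowsD (ρ σ : Int) : List (List Int) → Int
  | [] => 0
  | r :: rs => dAbs σ 1 r.tail + ρ * rowsD ρ σ rs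

/-- exact evaluation -/
def evI (y : Int) : List Int → Int
  | [] => 0
  | e :: es => e + y * evI y es

def rowsE (y ρ : Int) : List (List Int) → Int
  | [] => 0
  | r :: rs => iabs (evI y r) + ρ * rowsE y ρ rs

/-- derivative in `y` positive on the box -/
def derOk (ρ σ : Int) : List (List Int) → Bool
  | (_ :: e :: es) :: rest => posB (e - σ * dAbs σ 2 es - ρ * rowsD ρ σ rest)
  | _ => false

/-- negative on the bottom edge, positive on the top edge -/
def edgeOk (ρ σ : Int) : List (List Int) → Bool
  | r :: rest => posB (-(evI (-σ) r) - ρ * rowsE (-σ) ρ rest) &&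
      posB (evI σ r - ρ * rowsE σ ρ rest)
  | _ => false

def boxOk (P : List (List Int)) (p q ρ σ : Int) : Bool :=
  posB ρ && posB σ && derOk ρ σ (shift2 p q P) && edgeOk ρ σ (shift2 p q P)

/-- exact evaluation in two variables -/
def evI2 (x y : Int) : List (List Int) → Int
  | [] => 0
  | r :: rs => evI y r + x * evI2 x y rs

/-- `q (K y) = K^len * p y` -/
def pscale (K : Int) : List Int → List Int
  | [] => []
  | c :: cs => c * K ^ (cs.length + 1) :: pscale K cs

def pscale2 (K : Int) : List (List Int) → List (List Int)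
  | [] => []
  | r :: rs => (pscale K r).map (fun c => c * K ^ (rs.length + 1)) :: pscale2 K rs

/-- the transversal degeneracy polynomial, `C[i][j]` = coefficient of `t^i s^j` -/
def C : List (List Int) := [
  [0, 0, -2, 0, 2, 32, 16, -320, 16, 32, 2, 0, -2, 0, 0],
  [0, 1, 0, -19, -64, -35, 1120, 16, -1408, 53, 96, 19, 0, -3, 0],
  [-1, 0, 9, 32, -7, -1216, -54, 3328, -17, -2240, 47, 96, 25, 0, -2],
  [0, -4, 64, -9, 288, -5, -1728, 18, 1792, 54, -1536, 55, 96, 19, 0],
  [-2, -32, 19, 1344, 7, 384, -72, 4864, -36, -5376, 67, -1536, 47, 96, 2],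
  [0, -16, -1120, 56, 3392, 159, 2432, 34, 19008, -52, -5376, 54, -2240, 53, 32],
  [0, 320, -14, -3328, 69, -3328, 226, 2304, 140, 19008, -36, 1792, -17, -1408, 16],
  [0, -14, 1408, 34, -256, 156, -14400, 140, 2304, 34, 4864, 18, 3328, 16, -320],
  [2, -32, -36, 2112, 66, 6656, 332, -14400, 226, 2432, -72, -1728, -54, 1120, 16],
  [0, -1, -96, -39, 1920, -11, 6656, 156, -3328, 159, 384, -5, -1216, -35, 32],
  [1, 0, -11, -160, 1, 1920, 66, -256, 69, 3392, 7, 288, -7, -64, 2],
  [0, 2, 0, -25, -160, -39, 2112, 34, -3328, 56, 1344, -9, 32, -19, 0],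
  [0, 0, 3, 0, -11, -96, -36, 1408, -14, -1120, 19, 64, 9, 0, -2],
  [0, 0, 0, 2, 0, -1, -32, -14, 320, -16, -32, -4, 0, 1, 0],
  [0, 0, 0, 0, 1, 0, 2, 0, 0, 0, -2, 0, -1, 0, 0]]

end NonMorse.Path
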