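import Pool.Agent.Helper342.Alg.PolyOps
import Pool.Agent.Helper342.Alg.Kite

/-!
# The degeneracy polynomial as a coefficient list
-/

namespace NonMorse.Path


def lAt : List (List Int) :=
  add2 (cst 1) (pow2 pT 2)
def lAs : List (List Int) :=
  add2 (cst 1) (pow2 pS 2)
def lpd : List (List Int) :=
  sub2 (mul2 (mul2 (cst 2) pS) (sub2 (cst 1) (pow2 pT 2))) (mul2 (mul2 (cst 2) pT) (sub2 (cst
    1) (pow2 pS 2)))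
def lX : List (List Int) :=
  sub2 (pow2 lpd 3) (mul2 (pow2 (mul2 (cst 2) pT) 3) (pow2 lAs 3))
def lY : List (List Int) :=
  sub2 (pow2 lpd 3) (mul2 (pow2 (mul2 (cst 2) pS) 3) (pow2 lAt 3))

def lQ8 : List (List Int) :=
  add2 (sub2 (sub2 (mul2 (mul2 (mul2 (mul2 (mul2 (sub2 (pow2 lAt 3) (mul2 (cst 8) (pow2 (mul2
    (cst 2) pT) 3))) lY) (mul2 (cst 2) pS)) (sub2 (cst 1) (pow2 pS 2))) (pow2 lAt 2)) (pow2 lAs
    3)) (mul2 (mul2 (mul2 (mul2 (mul2 (sub2 (pow2 lAs 3) (mul2 (cst 8) (pow2 (mul2 (cst 2) pS)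
    3))) lX) (mul2 (cst 2) pT)) (sub2 (cst 1) (pow2 pT 2))) (pow2 lAt 3)) (pow2 lAs 2))) (mul2
    (mul2 (mul2 (mul2 (cst 3) (pow2 lpd 4)) (mul2 (cst 2) pT)) (mul2 (cst 2) pS)) (sub2 (add2
    (mul2 (mul2 (cst 8) (pow2 (mul2 (cst 2) pT) 3)) (pow2 lAs 3)) (mul2 (mul2 (cst 8) (pow2
    (mul2 (cst 2) pS) 3)) (pow2 lAt 3))) (mul2 (pow2 lAt 3) (pow2 lAs 3))))) (mul2 (mul2 (mul2
    (mul2 (mul2 (cst 24) lpd) (pow2 (mul2 (cst 2) pT) 4)) (pow2 (mul2 (cst 2) pS) 4)) (pow2 lAt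
    3)) (pow2 lAs 3))

theorem ev2_lQ8 (t s : ℝ) : ev2 lQ8 t s = Q8 t s := by
  simp only [lQ8, lAt, lAs, lpd, lX, lY, ev2_add2, ev2_sub2, ev2_mul2, ev2_pow2, ev2_cst, ev2_pT,
    ev2_pS, Q8, pA, pd, Int.cast_ofNat, Int.cast_one]

theorem lQ8_eq : allZ (sub2 lQ8 (mul2 (mul2 (mul2 (cst 32) pT) (sub2 pS pT)) C)) = true := by decide +kernel

theorem Q8_eq (t s : ℝ) : Q8 t s = 32 * t * (s - t) * ev2 C t s := by
  rw [← ev2_lQ8, ev2_congr lQ8_eq]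
  simp only [ev2_add2, ev2_sub2, ev2_mul2, ev2_pow2, ev2_cst, ev2_pT, ev2_pS, Int.cast_ofNat]

end NonMorse.Path
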