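import Pool.Agent.Helper342.Alg.PathDefs
import Pool.Agent.Helper342.Alg.BoxLemma

/-!
# Soundness of the box checker
-/

namespace NonMorse.Path

open Set Filter Topology

/-- evaluation of a coefficient list -/
def ev : List Int → ℝ → ℝ
  | [], _ => 0
  | c :: cs, y => c + y * ev cs y

def ev2 : List (List Int) → ℝ → ℝ → ℝ
  | [], _, _ => 0
  | r :: rs, x, y => ev r y + x * ev2 rs x y

theorem ev_mulx (c a : Int) (r : List Int) (y : ℝ) :
    ev (mulx c a r) y = a + (y + c) * ev r y := by
  induction r generalizing a with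
  | nil => simp [mulx, ev]
  | cons b bs ih => simp only [mulx, ev, ih]; push_cast; ring

theorem ev_shift1 (c : Int) (p : List Int) (y : ℝ) : ev (shift1 c p) y = ev p (y + c) := by
  induction p with
  | nil => simp [shift1, ev]
  | cons b bs ih => simp only [shift1, ev_mulx, ev, ih]

theorem ev_map_mul (c : Int) (p : List Int) (y : ℝ) :
    ev (p.map (fun y => c * y)) y = c * ev p y := by
  induction p with
  | nil => simp [ev]
  | cons b bs ih => simp only [List.map_cons, ev, ih]; push_cast; ring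

theorem ev_addS (c : Int) (xs ys : List Int) (y : ℝ) :
    ev (addS c xs ys) y = ev xs y + c * ev ys y := by
  induction xs generalizing ys with
  | nil => simp only [addS, ev_map_mul, ev]; ring
  | cons b bs ih =>
    cases ys with
    | nil => simp [addS, ev]
    | cons d ds => simp only [addS, ev, ih]; push_cast; ring

theorem ev2_mulxR (c : Int) (a : List Int) (r : List (List Int)) (x y : ℝ) :
    ev2 (mulxR c a r) x y = ev a y + (x + c) * ev2 r x y := by
  induction r generalizing a with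
  | nil => simp [mulxR, ev2]
  | cons b bs ih => simp only [mulxR, ev2, ih, ev_addS]; ring

theorem ev2_shiftR (c : Int) (p : List (List Int)) (x y : ℝ) :
    ev2 (shiftR c p) x y = ev2 p (x + c) y := by
  induction p with
  | nil => simp [shiftR, ev2]
  | cons b bs ih => simp only [shiftR, ev2_mulxR, ev2, ih]

theorem ev2_map_shift1 (c : Int) (p : List (List Int)) (x y : ℝ) :
    ev2 (p.map (shift1 c)) x y = ev2 p x (y + c) := by
  induction p with
  | nil => simp [ev2]
  | cons b bs ih => simp only [List.map_cons, ev2, ev_shift1, ih]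

theorem ev2_shift2 (p q : Int) (P : List (List Int)) (x y : ℝ) :
    ev2 (shift2 p q P) x y = ev2 P (x + p) (y + q) := by
  rw [shift2, ev2_shiftR, ev2_map_shift1]

theorem iabs_eq (a : Int) : iabs a = |a| := by
  cases a with
  | ofNat n => simp [iabs]
  | negSucc n => simp only [iabs]; rw [abs_of_neg (Int.negSucc_lt_zero n)]; rfl

theorem posB_iff (a : Int) : posB a = true ↔ 0 < a := by
  cases a with
  | ofNat n =>
    cases n with
    | zero => simp [posB]
    | succ n => exact ⟨fun _ => Int.natCast_pos.2 (Nat.succ_pos n), fun _ => rfl⟩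
  | negSucc n =>
    simp only [posB, Bool.false_eq_true, false_iff, not_lt]
    exact (Int.negSucc_lt_zero n).le

theorem absSum_nonneg {σ : Int} (hσ : 0 ≤ σ) (p : List Int) : 0 ≤ absSum σ p := by
  induction p with
  | nil => simp [absSum]
  | cons b bs ih => simp only [absSum, iabs_eq]; positivity

theorem abs_ev_le {σ : Int} (hσ : 0 ≤ σ) (p : List Int) {y : ℝ} (hy : |y| ≤ σ) :
    |ev p y| ≤ absSum σ p := by
  induction p with
  | nil => simp [ev, absSum]
  | cons b bs ih =>
    simp only [ev, absSum, iabs_eq]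
    push_cast
    have h1 : |y * ev bs y| ≤ σ * absSum σ bs := by
      rw [abs_mul]
      exact mul_le_mul hy ih (abs_nonneg _) (by exact_mod_cast hσ)
    exact (abs_add_le _ _).trans (by linarith)

/-- coefficients `(k + j) e_j` -/
def dl : Int → List Int → List Int
  | _, [] => []
  | k, e :: es => (k * e) :: dl (k + 1) es

theorem dAbs_eq (σ : Int) (k : Int) (hk : 0 ≤ k) (p : List Int) :
    dAbs σ k p = absSum σ (dl k p) := by
  induction p generalizing k with
  | nil => simp [dAbs, dl, absSum]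
  | cons b bs ih =>
    simp only [dAbs, dl, absSum, iabs_eq, ih (k + 1) (by omega), abs_mul, abs_of_nonneg hk]

theorem ev_dl_succ (k : Int) (p : List Int) (y : ℝ) :
    ev (dl (k + 1) p) y = ev (dl k p) y + ev p y := by
  induction p generalizing k with
  | nil => simp [dl, ev]
  | cons b bs ih => simp only [dl, ev, ih (k + 1)]; push_cast; ring

theorem hasDerivAt_ev (p : List Int) (y : ℝ) : HasDerivAt (ev p) (ev (dl 1 p.tail) y) y := by
  induction p with
  | nil => simpa [ev, dl] using hasDerivAt_const y (0:ℝ)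
  | cons b bs ih =>
    have h1 : HasDerivAt (fun y : ℝ => (b:ℝ) + y * ev bs y)
        (0 + (1 * ev bs y + y * ev (dl 1 bs.tail) y)) y :=
      (hasDerivAt_const y (b:ℝ)).add ((hasDerivAt_id y).mul ih)
    have h2 : ev (dl 1 (b :: bs).tail) y = 0 + (1 * ev bs y + y * ev (dl 1 bs.tail) y) := by
      simp only [List.tail_cons]
      cases bs with
      | nil => simp [dl, ev]
      | cons d ds =>
        simp only [dl, ev, List.tail_cons, ev_dl_succ 1 ds]
        push_cast; ring
    rw [h2]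
    exact h1

/-- derivative in `y` -/
def dev2 : List (List Int) → ℝ → ℝ → ℝ
  | [], _, _ => 0
  | r :: rs, x, y => ev (dl 1 r.tail) y + x * dev2 rs x y

theorem hasDerivAt_ev2 (P : List (List Int)) (x y : ℝ) :
    HasDerivAt (fun y => ev2 P x y) (dev2 P x y) y := by
  induction P with
  | nil => simpa [ev2, dev2] using hasDerivAt_const y (0:ℝ)
  | cons b bs ih => exact (hasDerivAt_ev b y).add (ih.const_mul x)

theorem analytic_ev (p : List Int) : AnalyticOnNhd ℝ (fun z : ℝ × ℝ => ev p z.2) univ := by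
  induction p with
  | nil => exact analyticOnNhd_const
  | cons b bs ih =>
    exact analyticOnNhd_const.add (analyticOnNhd_snd.mul ih)

theorem analytic_ev2 (P : List (List Int)) :
    AnalyticOnNhd ℝ (fun z : ℝ × ℝ => ev2 P z.1 z.2) univ := by
  induction P with
  | nil => exact analyticOnNhd_const
  | cons b bs ih => exact (analytic_ev b).add (analyticOnNhd_fst.mul ih)

theorem fderiv_ev2 (P : List (List Int)) (x y : ℝ) :
    fderiv ℝ (fun z : ℝ × ℝ => ev2 P z.1 z.2) (x, y) (0, 1) = dev2 P x y := by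
  have h1 : DifferentiableAt ℝ (fun z : ℝ × ℝ => ev2 P z.1 z.2) (x, y) :=
    (analytic_ev2 P (x, y) (mem_univ _)).differentiableAt
  have h2 : HasDerivAt (fun y : ℝ => ((x, y) : ℝ × ℝ)) ((0, 1) : ℝ × ℝ) y :=
    (hasDerivAt_const y x).prodMk (hasDerivAt_id y)
  have h3 := h1.hasFDerivAt.comp_hasDerivAt y h2
  exact h3.unique (hasDerivAt_ev2 P x y)

theorem rowsD_nonneg {ρ σ : Int} (hρ : 0 ≤ ρ) (hσ : 0 ≤ σ) (P : List (List Int)) :
    0 ≤ rowsD ρ σ P := by
  induction P with
  | nil => simp [rowsD]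
  | cons b bs ih =>
    simp only [rowsD, dAbs_eq σ 1 (by norm_num)]
    have := absSum_nonneg hσ (dl 1 b.tail)
    positivity

theorem abs_dev2_le {ρ σ : Int} (hρ : 0 ≤ ρ) (hσ : 0 ≤ σ) (P : List (List Int)) {u w : ℝ}
    (hu : |u| ≤ ρ) (hw : |w| ≤ σ) : |dev2 P u w| ≤ rowsD ρ σ P := by
  induction P with
  | nil => simp [dev2, rowsD]
  | cons b bs ih =>
    simp only [dev2, rowsD, dAbs_eq σ 1 (by norm_num)]
    push_cast
    have h1 := abs_ev_le hσ (dl 1 b.tail) hw
    have h2 : |u * dev2 bs u w| ≤ ρ * rowsD ρ σ bs := by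
      rw [abs_mul]
      exact mul_le_mul hu ih (abs_nonneg _) (by exact_mod_cast hρ)
    exact (abs_add_le _ _).trans (add_le_add h1 h2)

theorem derOk_sound {ρ σ : Int} (hρ : 0 ≤ ρ) (hσ : 0 ≤ σ) (E : List (List Int))
    (h : derOk ρ σ E = true) {u w : ℝ} (hu : |u| ≤ ρ) (hw : |w| ≤ σ) : 0 < dev2 E u w := by
  match E, h with
  | (e0 :: e :: es) :: rest, h =>
    simp only [derOk, posB_iff] at h
    have h' : (0:ℝ) < e - σ * dAbs σ 2 es - ρ * rowsD ρ σ rest := by exact_mod_cast h
    simp only [dev2, List.tail_cons, dl, ev]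
    rw [dAbs_eq σ 2 (by norm_num)] at h'
    have h1 : |w * ev (dl 2 es) w| ≤ σ * absSum σ (dl 2 es) := by
      rw [abs_mul]
      exact mul_le_mul hw (abs_ev_le hσ _ hw) (abs_nonneg _) (by exact_mod_cast hσ)
    have h2 : |u * dev2 rest u w| ≤ ρ * rowsD ρ σ rest := by
      rw [abs_mul]
      exact mul_le_mul hu (abs_dev2_le hρ hσ rest hu hw) (abs_nonneg _) (by exact_mod_cast hρ)
    have h3 := neg_abs_le (w * ev (dl 2 es) w)
    have h4 := neg_abs_le (u * dev2 rest u w)
    have h5 : (1:Int) + 1 = 2 := rfl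
    rw [h5]
    push_cast
    linarith

theorem evI_eq (y : Int) (p : List Int) : ((evI y p : Int) : ℝ) = ev p y := by
  induction p with
  | nil => simp [evI, ev]
  | cons b bs ih => simp only [evI, ev]; push_cast; rw [ih]

theorem abs_ev2_le {ρ : Int} (hρ : 0 ≤ ρ) (y : Int) (P : List (List Int)) {u : ℝ}
    (hu : |u| ≤ ρ) : |ev2 P u y| ≤ rowsE y ρ P := by
  induction P with
  | nil => simp [ev2, rowsE]
  | cons b bs ih =>
    simp only [ev2, rowsE, iabs_eq]
    push_cast
    rw [evI_eq]
    have h2 : |u * ev2 bs u y| ≤ ρ * rowsE y ρ bs := by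
      rw [abs_mul]
      exact mul_le_mul hu ih (abs_nonneg _) (by exact_mod_cast hρ)
    exact (abs_add_le _ _).trans (by linarith)

theorem edgeOk_sound {ρ σ : Int} (hρ : 0 ≤ ρ) (E : List (List Int))
    (h : edgeOk ρ σ E = true) {u : ℝ} (hu : |u| ≤ ρ) :
    ev2 E u (-σ) < 0 ∧ 0 < ev2 E u σ := by
  match E, h with
  | r :: rest, h =>
    simp only [edgeOk, Bool.and_eq_true, posB_iff] at h
    obtain ⟨h1, h2⟩ := h
    have h1' : (0:ℝ) < -(ev r ((-σ : Int) : ℝ)) - ρ * rowsE (-σ) ρ rest := by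
      rw [← evI_eq]; exact_mod_cast h1
    have h2' : (0:ℝ) < ev r (σ : ℝ) - ρ * rowsE σ ρ rest := by
      rw [← evI_eq]; exact_mod_cast h2
    have e1 := abs_ev2_le hρ (-σ) rest hu
    have e2 := abs_ev2_le hρ σ rest hu
    have m1 : |u * ev2 rest u ((-σ : Int) : ℝ)| ≤ ρ * rowsE (-σ) ρ rest := by
      rw [abs_mul]
      exact mul_le_mul hu e1 (abs_nonneg _) (by exact_mod_cast hρ)
    have m2 : |u * ev2 rest u σ| ≤ ρ * rowsE σ ρ rest := by
      rw [abs_mul]
      exact mul_le_mul hu e2 (abs_nonneg _) (by exact_mod_cast hρ)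
    have k1 := le_abs_self (u * ev2 rest u ((-σ : Int) : ℝ))
    have k2 := neg_abs_le (u * ev2 rest u (σ : ℝ))
    push_cast at h1' m1 k1
    simp only [ev2]
    constructor <;> linarith

/-- the three conditions of the box lemma -/
theorem boxOk_sound {P : List (List Int)} {p q ρ σ : Int} (h : boxOk P p q ρ σ = true) :
    0 < ρ ∧ 0 < σ ∧
    (∀ x ∈ Icc ((p:ℝ) - ρ) (p + ρ), ev2 P x (q - σ) < 0) ∧
    (∀ x ∈ Icc ((p:ℝ) - ρ) (p + ρ), 0 < ev2 P x (q + σ)) ∧
    (∀ x ∈ Icc ((p:ℝ) - ρ) (p + ρ), ∀ y ∈ Icc ((q:ℝ) - σ) (q + σ),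
      0 < fderiv ℝ (fun z : ℝ × ℝ => ev2 P z.1 z.2) (x, y) (0, 1)) := by
  unfold boxOk at h
  simp only [Bool.and_eq_true, posB_iff] at h
  obtain ⟨⟨⟨hρ, hσ⟩, hd⟩, he⟩ := h
  have key : ∀ x ∈ Icc ((p:ℝ) - ρ) (p + ρ), |x - p| ≤ ρ := by
    intro x hx; rw [abs_le]; constructor <;> linarith [hx.1, hx.2]
  have key2 : ∀ y ∈ Icc ((q:ℝ) - σ) (q + σ), |y - q| ≤ σ := by
    intro x hx; rw [abs_le]; constructor <;> linarith [hx.1, hx.2]
  refine ⟨hρ, hσ, ?_, ?_, ?_⟩
  · intro x hx
    have := (edgeOk_sound hρ.le _ he (key x hx)).1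
    rw [ev2_shift2] at this
    convert this using 2 <;> ring
  · intro x hx
    have := (edgeOk_sound hρ.le _ he (key x hx)).2
    rw [ev2_shift2] at this
    convert this using 2 <;> ring
  · intro x hx y hy
    rw [fderiv_ev2]
    have := derOk_sound hρ.le hσ.le _ hd (key x hx) (key2 y hy)
    have e : HasDerivAt (fun y => ev2 (shift2 p q P) (x - p) y)
      (dev2 P x y) (y - q) := by
      have h1 : (fun y => ev2 (shift2 p q P) (x - p) y) = fun y => ev2 P x (y + q) := by
        funext y; rw [ev2_shift2]; congr 1; ring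
      rw [h1]
      have h2 := hasDerivAt_ev2 P x (y - q + q)
      have h3 := h2.comp_add_const (y - q) q
      simpa using h3
    rw [e.unique (hasDerivAt_ev2 _ _ _)]
    exact this

end NonMorse.Path
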