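import Pool.Agent.Helper342.Alg.PathSound

/-!
# Propagation of vanishing along a chain of boxes
-/

namespace NonMorse.Path

open Set Filter Topology

def negP (P : List (List Int)) : List (List Int) := P.map (fun r => r.map (fun c => -1 * c))

theorem ev2_negP (P : List (List Int)) (x y : ℝ) : ev2 (negP P) x y = - ev2 P x y := by
  unfold negP
  induction P with
  | nil => simp [ev2]
  | cons b bs ih =>
    have := ev_map_mul (-1) b y
    simp only [List.map_cons, ev2, ih, this]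
    push_cast; ring

/-- add a first column -/
def consCol : List Int → List (List Int) → List (List Int)
  | [], P => P.map (fun r => 0 :: r)
  | a :: as, [] => [a] :: consCol as []
  | a :: as, r :: rs => (a :: r) :: consCol as rs

def transp : List (List Int) → List (List Int)
  | [] => []
  | r :: rs => consCol r (transp rs)

theorem ev2_consCol (as : List Int) (P : List (List Int)) (x y : ℝ) :
    ev2 (consCol as P) x y = ev as x + y * ev2 P x y := by
  induction as generalizing P with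
  | nil =>
    rw [consCol, ev]
    induction P with
    | nil => simp [ev2]
    | cons r rs ih =>
      simp only [List.map_cons, ev2, ev]; push_cast; linear_combination x * ih
  | cons a as ih =>
    cases P with
    | nil => simp only [consCol, ev2, ev, ih]; ring
    | cons r rs => simp only [consCol, ev2, ev, ih]; ring

theorem ev2_transp (P : List (List Int)) (x y : ℝ) : ev2 (transp P) x y = ev2 P y x := by
  induction P with
  | nil => simp [transp, ev2]
  | cons r rs ih => simp only [transp, ev2_consCol, ih, ev2]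

def CT : List (List Int) := transp C

theorem ev_pscale (K : Int) (p : List Int) (y : ℝ) :
    ev (pscale K p) (K * y) = K ^ p.length * ev p y := by
  induction p with
  | nil => simp [pscale, ev]
  | cons b bs ih =>
    simp only [pscale, ev, List.length_cons]
    rw [ih]
    push_cast
    ring

theorem ev_map_mul_right (c : Int) (p : List Int) (y : ℝ) :
    ev (p.map (fun a => a * c)) y = c * ev p y := by
  induction p with
  | nil => simp [ev]
  | cons b bs ih => simp only [List.map_cons, ev, ih]; push_cast; ring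

theorem ev2_pscale2 (K : Int) (m : ℕ) (P : List (List Int)) (hP : ∀ r ∈ P, r.length = m) (x y : ℝ) :
    ev2 (pscale2 K P) (K * x) (K * y) = K ^ P.length * K ^ m * ev2 P x y := by
  induction P with
  | nil => simp [pscale2, ev2]
  | cons r rs ih =>
    have h1 : r.length = m := hP r (by simp)
    simp only [pscale2, ev2, List.length_cons, ev_map_mul_right, ev_pscale,
      ih (fun r hr => hP r (by simp [hr])), h1]
    push_cast
    ring

theorem C_length : ∀ r ∈ C, r.length = 15 := by decide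

theorem CT_length : ∀ r ∈ CT, r.length = 15 := by decide

theorem ev2_CT (x y : ℝ) : ev2 CT x y = ev2 C y x := ev2_transp C x y

def G0 : List (List Int) := pscale2 1024 C
def G2 : List (List Int) := pscale2 1024 CT

theorem ev2_G0 (x y : ℝ) : ev2 G0 (1024 * x) (1024 * y) = 1024 ^ 30 * ev2 C x y := by
  have := ev2_pscale2 1024 15 C C_length x y
  have h2 : C.length = 15 := rfl
  rw [h2] at this
  unfold G0
  push_cast at this
  rw [this]
  ring

theorem ev2_G2 (x y : ℝ) : ev2 G2 x y = ev2 G0 y x := by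
  have := ev2_pscale2 1024 15 CT CT_length (x / 1024) (y / 1024)
  have h2 : CT.length = 15 := rfl
  rw [h2] at this
  have h3 := ev2_G0 (y / 1024) (x / 1024)
  have ex : (1024:ℝ) * (x / 1024) = x := by ring
  have ey : (1024:ℝ) * (y / 1024) = y := by ring
  push_cast at this
  rw [ex, ey] at this h3
  unfold G2
  rw [this, h3, ev2_CT]
  ring

attribute [irreducible] G0 G2

/-- the polynomial attached to a kind -/
def Pk : Nat → List (List Int)
  | 0 => G0
  | 1 => negP G0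
  | 2 => G2
  | _ => negP G2

/-- a box -/
structure Box where
  k : Nat
  p : Int
  q : Int
  ρ : Int
  σ : Int

def Box.ok (b : Box) : Bool := boxOk (Pk b.k) b.p b.q b.ρ b.σ

/-- the region (in scaled coordinates `1024 (t, s)`) -/
def Box.R (b : Box) : Set (ℝ × ℝ) :=
  match b.k with
  | 0 => {z | z.1 ∈ Icc ((b.p:ℝ) - b.ρ) (b.p + b.ρ) ∧ z.2 ∈ Icc ((b.q:ℝ) - b.σ) (b.q + b.σ)}
  | 1 => {z | z.1 ∈ Icc ((b.p:ℝ) - b.ρ) (b.p + b.ρ) ∧ z.2 ∈ Icc ((b.q:ℝ) - b.σ) (b.q + b.σ)}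
  | _ => {z | z.2 ∈ Icc ((b.p:ℝ) - b.ρ) (b.p + b.ρ) ∧ z.1 ∈ Icc ((b.q:ℝ) - b.σ) (b.q + b.σ)}

theorem Box.R_convex (b : Box) : Convex ℝ b.R := by
  have h1 : ∀ (p q ρ σ : ℝ), Convex ℝ {z : ℝ × ℝ | z.1 ∈ Icc (p - ρ) (p + ρ) ∧
      z.2 ∈ Icc (q - σ) (q + σ)} := by
    intro p q ρ σ
    exact (convex_Icc (𝕜 := ℝ) (p - ρ) (p + ρ)).prod (convex_Icc (𝕜 := ℝ) (q - σ) (q + σ))
  have h2 : ∀ (p q ρ σ : ℝ), Convex ℝ {z : ℝ × ℝ | z.2 ∈ Icc (p - ρ) (p + ρ) ∧
      z.1 ∈ Icc (q - σ) (q + σ)} := by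
    intro p q ρ σ
    have := (convex_Icc (𝕜 := ℝ) (q - σ) (q + σ)).prod (convex_Icc (𝕜 := ℝ) (p - ρ) (p + ρ))
    have e : {z : ℝ × ℝ | z.2 ∈ Icc (p - ρ) (p + ρ) ∧ z.1 ∈ Icc (q - σ) (q + σ)} =
        Icc (q - σ) (q + σ) ×ˢ Icc (p - ρ) (p + ρ) := by
      ext z
      simp only [mem_setOf_eq, mem_prod]
      tauto
    rw [e]
    exact this
  rcases b with ⟨k, p, q, ρ, σ⟩
  match k with
  | 0 => exact h1 _ _ _ _
  | 1 => exact h1 _ _ _ _
  | _ + 2 => exact h2 _ _ _ _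

def leB (a b : Int) : Bool := posB (b - a + 1)

theorem leB_iff (a b : Int) : leB a b = true ↔ a ≤ b := by
  rw [leB, posB_iff]; omega

def Box.mem (b : Box) (x y : Int) : Bool :=
  match b.k with
  | 0 => leB (b.p - b.ρ) x && leB x (b.p + b.ρ) && leB (b.q - b.σ) y && leB y (b.q + b.σ)
  | 1 => leB (b.p - b.ρ) x && leB x (b.p + b.ρ) && leB (b.q - b.σ) y && leB y (b.q + b.σ)
  | _ => leB (b.p - b.ρ) y && leB y (b.p + b.ρ) && leB (b.q - b.σ) x && leB x (b.q + b.σ)

theorem Box.mem_sound (b : Box) (x y : Int) (h : b.mem x y = true) : ((x:ℝ), (y:ℝ)) ∈ b.R := by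
  rcases b with ⟨k, p, q, ρ, σ⟩
  match k, h with
  | 0, h =>
    simp only [Box.mem, Bool.and_eq_true, leB_iff] at h
    obtain ⟨⟨⟨h1, h2⟩, h3⟩, h4⟩ := h
    refine ⟨⟨?_, ?_⟩, ⟨?_, ?_⟩⟩ <;> simp only <;> norm_cast
  | 1, h =>
    simp only [Box.mem, Bool.and_eq_true, leB_iff] at h
    obtain ⟨⟨⟨h1, h2⟩, h3⟩, h4⟩ := h
    refine ⟨⟨?_, ?_⟩, ⟨?_, ?_⟩⟩ <;> simp only <;> norm_cast
  | _ + 2, h =>
    simp only [Box.mem, Bool.and_eq_true, leB_iff] at h
    obtain ⟨⟨⟨h1, h2⟩, h3⟩, h4⟩ := h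
    refine ⟨⟨?_, ?_⟩, ⟨?_, ?_⟩⟩ <;> simp only <;> norm_cast

/-- the curve equation in scaled coordinates -/
noncomputable def F (z : ℝ × ℝ) : ℝ := ev2 G0 z.1 z.2

theorem F_analytic : AnalyticOnNhd ℝ F univ := analytic_ev2 G0

theorem F_continuous : Continuous F := by
  rw [continuous_iff_continuousAt]
  exact fun x => (F_analytic x (mem_univ x)).continuousAt

/-- `h` vanishes on the curve near `p` -/
def V (h : ℝ × ℝ → ℝ) (p : ℝ × ℝ) : Prop := ∀ᶠ p' in 𝓝 p, F p' = 0 → h p' = 0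

/-- `h` vanishes on the curve in the box -/
def W (h : ℝ × ℝ → ℝ) (b : Box) : Prop := ∀ p ∈ b.R, F p = 0 → V h p

theorem swap_analytic : AnalyticOnNhd ℝ (Prod.swap : ℝ × ℝ → ℝ × ℝ) univ := by
  intro x _
  exact analyticAt_snd.prod analyticAt_fst

theorem step {h : ℝ × ℝ → ℝ} (hh : AnalyticOnNhd ℝ h univ) {b : Box} (hb : b.ok = true)
    (h₀ : ∃ p ∈ b.R, F p = 0 ∧ V h p) : W h b := by
  obtain ⟨p₀, hp₀, hF₀, hV₀⟩ := h₀
  intro p₁ hp₁ hF₁
  rcases b with ⟨k, p, q, ρ, σ⟩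
  obtain ⟨hρ, hσ, hlo, hup, hder⟩ := boxOk_sound hb
  match k with
  | 0 =>
    exact box_lemma F h F_analytic hh hlo hup hder hp₀ hF₀ hV₀ hp₁ hF₁
  | 1 =>
    have e : ∀ z : ℝ × ℝ, ev2 (Pk 1) z.1 z.2 = 0 ↔ F z = 0 := by
      intro z; simp only [Pk, ev2_negP, neg_eq_zero]; rfl
    have := box_lemma (fun z : ℝ × ℝ => ev2 (Pk 1) z.1 z.2) h (analytic_ev2 _) hh hlo hup hder
      hp₀ ((e _).2 hF₀) (hV₀.mono fun z hz hz2 => hz ((e _).1 hz2)) hp₁ ((e _).2 hF₁)
    exact this.mono fun z hz hz2 => hz ((e _).2 hz2)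
  | n + 2 =>
    have e : ∀ z : ℝ × ℝ, ev2 (Pk (n + 2)) z.1 z.2 = 0 ↔ F z.swap = 0 := by
      intro z
      match n with
      | 0 => simp only [Pk, ev2_G2]; rfl
      | n + 1 => simp only [Pk, ev2_negP, neg_eq_zero, ev2_G2]; rfl
    have hsw : ∀ x : ℝ × ℝ, Tendsto Prod.swap (𝓝 x) (𝓝 x.swap) :=
      fun x => continuous_swap.continuousAt
    have hh' : AnalyticOnNhd ℝ (h ∘ Prod.swap) univ := by
      intro x _
      exact (hh x.swap (mem_univ _)).comp (swap_analytic x (mem_univ _))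
    have hV' : ∀ᶠ z in 𝓝 p₀.swap, ev2 (Pk (n + 2)) z.1 z.2 = 0 → (h ∘ Prod.swap) z = 0 := by
      have := (hsw p₀.swap).eventually (p := fun z => F z = 0 → h z = 0) (by simpa [V] using hV₀)
      exact this.mono fun z hz hz2 => hz ((e z).1 hz2)
    have := box_lemma (fun z : ℝ × ℝ => ev2 (Pk (n + 2)) z.1 z.2) (h ∘ Prod.swap) (analytic_ev2 _)
      hh' hlo hup hder (p₀ := p₀.swap) (p₁ := p₁.swap)
      hp₀ ((e _).2 (by simpa using hF₀)) hV' hp₁ ((e _).2 (by simpa using hF₁))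
    have h2 := (hsw p₁).eventually this
    refine h2.mono fun z hz hz2 => ?_
    have h3 := hz ((e _).2 (by simpa using hz2))
    simpa using h3

theorem evI2_eq (x y : Int) (P : List (List Int)) : ((evI2 x y P : Int) : ℝ) = ev2 P x y := by
  induction P with
  | nil => simp [evI2, ev2]
  | cons b bs ih => simp only [evI2, ev2]; push_cast; rw [ih, evI_eq]

/-- a link between two boxes: `F < 0` at the first point, `F > 0` at the second -/
def linkOk (b1 b2 : Box) (x1 y1 x2 y2 : Int) : Bool :=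
  b1.mem x1 y1 && b1.mem x2 y2 && b2.mem x1 y1 && b2.mem x2 y2 &&
    posB (-(evI2 x1 y1 G0)) && posB (evI2 x2 y2 G0)

theorem exists_root_of_signs {S : Set (ℝ × ℝ)} (hS : Convex ℝ S) {z1 z2 : ℝ × ℝ} (h1 : z1 ∈ S)
    (h2 : z2 ∈ S) (n1 : F z1 ≤ 0) (n2 : 0 ≤ F z2) : ∃ z ∈ S, F z = 0 := by
  have hpc : IsPreconnected S := hS.isPreconnected
  have := hpc.intermediate_value h1 h2 F_continuous.continuousOn
  obtain ⟨z, hz, hz0⟩ := this ⟨n1, n2⟩
  exact ⟨z, hz, hz0⟩

theorem link_sound {b1 b2 : Box} {x1 y1 x2 y2 : Int} (h : linkOk b1 b2 x1 y1 x2 y2 = true) :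
    ∃ z, z ∈ b1.R ∧ z ∈ b2.R ∧ F z = 0 := by
  simp only [linkOk, Bool.and_eq_true, posB_iff] at h
  obtain ⟨⟨⟨⟨⟨m1, m2⟩, m3⟩, m4⟩, n1⟩, n2⟩ := h
  have k1 : F ((x1:ℝ), (y1:ℝ)) ≤ 0 := by
    rw [F, ← evI2_eq]
    have : evI2 x1 y1 G0 ≤ 0 := by omega
    exact_mod_cast this
  have k2 : 0 ≤ F ((x2:ℝ), (y2:ℝ)) := by
    rw [F, ← evI2_eq]
    exact_mod_cast n2.le
  obtain ⟨z, hz, hz0⟩ := exists_root_of_signs (b1.R_convex.inter b2.R_convex)
    ⟨b1.mem_sound _ _ m1, b2.mem_sound _ _ m3⟩ ⟨b1.mem_sound _ _ m2, b2.mem_sound _ _ m4⟩ k1 k2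
  exact ⟨z, hz.1, hz.2, hz0⟩

structure Link where
  x1 : Int
  y1 : Int
  x2 : Int
  y2 : Int
  b : Box

def chainOk : Box → List Link → Bool
  | _, [] => true
  | b, l :: ls => linkOk b l.b l.x1 l.y1 l.x2 l.y2 && l.b.ok && chainOk l.b ls

def lastBox : Box → List Link → Box
  | b, [] => b
  | _, l :: ls => lastBox l.b ls

theorem chain_sound {h : ℝ × ℝ → ℝ} (hh : AnalyticOnNhd ℝ h univ) {b : Box} {ls : List Link}
    (hc : chainOk b ls = true) (hW : W h b) : W h (lastBox b ls) := by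
  induction ls generalizing b with
  | nil => exact hW
  | cons l ls ih =>
    simp only [chainOk, Bool.and_eq_true] at hc
    obtain ⟨⟨h1, h2⟩, h3⟩ := hc
    obtain ⟨z, hz1, hz2, hz3⟩ := link_sound h1
    exact ih h3 (step hh h2 ⟨z, hz2, hz3, hW z hz1 hz3⟩)

end NonMorse.Path
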