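import Pool.Agent.Helper342.Alg.PathStep

/-!
# Arithmetic of integer polynomials in two variables as coefficient lists
-/

namespace NonMorse.Path

open Set Filter Topology

def mul1 : List Int → List Int → List Int
  | [], _ => []
  | a :: as, q => addS 1 (q.map (fun y => a * y)) (0 :: mul1 as q)

theorem ev_mul1 (p q : List Int) (y : ℝ) : ev (mul1 p q) y = ev p y * ev q y := by
  induction p with
  | nil => simp [mul1, ev]
  | cons a as ih =>
    simp only [mul1, ev_addS, ev_map_mul, ev, ih]
    push_cast; ring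

def add2 : List (List Int) → List (List Int) → List (List Int)
  | [], Q => Q
  | P, [] => P
  | p :: P, q :: Q => addS 1 p q :: add2 P Q

theorem ev2_add2 (P Q : List (List Int)) (x y : ℝ) :
    ev2 (add2 P Q) x y = ev2 P x y + ev2 Q x y := by
  induction P generalizing Q with
  | nil => simp [add2, ev2]
  | cons p P ih =>
    cases Q with
    | nil => simp [add2, ev2]
    | cons q Q =>
      simp only [add2, ev2, ih, ev_addS]
      push_cast; ring

def mul2 : List (List Int) → List (List Int) → List (List Int)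
  | [], _ => []
  | p :: P, Q => add2 (Q.map (mul1 p)) ([] :: mul2 P Q)

theorem ev2_map_mul1 (p : List Int) (Q : List (List Int)) (x y : ℝ) :
    ev2 (Q.map (mul1 p)) x y = ev p y * ev2 Q x y := by
  induction Q with
  | nil => simp [ev2]
  | cons q Q ih => simp only [List.map_cons, ev2, ev_mul1, ih]; ring

theorem ev2_mul2 (P Q : List (List Int)) (x y : ℝ) :
    ev2 (mul2 P Q) x y = ev2 P x y * ev2 Q x y := by
  induction P with
  | nil => simp [mul2, ev2]
  | cons p P ih =>
    simp only [mul2, ev2_add2, ev2_map_mul1, ev2, ih, ev]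
    ring

def sub2 (P Q : List (List Int)) : List (List Int) := add2 P (negP Q)

theorem ev2_sub2 (P Q : List (List Int)) (x y : ℝ) :
    ev2 (sub2 P Q) x y = ev2 P x y - ev2 Q x y := by
  rw [sub2, ev2_add2, ev2_negP]; ring

def pow2 (P : List (List Int)) : Nat → List (List Int)
  | 0 => [[1]]
  | n + 1 => mul2 (pow2 P n) P

theorem ev2_pow2 (P : List (List Int)) (n : Nat) (x y : ℝ) :
    ev2 (pow2 P n) x y = ev2 P x y ^ n := by
  induction n with
  | zero => simp [pow2, ev2, ev]
  | succ n ih => simp only [pow2, ev2_mul2, ih, pow_succ]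

def cst (n : Int) : List (List Int) := [[n]]
def pT : List (List Int) := [[], [1]]
def pS : List (List Int) := [[0, 1]]

theorem ev2_cst (n : Int) (x y : ℝ) : ev2 (cst n) x y = n := by simp [cst, ev2, ev]
theorem ev2_pT (x y : ℝ) : ev2 pT x y = x := by simp [pT, ev2, ev]
theorem ev2_pS (x y : ℝ) : ev2 pS x y = y := by simp [pS, ev2, ev]

def isZ : Int → Bool
  | .ofNat n => Nat.beq n 0
  | .negSucc _ => false

theorem isZ_iff (a : Int) : isZ a = true ↔ a = 0 := by
  cases a with
  | ofNat n =>
    cases n with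
    | zero => simp [isZ]
    | succ n =>
      constructor
      · intro h; simp [isZ] at h
      · intro h; simp at h; omega
  | negSucc n =>
    constructor
    · intro h; simp [isZ] at h
    · intro h; simp at h

def allZ : List (List Int) → Bool
  | [] => true
  | r :: rs => r.all isZ && allZ rs

theorem ev_zero_of {p : List Int} (h : p.all isZ = true) (y : ℝ) : ev p y = 0 := by
  induction p with
  | nil => simp [ev]
  | cons a as ih =>
    simp only [List.all_cons, Bool.and_eq_true] at h
    simp only [ev, (isZ_iff a).1 h.1, ih h.2]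
    simp

theorem ev2_zero_of {P : List (List Int)} (h : allZ P = true) (x y : ℝ) : ev2 P x y = 0 := by
  induction P with
  | nil => simp [ev2]
  | cons r rs ih =>
    simp only [allZ, Bool.and_eq_true] at h
    simp only [ev2, ev_zero_of h.1, ih h.2]
    simp

theorem ev2_congr {P Q : List (List Int)} (h : allZ (sub2 P Q) = true) (x y : ℝ) :
    ev2 P x y = ev2 Q x y := by
  have := ev2_zero_of h x y
  rw [ev2_sub2] at this
  linarith

/-! scaling with rows of different lengths -/

def pscaleU (K : Int) (m : Nat) : List (List Int) → List (List Int)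
  | [] => []
  | r :: rs => (pscale K r).map (fun c => c * (K ^ (m - r.length) * K ^ (rs.length + 1))) ::
      pscaleU K m rs

def lenOk (m : Nat) : List (List Int) → Bool
  | [] => true
  | r :: rs => Nat.ble r.length m && lenOk m rs

theorem ev2_pscaleU (K : Int) (m : ℕ) (P : List (List Int)) (hP : lenOk m P = true) (x y : ℝ) :
    ev2 (pscaleU K m P) (K * x) (K * y) = K ^ P.length * K ^ m * ev2 P x y := by
  induction P with
  | nil => simp [pscaleU, ev2]
  | cons r rs ih =>
    simp only [lenOk, Bool.and_eq_true, Nat.ble_eq] at hP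
    obtain ⟨h1, h2⟩ := hP
    obtain ⟨d, hd⟩ := Nat.exists_eq_add_of_le h1
    have e : m - r.length = d := by omega
    simp only [pscaleU, ev2, List.length_cons, ev_map_mul_right, ev_pscale, ih h2, e]
    rw [hd]
    push_cast
    ring

/-! positivity on a box -/

def rowsA (ρ σ : Int) : List (List Int) → Int
  | [] => 0
  | r :: rs => absSum σ r + ρ * rowsA ρ σ rs

theorem abs_ev2_le' {ρ σ : Int} (hρ : 0 ≤ ρ) (hσ : 0 ≤ σ) (P : List (List Int)) {u w : ℝ}
    (hu : |u| ≤ ρ) (hw : |w| ≤ σ) : |ev2 P u w| ≤ rowsA ρ σ P := by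
  induction P with
  | nil => simp [ev2, rowsA]
  | cons b bs ih =>
    simp only [ev2, rowsA]
    push_cast
    have h1 := abs_ev_le hσ b hw
    have h2 : |u * ev2 bs u w| ≤ ρ * rowsA ρ σ bs := by
      rw [abs_mul]
      exact mul_le_mul hu ih (abs_nonneg _) (by exact_mod_cast hρ)
    exact (abs_add_le _ _).trans (add_le_add h1 h2)

def posCore (ρ σ : Int) : List (List Int) → Bool
  | (e :: es) :: rest => posB (e - σ * absSum σ es - ρ * rowsA ρ σ rest)
  | _ => false

def posOn (P : List (List Int)) (p q ρ σ : Int) : Bool :=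
  leB 0 ρ && leB 0 σ && posCore ρ σ (shift2 p q P)

theorem posCore_sound {ρ σ : Int} (hρ : 0 ≤ ρ) (hσ : 0 ≤ σ) (E : List (List Int))
    (h : posCore ρ σ E = true) {u w : ℝ} (hu : |u| ≤ ρ) (hw : |w| ≤ σ) : 0 < ev2 E u w := by
  match E, h with
  | (e :: es) :: rest, h =>
    simp only [posCore, posB_iff] at h
    have h' : (0:ℝ) < e - σ * absSum σ es - ρ * rowsA ρ σ rest := by exact_mod_cast h
    simp only [ev2, ev]
    have h1 : |w * ev es w| ≤ σ * absSum σ es := by
      rw [abs_mul]
      exact mul_le_mul hw (abs_ev_le hσ _ hw) (abs_nonneg _) (by exact_mod_cast hσ)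
    have h2 : |u * ev2 rest u w| ≤ ρ * rowsA ρ σ rest := by
      rw [abs_mul]
      exact mul_le_mul hu (abs_ev2_le' hρ hσ rest hu hw) (abs_nonneg _) (by exact_mod_cast hρ)
    have h3 := neg_abs_le (w * ev es w)
    have h4 := neg_abs_le (u * ev2 rest u w)
    linarith

theorem posOn_sound {P : List (List Int)} {p q ρ σ : Int} (h : posOn P p q ρ σ = true) {x y : ℝ}
    (hx : x ∈ Icc ((p:ℝ) - ρ) (p + ρ)) (hy : y ∈ Icc ((q:ℝ) - σ) (q + σ)) : 0 < ev2 P x y := by
  simp only [posOn, Bool.and_eq_true, leB_iff] at h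
  obtain ⟨⟨hρ, hσ⟩, h⟩ := h
  have hx' : |x - p| ≤ ρ := by rw [abs_le]; constructor <;> linarith [hx.1, hx.2]
  have hy' : |y - q| ≤ σ := by rw [abs_le]; constructor <;> linarith [hy.1, hy.2]
  have := posCore_sound hρ hσ _ h hx' hy'
  rw [ev2_shift2] at this
  convert this using 2 <;> ring

end NonMorse.Path
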