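import Pool.Agent.Helper342.Alg.PathPoly
import Pool.Agent.Helper342.Alg.PathData
import Pool.Agent.Helper342.Alg.Equiv
import Pool.Agent.Helper342.Alg.Kite
import Mathlib.Analysis.Analytic.Polynomial

/-!
# The start of the path
-/

namespace NonMorse

open Set Filter Topology NonMorse.Path

theorem masses_pos (t s : ℝ) (ht : 0 < t) (hts : t < s) (hs : s < 1) (h1 : s * (1 - t ^ 2) < 2 * t)
    (h2 : 4 * t < 1 + t ^ 2) (h3 : 1 + s ^ 2 < 4 * s) :
    0 < M1 t s ∧ 0 < M3 t s ∧ 0 < M4 t s := by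
  have hs0 : 0 < s := ht.trans hts
  have hAt : 0 < pA t := by unfold pA; positivity
  have hAs : 0 < pA s := by unfold pA; positivity
  have hpd : 0 < pd t s := by
    have : pd t s = 2 * (s - t) * (1 + t * s) := by unfold pd; ring
    rw [this]
    exact mul_pos (mul_pos two_pos (sub_pos.2 hts)) (by positivity)
  have hX : pd t s ^ 3 - (2 * t) ^ 3 * pA s ^ 3 < 0 := by
    have h4 : pd t s < 2 * t * pA s := by unfold pd pA; nlinarith
    have h5 : pd t s ^ 3 < (2 * t * pA s) ^ 3 := pow_lt_pow_left₀ h4 hpd.le (by norm_num)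
    have h6 : (2 * t * pA s) ^ 3 = (2 * t) ^ 3 * pA s ^ 3 := by ring
    rw [h6] at h5
    linarith
  have hY : pd t s ^ 3 - (2 * s) ^ 3 * pA t ^ 3 < 0 := by
    have h4 : pd t s < 2 * s * pA t := by
      unfold pd pA
      have : 0 < 2 * t * (1 - s ^ 2) := by
        have : s ^ 2 < 1 := by nlinarith
        have : 0 < 1 - s ^ 2 := by linarith
        positivity
      have : 0 < 4 * s * t ^ 2 := by positivity
      nlinarith
    have h5 : pd t s ^ 3 < (2 * s * pA t) ^ 3 := pow_lt_pow_left₀ h4 hpd.le (by norm_num)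
    have h6 : (2 * s * pA t) ^ 3 = (2 * s) ^ 3 * pA t ^ 3 := by ring
    rw [h6] at h5
    linarith
  have hXY := mul_pos_of_neg_of_neg hY hX
  have hs3 : pA s ^ 3 - 8 * (2 * s) ^ 3 < 0 := by
    have h4 : pA s < 4 * s := by unfold pA; exact h3
    have h5 : pA s ^ 3 < (4 * s) ^ 3 := pow_lt_pow_left₀ h4 hAs.le (by norm_num)
    have h6 : (4 * s) ^ 3 = 8 * (2 * s) ^ 3 := by ring
    rw [h6] at h5
    linarith
  have ht3 : 0 < pA t ^ 3 - 8 * (2 * t) ^ 3 := by
    have h4 : 4 * t < pA t := by unfold pA; exact h2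
    have h5 : (4 * t) ^ 3 < pA t ^ 3 := pow_lt_pow_left₀ h4 (by positivity) (by norm_num)
    have h6 : (4 * t) ^ 3 = 8 * (2 * t) ^ 3 := by ring
    rw [h6] at h5
    linarith
  have hs2 : 0 < 1 - s ^ 2 := by nlinarith
  have ht2 : 0 < 1 - t ^ 2 := by nlinarith
  refine ⟨?_, ?_, ?_⟩
  · have e : M1 t s = (8 * (2 * t) ^ 2 * (2 * s) ^ 2 * pA t ^ 3 * pA s ^ 3) *
        ((pd t s ^ 3 - (2 * s) ^ 3 * pA t ^ 3) * (pd t s ^ 3 - (2 * t) ^ 3 * pA s ^ 3)) := by
      unfold M1; ring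
    rw [e]
    exact mul_pos (by positivity) hXY
  · have e : M3 t s = (2 * (1 - s ^ 2) * pd t s ^ 2 * (2 * s) ^ 2 * pA t ^ 6) *
        ((pA s ^ 3 - 8 * (2 * s) ^ 3) * (pd t s ^ 3 - (2 * t) ^ 3 * pA s ^ 3)) := by
      unfold M3; ring
    rw [e]
    exact mul_pos (by positivity) (mul_pos_of_neg_of_neg hs3 hX)
  · have e : M4 t s = (2 * (1 - t ^ 2) * pd t s ^ 2 * (2 * t) ^ 2 * pA s ^ 6 *
        (pA t ^ 3 - 8 * (2 * t) ^ 3)) * (-(pd t s ^ 3 - (2 * s) ^ 3 * pA t ^ 3)) := by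
      unfold M4; ring
    rw [e]
    exact mul_pos (mul_pos (by positivity) ht3) (by linarith)

/-- the genuine starting root -/
theorem start_root : ∃ p ∈ b0.R, F p = 0 ∧ p.2 = 508 ∧ 259 ≤ p.1 ∧ p.1 ≤ 260 := by
  have h1 : posB (-(evI2 259 508 G0)) = true := by decide +kernel
  have h2 : posB (evI2 260 508 G0) = true := by decide +kernel
  rw [posB_iff] at h1 h2
  have k1 : F (259, 508) ≤ 0 := by
    have := evI2_eq 259 508 G0
    push_cast at this
    rw [F, ← this]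
    have : evI2 259 508 G0 ≤ 0 := by omega
    exact_mod_cast this
  have k2 : 0 ≤ F (260, 508) := by
    have := evI2_eq 260 508 G0
    push_cast at this
    rw [F, ← this]
    exact_mod_cast h2.le
  have hS : Convex ℝ (Icc (259:ℝ) 260 ×ˢ {(508:ℝ)}) := (convex_Icc 259 260).prod (convex_singleton _)
  obtain ⟨z, hz, hz0⟩ := exists_root_of_signs hS (z1 := (259, 508)) (z2 := (260, 508))
    ⟨by norm_num, rfl⟩ ⟨by norm_num, rfl⟩ k1 k2
  obtain ⟨⟨hz1, hz2⟩, hz3⟩ := hz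
  have hz3' : z.2 = 508 := hz3
  refine ⟨z, ?_, hz0, hz3', hz1, hz2⟩
  show (_ ∧ _)
  rw [hz3']
  constructor
  · constructor <;> simp only [b0] <;> norm_num
  · constructor <;> simp only [b0] <;> push_cast <;> linarith

end NonMorse
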